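import Pool.Agent.ART.StE

/-!
# The Weierstrass function near zero is determined by the two invariants
-/

set_option autoImplicit false

namespace ART

open Filter Topology

private theorem LatD_P (L : PeriodPair) (z : ℂ) :
    L.weierstrassP z = L.weierstrassPExcept 0 z + 1 / z ^ 2 := by
  have h := L.weierstrassPExcept_def 0 z
  simp only [ZeroMemClass.coe_zero, sub_zero] at h
  rw [h]
  simp

private theorem LatD_P' (L : PeriodPair) (z : ℂ) :
    L.derivWeierstrassP z = L.derivWeierstrassPExcept 0 z - 2 / z ^ 3 := by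
  have h := L.derivWeierstrassPExcept_def 0 z
  simp only [ZeroMemClass.coe_zero, sub_zero] at h
  rw [h]
  ring

private theorem LatD_mem (L : PeriodPair) : ∀ᶠ z in 𝓝 (0 : ℂ), z ∈ ((L.lattice : Set ℂ) \ {0})ᶜ :=
  L.compl_lattice_sdiff_singleton_mem_nhds 0

private theorem LatD_eq (L L' : PeriodPair) (h2 : L.g₂ = L'.g₂) (h3 : L.g₃ = L'.g₃) :
    ∀ᶠ z in 𝓝[≠] (0 : ℂ),
      (z * deriv (fun w => L.weierstrassPExcept 0 w - L'.weierstrassPExcept 0 w) z) *
        (z ^ 3 * (L.derivWeierstrassPExcept 0 z + L'.derivWeierstrassPExcept 0 z) - 4) =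
      (L.weierstrassPExcept 0 z - L'.weierstrassPExcept 0 z) *
        (4 * ((z ^ 2 * L.weierstrassPExcept 0 z + 1) ^ 2 +
          (z ^ 2 * L.weierstrassPExcept 0 z + 1) * (z ^ 2 * L'.weierstrassPExcept 0 z + 1) +
          (z ^ 2 * L'.weierstrassPExcept 0 z + 1) ^ 2) - L.g₂ * z ^ 4) := by
  have hm := (LatD_mem L).filter_mono (nhdsWithin_le_nhds (s := {0}ᶜ))
  have hm' := (LatD_mem L').filter_mono (nhdsWithin_le_nhds (s := {0}ᶜ))
  filter_upwards [hm, hm', self_mem_nhdsWithin] with z hz hz' hz0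
  have hz0 : z ≠ 0 := hz0
  have hn : z ∉ L.lattice := fun h => hz ⟨h, hz0⟩
  have hn' : z ∉ L'.lattice := fun h => hz' ⟨h, hz0⟩
  have e1 := L.derivWeierstrassP_sq z hn
  have e2 := L'.derivWeierstrassP_sq z hn'
  have d1 : deriv (L.weierstrassPExcept 0) z = L.derivWeierstrassPExcept 0 z :=
    L.eqOn_deriv_weierstrassPExcept_derivWeierstrassPExcept 0 hz
  have d2 : deriv (L'.weierstrassPExcept 0) z = L'.derivWeierstrassPExcept 0 z :=
    L'.eqOn_deriv_weierstrassPExcept_derivWeierstrassPExcept 0 hz'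
  have a1 : DifferentiableAt ℂ (L.weierstrassPExcept 0) z :=
    (L.analyticOnNhd_weierstrassPExcept 0 z hz).differentiableAt
  have a2 : DifferentiableAt ℂ (L'.weierstrassPExcept 0) z :=
    (L'.analyticOnNhd_weierstrassPExcept 0 z hz').differentiableAt
  rw [deriv_fun_sub a1 a2, d1, d2]
  rw [LatD_P, LatD_P'] at e1 e2
  rw [← h2, ← h3] at e2
  generalize L.weierstrassPExcept 0 z = u at *
  generalize L'.weierstrassPExcept 0 z = v at *
  generalize L.derivWeierstrassPExcept 0 z = u' at *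
  generalize L'.derivWeierstrassPExcept 0 z = v' at *
  have e3 : (u' - v') * (u' + v' - 4 / z ^ 3) = (u - v) *
      (4 * ((u + 1 / z ^ 2) ^ 2 + (u + 1 / z ^ 2) * (v + 1 / z ^ 2) + (v + 1 / z ^ 2) ^ 2)
        - L.g₂) := by
    linear_combination e1 - e2
  have e4 : z ^ 4 * ((u' - v') * (u' + v' - 4 / z ^ 3)) =
      z * (u' - v') * (z ^ 3 * (u' + v') - 4) := by
    field_simp
  have e5 : z ^ 4 * ((u - v) *
      (4 * ((u + 1 / z ^ 2) ^ 2 + (u + 1 / z ^ 2) * (v + 1 / z ^ 2) + (v + 1 / z ^ 2) ^ 2)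
        - L.g₂)) = (u - v) * (4 * ((z ^ 2 * u + 1) ^ 2 + (z ^ 2 * u + 1) * (z ^ 2 * v + 1) +
          (z ^ 2 * v + 1) ^ 2) - L.g₂ * z ^ 4) := by
    field_simp
  rw [← e4, e3, e5]

/-- The Weierstrass function near zero is determined by the two invariants. -/
theorem thm_LatD : St_LatD := by
  intro L L' h2 h3
  set D : ℂ → ℂ := fun w => L.weierstrassPExcept 0 w - L'.weierstrassPExcept 0 w with hD
  have hu := L.analyticAt_weierstrassPExcept 0
  have hv := L'.analyticAt_weierstrassPExcept 0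
  have hu' := L.analyticAt_derivWeierstrassPExcept 0
  have hv' := L'.analyticAt_derivWeierstrassPExcept 0
  have hDa : AnalyticAt ℂ D 0 := hu.sub hv
  have key : ∀ᶠ z in 𝓝 (0 : ℂ), D z = 0 := by
    by_contra hne
    rw [← hDa.exists_eventuallyEq_pow_smul_nonzero_iff] at hne
    obtain ⟨n, h, ha, h0, hz⟩ := hne
    have hz1 : D =ᶠ[𝓝 0] fun z => z ^ n * h z := by
      filter_upwards [hz] with z hz
      simpa using hz
    have hd1 : ∀ᶠ z in 𝓝 (0 : ℂ), deriv D z = n * z ^ (n - 1) * h z + z ^ n * deriv h z := by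
      filter_upwards [hz1.deriv, ha.eventually_analyticAt] with z hz haz
      rw [hz, deriv_fun_mul (by fun_prop) haz.differentiableAt]
      simp
    have hE := LatD_eq L L' h2 h3
    have hF : ∀ᶠ z in 𝓝[≠] (0 : ℂ),
        (n * h z + z * deriv h z) *
          (z ^ 3 * (L.derivWeierstrassPExcept 0 z + L'.derivWeierstrassPExcept 0 z) - 4) =
        h z * (4 * ((z ^ 2 * L.weierstrassPExcept 0 z + 1) ^ 2 +
          (z ^ 2 * L.weierstrassPExcept 0 z + 1) * (z ^ 2 * L'.weierstrassPExcept 0 z + 1) +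
          (z ^ 2 * L'.weierstrassPExcept 0 z + 1) ^ 2) - L.g₂ * z ^ 4) := by
      filter_upwards [hE, hd1.filter_mono nhdsWithin_le_nhds,
        hz1.filter_mono nhdsWithin_le_nhds, self_mem_nhdsWithin] with z h1 h2 h3 h4
      have h4 : z ≠ 0 := h4
      have h5 : z ^ n ≠ 0 := pow_ne_zero n h4
      apply mul_left_cancel₀ h5
      have h6 : z * deriv D z = z ^ n * (n * h z + z * deriv h z) := by
        rw [h2]
        rcases n with _ | n
        · simp
        · simp only [Nat.add_sub_cancel, pow_succ]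
          ring
      have h1' : (z * deriv D z) *
        (z ^ 3 * (L.derivWeierstrassPExcept 0 z + L'.derivWeierstrassPExcept 0 z) - 4) =
        D z * (4 * ((z ^ 2 * L.weierstrassPExcept 0 z + 1) ^ 2 +
          (z ^ 2 * L.weierstrassPExcept 0 z + 1) * (z ^ 2 * L'.weierstrassPExcept 0 z + 1) +
          (z ^ 2 * L'.weierstrassPExcept 0 z + 1) ^ 2) - L.g₂ * z ^ 4) := h1
      rw [h6, h3] at h1'
      rw [← mul_assoc, ← mul_assoc]
      exact h1'
    have c1 : ContinuousAt (fun z => (n * h z + z * deriv h z) *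
          (z ^ 3 * (L.derivWeierstrassPExcept 0 z + L'.derivWeierstrassPExcept 0 z) - 4)) 0 := by
      have c1 := ha.continuousAt
      have c2 := ha.deriv.continuousAt
      have c3 := hu'.continuousAt
      have c4 := hv'.continuousAt
      fun_prop
    have c2 : ContinuousAt (fun z => h z * (4 * ((z ^ 2 * L.weierstrassPExcept 0 z + 1) ^ 2 +
          (z ^ 2 * L.weierstrassPExcept 0 z + 1) * (z ^ 2 * L'.weierstrassPExcept 0 z + 1) +
          (z ^ 2 * L'.weierstrassPExcept 0 z + 1) ^ 2) - L.g₂ * z ^ 4)) 0 := by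
      have c1 := ha.continuousAt
      have c3 := hu.continuousAt
      have c4 := hv.continuousAt
      fun_prop
    have l1 := c1.tendsto.mono_left (nhdsWithin_le_nhds (s := {0}ᶜ))
    have l2 := c2.tendsto.mono_left (nhdsWithin_le_nhds (s := {0}ᶜ))
    have l3 := tendsto_nhds_unique (l1.congr' hF) l2
    simp only [ne_eq, OfNat.ofNat_ne_zero, not_false_eq_true, zero_pow, zero_mul, add_zero,
      zero_add, zero_sub, mul_zero, sub_zero, one_pow, mul_one] at l3
    have l4 : h 0 * ((n : ℂ) + 3) = 0 := by linear_combination (-1 / 4) * l3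
    rcases mul_eq_zero.mp l4 with h5 | h5
    · exact h0 h5
    · have : ((n + 3 : ℕ) : ℂ) = 0 := by push_cast; exact h5
      rw [Nat.cast_eq_zero] at this
      omega
  filter_upwards [key] with z hz
  rw [LatD_P, LatD_P]
  have : L.weierstrassPExcept 0 z = L'.weierstrassPExcept 0 z := sub_eq_zero.mp hz
  rw [this]

end ART
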