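import Pool.Agent.ART.StE

/-!
# ART, LatS: multiples and conjugates of lattices
-/

set_option autoImplicit false

namespace ART

open scoped ComplexConjugate Classical

/-- The lattices are related by the bijection `e`, with `f (e l) = g (f l)` for the summands. -/
private theorem LatS_tsum (L L' : PeriodPair) (e : ℂ ≃ ℂ)
    (h : ∀ x, x ∈ L'.lattice ↔ e.symm x ∈ L.lattice) (n : ℕ) :
    L'.G n = ∑' l : L.lattice, ((e (l : ℂ)) ^ n)⁻¹ := by
  let E : L.lattice ≃ L'.lattice :=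
    { toFun := fun l => ⟨e l, (h _).2 (by rw [e.symm_apply_apply]; exact l.2)⟩
      invFun := fun l => ⟨e.symm l, (h _).1 l.2⟩
      left_inv := fun l => by
        apply Subtype.ext
        exact e.symm_apply_apply _
      right_inv := fun l => by
        apply Subtype.ext
        exact e.apply_symm_apply _ }
  unfold PeriodPair.G
  rw [← E.tsum_eq]
  rfl

private theorem LatS_mul (L : PeriodPair) (μ : ℂ) (hμ : μ ≠ 0) : ∃ L' : PeriodPair,
    L'.ω₁ = μ * L.ω₁ ∧ L'.ω₂ = μ * L.ω₂ ∧ L'.g₂ = (μ ^ 4)⁻¹ * L.g₂ ∧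
    L'.g₃ = (μ ^ 6)⁻¹ * L.g₃ ∧ ∀ x, x ∈ L'.lattice ↔ μ⁻¹ * x ∈ L.lattice := by
  have hind : LinearIndependent ℝ ![μ * L.ω₁, μ * L.ω₂] := by
    have h1 := L.indep.map' (LinearMap.mulLeft ℝ μ) (by
      rw [LinearMap.ker_eq_bot]
      intro x y hxy
      exact mul_left_cancel₀ hμ hxy)
    have h2 : (LinearMap.mulLeft ℝ μ : ℂ →ₗ[ℝ] ℂ) ∘ ![L.ω₁, L.ω₂] = ![μ * L.ω₁, μ * L.ω₂] := by
      funext i
      fin_cases i <;> simp
    rw [h2] at h1
    exact h1
  have hmem : ∀ x, x ∈ (PeriodPair.mk _ _ hind).lattice ↔ μ⁻¹ * x ∈ L.lattice := by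
    intro x
    rw [PeriodPair.mem_lattice, PeriodPair.mem_lattice]
    refine exists_congr fun m => exists_congr fun n => ?_
    rw [eq_inv_mul_iff_mul_eq₀ hμ]
    constructor
    · intro h
      rw [← h]
      ring
    · intro h
      rw [← h]
      ring
  have hG : ∀ n, (PeriodPair.mk _ _ hind).G n = (μ ^ n)⁻¹ * L.G n := by
    intro n
    rw [LatS_tsum L (PeriodPair.mk _ _ hind) (Equiv.mulLeft₀ μ hμ) (fun x => by
      rw [hmem x]; rfl) n]
    unfold PeriodPair.G
    rw [← tsum_mul_left]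
    refine tsum_congr fun l => ?_
    have h3 : (Equiv.mulLeft₀ μ hμ) (l : ℂ) = μ * l := rfl
    rw [h3, mul_pow, mul_inv]
  refine ⟨PeriodPair.mk _ _ hind, rfl, rfl, ?_, ?_, hmem⟩
  · unfold PeriodPair.g₂
    rw [hG]
    ring
  · unfold PeriodPair.g₃
    rw [hG]
    ring

private theorem LatS_conj (L : PeriodPair) : ∃ L' : PeriodPair, L'.ω₁ = conj L.ω₁ ∧
    L'.ω₂ = conj L.ω₂ ∧ L'.g₂ = conj L.g₂ ∧ L'.g₃ = conj L.g₃ ∧
    ∀ x, x ∈ L'.lattice ↔ conj x ∈ L.lattice := by
  have hind : LinearIndependent ℝ ![conj L.ω₁, conj L.ω₂] := by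
    have h1 := L.indep.map' Complex.conjAe.toLinearMap (by
      rw [LinearMap.ker_eq_bot]
      exact Complex.conjAe.injective)
    have h2 : (Complex.conjAe.toLinearMap : ℂ →ₗ[ℝ] ℂ) ∘ ![L.ω₁, L.ω₂] =
        ![conj L.ω₁, conj L.ω₂] := by
      funext i
      fin_cases i <;> simp
    rw [h2] at h1
    exact h1
  have hmem : ∀ x, x ∈ (PeriodPair.mk _ _ hind).lattice ↔ conj x ∈ L.lattice := by
    intro x
    rw [PeriodPair.mem_lattice, PeriodPair.mem_lattice]
    refine exists_congr fun m => exists_congr fun n => ?_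
    constructor
    · intro h
      have h2 := congrArg (starRingEnd ℂ) h
      simpa using h2
    · intro h
      have h2 := congrArg (starRingEnd ℂ) h
      simpa using h2
  have hG : ∀ n, (PeriodPair.mk _ _ hind).G n = conj (L.G n) := by
    intro n
    rw [LatS_tsum L (PeriodPair.mk _ _ hind) Complex.conjAe.toEquiv (fun x => by
      rw [hmem x]; rfl) n]
    unfold PeriodPair.G
    rw [Complex.conj_tsum]
    refine tsum_congr fun l => ?_
    simp
  refine ⟨PeriodPair.mk _ _ hind, rfl, rfl, ?_, ?_, hmem⟩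
  · unfold PeriodPair.g₂
    rw [hG, map_mul]
    congr 1
    exact (Complex.conj_ofNat 60).symm
  · unfold PeriodPair.g₃
    rw [hG, map_mul]
    congr 1
    exact (Complex.conj_ofNat 140).symm

theorem thm_LatS : St_LatS := ⟨LatS_mul, LatS_conj⟩

end ART
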