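import Pool.Agent.ART.StE

/-!
# ART [LatU]: the lattice is determined by `g₂, g₃`
-/

set_option autoImplicit false

namespace ART

open scoped ComplexConjugate Classical
open Filter Topology Set

private theorem LatU_countable (L : PeriodPair) : (L.lattice : Set ℂ).Countable := by
  have h : Countable L.lattice := Countable.of_equiv _ L.latticeEquivProd.toEquiv.symm
  exact Set.countable_coe_iff.1 h

private theorem LatU_ne (L : PeriodPair) (l : ℂ) : ∀ᶠ z in 𝓝[≠] l, z ∉ L.lattice := by
  have h1 := L.compl_lattice_sdiff_singleton_mem_nhds l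
  rw [eventually_nhdsWithin_iff]
  filter_upwards [h1] with z hz hzl hzL
  exact hz ⟨hzL, hzl⟩

private theorem LatU_le (L L' : PeriodPair)
    (h : ∀ᶠ z in nhds (0 : ℂ), L.weierstrassP z = L'.weierstrassP z) :
    L.lattice ≤ L'.lattice := by
  intro l hl
  by_contra hl'
  let Ω : Set ℂ := ((L.lattice : Set ℂ) ∪ (L'.lattice : Set ℂ))ᶜ
  have hΩ : IsPreconnected Ω := by
    have h1 : 1 < Module.rank ℝ ℂ := by
      rw [Complex.rank_real_complex]
      norm_num
    exact (((LatU_countable L).union (LatU_countable L')).isPathConnected_compl_of_one_lt_rank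
      h1).isConnected.isPreconnected
  have ha : AnalyticOnNhd ℂ L.weierstrassP Ω :=
    L.analyticOnNhd_weierstrassP.mono fun z hz hzL => hz (Or.inl hzL)
  have ha' : AnalyticOnNhd ℂ L'.weierstrassP Ω :=
    L'.analyticOnNhd_weierstrassP.mono fun z hz hzL => hz (Or.inr hzL)
  obtain ⟨z₀, hz₀, hz₀L, hz₀L'⟩ := ((eventually_eventually_nhds.2 h).filter_mono
    (nhdsWithin_le_nhds (s := {0}ᶜ))).and ((LatU_ne L 0).and (LatU_ne L' 0)) |>.exists
  have hz₀Ω : z₀ ∈ Ω := fun hz => hz.elim hz₀L hz₀L'
  have heq : EqOn L.weierstrassP L'.weierstrassP Ω :=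
    ha.eqOn_of_preconnected_of_eventuallyEq ha' hΩ hz₀Ω hz₀
  have hnear : L.weierstrassP =ᶠ[𝓝[≠] l] L'.weierstrassP := by
    filter_upwards [LatU_ne L l, LatU_ne L' l] with z hz hz'
    exact heq fun hzz => hzz.elim hz hz'
  have h1 := meromorphicOrderAt_congr hnear
  rw [L.order_weierstrassP l hl] at h1
  have h2 := (L'.analyticOnNhd_weierstrassP l hl').meromorphicOrderAt_nonneg
  rw [← h1] at h2
  exact absurd h2 (by decide)

/-- [LatU] The lattice is determined by `g₂, g₃`. -/
theorem thm_LatU (h : St_LatD) : St_LatU := by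
  intro L L' h2 h3
  refine le_antisymm (LatU_le L L' (h L L' h2 h3)) (LatU_le L' L ?_)
  exact h L' L h2.symm h3.symm

end ART
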