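import Pool.Agent.ART.StE

/-!
# [Area] Bases of lattices, real and imaginary periods
-/

set_option autoImplicit false

namespace ART

open scoped ComplexConjugate

private theorem Area_im (x y : ℂ) : (x * conj y).im = x.im * y.re - x.re * y.im := by
  simp [Complex.mul_im]
  ring

private theorem Area_ne (L : PeriodPair) : (L.ω₁ * conj L.ω₂).im ≠ 0 := by
  intro h
  rw [Area_im] at h
  have hi := LinearIndependent.pair_iff.1 L.indep
  have h1 := hi L.ω₂.im (-L.ω₁.im) (by
    apply Complex.ext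
    · simp
      linarith
    · simp
      ring)
  have h2 : L.ω₂.im = 0 := h1.1
  have h3 : L.ω₁.im = 0 := by simpa using h1.2
  have h4 := hi L.ω₂.re (-L.ω₁.re) (by
    apply Complex.ext
    · simp
      ring
    · simp [h2, h3])
  have h5 : L.ω₁.re = 0 := by simpa using h4.2
  have h6 := hi 1 0 (by
    apply Complex.ext
    · simp [h5]
    · simp [h3])
  exact one_ne_zero h6.1

/-- The alternating form in coordinates. -/
private theorem Area_form (L : PeriodPair) (m n m' n' : ℤ) :
    (((m : ℂ) * L.ω₁ + n * L.ω₂) * conj ((m' : ℂ) * L.ω₁ + n' * L.ω₂)).im =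
      ((m * n' - n * m' : ℤ) : ℝ) * (L.ω₁ * conj L.ω₂).im := by
  rw [Area_im, Area_im]
  push_cast
  simp
  ring

private theorem Area_det (L L' : PeriodPair) (h : L.lattice = L'.lattice) :
    ∃ m : ℤ, (L'.ω₁ * conj L'.ω₂).im = (m : ℝ) * (L.ω₁ * conj L.ω₂).im := by
  have h1 : L'.ω₁ ∈ L.lattice := h ▸ L'.ω₁_mem_lattice
  have h2 : L'.ω₂ ∈ L.lattice := h ▸ L'.ω₂_mem_lattice
  obtain ⟨m, n, h3⟩ := PeriodPair.mem_lattice.1 h1
  obtain ⟨m', n', h4⟩ := PeriodPair.mem_lattice.1 h2
  refine ⟨m * n' - n * m', ?_⟩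
  rw [← h3, ← h4]
  exact Area_form L m n m' n'

/-- Two parallel elements of the lattice. -/
private theorem Area_par (L : PeriodPair) (x y : ℂ) (hx : x ∈ L.lattice) (hy : y ∈ L.lattice)
    (hy0 : y ≠ 0) (h : (x * conj y).im = 0) : ∃ r : ℚ, x = (r : ℂ) * y := by
  obtain ⟨m, n, rfl⟩ := PeriodPair.mem_lattice.1 hx
  obtain ⟨m', n', rfl⟩ := PeriodPair.mem_lattice.1 hy
  rw [Area_form] at h
  have h1 : m * n' - n * m' = 0 := by
    rcases mul_eq_zero.1 h with h2 | h2
    · exact_mod_cast h2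
    · exact absurd h2 (Area_ne L)
  have h2 : (m : ℂ) * n' = n * m' := by
    have : m * n' = n * m' := by linarith
    exact_mod_cast this
  by_cases hm : m' = 0
  · have hn : n' ≠ 0 := by
      rintro rfl
      apply hy0
      simp [hm]
    refine ⟨n / n', ?_⟩
    have hn' : (n' : ℂ) ≠ 0 := by exact_mod_cast hn
    push_cast
    field_simp
    linear_combination L.ω₁ * h2
  · refine ⟨m / m', ?_⟩
    have hm' : (m' : ℂ) ≠ 0 := by exact_mod_cast hm
    push_cast
    field_simp
    linear_combination - L.ω₂ * h2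

theorem thm_Area : St_Area := by
  refine ⟨Area_ne, ?_, ?_⟩
  · intro L L' h
    obtain ⟨m, hm⟩ := Area_det L L' h
    obtain ⟨m', hm'⟩ := Area_det L' L h.symm
    have h1 : ((m' * m : ℤ) : ℝ) = 1 := by
      have h2 : (L.ω₁ * conj L.ω₂).im = ((m' * m : ℤ) : ℝ) * (L.ω₁ * conj L.ω₂).im := by
        conv_lhs => rw [hm', hm]
        push_cast
        ring
      have h3 := Area_ne L
      have h4 : (((m' * m : ℤ) : ℝ) - 1) * (L.ω₁ * conj L.ω₂).im = 0 := by linarith
      rcases mul_eq_zero.1 h4 with h5 | h5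
      · linarith
      · exact absurd h5 h3
    have h2 : m' * m = 1 := by exact_mod_cast h1
    have h3 : m = 1 ∨ m = -1 := by
      have : IsUnit m := IsUnit.of_mul_eq_one m' (by rw [mul_comm]; exact h2)
      exact Int.isUnit_iff.1 this
    rcases h3 with h3 | h3
    · left
      rw [hm, h3]
      simp
    · right
      rw [hm, h3]
      simp
  · intro L hL
    have hre : ∀ x ∈ L.lattice, ((2 * x.re : ℝ) : ℂ) ∈ L.lattice := by
      intro x hx
      have h1 : ((2 * x.re : ℝ) : ℂ) = x + conj x := by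
        apply Complex.ext
        · simp
          ring
        · simp
      rw [h1]
      exact add_mem hx (hL x hx)
    have him : ∀ x ∈ L.lattice, Complex.I * ((2 * x.im : ℝ) : ℂ) ∈ L.lattice := by
      intro x hx
      have h1 : Complex.I * ((2 * x.im : ℝ) : ℂ) = x - conj x := by
        apply Complex.ext
        · simp
        · simp
          ring
      rw [h1]
      exact sub_mem hx (hL x hx)
    have hne := Area_ne L
    rw [Area_im] at hne
    -- a positive real period
    obtain ⟨o₁, ho₁, hm₁⟩ : ∃ o : ℝ, 0 < o ∧ (o : ℂ) ∈ L.lattice := by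
      have key : ∀ x ∈ L.lattice, x.re ≠ 0 → ∃ o : ℝ, 0 < o ∧ (o : ℂ) ∈ L.lattice := by
        intro x hx hx0
        rcases lt_or_gt_of_ne hx0 with h | h
        · refine ⟨-(2 * x.re), by linarith, ?_⟩
          rw [Complex.ofReal_neg]
          exact neg_mem (hre x hx)
        · exact ⟨2 * x.re, by linarith, hre x hx⟩
      by_cases h1 : L.ω₁.re = 0
      · by_cases h2 : L.ω₂.re = 0
        · exfalso
          apply hne
          rw [h1, h2]
          ring
        · exact key _ L.ω₂_mem_lattice h2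
      · exact key _ L.ω₁_mem_lattice h1
    obtain ⟨o₂, ho₂, hm₂⟩ : ∃ o : ℝ, 0 < o ∧ Complex.I * (o : ℂ) ∈ L.lattice := by
      have key : ∀ x ∈ L.lattice, x.im ≠ 0 →
          ∃ o : ℝ, 0 < o ∧ Complex.I * (o : ℂ) ∈ L.lattice := by
        intro x hx hx0
        rcases lt_or_gt_of_ne hx0 with h | h
        · refine ⟨-(2 * x.im), by linarith, ?_⟩
          rw [Complex.ofReal_neg, mul_neg]
          exact neg_mem (him x hx)
        · exact ⟨2 * x.im, by linarith, him x hx⟩
      by_cases h1 : L.ω₁.im = 0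
      · by_cases h2 : L.ω₂.im = 0
        · exfalso
          apply hne
          rw [h1, h2]
          ring
        · exact key _ L.ω₂_mem_lattice h2
      · exact key _ L.ω₁_mem_lattice h1
    have hR : ∀ P : ℝ, (P : ℂ) ∈ L.lattice → ∃ r : ℚ, P = r * o₁ := by
      intro P hP
      obtain ⟨r, hr⟩ := Area_par L P o₁ hP hm₁ (by
        intro h
        have : o₁ = 0 := by exact_mod_cast h
        linarith) (by rw [Area_im]; simp)
      refine ⟨r, ?_⟩
      exact_mod_cast hr
    have hI : ∀ P : ℝ, Complex.I * P ∈ L.lattice → ∃ r : ℚ, P = r * o₂ := by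
      intro P hP
      obtain ⟨r, hr⟩ := Area_par L (Complex.I * P) (Complex.I * o₂) hP hm₂ (by
        intro h
        rcases mul_eq_zero.1 h with h | h
        · exact Complex.I_ne_zero h
        · have : o₂ = 0 := by exact_mod_cast h
          linarith) (by rw [Area_im]; simp)
      refine ⟨r, ?_⟩
      have h1 : Complex.I * (P : ℂ) = Complex.I * ((r : ℂ) * o₂) := by
        rw [hr]
        ring
      have h2 : (P : ℂ) = (r : ℂ) * o₂ := mul_left_cancel₀ Complex.I_ne_zero h1
      exact_mod_cast h2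
    refine ⟨o₁, o₂, ho₁, ho₂, hR, hI, ?_⟩
    obtain ⟨r₁, h1⟩ := hR _ (hre _ L.ω₁_mem_lattice)
    obtain ⟨r₂, h2⟩ := hR _ (hre _ L.ω₂_mem_lattice)
    obtain ⟨s₁, h3⟩ := hI _ (him _ L.ω₁_mem_lattice)
    obtain ⟨s₂, h4⟩ := hI _ (him _ L.ω₂_mem_lattice)
    refine ⟨(s₁ * r₂ - r₁ * s₂) / 4, ?_⟩
    rw [Area_im]
    have h1' : L.ω₁.re = r₁ * o₁ / 2 := by linarith
    have h2' : L.ω₂.re = r₂ * o₁ / 2 := by linarith
    have h3' : L.ω₁.im = s₁ * o₂ / 2 := by linarith
    have h4' : L.ω₂.im = s₂ * o₂ / 2 := by linarith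
    rw [h1', h2', h3', h4']
    push_cast
    ring

end ART
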