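import Pool.Agent.ART.StC

/-!
# ART, module Bij: reduction of embeddings of number fields (helper29)
-/

set_option autoImplicit false

namespace ART

open scoped ComplexConjugate
open NumberField IsDedekindDomain Polynomial

private lemma Bij_fin {L : Type} [Field L] [NumberField L] (x : 𝓞 L) (hx : x ≠ 0) :
    {w : HeightOneSpectrum (𝓞 L) | x ∈ w.asIdeal}.Finite := by
  have hI : Ideal.span {x} ≠ 0 := by
    rw [Ne, Ideal.zero_eq_bot, Ideal.span_singleton_eq_bot]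
    exact hx
  have := Ideal.finite_factors hI
  refine this.subset ?_
  intro w hw
  exact Ideal.dvd_span_singleton.mpr hw

private lemma Bij_fin2 {k L : Type} [Field k] [NumberField k] [Field L] [NumberField L]
    [Algebra k L] (x : 𝓞 L) (hx : x ≠ 0) :
    {v : HeightOneSpectrum (𝓞 k) | ∃ w ∈ ovr L v, x ∈ w.asIdeal}.Finite := by
  have h1 : {v : HeightOneSpectrum (𝓞 k) | ∃ w ∈ ovr L v, x ∈ w.asIdeal} ⊆
      ⋃ w ∈ {w : HeightOneSpectrum (𝓞 L) | x ∈ w.asIdeal},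
        {v : HeightOneSpectrum (𝓞 k) | w ∈ ovr L v} := by
    rintro v ⟨w, hw, hxw⟩
    simp only [Set.mem_iUnion, Set.mem_ofPred_eq]
    exact ⟨w, hxw, hw⟩
  refine Set.Finite.subset ((Bij_fin x hx).biUnion ?_) h1
  intro w _
  apply Set.Subsingleton.finite
  intro v hv v' hv'
  apply HeightOneSpectrum.ext
  rw [← (show w.asIdeal.comap (algebraMap (𝓞 k) (𝓞 L)) = v.asIdeal from hv),
    ← (show w.asIdeal.comap (algebraMap (𝓞 k) (𝓞 L)) = v'.asIdeal from hv')]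

/-- the bound for the number of the ring homomorphisms -/
private lemma Bij_card (k F : Type) [Field k] [NumberField k] [Field F] [NumberField F]
    [Algebra k F] (v : HeightOneSpectrum (𝓞 k)) (κ : Type) [Field κ] (g : 𝓞 k →+* κ)
    (hg : ∀ x ∈ v.asIdeal, g x = 0) :
    Finite {ψ : 𝓞 F →+* κ // ∀ x : 𝓞 k, ψ (algebraMap (𝓞 k) (𝓞 F) x) = g x} ∧
    Nat.card {ψ : 𝓞 F →+* κ // ∀ x : 𝓞 k, ψ (algebraMap (𝓞 k) (𝓞 F) x) = g x} ≤
      Module.finrank k F := by
  classical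
  haveI hmax : v.asIdeal.IsMaximal := v.isMaximal
  letI : Field (𝓞 k ⧸ v.asIdeal) := Ideal.Quotient.field v.asIdeal
  letI : Algebra (𝓞 k ⧸ v.asIdeal) κ := (Ideal.Quotient.lift v.asIdeal g hg).toAlgebra
  have hfin : Module.finrank (𝓞 k ⧸ v.asIdeal)
      (𝓞 F ⧸ v.asIdeal.map (algebraMap (𝓞 k) (𝓞 F))) = Module.finrank k F :=
    Ideal.finrank_quotient_map v.asIdeal k F
  haveI : Module.Finite (𝓞 k ⧸ v.asIdeal)
      (𝓞 F ⧸ v.asIdeal.map (algebraMap (𝓞 k) (𝓞 F))) := by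
    haveI : Module.Finite (𝓞 k) (𝓞 F ⧸ v.asIdeal.map (algebraMap (𝓞 k) (𝓞 F))) := inferInstance
    exact Module.Finite.of_restrictScalars_finite (𝓞 k) _ _
  -- the induced homomorphism
  have key : ∀ ψ : {ψ : 𝓞 F →+* κ // ∀ x : 𝓞 k, ψ (algebraMap (𝓞 k) (𝓞 F) x) = g x},
      ∀ a ∈ v.asIdeal.map (algebraMap (𝓞 k) (𝓞 F)), ψ.1 a = 0 := by
    intro ψ a ha
    have hle : v.asIdeal.map (algebraMap (𝓞 k) (𝓞 F)) ≤ RingHom.ker ψ.1 := by
      rw [Ideal.map_le_iff_le_comap]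
      intro x hx
      rw [Ideal.mem_comap, RingHom.mem_ker, ψ.2 x, hg x hx]
    exact hle ha
  let T : {ψ : 𝓞 F →+* κ // ∀ x : 𝓞 k, ψ (algebraMap (𝓞 k) (𝓞 F) x) = g x} →
      ((𝓞 F ⧸ v.asIdeal.map (algebraMap (𝓞 k) (𝓞 F))) →ₐ[𝓞 k ⧸ v.asIdeal] κ) := fun ψ =>
    { toRingHom := Ideal.Quotient.lift _ ψ.1 (key ψ)
      commutes' := by
        intro r
        obtain ⟨x, rfl⟩ := Ideal.Quotient.mk_surjective r
        exact ψ.2 x }
  have hT : Function.Injective T := by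
    intro ψ ψ' h
    apply Subtype.ext
    apply RingHom.ext
    intro x
    have := congrArg (fun f => f (Ideal.Quotient.mk _ x)) h
    exact this
  haveI hF : Finite ((𝓞 F ⧸ v.asIdeal.map (algebraMap (𝓞 k) (𝓞 F))) →ₐ[𝓞 k ⧸ v.asIdeal] κ) :=
    inferInstance
  refine ⟨Finite.of_injective T hT, ?_⟩
  refine (Nat.card_le_card_of_injective T hT).trans ?_
  have h2 := cardinalMk_algHom (𝓞 k ⧸ v.asIdeal)
    (𝓞 F ⧸ v.asIdeal.map (algebraMap (𝓞 k) (𝓞 F))) κ
  rw [Module.finrank_linearMap_self, hfin] at h2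
  have h3 : (Nat.card ((𝓞 F ⧸ v.asIdeal.map (algebraMap (𝓞 k) (𝓞 F))) →ₐ[𝓞 k ⧸ v.asIdeal] κ) :
      Cardinal) = Cardinal.mk _ := Nat.cast_card
  rw [← h3] at h2
  exact_mod_cast h2

/-- [Bij] Reduction of embeddings, for almost all primes. -/
theorem thm_Bij (_h : St_Deg) : St_Bij := by
  classical
  intro k F M _ _ _ _ _ _ _ _ _ d hd hFull
  haveI : FiniteDimensional k F := Module.Finite.of_restrictScalars_finite ℚ k F
  haveI hfinH : Finite (F →ₐ[k] M) := inferInstance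
  letI : Fintype (F →ₐ[k] M) := Fintype.ofFinite _
  -- separating elements
  have hsep : ∀ φ φ' : F →ₐ[k] M, ∃ x : 𝓞 F, φ ≠ φ' →
      RingOfIntegers.mapRingHom (φ : F →+* M) x ≠ RingOfIntegers.mapRingHom (φ' : F →+* M) x := by
    intro φ φ'
    by_contra hcon
    push Not at hcon
    have hne := (hcon 0).1
    apply hne
    apply AlgHom.ext
    intro y
    obtain ⟨a, b, hb, rfl⟩ := IsFractionRing.div_surjective (A := 𝓞 F) y
    have e1 : φ (a : F) = φ' (a : F) := congrArg (fun t : 𝓞 M => (t : M)) (hcon a).2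
    have e2 : φ (b : F) = φ' (b : F) := congrArg (fun t : 𝓞 M => (t : M)) (hcon b).2
    rw [map_div₀, map_div₀]
    exact congrArg₂ (· / ·) e1 e2
  choose X hX using hsep
  let D : 𝓞 M := ∏ φ : F →ₐ[k] M, ∏ φ' : F →ₐ[k] M, if φ = φ' then 1 else
    (RingOfIntegers.mapRingHom (φ : F →+* M) (X φ φ') -
      RingOfIntegers.mapRingHom (φ' : F →+* M) (X φ φ'))
  have hD : D ≠ 0 := by
    refine Finset.prod_ne_zero_iff.mpr fun φ _ => Finset.prod_ne_zero_iff.mpr fun φ' _ => ?_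
    split_ifs with h
    · exact one_ne_zero
    · exact sub_ne_zero.mpr (hX φ φ' h)
  refine ⟨{v | (2 : 𝓞 k) ∈ v.asIdeal} ∪ {v | (3 : 𝓞 k) ∈ v.asIdeal} ∪
    {v | ∃ w ∈ ovr F v, d ∈ w.asIdeal} ∪ {v | ∃ w ∈ ovr M v, D ∈ w.asIdeal}, ?_, ?_⟩
  · refine Set.Finite.union (Set.Finite.union (Set.Finite.union ?_ ?_) ?_) ?_
    · exact Bij_fin _ two_ne_zero
    · exact Bij_fin _ (OfNat.ofNat_ne_zero 3)
    · exact Bij_fin2 d hd
    · exact Bij_fin2 D hD
  intro v hv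
  simp only [Set.mem_union, Set.mem_ofPred_eq, not_or, not_exists, not_and] at hv
  obtain ⟨⟨⟨h2, h3⟩, hdv⟩, hDv⟩ := hv
  refine ⟨h2, h3, hdv, ?_⟩
  intro P hP
  have hDP := hDv P hP
  haveI : P.asIdeal.IsMaximal := P.isMaximal
  letI : Field (𝓞 M ⧸ P.asIdeal) := Ideal.Quotient.field P.asIdeal
  have hPv : P.asIdeal.comap (algebraMap (𝓞 k) (𝓞 M)) = v.asIdeal := hP
  set g : 𝓞 k →+* 𝓞 M ⧸ P.asIdeal :=
    (Ideal.Quotient.mk P.asIdeal).comp (algebraMap (𝓞 k) (𝓞 M)) with hg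
  have hg0 : ∀ x ∈ v.asIdeal, g x = 0 := by
    intro x hx
    rw [← hPv, Ideal.mem_comap] at hx
    exact Ideal.Quotient.eq_zero_iff_mem.mpr hx
  obtain ⟨hYf, hYc⟩ := Bij_card k F v (𝓞 M ⧸ P.asIdeal) g hg0
  let f : (F →ₐ[k] M) → {ψ : 𝓞 F →+* 𝓞 M ⧸ P.asIdeal // ∀ x : 𝓞 k,
      ψ (algebraMap (𝓞 k) (𝓞 F) x) = g x} := fun φ =>
    ⟨(Ideal.Quotient.mk P.asIdeal).comp (RingOfIntegers.mapRingHom (φ : F →+* M)), by
      intro x
      have : RingOfIntegers.mapRingHom (φ : F →+* M) (algebraMap (𝓞 k) (𝓞 F) x) =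
          algebraMap (𝓞 k) (𝓞 M) x := by
        apply RingOfIntegers.ext
        exact φ.commutes (x : k)
      rw [RingHom.comp_apply, this, hg, RingHom.comp_apply]⟩
  have hf : Function.Injective f := by
    intro φ φ' h
    by_contra hne
    apply hDP
    have h1 : (Ideal.Quotient.mk P.asIdeal)
        (RingOfIntegers.mapRingHom (φ : F →+* M) (X φ φ')) =
        (Ideal.Quotient.mk P.asIdeal)
        (RingOfIntegers.mapRingHom (φ' : F →+* M) (X φ φ')) :=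
      congrArg (fun t => t.1 (X φ φ')) h
    have h2 : RingOfIntegers.mapRingHom (φ : F →+* M) (X φ φ') -
        RingOfIntegers.mapRingHom (φ' : F →+* M) (X φ φ') ∈ P.asIdeal :=
      (Ideal.Quotient.eq).mp h1
    have h3 : (RingOfIntegers.mapRingHom (φ : F →+* M) (X φ φ') -
        RingOfIntegers.mapRingHom (φ' : F →+* M) (X φ φ')) ∣ D := by
      have e1 : (if φ = φ' then 1 else
          (RingOfIntegers.mapRingHom (φ : F →+* M) (X φ φ') -
          RingOfIntegers.mapRingHom (φ' : F →+* M) (X φ φ')) : 𝓞 M) ∣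
          ∏ φ'' : F →ₐ[k] M, if φ = φ'' then 1 else
          (RingOfIntegers.mapRingHom (φ : F →+* M) (X φ φ'') -
            RingOfIntegers.mapRingHom (φ'' : F →+* M) (X φ φ'')) :=
        Finset.dvd_prod_of_mem (fun φ'' : F →ₐ[k] M => if φ = φ'' then (1 : 𝓞 M) else
          (RingOfIntegers.mapRingHom (φ : F →+* M) (X φ φ'') -
            RingOfIntegers.mapRingHom (φ'' : F →+* M) (X φ φ''))) (Finset.mem_univ φ')
      rw [if_neg hne] at e1
      exact e1.trans (Finset.dvd_prod_of_mem (fun ψ : F →ₐ[k] M =>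
        ∏ φ'' : F →ₐ[k] M, if ψ = φ'' then (1 : 𝓞 M) else
          (RingOfIntegers.mapRingHom (ψ : F →+* M) (X ψ φ'') -
            RingOfIntegers.mapRingHom (φ'' : F →+* M) (X ψ φ''))) (Finset.mem_univ φ))
    exact Ideal.mem_of_dvd _ h3 h2
  have hb : Function.Bijective f := by
    apply hf.bijective_of_nat_card_le
    rw [hFull.1]
    exact hYc
  refine ⟨Equiv.ofBijective f hb, ?_⟩
  intro φ x y hxy
  have : RingOfIntegers.mapRingHom (φ : F →+* M) x = y := by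
    apply RingOfIntegers.ext
    exact hxy.symm
  change (Ideal.Quotient.mk P.asIdeal) (RingOfIntegers.mapRingHom (φ : F →+* M) x) = _
  rw [this]

end ART
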