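import Pool.Agent.ART.StC

/-!
# ART: a finite Galois extension containing the conjugates and the square roots
-/

set_option autoImplicit false

namespace ART

open scoped ComplexConjugate
open NumberField IsDedekindDomain Polynomial

section

variable {k F Ω : Type} [Field k] [Field F] [Field Ω] [Algebra k F] [Algebra k Ω]

/-- Homomorphisms with values in an intermediate field. -/
private noncomputable def Cl_lift (M : IntermediateField k Ω)
    (h : ∀ (φ : F →ₐ[k] Ω) (x : F), φ x ∈ M) : (F →ₐ[k] M) ≃ (F →ₐ[k] Ω) where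
  toFun φ := M.val.comp φ
  invFun φ := φ.codRestrict M.toSubalgebra (h φ)
  left_inv φ := by
    ext x
    rfl
  right_inv φ := by
    ext x
    rfl

/-- The pairs with values in an intermediate field. -/
private noncomputable def Cl_pr (M : IntermediateField k Ω)
    (h : ∀ (φ : F →ₐ[k] Ω) (x : F), φ x ∈ M) (d : F)
    (h2 : ∀ (φ : F →ₐ[k] Ω) (z : Ω), z ^ 2 = φ d → z ∈ M) : Pr k F M d ≃ Pr k F Ω d where
  toFun x := ⟨(M.val.comp x.1.1, (x.1.2 : Ω)), by
    have := congrArg (fun t : M => (t : Ω)) x.2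
    simpa using this⟩
  invFun x := ⟨((Cl_lift M h).symm x.1.1, ⟨x.1.2, h2 x.1.1 x.1.2 x.2⟩), by
    apply Subtype.ext
    exact x.2⟩
  left_inv x := by
    apply Subtype.ext
    apply Prod.ext
    · exact (Cl_lift M h).symm_apply_apply x.1.1
    · rfl
  right_inv x := by
    apply Subtype.ext
    apply Prod.ext
    · exact (Cl_lift M h).apply_symm_apply x.1.1
    · rfl

private theorem Cl_sgn (M : IntermediateField k Ω)
    (h : ∀ (φ : F →ₐ[k] Ω) (x : F), φ x ∈ M) (d : F)
    (h2 : ∀ (φ : F →ₐ[k] Ω) (z : Ω), z ^ 2 = φ d → z ∈ M)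
    (g : M ≃ₐ[k] M) (g' : Ω ≃ₐ[k] Ω) (hg : ∀ x : M, ((g x : M) : Ω) = g' (x : Ω)) :
    sgn d g = sgn d g' := by
  have hc : ∀ φ : F →ₐ[k] M, (g : M →ₐ[k] M).comp φ = φ ↔
      (g' : Ω →ₐ[k] Ω).comp (M.val.comp φ) = M.val.comp φ := by
    intro φ
    constructor
    · intro h3
      ext x
      have h4 := congrArg (fun t : F →ₐ[k] M => ((t x : M) : Ω)) h3
      have h5 : ((g (φ x) : M) : Ω) = (φ x : Ω) := h4
      rw [hg] at h5
      exact h5
    · intro h3
      ext x
      have h4 := congrArg (fun t : F →ₐ[k] Ω => t x) h3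
      have h5 : g' (φ x : Ω) = (φ x : Ω) := h4
      rw [← hg] at h5
      exact h5
  have e1 : Nat.card {x : Pr k F M d // (g : M →ₐ[k] M).comp x.1.1 = x.1.1 ∧ g x.1.2 = x.1.2} =
      Nat.card {x : Pr k F Ω d // (g' : Ω →ₐ[k] Ω).comp x.1.1 = x.1.1 ∧ g' x.1.2 = x.1.2} := by
    apply Nat.card_congr
    refine (Cl_pr M h d h2).subtypeEquiv ?_
    intro x
    refine and_congr (hc x.1.1) ?_
    show g x.1.2 = x.1.2 ↔ g' (x.1.2 : Ω) = (x.1.2 : Ω)
    rw [← hg]
    exact ⟨fun h => congrArg _ h, fun h => Subtype.ext h⟩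
  have e2 : Nat.card {x : Pr k F M d // (g : M →ₐ[k] M).comp x.1.1 = x.1.1 ∧ g x.1.2 = - x.1.2} =
      Nat.card {x : Pr k F Ω d // (g' : Ω →ₐ[k] Ω).comp x.1.1 = x.1.1 ∧ g' x.1.2 = - x.1.2} := by
    apply Nat.card_congr
    refine (Cl_pr M h d h2).subtypeEquiv ?_
    intro x
    refine and_congr (hc x.1.1) ?_
    show g x.1.2 = - x.1.2 ↔ g' (x.1.2 : Ω) = - (x.1.2 : Ω)
    rw [← hg]
    exact ⟨fun h => congrArg _ h, fun h => Subtype.ext h⟩
  unfold sgn
  rw [e1, e2]

end

theorem thm_Cl : St_Cl := by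
  intro k _ _ ι _ F _ _ _ d
  classical
  have hfin : ∀ i, FiniteDimensional k (F i) := fun i =>
    Module.Finite.of_restrictScalars_finite ℚ k (F i)
  let Ω := AlgebraicClosure k
  have hz : ∀ p : (Σ i, (F i →ₐ[k] Ω)), ∃ z : Ω, z ^ 2 = p.2 (d p.1) := fun p =>
    IsAlgClosed.exists_pow_nat_eq _ (by norm_num)
  choose z hz using hz
  have hint : ∀ x : Ω, IsIntegral k x := fun x => Algebra.IsIntegral.isIntegral x
  let L : IntermediateField k Ω := ⨆ p : (Σ i, (F i →ₐ[k] Ω)),
    (p.2.fieldRange ⊔ IntermediateField.adjoin k {z p})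
  have hLfin : FiniteDimensional k L := by
    have h1 : ∀ p : (Σ i, (F i →ₐ[k] Ω)), FiniteDimensional k
        (p.2.fieldRange ⊔ IntermediateField.adjoin k {z p} : IntermediateField k Ω) := by
      intro p
      have h2 : FiniteDimensional k p.2.fieldRange :=
        LinearMap.finiteDimensional_range p.2.toLinearMap
      have h3 : FiniteDimensional k (IntermediateField.adjoin k {z p}) :=
        IntermediateField.adjoin.finiteDimensional (hint _)
      exact IntermediateField.finiteDimensional_sup _ _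
    exact IntermediateField.finiteDimensional_iSup_of_finite
  let M : IntermediateField k Ω := IntermediateField.normalClosure k L Ω
  have hLM : L ≤ M := IntermediateField.le_normalClosure L
  have hMfin : FiniteDimensional k M := inferInstance
  have hMnor : Normal k M := inferInstance
  have h : ∀ i, ∀ (φ : F i →ₐ[k] Ω) (x : F i), φ x ∈ M := by
    intro i φ x
    apply hLM
    have h1 : (φ.fieldRange ⊔ IntermediateField.adjoin k {z ⟨i, φ⟩} : IntermediateField k Ω) ≤ L :=
      le_iSup (fun p : (Σ i, (F i →ₐ[k] Ω)) =>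
        (p.2.fieldRange ⊔ IntermediateField.adjoin k {z p} : IntermediateField k Ω)) ⟨i, φ⟩
    apply h1
    have h2 : φ.fieldRange ≤ (φ.fieldRange ⊔ IntermediateField.adjoin k {z ⟨i, φ⟩}) := le_sup_left
    exact h2 ⟨x, rfl⟩
  have h2 : ∀ i, ∀ (φ : F i →ₐ[k] Ω) (w : Ω), w ^ 2 = φ (d i) → w ∈ M := by
    intro i φ w hw
    have h3 : z ⟨i, φ⟩ ∈ M := by
      apply hLM
      have h1 : (φ.fieldRange ⊔ IntermediateField.adjoin k {z ⟨i, φ⟩} : IntermediateField k Ω) ≤ L :=
        le_iSup (fun p : (Σ i, (F i →ₐ[k] Ω)) =>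
          (p.2.fieldRange ⊔ IntermediateField.adjoin k {z p} : IntermediateField k Ω)) ⟨i, φ⟩
      apply h1
      have h2 : IntermediateField.adjoin k {z ⟨i, φ⟩} ≤
        (φ.fieldRange ⊔ IntermediateField.adjoin k {z ⟨i, φ⟩}) := le_sup_right
      exact h2 (IntermediateField.mem_adjoin_simple_self k _)
    have h4 : w ^ 2 = z ⟨i, φ⟩ ^ 2 := by rw [hw, hz]
    rcases sq_eq_sq_iff_eq_or_eq_neg.1 h4 with h5 | h5
    · rw [h5]; exact h3
    · rw [h5]; exact neg_mem h3
  refine ⟨M, inferInstance, NumberField.of_module_finite k M, inferInstance, ?_, ?_, ?_⟩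
  · exact ⟨⟩
  · intro i
    constructor
    · rw [Nat.card_congr (Cl_lift M (h i)), Nat.card_eq_fintype_card]
      exact AlgHom.card k (F i) Ω
    · intro φ
      obtain ⟨w, hw⟩ := IsAlgClosed.exists_pow_nat_eq ((φ (d i) : M) : Ω) (n := 2) (by norm_num)
      have hw2 : w ∈ M := h2 i (M.val.comp φ) w hw
      refine ⟨⟨w, hw2⟩, ?_⟩
      apply Subtype.ext
      show ((φ (d i) : M) : Ω) = w * w
      rw [← hw, sq]
  · intro g
    obtain ⟨g', hg'⟩ := AlgEquiv.restrictNormalHom_surjective (F := k) (K₁ := M) Ω g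
    refine ⟨g', fun i => Cl_sgn M (h i) (d i) (h2 i) g g' ?_⟩
    intro x
    rw [← hg']
    exact AlgEquiv.restrictNormal_commutes g' M x

end ART
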