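import Pool.Agent.ART.StC

/-!
# ART: the traces of the powers of a Frobenius element
-/

set_option autoImplicit false

namespace ART

open scoped ComplexConjugate
open NumberField IsDedekindDomain Polynomial

section abs

variable {A B C : Type} [CommRing A] [CommRing B] [CommRing C] [Algebra A B] [Algebra A C]

/-- the homomorphisms with given kernel and their invariance under Frobenius -/
private theorem Cnt_count (h3 : St_EmbF) (I : Ideal A) (J : Ideal B) (K : Ideal C)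
    [I.IsMaximal] [J.IsMaximal] [K.IsMaximal] [Finite (A ⧸ I)] [Finite (B ⧸ J)] [Finite (C ⧸ K)]
    (hJ : J.comap (algebraMap A B) = I) (hK : K.comap (algebraMap A C) = I) (f m : ℕ) (hf : 1 ≤ f)
    (hm : 1 ≤ m) (hcard : Nat.card (B ⧸ J) = Nat.card (A ⧸ I) ^ f)
    (hne : ∃ ψ : B →+* C ⧸ K, (∀ x : A, ψ (algebraMap A B x) =
      Ideal.Quotient.mk K (algebraMap A C x)) ∧ RingHom.ker ψ = J) :
    Nat.card {ψ : {ψ : B →+* C ⧸ K // ∀ x : A, ψ (algebraMap A B x) =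
      Ideal.Quotient.mk K (algebraMap A C x)} //
        (∀ x, ψ.1 x ^ Nat.card (A ⧸ I) ^ m = ψ.1 x) ∧ RingHom.ker ψ.1 = J} =
      if f ∣ m then f else 0 := by
  letI fI : Field (A ⧸ I) := Ideal.Quotient.field I
  letI fJ : Field (B ⧸ J) := Ideal.Quotient.field J
  letI fK : Field (C ⧸ K) := Ideal.Quotient.field K
  letI a1 : Algebra (A ⧸ I) (B ⧸ J) :=
    (Ideal.quotientMap J (algebraMap A B) (le_of_eq hJ.symm)).toAlgebra
  letI a2 : Algebra (A ⧸ I) (C ⧸ K) :=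
    (Ideal.quotientMap K (algebraMap A C) (le_of_eq hK.symm)).toAlgebra
  have am1 : ∀ x : A, algebraMap (A ⧸ I) (B ⧸ J) (Ideal.Quotient.mk I x) =
      Ideal.Quotient.mk J (algebraMap A B x) := fun x => rfl
  have am2 : ∀ x : A, algebraMap (A ⧸ I) (C ⧸ K) (Ideal.Quotient.mk I x) =
      Ideal.Quotient.mk K (algebraMap A C x) := fun x => rfl
  -- lifting
  let up : ∀ ψ : B →+* C ⧸ K, (∀ x : A, ψ (algebraMap A B x) =
      Ideal.Quotient.mk K (algebraMap A C x)) → RingHom.ker ψ = J →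
      ((B ⧸ J) →ₐ[A ⧸ I] (C ⧸ K)) := fun ψ h1 h2 =>
    { toRingHom := Ideal.Quotient.lift J ψ (fun b hb => by
        rw [← h2] at hb
        exact hb)
      commutes' := by
        intro r
        obtain ⟨x, rfl⟩ := Ideal.Quotient.mk_surjective r
        show Ideal.Quotient.lift J ψ _ (Ideal.Quotient.mk J (algebraMap A B x)) =
          Ideal.Quotient.mk K (algebraMap A C x)
        rw [Ideal.Quotient.lift_mk, h1] }
  have hup : ∀ ψ h1 h2 (x : B), up ψ h1 h2 (Ideal.Quotient.mk J x) = ψ x := fun ψ h1 h2 x =>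
    Ideal.Quotient.lift_mk _ _ _
  obtain ⟨ψ₀, hψ₀, hk₀⟩ := hne
  have key := h3.1 (A ⧸ I) (B ⧸ J) (C ⧸ K) f m hf hm hcard ⟨up ψ₀ hψ₀ hk₀⟩
  rw [← key]
  refine Nat.card_congr ?_
  refine
    { toFun := fun ψ => ⟨up ψ.1.1 ψ.1.2 ψ.2.2, fun x => ?_⟩
      invFun := fun ψ => ⟨⟨(ψ.1 : (B ⧸ J) →+* (C ⧸ K)).comp (Ideal.Quotient.mk J), fun x => ?_⟩,
        fun x => ψ.2 _, ?_⟩
      left_inv := fun ψ => ?_
      right_inv := fun ψ => ?_ }
  · obtain ⟨y, rfl⟩ := Ideal.Quotient.mk_surjective x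
    rw [hup ψ.1.1 ψ.1.2 ψ.2.2 y]
    exact ψ.2.1 y
  · show ψ.1 (Ideal.Quotient.mk J (algebraMap A B x)) = _
    rw [← am1, AlgHom.commutes, am2]
  · rw [← RingHom.comap_ker, (RingHom.injective_iff_ker_eq_bot _).1
      (ψ.1 : (B ⧸ J) →+* (C ⧸ K)).injective]
    exact Ideal.mk_ker
  · apply Subtype.ext
    apply Subtype.ext
    apply RingHom.ext
    intro x
    exact hup ψ.1.1 ψ.1.2 ψ.2.2 x
  · apply Subtype.ext
    apply AlgHom.ext
    intro x
    obtain ⟨y, rfl⟩ := Ideal.Quotient.mk_surjective x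
    rfl

/-- the sign -/
private theorem Cnt_sign (h3 : St_EmbF) (J : Ideal B) (K : Ideal C) [J.IsMaximal] [K.IsMaximal]
    [Finite (B ⧸ J)] (ψ : B →+* C ⧸ K) (hker : RingHom.ker ψ = J)
    (h2 : (2 : C ⧸ K) ≠ 0) (d : B) (hd : d ∉ J) (j : ℕ) (hj : 1 ≤ j) (z : C ⧸ K)
    (hz : z ^ 2 = ψ d) (ε : ℤ) (hε : ε = 1 ∨ ε = -1)
    (hg : z ^ Nat.card (B ⧸ J) ^ j = (ε : C ⧸ K) * z) :
    ε = chi (Ideal.Quotient.mk J d) ^ j := by
  letI fJ : Field (B ⧸ J) := Ideal.Quotient.field J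
  letI fK : Field (C ⧸ K) := Ideal.Quotient.field K
  set κ := Ideal.Quotient.lift J ψ (fun b hb => by
        rw [← hker] at hb
        exact hb) with hκ
  have hκm : ∀ x : B, κ (Ideal.Quotient.mk J x) = ψ x := fun x => Ideal.Quotient.lift_mk _ _ _
  have hd0 : Ideal.Quotient.mk J d ≠ 0 := by
    rw [Ne, Ideal.Quotient.eq_zero_iff_mem]
    exact hd
  have h2' : (2 : B ⧸ J) ≠ 0 := by
    intro h
    apply h2
    have := congrArg κ h
    rwa [map_ofNat, map_zero] at this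
  have hz0 : z ≠ 0 := by
    intro h
    rw [h, ← hκm] at hz
    have h1 : κ (Ideal.Quotient.mk J d) = 0 := by
      rw [← hz]
      ring
    exact hd0 (κ.injective (by rw [h1, map_zero]))
  have key := h3.2 (B ⧸ J) h2' (Ideal.Quotient.mk J d) j hd0 hj
  set Q := Nat.card (B ⧸ J) with hQ
  have hodd : Odd Q := by
    rw [← Nat.not_even_iff_odd]
    intro he
    apply h2'
    haveI : Fintype (B ⧸ J) := Fintype.ofFinite _
    have h3' : ((2 : ℕ) : B ⧸ J) = 0 := by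
      obtain ⟨p, hp⟩ := CharP.exists (B ⧸ J)
      haveI := hp
      haveI hpp : Fact p.Prime := ⟨CharP.char_is_prime (B ⧸ J) p⟩
      obtain ⟨n, -, hn⟩ := FiniteField.card (B ⧸ J) p
      rw [← Nat.card_eq_fintype_card, ← hQ] at hn
      rw [hn, Nat.even_pow] at he
      have hp2 : p = 2 := (Nat.Prime.even_iff hpp.out).1 he.1
      rw [← hp2]
      exact CharP.cast_eq_zero _ _
    exact_mod_cast h3'
  obtain ⟨t, ht⟩ := hodd.pow (n := j)
  have ht' : (Q ^ j - 1) / 2 = t := by omega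
  rw [ht'] at key
  have e1 : (ψ d) ^ t = (ε : C ⧸ K) := by
    have h4 : z ^ Q ^ j = (z ^ 2) ^ t * z := by
      rw [ht, pow_succ, pow_mul]
    rw [h4, hz] at hg
    exact mul_right_cancel₀ hz0 hg
  have e2 : (ψ d) ^ t = ((chi (Ideal.Quotient.mk J d) ^ j : ℤ) : C ⧸ K) := by
    rw [← hκm, ← map_pow, key, map_intCast]
  have e3 : (ε : C ⧸ K) = ((chi (Ideal.Quotient.mk J d) ^ j : ℤ) : C ⧸ K) := by rw [← e1, e2]
  have hc : chi (Ideal.Quotient.mk J d) = 1 ∨ chi (Ideal.Quotient.mk J d) = -1 := by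
    unfold chi
    rw [if_neg hd0]
    split_ifs
    · exact Or.inl rfl
    · exact Or.inr rfl
  have hc' : chi (Ideal.Quotient.mk J d) ^ j = 1 ∨ chi (Ideal.Quotient.mk J d) ^ j = -1 := by
    rcases hc with h | h
    · left
      rw [h, one_pow]
    · rw [h]
      exact neg_one_pow_eq_or ℤ j
  have hne : (1 : C ⧸ K) ≠ -1 := by
    intro h
    apply h2
    have : (2 : C ⧸ K) = 1 + 1 := by norm_num
    rw [this]
    nth_rewrite 2 [h]
    ring
  rcases hε with h | h <;> rcases hc' with h' | h' <;> rw [h, h'] at e3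
  · rw [h, h']
  · exfalso
    apply hne
    push_cast at e3
    exact e3
  · exfalso
    apply hne
    push_cast at e3
    exact e3.symm
  · rw [h, h']

end abs

section nf

variable {k F M : Type} [Field k] [NumberField k] [Field F] [NumberField F]
  [Algebra k F] [Field M] [NumberField M] [Algebra k M]

/-- the map of the rings of integers -/
private noncomputable def Cnt_hat (φ : F →ₐ[k] M) : 𝓞 F →+* 𝓞 M :=
  RingOfIntegers.mapRingHom (φ : F →+* M)

omit [NumberField k] [NumberField F] [NumberField M] in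
private theorem Cnt_hat_coe (φ : F →ₐ[k] M) (x : 𝓞 F) : ((Cnt_hat φ x : 𝓞 M) : M) = φ x := rfl

omit [NumberField k] [NumberField F] [NumberField M] in
private theorem Cnt_hat_alg (φ : F →ₐ[k] M) (x : 𝓞 k) :
    Cnt_hat φ (algebraMap (𝓞 k) (𝓞 F) x) = algebraMap (𝓞 k) (𝓞 M) x := by
  apply RingOfIntegers.ext
  exact φ.commutes (x : k)

/-- transitivity -/
private theorem Cnt_ex [IsGalois k M] (φ₀ : F →ₐ[k] M) (v : HeightOneSpectrum (𝓞 k))
    (P : HeightOneSpectrum (𝓞 M)) (hP : P ∈ ovr M v) (w : HeightOneSpectrum (𝓞 F))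
    (hw : w ∈ ovr F v) : ∃ φ : F →ₐ[k] M, P.asIdeal.comap (Cnt_hat φ) = w.asIdeal := by
  obtain ⟨P', hP'p, hP'⟩ : ∃ P' : Ideal (𝓞 M), P'.IsPrime ∧
      P'.comap (Cnt_hat φ₀) = w.asIdeal := by
    letI : Algebra F M := (φ₀ : F →+* M).toAlgebra
    have hb : (⊥ : Ideal (𝓞 M)).comap (algebraMap (𝓞 F) (𝓞 M)) ≤ w.asIdeal := by
      have hinj : Function.Injective (algebraMap (𝓞 F) (𝓞 M)) :=
        FaithfulSMul.algebraMap_injective _ _
      rw [Ideal.comap_bot_of_injective _ hinj]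
      exact bot_le
    obtain ⟨Q, -, hQ, hQ'⟩ := Ideal.exists_ideal_over_prime_of_isIntegral w.asIdeal
      (⊥ : Ideal (𝓞 M)) hb
    exact ⟨Q, hQ, hQ'⟩
  haveI := hP'p
  haveI : P.asIdeal.IsPrime := P.isPrime
  have hunder : Ideal.under (𝓞 k) P' = Ideal.under (𝓞 k) P.asIdeal := by
    have h1 : P.asIdeal.comap (algebraMap (𝓞 k) (𝓞 M)) = v.asIdeal := hP
    have h2 : w.asIdeal.comap (algebraMap (𝓞 k) (𝓞 F)) = v.asIdeal := hw
    rw [Ideal.under_def, Ideal.under_def, h1, ← h2, ← hP', Ideal.comap_comap]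
    congr 1
    apply RingHom.ext
    intro x
    exact (Cnt_hat_alg φ₀ x).symm
  obtain ⟨g, hg⟩ := Algebra.IsInvariant.exists_smul_of_under_eq (𝓞 k) (𝓞 M) (M ≃ₐ[k] M) P'
    P.asIdeal hunder
  refine ⟨(g : M →ₐ[k] M).comp φ₀, ?_⟩
  rw [← hP']
  ext x
  rw [Ideal.mem_comap, Ideal.mem_comap, hg]
  have : Cnt_hat ((g : M →ₐ[k] M).comp φ₀) x = g • Cnt_hat φ₀ x := rfl
  rw [this, Ideal.smul_mem_pointwise_smul_iff]

omit [NumberField F] [Algebra k F] in
/-- powers of Frobenius -/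
private theorem Cnt_frob (v : HeightOneSpectrum (𝓞 k))
    (P : HeightOneSpectrum (𝓞 M)) (g : M ≃ₐ[k] M) (hg : IsFrob v P g) (m : ℕ) (x y : 𝓞 M)
    (hxy : (y : M) = (g ^ m) (x : M)) :
    Ideal.Quotient.mk P.asIdeal y = Ideal.Quotient.mk P.asIdeal x ^ nm v ^ m := by
  induction m generalizing y with
  | zero =>
    have : y = x := by
      apply RingOfIntegers.ext
      rw [hxy, pow_zero]
      rfl
    rw [this, pow_zero, pow_one]
  | succ m ih =>
    set x' : 𝓞 M := (g ^ m) • x with hx'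
    have h1 : (x' : M) = (g ^ m) (x : M) := rfl
    have h2 := ih x' h1
    obtain ⟨u, hu, hu'⟩ := hg.2 x'
    have h3 : y = x' ^ nm v + u := by
      apply RingOfIntegers.ext
      rw [hxy, pow_succ', AlgEquiv.mul_apply, ← h1, hu']
      simp
    rw [h3, map_add, map_pow, h2, (Ideal.Quotient.eq_zero_iff_mem).2 hu, add_zero, ← pow_mul,
      pow_succ]

end nf

section fib

variable {k M : Type} [Field k] [Field M] [CharZero M] [Algebra k M]

/-- the two square roots -/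
private theorem Cnt_fib (g : M ≃ₐ[k] M) (a z₀ : M) (h0 : z₀ ≠ 0) (hz : z₀ ^ 2 = a) (ε : ℤ)
    (hε : ε = 1 ∨ ε = -1) (hg : g z₀ = ε * z₀) :
    (Nat.card {z : M // z ^ 2 = a ∧ g z = z} : ℤ) - Nat.card {z : M // z ^ 2 = a ∧ g z = -z} =
      2 * ε := by
  have hsq : ∀ z : M, z ^ 2 = a ↔ z = z₀ ∨ z = -z₀ := by
    intro z
    rw [← hz]
    exact sq_eq_sq_iff_eq_or_eq_neg
  have hne : z₀ ≠ -z₀ := by
    intro h
    have h1 : (2 : M) * z₀ = 0 := by
      rw [two_mul]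
      nth_rewrite 2 [h]
      ring
    rcases mul_eq_zero.1 h1 with h2 | h2
    · exact two_ne_zero h2
    · exact h0 h2
  have c2 : ∀ p : M → Prop, (∀ z, p z ↔ z = z₀ ∨ z = -z₀) → Nat.card {z : M // p z} = 2 := by
    classical
    intro p hp
    have h1 : {z : M | p z} = (({z₀, -z₀} : Finset M) : Set M) := by
      ext z
      simp [hp]
    have h2 : Nat.card {z : M // p z} = Nat.card ({z : M | p z}) := rfl
    rw [h2, h1, Nat.card_eq_card_toFinset]
    simp [Finset.card_pair hne]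
  have c0 : ∀ p : M → Prop, (∀ z, ¬ p z) → Nat.card {z : M // p z} = 0 := by
    intro p hp
    haveI : IsEmpty {z : M // p z} := ⟨fun z => hp z.1 z.2⟩
    exact Nat.card_of_isEmpty
  rcases hε with h | h
  · rw [h, Int.cast_one, one_mul] at hg
    rw [c2 (fun z => z ^ 2 = a ∧ g z = z), c0 (fun z => z ^ 2 = a ∧ g z = -z), h]
    · norm_num
    · rintro z ⟨h1, h2⟩
      rcases (hsq z).1 h1 with h3 | h3
      · rw [h3, hg] at h2
        exact hne h2
      · rw [h3, map_neg, hg, neg_neg] at h2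
        exact hne h2.symm
    · intro z
      constructor
      · intro h1
        exact (hsq z).1 h1.1
      · intro h1
        refine ⟨(hsq z).2 h1, ?_⟩
        rcases h1 with h3 | h3
        · rw [h3, hg]
        · rw [h3, map_neg, hg]
  · rw [h, Int.cast_neg, Int.cast_one, neg_one_mul] at hg
    rw [c0 (fun z => z ^ 2 = a ∧ g z = z), c2 (fun z => z ^ 2 = a ∧ g z = -z), h]
    · norm_num
    · intro z
      constructor
      · intro h1
        exact (hsq z).1 h1.1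
      · intro h1
        refine ⟨(hsq z).2 h1, ?_⟩
        rcases h1 with h3 | h3
        · rw [h3, hg]
        · rw [h3, map_neg, hg]
    · rintro z ⟨h1, h2⟩
      rcases (hsq z).1 h1 with h3 | h3
      · rw [h3, hg] at h2
        exact hne h2.symm
      · rw [h3, map_neg, hg, neg_neg] at h2
        exact hne h2

end fib

open Classical in
private theorem Cnt_sig {k F M : Type} [Field k] [Field F] [Field M] [Algebra k F] [Algebra k M]
    (d : F) (G : M →ₐ[k] M) (Q : M → Prop) [Fintype {φ : F →ₐ[k] M // G.comp φ = φ}] [CharZero M] :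
    Nat.card {x : Pr k F M d // G.comp x.1.1 = x.1.1 ∧ Q x.1.2} =
      ∑ φ : {φ : F →ₐ[k] M // G.comp φ = φ}, Nat.card {z : M // z ^ 2 = φ.1 d ∧ Q z} := by
  haveI : ∀ φ : {φ : F →ₐ[k] M // G.comp φ = φ}, Finite {z : M // z ^ 2 = φ.1 d ∧ Q z} := by
    intro φ
    have h1 : ({z : M | z ^ 2 = φ.1 d}).Finite := by
      refine ((nthRoots 2 (φ.1 d)).toFinset.finite_toSet).subset fun z hz => ?_
      rw [Finset.mem_coe, Multiset.mem_toFinset, mem_nthRoots (by norm_num)]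
      exact hz
    exact (h1.subset (fun z hz => hz.1) : ({z : M | z ^ 2 = φ.1 d ∧ Q z}).Finite).to_subtype
  rw [← Nat.card_sigma]
  refine Nat.card_congr
    { toFun := fun x => ⟨⟨x.1.1.1, x.2.1⟩, ⟨x.1.1.2, x.1.2, x.2.2⟩⟩
      invFun := fun s => ⟨⟨(s.1.1, s.2.1), s.2.2.1⟩, s.1.2, s.2.2.2⟩
      left_inv := fun x => rfl
      right_inv := fun s => rfl }

theorem thm_Cnt (h1 : St_Deg) (h2 : St_Bij) (h3 : St_EmbF) : St_Cnt := by
  classical
  intro k F M _ _ _ _ _ _ _ _ _ d hd hfull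
  obtain ⟨S, hS, hSv⟩ := h2 k F M d hd hfull
  refine ⟨S, hS, fun v hv => ?_⟩
  obtain ⟨h2v, h3v, hdv, hΦ⟩ := hSv v hv
  refine ⟨h2v, h3v, hdv, fun P g hg m hm => ?_⟩
  obtain ⟨Φ, hΦ⟩ := hΦ P hg.1
  obtain ⟨hfin, -, hdeg⟩ := (h1 k F).1 v
  have hPv : P.asIdeal.comap (algebraMap (𝓞 k) (𝓞 M)) = v.asIdeal := hg.1
  set G : M →ₐ[k] M := ((g ^ m : M ≃ₐ[k] M) : M →ₐ[k] M) with hG
  have hΦφ : ∀ (φ : F →ₐ[k] M) (x : 𝓞 F), (Φ φ).1 x =
      Ideal.Quotient.mk P.asIdeal (Cnt_hat φ x) := fun φ x => hΦ φ x _ rfl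
  have hker : ∀ φ : F →ₐ[k] M, RingHom.ker (Φ φ).1 = P.asIdeal.comap (Cnt_hat φ) := by
    intro φ
    ext x
    rw [RingHom.mem_ker, hΦφ, Ideal.Quotient.eq_zero_iff_mem, Ideal.mem_comap]
  have hcomap : ∀ φ : F →ₐ[k] M, (P.asIdeal.comap (Cnt_hat φ)).comap
      (algebraMap (𝓞 k) (𝓞 F)) = v.asIdeal := by
    intro φ
    rw [← hPv, Ideal.comap_comap]
    congr 1
    apply RingHom.ext
    intro x
    exact Cnt_hat_alg φ x
  let W : (F →ₐ[k] M) → ovr F v := fun φ =>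
    ⟨⟨P.asIdeal.comap (Cnt_hat φ), Ideal.comap_isPrime _ _, fun hbot => by
      have h4 := hcomap φ
      rw [hbot, Ideal.comap_bot_of_injective _ (FaithfulSMul.algebraMap_injective _ _)] at h4
      exact v.ne_bot h4.symm⟩, hcomap φ⟩
  have hW : ∀ φ, (W φ).1.asIdeal = P.asIdeal.comap (Cnt_hat φ) := fun φ => rfl
  -- the fixed embeddings
  have hfrob : ∀ (φ : F →ₐ[k] M) (x : 𝓞 F), (Φ (G.comp φ)).1 x = (Φ φ).1 x ^ nm v ^ m := by
    intro φ x
    rw [hΦφ, hΦφ]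
    exact Cnt_frob v P g hg m _ _ rfl
  have hfix : ∀ φ : F →ₐ[k] M, G.comp φ = φ ↔ ∀ x, (Φ φ).1 x ^ nm v ^ m = (Φ φ).1 x := by
    intro φ
    constructor
    · intro h x
      rw [← hfrob, h]
    · intro h
      apply Φ.injective
      apply Subtype.ext
      apply RingHom.ext
      intro x
      rw [hfrob, h]
  haveI : Finite (F →ₐ[k] M) := inferInstance
  letI : Fintype {φ : F →ₐ[k] M // G.comp φ = φ} := Fintype.ofFinite _
  haveI : Finite (ovr F v) := hfin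
  letI : Fintype (ovr F v) := Fintype.ofFinite _
  have hnmv : nm v = Nat.card (𝓞 k ⧸ v.asIdeal) := by
    rw [nm, Ideal.absNorm_apply, Submodule.cardQuot_apply]
  have hnmw : ∀ w : HeightOneSpectrum (𝓞 F), nm w = Nat.card (𝓞 F ⧸ w.asIdeal) := fun w => by
    rw [nm, Ideal.absNorm_apply, Submodule.cardQuot_apply]
  -- the number of the fixed embeddings over `w`
  have hcnt : ∀ w : ovr F v, Nat.card {φ : {φ : F →ₐ[k] M // G.comp φ = φ} // W φ.1 = w} =
      if rdeg v w.1 ∣ m then rdeg v w.1 else 0 := by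
    intro w
    obtain ⟨hd1, hd2⟩ := hdeg w.1 w.2
    have hne : Nonempty (F →ₐ[k] M) := by
      have h4 := hfull.1
      haveI : Module.Finite k F := Module.Finite.of_restrictScalars_finite ℚ k F
      have h5 : 0 < Module.finrank k F := Module.finrank_pos
      rw [← h4] at h5
      exact (Nat.card_pos_iff.1 h5).1
    obtain ⟨φ₀⟩ := hne
    obtain ⟨φ₁, hφ₁⟩ := Cnt_ex φ₀ v P hg.1 w.1 w.2
    have key := Cnt_count h3 v.asIdeal w.1.asIdeal P.asIdeal (w.2 : _ = _) hPv (rdeg v w.1) m hd1 hm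
      (by rw [← hnmv, ← hnmw, hd2]) ⟨(Φ φ₁).1, (Φ φ₁).2, by rw [hker, hφ₁]⟩
    rw [← key]
    refine Nat.card_congr
      { toFun := fun φ => ⟨Φ φ.1.1, by
          rw [← hnmv]
          exact (hfix φ.1.1).1 φ.1.2, by
          rw [hker, ← hW, φ.2]⟩
        invFun := fun ψ => ⟨⟨Φ.symm ψ.1, by
          rw [hfix, Equiv.apply_symm_apply, hnmv]
          exact ψ.2.1⟩, by
          apply Subtype.ext
          apply HeightOneSpectrum.ext
          rw [hW, ← hker, Equiv.apply_symm_apply, ψ.2.2]⟩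
        left_inv := fun φ => by
          apply Subtype.ext
          apply Subtype.ext
          exact Φ.symm_apply_apply _
        right_inv := fun ψ => by
          apply Subtype.ext
          exact Φ.apply_symm_apply _ }
  -- the sign of a fixed embedding
  have h2κ : (2 : 𝓞 M ⧸ P.asIdeal) ≠ 0 := by
    intro h
    apply h2v
    rw [← hPv, Ideal.mem_comap, map_ofNat, ← Ideal.Quotient.eq_zero_iff_mem, map_ofNat]
    exact h
  have hsgn : ∀ φ : {φ : F →ₐ[k] M // G.comp φ = φ},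
      (Nat.card {z : M // z ^ 2 = φ.1 (d : F) ∧ (g ^ m) z = z} : ℤ) -
        Nat.card {z : M // z ^ 2 = φ.1 (d : F) ∧ (g ^ m) z = -z} =
      2 * chi (Ideal.Quotient.mk (W φ.1).1.asIdeal d) ^ (m / rdeg v (W φ.1).1) := by
    intro φ
    obtain ⟨hd1, hd2⟩ := hdeg (W φ.1).1 (W φ.1).2
    have hdvd : rdeg v (W φ.1).1 ∣ m := by
      by_contra hcon
      have h4 := hcnt (W φ.1)
      rw [if_neg hcon] at h4
      haveI : Nonempty {φ' : {φ : F →ₐ[k] M // G.comp φ = φ} // W φ'.1 = W φ.1} := ⟨⟨φ, rfl⟩⟩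
      have h5 : 0 < Nat.card {φ' : {φ : F →ₐ[k] M // G.comp φ = φ} // W φ'.1 = W φ.1} :=
        Nat.card_pos
      omega
    obtain ⟨r, hr⟩ := hfull.2 φ.1
    have hr2 : r ^ 2 = φ.1 (d : F) := by rw [hr, sq]
    have hd0 : (d : F) ≠ 0 := by
      intro h
      apply hd
      apply RingOfIntegers.ext
      rw [h]
      rfl
    have hr0 : r ≠ 0 := by
      intro h
      rw [h] at hr2
      have h4 : φ.1 (d : F) = 0 := by
        rw [← hr2]
        ring
      exact hd0 ((map_eq_zero φ.1).1 h4)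
    have hint : IsIntegral ℤ r := by
      apply IsIntegral.of_pow (n := 2) (by norm_num)
      rw [hr2]
      exact (Cnt_hat φ.1 d).2
    set ri : 𝓞 M := ⟨r, hint⟩ with hri
    have hric : (ri : M) = r := rfl
    have hGφ : (g ^ m) (φ.1 (d : F)) = φ.1 (d : F) := AlgHom.congr_fun φ.2 (d : F)
    have hsq : ((g ^ m) r) ^ 2 = r ^ 2 := by
      rw [← map_pow, hr2, hGφ]
    obtain ⟨ε, hε, hgε⟩ : ∃ ε : ℤ, (ε = 1 ∨ ε = -1) ∧ (g ^ m) r = ε * r := by
      rcases sq_eq_sq_iff_eq_or_eq_neg.1 hsq with h4 | h4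
      · exact ⟨1, Or.inl rfl, by rw [h4]; simp⟩
      · exact ⟨-1, Or.inr rfl, by rw [h4]; simp⟩
    rw [Cnt_fib (g ^ m) (φ.1 (d : F)) r hr0 hr2 ε hε hgε]
    congr 1
    have hj : 1 ≤ m / rdeg v (W φ.1).1 := Nat.div_pos (Nat.le_of_dvd hm hdvd) hd1
    haveI hWm : (W φ.1).1.asIdeal.IsMaximal := (W φ.1).1.isMaximal
    haveI hWf : Finite (𝓞 F ⧸ (W φ.1).1.asIdeal) :=
      Ideal.finiteQuotientOfFreeOfNeBot _ (W φ.1).1.ne_bot
    refine Cnt_sign h3 (W φ.1).1.asIdeal P.asIdeal (Φ φ.1).1 (by rw [hker, ← hW]) h2κ d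
      (hdv _ (W φ.1).2) _ hj (Ideal.Quotient.mk P.asIdeal ri) ?_ ε hε ?_
    · rw [hΦφ, ← map_pow]
      have h5 : ri ^ 2 = Cnt_hat φ.1 d := RingOfIntegers.ext hr2
      rw [h5]
    · have h4 : Nat.card (𝓞 F ⧸ (W φ.1).1.asIdeal) ^ (m / rdeg v (W φ.1).1) = nm v ^ m := by
        rw [← hnmw, hd2, ← pow_mul, Nat.mul_div_cancel' hdvd]
      rw [h4, ← Cnt_frob v P g hg m ri ((ε : 𝓞 M) * ri) ?_]
      · rw [map_mul, map_intCast]
      · rw [hric, hgε]
        simp [hric]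
  -- the sum
  have e1 : sgn (d : F) (g ^ m) = ∑ φ : {φ : F →ₐ[k] M // G.comp φ = φ},
      2 * chi (Ideal.Quotient.mk (W φ.1).1.asIdeal d) ^ (m / rdeg v (W φ.1).1) := by
    unfold sgn
    rw [← hG, Cnt_sig (d : F) G (fun z => (g ^ m) z = z),
      Cnt_sig (d : F) G (fun z => (g ^ m) z = -z)]
    push_cast
    rw [← Finset.sum_sub_distrib]
    exact Finset.sum_congr rfl fun φ _ => hsgn φ
  rw [e1, finsum_eq_sum_of_fintype, Finset.mul_sum,
    ← Finset.sum_fiberwise Finset.univ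
      (fun φ : {φ : F →ₐ[k] M // G.comp φ = φ} => W φ.1)]
  refine Finset.sum_congr rfl fun w _ => ?_
  have e2 : ∀ φ ∈ (Finset.univ : Finset {φ : F →ₐ[k] M // G.comp φ = φ}).filter
      (fun φ => W φ.1 = w),
      2 * chi (Ideal.Quotient.mk (W φ.1).1.asIdeal d) ^ (m / rdeg v (W φ.1).1) =
      2 * chi (Ideal.Quotient.mk w.1.asIdeal d) ^ (m / rdeg v w.1) := by
    intro φ hφ
    rw [(Finset.mem_filter.1 hφ).2]
  rw [Finset.sum_congr rfl e2, Finset.sum_const, nsmul_eq_mul]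
  have e3 : ((Finset.univ : Finset {φ : F →ₐ[k] M // G.comp φ = φ}).filter
      (fun φ => W φ.1 = w)).card = if rdeg v w.1 ∣ m then rdeg v w.1 else 0 := by
    rw [← hcnt w, Nat.card_eq_fintype_card, Fintype.card_subtype]
  rw [e3]
  unfold ctr
  split_ifs
  · ring
  · simp

end ART
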