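import Pool.Agent.ART.StC

/-!
ART, module Comb: from traces to products
-/

set_option autoImplicit false

namespace ART

/-- The virtual number of cycles of each length with sign `+1` given by one prime. -/
noncomputable def Comb_e (f : ℕ) (ε : ℤ) : ℕ →₀ ℤ :=
  if ε = 1 then Finsupp.single f 1 else Finsupp.single (2 * f) 1 - Finsupp.single f 1

open Classical in
/-- The trace of the `m`-th power. -/
noncomputable def Comb_L (m : ℕ) : (ℕ →₀ ℤ) →+ ℤ :=
  Finsupp.liftAddHom (fun h => if h ∣ m then (AddMonoidHom.mulLeft (h : ℤ)) else 0)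

/-- The product of the `q h` with exponents given by `D`, written additively. -/
noncomputable def Comb_P {G : Type} [CommGroup G] (q : ℕ → G) : (ℕ →₀ ℤ) →+ Additive G :=
  Finsupp.liftAddHom (fun h => zmultiplesHom (Additive G) (Additive.ofMul (q h)))

private theorem Comb_L_single (m h : ℕ) (a : ℤ) :
    Comb_L m (Finsupp.single h a) = if h ∣ m then (h : ℤ) * a else 0 := by
  unfold Comb_L
  by_cases hd : h ∣ m
  · simp [hd]
  · simp [hd]

private theorem Comb_P_single {G : Type} [CommGroup G] (q : ℕ → G) (h : ℕ) (a : ℤ) :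
    Comb_P q (Finsupp.single h a) = Additive.ofMul (q h ^ a) := by
  unfold Comb_P
  simp

private theorem Comb_L_e (m f : ℕ) (hf : 1 ≤ f) (ε : ℤ) (hε : ε = 1 ∨ ε = -1) :
    Comb_L m (Comb_e f ε) = ctr f ε m := by
  rcases hε with rfl | rfl
  · simp only [Comb_e, if_true, Comb_L_single, ctr, one_pow]
  · have h1 : (-1 : ℤ) ≠ 1 := by decide
    simp only [Comb_e, h1, if_false, map_sub, Comb_L_single, ctr]
    by_cases hd : f ∣ m
    · obtain ⟨c, rfl⟩ := hd
      have hfc : f * c / f = c := Nat.mul_div_cancel_left c (by omega)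
      rw [hfc]
      by_cases hc : 2 ∣ c
      · obtain ⟨b, rfl⟩ := hc
        have h2 : 2 * f ∣ f * (2 * b) := ⟨b, by ring⟩
        have h3 : ((-1 : ℤ)) ^ (2 * b) = 1 := by rw [pow_mul]; norm_num
        have h4 : f ∣ f * (2 * b) := dvd_mul_right f _
        simp only [h2, h4, if_true, h3]
        push_cast
        ring
      · have h2 : ¬ 2 * f ∣ f * c := by
          rintro ⟨b, hb⟩
          apply hc
          refine ⟨b, ?_⟩
          have : f * c = f * (2 * b) := by rw [hb]; ring
          exact Nat.eq_of_mul_eq_mul_left (by omega) this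
        have hodd : Odd c := by
          rcases Nat.even_or_odd c with h | h
          · exact absurd h.two_dvd hc
          · exact h
        have h3 : ((-1 : ℤ)) ^ c = -1 := hodd.neg_one_pow
        have h4 : f ∣ f * c := dvd_mul_right f _
        simp only [h2, h4, if_false, if_true, h3]
        ring
    · have h2 : ¬ 2 * f ∣ m := fun h => hd (dvd_trans (Dvd.intro_left 2 rfl) h)
      simp [hd, h2]

private theorem Comb_P_e {G : Type} [CommGroup G] (p : ℕ → ℤ → G) (f : ℕ)
    (hp : p f 1 * p f (-1) = p (2 * f) 1) (ε : ℤ) (hε : ε = 1 ∨ ε = -1) :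
    Comb_P (fun h => p h 1) (Comb_e f ε) = Additive.ofMul (p f ε) := by
  rcases hε with rfl | rfl
  · simp only [Comb_e, if_true, Comb_P_single, zpow_one]
  · have h1 : (-1 : ℤ) ≠ 1 := by decide
    simp only [Comb_e, h1, if_false, map_sub, Comb_P_single, zpow_one]
    rw [← ofMul_div, ← hp, mul_div_cancel_left]

private theorem Comb_zero (D : ℕ →₀ ℤ) (h0 : D 0 = 0) (hL : ∀ m, 1 ≤ m → Comb_L m D = 0) :
    D = 0 := by
  classical
  have key : ∀ m, D m = 0 := by
    intro m
    induction m using Nat.strong_induction_on with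
    | _ m ih =>
      rcases Nat.eq_zero_or_pos m with rfl | hm
      · exact h0
      have h1 := hL m hm
      have h2 : D = ∑ h ∈ D.support, Finsupp.single h (D h) := by
        exact (Finsupp.sum_single D).symm
      rw [h2, map_sum] at h1
      simp only [Comb_L_single] at h1
      by_contra hD
      have hmem : m ∈ D.support := by simpa using hD
      rw [Finset.sum_eq_single m] at h1
      · simp only [dvd_refl, if_true] at h1
        rcases mul_eq_zero.mp h1 with h3 | h3
        · have : (m : ℤ) ≠ 0 := by exact_mod_cast hm.ne'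
          exact this h3
        · exact hD h3
      · intro b hb hbm
        by_cases hd : b ∣ m
        · have hle := Nat.le_of_dvd hm hd
          have hlt : b < m := lt_of_le_of_ne hle hbm
          simp [hd, ih b hlt]
        · simp [hd]
      · intro hnot
        exact absurd hmem hnot
  ext m
  simpa using key m

theorem thm_Comb : St_Comb := by
  intro ι _ W _ n f ε hf hε htr G _ p hp
  set D : ℕ →₀ ℤ := ∑ i, n i • ∑ w, Comb_e (f i w) (ε i w) with hDdef
  have hD0 : D 0 = 0 := by
    have h1 : ∀ i w, Comb_e (f i w) (ε i w) 0 = 0 := by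
      intro i w
      have hfi := hf i w
      unfold Comb_e
      split_ifs
      · rw [Finsupp.single_apply, if_neg (by omega)]
      · rw [Finsupp.sub_apply, Finsupp.single_apply, Finsupp.single_apply, if_neg (by omega),
          if_neg (by omega)]
        ring
    rw [hDdef, Finsupp.finsetSum_apply]
    apply Finset.sum_eq_zero
    intro i _
    rw [Finsupp.smul_apply, Finsupp.finsetSum_apply]
    simp [h1]
  have hL : ∀ m, 1 ≤ m → Comb_L m D = 0 := by
    intro m hm
    rw [← htr m hm, hDdef, map_sum]
    apply Finset.sum_congr rfl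
    intro i _
    rw [map_zsmul, map_sum, smul_eq_mul]
    congr 1
    apply Finset.sum_congr rfl
    intro w _
    exact Comb_L_e m _ (hf i w) _ (hε i w)
  have hD : D = 0 := Comb_zero D hD0 hL
  have hP : Comb_P (fun h => p h 1) D = Additive.ofMul (∏ i, (∏ w, p (f i w) (ε i w)) ^ n i) := by
    rw [hDdef, map_sum, ofMul_prod]
    apply Finset.sum_congr rfl
    intro i _
    rw [map_zsmul, map_sum, ofMul_zpow, ofMul_prod]
    congr 1
    apply Finset.sum_congr rfl
    intro w _
    exact Comb_P_e p _ (hp _ (hf i w)) _ (hε i w)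
  rw [hD, map_zero] at hP
  exact (Additive.ofMul.injective (by rw [← hP]; rfl))

end ART
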