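import Pool.Agent.ART.StG

/-!
# The relation of the dihedral group of order eight
-/

set_option autoImplicit false

namespace ART

section

variable {k : Type} [Field k] [NumberField k]

open Classical in
private noncomputable def DFour_ind (g : AlgebraicClosure k ≃ₐ[k] AlgebraicClosure k)
    (Z : AlgebraicClosure k) : ℤ :=
  (if g Z = Z then 1 else 0) - (if g Z = -Z then 1 else 0)

private lemma DFour_ne {Z : AlgebraicClosure k} (hZ : Z ≠ 0) : Z ≠ -Z := by
  intro h
  apply hZ
  have h2 : (2 : AlgebraicClosure k) * Z = 0 := by linear_combination h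
  rcases mul_eq_zero.mp h2 with h3 | h3
  · exact absurd h3 two_ne_zero
  · exact h3

private lemma DFour_ind_pos (g : AlgebraicClosure k ≃ₐ[k] AlgebraicClosure k)
    {Z : AlgebraicClosure k} (hZ : Z ≠ 0) (h : g Z = Z) : DFour_ind g Z = 1 := by
  unfold DFour_ind
  rw [if_pos h, if_neg (by rw [h]; exact DFour_ne hZ)]
  rfl

private lemma DFour_ind_neg (g : AlgebraicClosure k ≃ₐ[k] AlgebraicClosure k)
    {Z : AlgebraicClosure k} (hZ : Z ≠ 0) (h : g Z = -Z) : DFour_ind g Z = -1 := by
  unfold DFour_ind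
  rw [if_pos h, if_neg (by rw [h]; exact (DFour_ne hZ).symm)]
  rfl

variable {F : Type} [Field F] [NumberField F] [Algebra k F]

private lemma DFour_ext (hfin : Module.finrank k F = 2) (α : F) (a : k)
    (hα : α ^ 2 = algebraMap k F a) (ha : ¬ IsSquare a)
    (φ ψ : F →ₐ[k] AlgebraicClosure k) (h : φ α = ψ α) : φ = ψ := by
  have hli : LinearIndependent k ![(1 : F), α] := by
    rw [LinearIndependent.pair_iff]
    intro s t hst
    by_cases ht : t = 0
    · subst ht
      simp only [zero_smul, add_zero] at hst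
      refine ⟨?_, rfl⟩
      rcases smul_eq_zero.mp hst with h1 | h1
      · exact h1
      · exact absurd h1 one_ne_zero
    · exfalso
      apply ha
      refine ⟨s / t, ?_⟩
      apply (algebraMap k F).injective
      rw [← hα]
      have ht' : algebraMap k F t ≠ 0 := by
        rw [Ne, map_eq_zero]; exact ht
      have h1 : algebraMap k F t * α = - algebraMap k F s := by
        rw [Algebra.smul_def, Algebra.smul_def, mul_one] at hst
        linear_combination hst
      have h2 : α = - (algebraMap k F s / algebraMap k F t) := by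
        field_simp
        linear_combination h1
      rw [h2, map_mul, map_div₀]
      ring
  have hspan := hli.span_eq_top_of_card_eq_finrank (by simp [hfin])
  ext x
  have hx : x ∈ Submodule.span k (Set.range ![(1 : F), α]) := by rw [hspan]; trivial
  rw [Matrix.range_cons, Matrix.range_cons, Matrix.range_empty, Set.union_empty,
    Set.singleton_union, Submodule.mem_span_pair] at hx
  obtain ⟨s, t, rfl⟩ := hx
  rw [Algebra.smul_def, Algebra.smul_def, map_add, map_add, map_mul, map_mul, map_mul, map_mul,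
    map_one, map_one, h, AlgHom.commutes, AlgHom.commutes, AlgHom.commutes, AlgHom.commutes]

open Classical in
private lemma DFour_sgn (hfin : Module.finrank k F = 2) (α : F) (a : k)
    (hα : α ^ 2 = algebraMap k F a) (ha : ¬ IsSquare a) (A : AlgebraicClosure k)
    (hA : A ^ 2 = algebraMap k (AlgebraicClosure k) a) (u v : k) (Z₁ Z₂ : AlgebraicClosure k)
    (h₁ : Z₁ ^ 2 = algebraMap k _ u + algebraMap k _ v * A)
    (h₂ : Z₂ ^ 2 = algebraMap k _ u - algebraMap k _ v * A) (hZ₁ : Z₁ ≠ 0) (hZ₂ : Z₂ ≠ 0)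
    (g : AlgebraicClosure k ≃ₐ[k] AlgebraicClosure k) :
    sgn (algebraMap k F u + algebraMap k F v * α) g =
      if g A = A then 2 * (DFour_ind g Z₁ + DFour_ind g Z₂) else 0 := by
  have ha0 : a ≠ 0 := by
    rintro rfl
    exact ha ⟨0, by simp⟩
  have hA0 : A ≠ 0 := by
    rintro rfl
    apply ha0
    have : algebraMap k (AlgebraicClosure k) a = 0 := by rw [← hA]; simp
    exact (map_eq_zero _).mp this
  have hval : ∀ φ : F →ₐ[k] AlgebraicClosure k, φ α = A ∨ φ α = -A := by
    intro φ
    apply sq_eq_sq_iff_eq_or_eq_neg.mp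
    rw [← map_pow, hα, AlgHom.commutes, hA]
  have hcard : Fintype.card (F →ₐ[k] AlgebraicClosure k) = Fintype.card Bool := by
    rw [Fintype.card_bool, ← hfin]
    exact AlgHom.card k F (AlgebraicClosure k)
  let T : (F →ₐ[k] AlgebraicClosure k) → Bool := fun φ => decide (φ α = A)
  have hT : Function.Bijective T := by
    rw [Fintype.bijective_iff_injective_and_card]
    refine ⟨?_, hcard⟩
    intro φ ψ h
    simp only [T, decide_eq_decide] at h
    apply DFour_ext hfin α a hα ha
    by_cases h1 : φ α = A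
    · rw [h1, h.mp h1]
    · have h2 : ψ α ≠ A := fun h3 => h1 (h.mpr h3)
      rw [(hval φ).resolve_left h1, (hval ψ).resolve_left h2]
  let E : Bool ≃ (F →ₐ[k] AlgebraicClosure k) := (Equiv.ofBijective T hT).symm
  have hE1 : E true α = A := by
    have h1 : T (E true) = true := (Equiv.ofBijective T hT).apply_symm_apply true
    simpa [T] using h1
  have hE2 : E false α = -A := by
    have h1 : T (E false) = false := (Equiv.ofBijective T hT).apply_symm_apply false
    have h2 : E false α ≠ A := by simpa [T] using h1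
    exact (hval _).resolve_left h2
  set d : F := algebraMap k F u + algebraMap k F v * α with hd
  have hd1 : E true d = Z₁ ^ 2 := by
    rw [hd, map_add, map_mul, AlgHom.commutes, AlgHom.commutes, hE1, h₁]
  have hd2 : E false d = Z₂ ^ 2 := by
    rw [hd, map_add, map_mul, AlgHom.commutes, AlgHom.commutes, hE2, h₂]
    ring
  let Z : Bool → AlgebraicClosure k := fun s => if s then Z₁ else Z₂
  have hZ : ∀ s, Z s ≠ 0 := by
    intro s; cases s
    · simpa [Z] using hZ₂
    · simpa [Z] using hZ₁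
  have hdZ : ∀ s, E s d = Z s ^ 2 := by
    intro s; cases s
    · simpa [Z] using hd2
    · simpa [Z] using hd1
  let e0 : Bool × Bool → Pr k F (AlgebraicClosure k) d := fun p =>
    ⟨(E p.1, if p.2 then Z p.1 else - Z p.1), by
      simp only
      rw [hdZ]
      split_ifs <;> ring⟩
  have he0 : Function.Bijective e0 := by
    constructor
    · rintro ⟨s, t⟩ ⟨s', t'⟩ h
      have h1 := congrArg Subtype.val h
      simp only [e0, Prod.mk.injEq, EmbeddingLike.apply_eq_iff_eq] at h1
      obtain ⟨rfl, h2⟩ := h1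
      have h3 := DFour_ne (hZ s)
      cases t <;> cases t' <;> simp_all
    · rintro ⟨⟨φ, z⟩, hz⟩
      obtain ⟨s, rfl⟩ := E.surjective φ
      simp only at hz
      rw [hdZ] at hz
      rcases sq_eq_sq_iff_eq_or_eq_neg.mp hz with h1 | h1
      · exact ⟨(s, true), by simp [e0, h1]⟩
      · exact ⟨(s, false), by simp [e0, h1]⟩
  let e := Equiv.ofBijective e0 he0
  have key : ∀ P : Pr k F (AlgebraicClosure k) d → Prop,
      (Nat.card {x // P x} : ℤ) = ∑ p : Bool × Bool, if P (e0 p) then 1 else 0 := by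
    intro P
    rw [← Nat.card_congr (e.subtypeEquiv (p := fun p => P (e p)) (q := P) (by simp)),
      Nat.card_eq_fintype_card, Fintype.card_subtype, Finset.card_filter]
    push_cast
    rfl
  have hfix : ∀ s, (g : AlgebraicClosure k →ₐ[k] AlgebraicClosure k).comp (E s) = E s ↔
      g A = A := by
    intro s
    constructor
    · intro h
      have h1 := congrArg (fun φ => φ α) h
      cases s
      · simp only [AlgHom.coe_comp, Function.comp_apply, hE2] at h1
        simpa using h1
      · simp only [AlgHom.coe_comp, Function.comp_apply, hE1] at h1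
        simpa using h1
    · intro h
      apply DFour_ext hfin α a hα ha
      cases s
      · simp [hE2, h]
      · simp [hE1, h]
  unfold sgn
  rw [key, key, ← Finset.sum_sub_distrib, Fintype.sum_prod_type, Fintype.sum_bool,
    Fintype.sum_bool, Fintype.sum_bool]
  simp only [e0, hfix, Z, DFour_ind]
  by_cases hg : g A = A
  · simp only [hg, true_and, if_true]
    simp [neg_eq_iff_eq_neg]
    ring
  · simp [hg]

end

theorem thm_DFour : St_DFour := by
  intro k F₁ F₂ _ _ _ _ _ _ _ _ a b x y z α β hf₁ hf₂ hα hβ ha hb hxyz hy hz g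
  obtain ⟨A, hA⟩ := IsAlgClosed.exists_pow_nat_eq (algebraMap k (AlgebraicClosure k) a)
    (n := 2) (by norm_num)
  obtain ⟨B, hB⟩ := IsAlgClosed.exists_pow_nat_eq (algebraMap k (AlgebraicClosure k) b)
    (n := 2) (by norm_num)
  have ha0 : a ≠ 0 := by
    rintro rfl
    exact ha ⟨0, by simp⟩
  have hb0 : b ≠ 0 := by
    rintro rfl
    exact hb ⟨0, by simp⟩
  let c : k → AlgebraicClosure k := algebraMap k (AlgebraicClosure k)
  have hc0 : ∀ t : k, t ≠ 0 → algebraMap k (AlgebraicClosure k) t ≠ 0 := by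
    intro t ht
    rw [Ne, map_eq_zero]; exact ht
  have hrel : (algebraMap k (AlgebraicClosure k) x) ^ 2 =
      (algebraMap k (AlgebraicClosure k) a) * (algebraMap k (AlgebraicClosure k) y) ^ 2 +
      (algebraMap k (AlgebraicClosure k) b) * (algebraMap k (AlgebraicClosure k) z) ^ 2 := by
    rw [← map_pow, hxyz]; simp
  have hgc : ∀ t : k, g (algebraMap k (AlgebraicClosure k) t) = algebraMap k _ t :=
    fun t => AlgEquiv.commutes g t
  have hga := hgc a
  have hgb := hgc b
  have hgx := hgc x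
  have hgy := hgc y
  have hgz := hgc z
  have ha0' := hc0 a ha0
  have hb0' := hc0 b hb0
  have hy' := hc0 y hy
  have hz' := hc0 z hz
  rw [show (2 * (algebraMap k F₂ x + algebraMap k F₂ z * β)) =
    algebraMap k F₂ (2 * x) + algebraMap k F₂ (2 * z) * β by
      rw [map_mul, map_mul, map_ofNat]; ring]
  have h2x : algebraMap k (AlgebraicClosure k) (2 * x) = 2 * algebraMap k _ x := by
    rw [map_mul, map_ofNat]
  have h2z : algebraMap k (AlgebraicClosure k) (2 * z) = 2 * algebraMap k _ z := by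
    rw [map_mul, map_ofNat]
  generalize hX : algebraMap k (AlgebraicClosure k) x = X at *
  generalize hY : algebraMap k (AlgebraicClosure k) y = Y at *
  generalize hZ : algebraMap k (AlgebraicClosure k) z = Z at *
  obtain ⟨z₁, hz₁⟩ := IsAlgClosed.exists_pow_nat_eq (X + Y * A) (n := 2) (by norm_num)
  obtain ⟨z₂, hz₂, h12⟩ : ∃ z₂ : AlgebraicClosure k, z₂ ^ 2 = X - Y * A ∧ z₁ * z₂ = Z * B := by
    obtain ⟨z₂, hz₂⟩ := IsAlgClosed.exists_pow_nat_eq (X - Y * A) (n := 2) (by norm_num)
    have h1 : (z₁ * z₂) ^ 2 = (Z * B) ^ 2 := by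
      rw [mul_pow, hz₁, hz₂, mul_pow, hB]
      linear_combination hrel - Y ^ 2 * hA
    rcases sq_eq_sq_iff_eq_or_eq_neg.mp h1 with h2 | h2
    · exact ⟨z₂, hz₂, h2⟩
    · exact ⟨-z₂, by rw [neg_sq, hz₂], by rw [mul_neg, h2, neg_neg]⟩
  have hA0 : A ≠ 0 := by
    rintro rfl
    exact ha0' (by rw [← hA]; simp)
  have hB0 : B ≠ 0 := by
    rintro rfl
    exact hb0' (by rw [← hB]; simp)
  have h12' : z₁ * z₂ ≠ 0 := by rw [h12]; exact mul_ne_zero hz' hB0
  have hz₁0 : z₁ ≠ 0 := left_ne_zero_of_mul h12'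
  have hz₂0 : z₂ ≠ 0 := right_ne_zero_of_mul h12'
  have hww : (z₁ + z₂) ^ 2 * (z₁ - z₂) ^ 2 ≠ 0 := by
    have h1 : (z₁ + z₂) ^ 2 * (z₁ - z₂) ^ 2 = 4 * (algebraMap k (AlgebraicClosure k) a * Y ^ 2) := by
      have e1 : (z₁ + z₂) ^ 2 * (z₁ - z₂) ^ 2 = (z₁ ^ 2 + z₂ ^ 2) ^ 2 - 4 * (z₁ * z₂) ^ 2 := by ring
      rw [e1, h12, hz₁, hz₂, mul_pow, hB]
      linear_combination 4 * hrel
    rw [h1]
    exact mul_ne_zero (by norm_num) (mul_ne_zero ha0' (pow_ne_zero _ hy'))
  have hw₁0 : z₁ + z₂ ≠ 0 := by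
    intro h; apply hww; rw [h]; ring
  have hw₂0 : z₁ - z₂ ≠ 0 := by
    intro h; apply hww; rw [h]; ring
  classical
  rw [DFour_sgn hf₁ α a hα ha A hA x y z₁ z₂ (by rw [hX, hY]; exact hz₁)
      (by rw [hX, hY]; exact hz₂) hz₁0 hz₂0 g,
    DFour_sgn hf₂ β b hβ hb B hB (2 * x) (2 * z) (z₁ + z₂) (z₁ - z₂)
      (by rw [h2x, h2z]; linear_combination hz₁ + hz₂ + 2 * h12)
      (by rw [h2x, h2z]; linear_combination hz₁ + hz₂ - 2 * h12) hw₁0 hw₂0 g]
  have hAA := DFour_ne hA0
  have hBB := DFour_ne hB0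
  have hgA : g A = A ∨ g A = -A := by
    apply sq_eq_sq_iff_eq_or_eq_neg.mp
    rw [← map_pow, hA, hga]
  have hgZB : Z * g B = g z₁ * g z₂ := by
    rw [← map_mul, h12, map_mul, hgz]
  rcases hgA with hgA | hgA
  · have e1 : g z₁ = z₁ ∨ g z₁ = -z₁ := by
      apply sq_eq_sq_iff_eq_or_eq_neg.mp
      rw [← map_pow, hz₁, map_add, map_mul, hgx, hgy, hgA]
    have e2 : g z₂ = z₂ ∨ g z₂ = -z₂ := by
      apply sq_eq_sq_iff_eq_or_eq_neg.mp
      rw [← map_pow, hz₂, map_sub, map_mul, hgx, hgy, hgA]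
    rw [if_pos hgA]
    rcases e1 with e1 | e1 <;> rcases e2 with e2 | e2
    · have hgB : g B = B := by
        apply mul_left_cancel₀ hz'
        rw [hgZB, e1, e2, h12]
      rw [if_pos hgB, DFour_ind_pos g hz₁0 e1, DFour_ind_pos g hz₂0 e2,
        DFour_ind_pos g hw₁0 (by rw [map_add, e1, e2]),
        DFour_ind_pos g hw₂0 (by rw [map_sub, e1, e2])]
    · have hgB : g B = -B := by
        apply mul_left_cancel₀ hz'
        rw [hgZB, e1, e2, mul_neg, h12, mul_neg]
      rw [if_neg (by rw [hgB]; exact hBB.symm), DFour_ind_pos g hz₁0 e1, DFour_ind_neg g hz₂0 e2]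
      rfl
    · have hgB : g B = -B := by
        apply mul_left_cancel₀ hz'
        rw [hgZB, e1, e2, neg_mul, h12, mul_neg]
      rw [if_neg (by rw [hgB]; exact hBB.symm), DFour_ind_neg g hz₁0 e1, DFour_ind_pos g hz₂0 e2]
      rfl
    · have hgB : g B = B := by
        apply mul_left_cancel₀ hz'
        rw [hgZB, e1, e2, neg_mul_neg, h12]
      rw [if_pos hgB, DFour_ind_neg g hz₁0 e1, DFour_ind_neg g hz₂0 e2,
        DFour_ind_neg g hw₁0 (by rw [map_add, e1, e2]; ring),
        DFour_ind_neg g hw₂0 (by rw [map_sub, e1, e2]; ring)]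
  · have e1 : g z₁ = z₂ ∨ g z₁ = -z₂ := by
      apply sq_eq_sq_iff_eq_or_eq_neg.mp
      rw [← map_pow, hz₁, map_add, map_mul, hgx, hgy, hgA, hz₂]
      ring
    have e2 : g z₂ = z₁ ∨ g z₂ = -z₁ := by
      apply sq_eq_sq_iff_eq_or_eq_neg.mp
      rw [← map_pow, hz₂, map_sub, map_mul, hgx, hgy, hgA, hz₁]
      ring
    rw [if_neg (by rw [hgA]; exact hAA.symm)]
    rcases e1 with e1 | e1 <;> rcases e2 with e2 | e2
    · have hgB : g B = B := by
        apply mul_left_cancel₀ hz'
        rw [hgZB, e1, e2, mul_comm, h12]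
      rw [if_pos hgB, DFour_ind_pos g hw₁0 (by rw [map_add, e1, e2]; ring),
        DFour_ind_neg g hw₂0 (by rw [map_sub, e1, e2]; ring)]
      rfl
    · have hgB : g B = -B := by
        apply mul_left_cancel₀ hz'
        rw [hgZB, e1, e2, mul_neg, mul_neg, mul_comm, h12]
      rw [if_neg (by rw [hgB]; exact hBB.symm)]
    · have hgB : g B = -B := by
        apply mul_left_cancel₀ hz'
        rw [hgZB, e1, e2, neg_mul, mul_neg, mul_comm, h12]
      rw [if_neg (by rw [hgB]; exact hBB.symm)]
    · have hgB : g B = B := by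
        apply mul_left_cancel₀ hz'
        rw [hgZB, e1, e2, neg_mul_neg, mul_comm, h12]
      rw [if_pos hgB, DFour_ind_neg g hw₁0 (by rw [map_add, e1, e2]; ring),
        DFour_ind_pos g hw₂0 (by rw [map_sub, e1, e2]; ring)]
      rfl

end ART
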