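import Pool.Agent.ART.StC

/-!
# ART, module Deg: primes over a prime, residue degrees
-/

set_option autoImplicit false

namespace ART

open NumberField IsDedekindDomain

private lemma Deg_two_le {k : Type} [Field k] [NumberField k] (v : HeightOneSpectrum (𝓞 k)) :
    2 ≤ nm v := by
  have h0 : nm v ≠ 0 := by
    unfold nm
    rw [Ne, Ideal.absNorm_eq_zero_iff]
    exact v.ne_bot
  have h1 : nm v ≠ 1 := by
    unfold nm
    rw [Ne, Ideal.absNorm_eq_one_iff]
    exact v.isPrime.ne_top
  omega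

theorem thm_Deg : St_Deg := by
  intro k F _ _ _ _ _
  have hinj : Function.Injective (algebraMap (𝓞 k) (𝓞 F)) :=
    FaithfulSMul.algebraMap_injective (𝓞 k) (𝓞 F)
  refine ⟨?_, ?_⟩
  · intro v
    have : v.asIdeal.IsMaximal := v.isMaximal
    have : v.asIdeal.IsPrime := v.isPrime
    refine ⟨?_, ?_, ?_⟩
    · have hfin : (Ideal.primesOver v.asIdeal (𝓞 F)).Finite :=
        Algebra.QuasiFinite.finite_primesOver v.asIdeal
      refine Set.Finite.of_finite_image (f := fun w : HeightOneSpectrum (𝓞 F) => w.asIdeal)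
        (hfin.subset ?_) (fun a _ b _ hab => HeightOneSpectrum.ext hab)
      rintro I ⟨w, hw, rfl⟩
      exact ⟨w.isPrime, ⟨hw.symm⟩⟩
    · obtain ⟨Q, hQ1, hQ2⟩ := (inferInstance : Nonempty (Ideal.primesOver v.asIdeal (𝓞 F)))
      have h1 : Q.comap (algebraMap (𝓞 k) (𝓞 F)) = v.asIdeal := hQ2.over.symm
      have h2 : Q ≠ ⊥ := by
        intro h
        apply v.ne_bot
        rw [← h1, h]
        rw [← RingHom.ker_eq_comap_bot]
        exact (RingHom.injective_iff_ker_eq_bot _).mp hinj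
      exact ⟨⟨Q, hQ1, h2⟩, h1⟩
    · intro w hw
      have hw' : w.asIdeal.comap (algebraMap (𝓞 k) (𝓞 F)) = v.asIdeal := hw
      have : w.asIdeal.LiesOver v.asIdeal := ⟨hw'.symm⟩
      have h1 : nm w = nm v ^ (v.asIdeal.inertiaDeg' w.asIdeal) :=
        Ideal.absNorm_eq_pow_inertiaDeg'_of_liesOver w.asIdeal v.asIdeal v.isPrime v.ne_bot
      have h2 : rdeg v w = v.asIdeal.inertiaDeg' w.asIdeal := by
        unfold rdeg
        rw [h1]
        exact Nat.log_pow (Deg_two_le v) _
      have h3 : 1 ≤ rdeg v w := by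
        by_contra hcon
        have : v.asIdeal.inertiaDeg' w.asIdeal = 0 := by omega
        rw [this, pow_zero] at h1
        have := Deg_two_le w
        omega
      exact ⟨h3, by rw [h2]; exact h1⟩
  · intro w
    have h1 : w.asIdeal.comap (algebraMap (𝓞 k) (𝓞 F)) ≠ ⊥ := by
      intro h
      exact w.ne_bot (Ideal.eq_bot_of_comap_eq_bot h)
    have : w.asIdeal.IsPrime := w.isPrime
    exact ⟨⟨_, Ideal.comap_isPrime _ w.asIdeal, h1⟩, rfl⟩

end ART
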