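import Pool.Agent.ART.StA

/-!
# ART [Dkz]: there are few prime ideals of small norm
-/

set_option autoImplicit false

namespace ART

open NumberField IsDedekindDomain Filter Asymptotics

private theorem Dkz_fin (F : Type) [Field F] [NumberField F] :
    Northcott (fun w : HeightOneSpectrum (𝓞 F) => nm w) :=
  inferInstanceAs (Northcott fun p : HeightOneSpectrum (𝓞 F) => p.asIdeal.absNorm)

private theorem Dkz_finle (F : Type) [Field F] [NumberField F] (n : ℕ) :
    Finite {w : HeightOneSpectrum (𝓞 F) // nm w ≤ n} :=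
  ((Dkz_fin F).finite_le n).to_subtype

private theorem Dkz_fineq (F : Type) [Field F] [NumberField F] (n : ℕ) :
    {w : HeightOneSpectrum (𝓞 F) | nm w = n}.Finite :=
  ((Dkz_fin F).finite_le n).subset fun _ hw => le_of_eq hw

private theorem Dkz_pos {F : Type} [Field F] [NumberField F] (w : HeightOneSpectrum (𝓞 F)) :
    1 ≤ nm w := by
  have h : nm w ≠ 0 := by
    unfold nm
    rw [Ne, Ideal.absNorm_eq_zero_iff]
    exact w.ne_bot
  omega

private theorem Dkz_sum (F : Type) [Field F] [NumberField F] (n : ℕ) :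
    ∑ k ∈ Finset.Icc 1 n, Nat.card {w : HeightOneSpectrum (𝓞 F) // nm w = k} ≤
      Nat.card {I : Ideal (𝓞 F) // Ideal.absNorm I ≤ n} := by
  rw [← Finset.card_preimage_eq_sum_card_image_eq (fun k _ => Dkz_fineq F k)]
  have hfin : Finite {I : Ideal (𝓞 F) // Ideal.absNorm I ≤ n} :=
    (Ideal.finite_setOfPred_absNorm_le n).to_subtype
  refine Nat.card_le_card_of_injective
    (fun w => ⟨w.1.asIdeal, (Finset.mem_Icc.mp (Finset.mem_coe.mp w.2)).2⟩) ?_
  intro w w' h
  simp only [Subtype.mk.injEq] at h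
  exact Subtype.ext (HeightOneSpectrum.ext h)

private theorem Dkz_O (F : Type) [Field F] [NumberField F] :
    (fun n : ℕ => ∑ k ∈ Finset.Icc 1 n,
      ((Nat.card {w : HeightOneSpectrum (𝓞 F) // nm w = k} : ℕ) : ℝ)) =O[atTop]
      fun n => (n : ℝ) ^ (1 : ℝ) := by
  have h1 := (NumberField.Ideal.tendsto_norm_le_div_atTop F).comp tendsto_natCast_atTop_atTop
  have h2 := h1.isBigO_one ℝ
  obtain ⟨C, hC⟩ := h2.bound
  refine IsBigO.of_bound C ?_
  filter_upwards [hC, eventually_gt_atTop 0] with n hn hn0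
  have hn0' : (0 : ℝ) < n := by exact_mod_cast hn0
  rw [norm_one, mul_one] at hn
  simp only [Function.comp_apply, Nat.cast_le] at hn
  rw [Real.norm_of_nonneg (by positivity), div_le_iff₀ hn0'] at hn
  rw [Real.rpow_one, Real.norm_of_nonneg (by positivity), Real.norm_of_nonneg hn0'.le]
  refine le_trans ?_ hn
  exact_mod_cast Dkz_sum F n

theorem thm_Dkz : St_Dkz := by
  intro F _ _
  refine ⟨Dkz_fin F, ?_⟩
  intro σ hσ
  have h1 : LSeriesSummable (fun n =>
      ((((Nat.card {w : HeightOneSpectrum (𝓞 F) // nm w = n} : ℕ) : ℝ)) : ℂ)) ((σ - 1 : ℝ) : ℂ) := by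
    refine LSeriesSummable_of_sum_norm_bigO_and_nonneg (Dkz_O F) (fun n => Nat.cast_nonneg _)
      zero_le_one ?_
    rw [Complex.ofReal_re]
    linarith
  have h2 : Summable fun n : ℕ =>
      ((Nat.card {w : HeightOneSpectrum (𝓞 F) // nm w = n} : ℕ) : ℝ) * (n : ℝ) ^ (1 - σ) := by
    refine (h1.norm).congr ?_
    intro n
    rw [LSeries.norm_term_eq]
    by_cases hn : n = 0
    · subst hn
      rw [if_pos rfl]
      have h3 : Nat.card {w : HeightOneSpectrum (𝓞 F) // nm w = 0} = 0 := by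
        rw [Nat.card_eq_zero]
        left
        exact ⟨fun w => by have := Dkz_pos w.1; have := w.2; omega⟩
      rw [h3]
      simp
    · rw [if_neg hn, Complex.norm_real, Real.norm_of_nonneg (Nat.cast_nonneg _),
        Complex.ofReal_re, div_eq_mul_inv, ← Real.rpow_neg (Nat.cast_nonneg n), neg_sub]
  rw [← (Equiv.sigmaFiberEquiv (fun w : HeightOneSpectrum (𝓞 F) => nm w)).summable_iff]
  rw [summable_sigma_of_nonneg (fun x => by
    show (0 : ℝ) ≤ _
    exact Real.rpow_nonneg (Nat.cast_nonneg _) _)]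
  constructor
  · intro n
    haveI : Finite {w : HeightOneSpectrum (𝓞 F) // nm w = n} := (Dkz_fineq F n).to_subtype
    exact Summable.of_finite
  · refine h2.congr ?_
    intro n
    have h4 : ∀ y : {w : HeightOneSpectrum (𝓞 F) // nm w = n},
        ((fun w : HeightOneSpectrum (𝓞 F) => (nm w : ℝ) ^ (1 - σ)) ∘
          (Equiv.sigmaFiberEquiv (fun w : HeightOneSpectrum (𝓞 F) => nm w))) ⟨n, y⟩ =
        (n : ℝ) ^ (1 - σ) := by
      intro y
      show ((nm y.1 : ℕ) : ℝ) ^ (1 - σ) = _
      rw [y.2]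
    rw [tsum_congr h4]
    haveI : Finite {w : HeightOneSpectrum (𝓞 F) // nm w = n} := (Dkz_fineq F n).to_subtype
    rw [tsum_const, nsmul_eq_mul]

end ART
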