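import Pool.Agent.ART.StF

/-!
# ART: the product of the Euler factors over almost all primes (St_EF)
-/

set_option autoImplicit false

namespace ART

open scoped ComplexConjugate
open NumberField IsDedekindDomain Polynomial

private lemma EF_common (k : Type) [Field k] [NumberField k] (x y : k) :
    ∃ (N X Y : 𝓞 k), N ≠ 0 ∧ (X : k) = (N : k) ^ 4 * x ∧ (Y : k) = (N : k) ^ 6 * y := by
  obtain ⟨a, b, hb, hab⟩ := IsFractionRing.div_surjective (A := 𝓞 k) x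
  obtain ⟨a', b', hb', hab'⟩ := IsFractionRing.div_surjective (A := 𝓞 k) y
  have hb0 : b ≠ 0 := nonZeroDivisors.ne_zero hb
  have hb0' : b' ≠ 0 := nonZeroDivisors.ne_zero hb'
  have hbk : (algebraMap (𝓞 k) k b) ≠ 0 := by
    intro h
    exact hb0 ((map_eq_zero_iff _ (IsFractionRing.injective (𝓞 k) k)).mp h)
  have hbk' : (algebraMap (𝓞 k) k b') ≠ 0 := by
    intro h
    exact hb0' ((map_eq_zero_iff _ (IsFractionRing.injective (𝓞 k) k)).mp h)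
  refine ⟨b * b', a * b ^ 3 * b' ^ 4, a' * b ^ 6 * b' ^ 5, mul_ne_zero hb0 hb0', ?_, ?_⟩
  · rw [← hab]
    change algebraMap (𝓞 k) k (a * b ^ 3 * b' ^ 4) =
      (algebraMap (𝓞 k) k (b * b')) ^ 4 * (algebraMap (𝓞 k) k a / algebraMap (𝓞 k) k b)
    simp only [map_mul, map_pow]
    field_simp
  · rw [← hab']
    change algebraMap (𝓞 k) k (a' * b ^ 6 * b' ^ 5) =
      (algebraMap (𝓞 k) k (b * b')) ^ 6 * (algebraMap (𝓞 k) k a' / algebraMap (𝓞 k) k b')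
    simp only [map_mul, map_pow]
    field_simp

private lemma EF_fin (k : Type) [Field k] [NumberField k] (x : 𝓞 k) (hx : x ≠ 0) :
    {v : HeightOneSpectrum (𝓞 k) | x ∈ v.asIdeal}.Finite := by
  have h := Ideal.finite_factors (R := 𝓞 k) (I := Ideal.span {x})
    (by simpa [Ideal.zero_eq_bot, Ideal.span_singleton_eq_bot] using hx)
  refine h.subset fun v hv => ?_
  simpa [Ideal.dvd_span_singleton] using hv

private lemma EF_chi {κ : Type} [CommRing κ] (x : κ) (hx : x ≠ 0) : chi x = 1 ∨ chi x = -1 := by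
  classical
  unfold chi
  rw [if_neg hx]
  split_ifs
  · exact Or.inl rfl
  · exact Or.inr rfl

private lemma EF_nm (k : Type) [Field k] [NumberField k] (v : HeightOneSpectrum (𝓞 k)) :
    2 ≤ nm v := by
  unfold nm
  have h0 : Ideal.absNorm v.asIdeal ≠ 0 := by
    rw [Ne, Ideal.absNorm_eq_zero_iff]
    exact v.ne_bot
  have h1 : Ideal.absNorm v.asIdeal ≠ 1 := by
    rw [Ne, Ideal.absNorm_eq_one_iff]
    exact v.isPrime.ne_top
  omega

private lemma EF_cpow (q : ℕ) (f : ℕ) (s : ℂ) :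
    (((q ^ f : ℕ) : ℂ)) ^ s = ((q : ℂ) ^ s) ^ f := by
  induction f with
  | zero => simp
  | succ f ih => rw [pow_succ, Nat.cast_mul, Complex.natCast_mul_natCast_cpow, ih, pow_succ]

private lemma EF_ne (q : ℕ) (hq : 2 ≤ q) (s : ℂ) (hs : 2 < s.re) (a : ℤ) (ε : ℤ)
    (hε : ε = 1 ∨ ε = -1) (f : ℕ) (hf : 1 ≤ f) (ha : |a| ≤ (q : ℤ) ^ f) :
    (1 : ℂ) - ε * a * ((q : ℂ) ^ (-s)) ^ f + (q : ℂ) ^ f * ((q : ℂ) ^ (-s)) ^ (2 * f) ≠ 0 := by
  set T : ℂ := (q : ℂ) ^ (-s) with hT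
  have hq0 : (0 : ℝ) < q := by positivity
  have hq2 : (2 : ℝ) ≤ q := by exact_mod_cast hq
  have hTn : ‖T‖ = (q : ℝ) ^ (-s.re) := by
    rw [hT, Complex.norm_natCast_cpow_of_pos (by omega)]
    simp
  have hT0 : 0 ≤ ‖T‖ := norm_nonneg _
  have hqqT : (q : ℝ) ^ 2 * ‖T‖ ≤ 1 := by
    rw [hTn, ← Real.rpow_natCast (q : ℝ) 2, ← Real.rpow_add hq0]
    refine Real.rpow_le_one_of_one_le_of_nonpos (by linarith) ?_
    push_cast
    linarith
  have hqT : (q : ℝ) * ‖T‖ ≤ 1 / 2 := by nlinarith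
  have hT4 : ‖T‖ ≤ 1 / 4 := by nlinarith
  have hqT0 : 0 ≤ (q : ℝ) * ‖T‖ := by positivity
  have h1 : ‖(ε * a * T ^ f : ℂ)‖ ≤ 1 / 2 := by
    have he : ‖(ε : ℂ)‖ = 1 := by rcases hε with h | h <;> simp [h]
    have hna : ‖(a : ℂ)‖ ≤ (q : ℝ) ^ f := by
      rw [Complex.norm_intCast]
      exact_mod_cast ha
    calc ‖(ε * a * T ^ f : ℂ)‖ = ‖(a : ℂ)‖ * ‖T‖ ^ f := by
          rw [norm_mul, norm_mul, norm_pow, he, one_mul]
      _ ≤ (q : ℝ) ^ f * ‖T‖ ^ f := by gcongr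
      _ = ((q : ℝ) * ‖T‖) ^ f := by rw [mul_pow]
      _ ≤ (q : ℝ) * ‖T‖ := pow_le_of_le_one hqT0 (by linarith) (by omega)
      _ ≤ 1 / 2 := hqT
  have h2 : ‖((q : ℂ) ^ f * T ^ (2 * f) : ℂ)‖ ≤ 1 / 8 := by
    have h3 : (q : ℝ) * ‖T‖ ^ 2 ≤ 1 / 8 := by nlinarith
    have h4 : 0 ≤ (q : ℝ) * ‖T‖ ^ 2 := by positivity
    calc ‖((q : ℂ) ^ f * T ^ (2 * f) : ℂ)‖ = (q : ℝ) ^ f * ‖T‖ ^ (2 * f) := by
          rw [norm_mul, norm_pow, norm_pow, Complex.norm_natCast]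
      _ = ((q : ℝ) * ‖T‖ ^ 2) ^ f := by rw [mul_pow, pow_mul]
      _ ≤ (q : ℝ) * ‖T‖ ^ 2 := pow_le_of_le_one h4 (by linarith) (by omega)
      _ ≤ 1 / 8 := h3
  intro h0
  have h5 : (1 : ℂ) = ε * a * T ^ f - (q : ℂ) ^ f * T ^ (2 * f) := by
    linear_combination h0
  have h6 : (1 : ℝ) ≤ 1 / 2 + 1 / 8 := by
    calc (1 : ℝ) = ‖(1 : ℂ)‖ := by simp
      _ = ‖(ε * a * T ^ f - (q : ℂ) ^ f * T ^ (2 * f) : ℂ)‖ := by rw [← h5]
      _ ≤ ‖(ε * a * T ^ f : ℂ)‖ + ‖((q : ℂ) ^ f * T ^ (2 * f) : ℂ)‖ := norm_sub_le _ _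
      _ ≤ 1 / 2 + 1 / 8 := by linarith
  norm_num at h6

theorem thm_EF (h1 : St_LW) (h3 : St_Cl) (h4 : St_Cnt) (h5 : St_Frob) (h6 : St_Comb)
    (h7 : St_Deg) : St_EF := by
  classical
  intro k _ _ E ι _ F _ _ _ d n hΔ hd hrel A hA
  obtain ⟨N, C₄, C₆, hN, hC₄, hC₆⟩ := EF_common k E.c₄ E.c₆
  have hNk : (N : k) ≠ 0 := by
    intro h
    exact hN ((map_eq_zero_iff _ (IsFractionRing.injective (𝓞 k) k)).mp h)
  have hC : C₄ ^ 3 - C₆ ^ 2 ≠ 0 := by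
    intro h
    have h' : ((C₄ : k)) ^ 3 - (C₆ : k) ^ 2 = 0 := by
      have := congrArg (algebraMap (𝓞 k) k) h
      simpa using this
    rw [hC₄, hC₆] at h'
    have h'' : (N : k) ^ 12 * (1728 * E.Δ) = 0 := by
      rw [E.c_relation]
      linear_combination h'
    have h3' : (1728 : k) ≠ 0 := by norm_num
    exact mul_ne_zero (pow_ne_zero 12 hNk) (mul_ne_zero h3' hΔ) h''
  obtain ⟨M, _, _, _, hGal, hFull, hcl⟩ := h3 k ι F (fun i => (d i : F i))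
  choose S hSfin hS using fun i => h4 k (F i) M (d i) (hd i) (hFull i)
  have h23 : (2 : 𝓞 k) * 3 * (C₄ ^ 3 - C₆ ^ 2) ≠ 0 := by
    refine mul_ne_zero (mul_ne_zero ?_ ?_) hC <;> norm_num
  refine ⟨(⋃ i, S i) ∪ {v | (2 : 𝓞 k) * 3 * (C₄ ^ 3 - C₆ ^ 2) ∈ v.asIdeal},
    (Set.finite_iUnion hSfin).union (EF_fin k _ h23), ?_⟩
  intro v hv s hs
  rw [Set.mem_union, not_or, Set.mem_iUnion, not_exists, Set.mem_setOf_eq] at hv
  obtain ⟨hvS, hvC⟩ := hv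
  have hv2 : (2 : 𝓞 k) ∉ v.asIdeal := fun h =>
    hvC (Ideal.mul_mem_right _ _ (Ideal.mul_mem_right _ _ h))
  have hv3 : (3 : 𝓞 k) ∉ v.asIdeal := fun h =>
    hvC (Ideal.mul_mem_right _ _ (Ideal.mul_mem_left _ _ h))
  have hv4 : C₄ ^ 3 - C₆ ^ 2 ∉ v.asIdeal := fun h => hvC (Ideal.mul_mem_left _ _ h)
  obtain ⟨P, g, hPg⟩ := h5 k M v
  obtain ⟨a, ha1, ha2, ha3⟩ := h1 k C₄ C₆ v hv2 hv3 hv4
  have hq : 2 ≤ nm v := EF_nm k v
  -- finiteness
  have hfin : ∀ i, Finite (ovr (F i) v) := fun i => ((h7 k (F i)).1 v).1.to_subtype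
  let _ : ∀ i, Fintype (ovr (F i) v) := fun i => Fintype.ofFinite _
  have hdeg : ∀ i (w : ovr (F i) v), 1 ≤ rdeg v w.1 ∧ nm w.1 = nm v ^ rdeg v w.1 :=
    fun i w => ((h7 k (F i)).1 v).2.2 w.1 w.2
  have hdw : ∀ i (w : ovr (F i) v), d i ∉ w.1.asIdeal := fun i w => (hS i v (hvS i)).2.2.1 w.1 w.2
  have hchi : ∀ i (w : ovr (F i) v),
      chi (Ideal.Quotient.mk w.1.asIdeal (d i)) = 1 ∨
        chi (Ideal.Quotient.mk w.1.asIdeal (d i)) = -1 := by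
    intro i w
    refine EF_chi _ fun h => hdw i w ?_
    exact Ideal.Quotient.eq_zero_iff_mem.mp h
  have hrel' : ∀ m : ℕ, 1 ≤ m → ∑ i, n i * ∑ w : ovr (F i) v,
      ctr (rdeg v w.1) (chi (Ideal.Quotient.mk w.1.asIdeal (d i))) m = 0 := by
    intro m hm
    obtain ⟨g', hg'⟩ := hcl (g ^ m)
    have e1 := hrel g'
    have e2 : ∀ i, sgn (d i : F i) g' = 2 * ∑ w : ovr (F i) v,
        ctr (rdeg v w.1) (chi (Ideal.Quotient.mk w.1.asIdeal (d i))) m := by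
      intro i
      rw [← hg' i, (hS i v (hvS i)).2.2.2 P g hPg m hm, finsum_eq_sum_of_fintype]
    have e3 : ∑ i, n i * (2 * ∑ w : ovr (F i) v,
        ctr (rdeg v w.1) (chi (Ideal.Quotient.mk w.1.asIdeal (d i))) m) = 0 := by
      rw [← e1]
      exact Finset.sum_congr rfl fun i _ => by rw [e2 i]
    have e4 : 2 * ∑ i, n i * ∑ w : ovr (F i) v,
        ctr (rdeg v w.1) (chi (Ideal.Quotient.mk w.1.asIdeal (d i))) m = 0 := by
      rw [← e3, Finset.mul_sum]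
      exact Finset.sum_congr rfl fun i _ => by ring
    omega
  set T : ℂ := (nm v : ℂ) ^ (-s) with hT
  let p0 : ℕ → ℤ → ℂ := fun f ε => 1 - ε * a f * T ^ f + (nm v : ℂ) ^ f * T ^ (2 * f)
  have hp0 : ∀ f, 1 ≤ f → ∀ ε : ℤ, (ε = 1 ∨ ε = -1) → p0 f ε ≠ 0 := by
    intro f hf ε hε
    exact EF_ne (nm v) hq s hs (a f) ε hε f hf (ha1 f hf)
  let p : ℕ → ℤ → ℂˣ := fun f ε => if h : p0 f ε ≠ 0 then Units.mk0 _ h else 1
  have hp : ∀ f, 1 ≤ f → ∀ ε : ℤ, (ε = 1 ∨ ε = -1) → ((p f ε : ℂˣ) : ℂ) = p0 f ε := by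
    intro f hf ε hε
    simp only [p]
    rw [dif_pos (hp0 f hf ε hε), Units.val_mk0]
  have hpp : ∀ j, 1 ≤ j → p j 1 * p j (-1) = p (2 * j) 1 := by
    intro j hj
    apply Units.ext
    rw [Units.val_mul, hp j hj 1 (Or.inl rfl), hp j hj (-1) (Or.inr rfl),
      hp (2 * j) (by omega) 1 (Or.inl rfl)]
    simp only [p0]
    rw [ha2 j hj]
    push_cast
    rw [show T ^ (2 * (2 * j)) = (T ^ j) ^ 4 by rw [← pow_mul]; congr 1; ring,
      show T ^ (2 * j) = (T ^ j) ^ 2 by rw [← pow_mul]; congr 1; ring,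
      show (nm v : ℂ) ^ (2 * j) = ((nm v : ℂ) ^ j) ^ 2 by rw [← pow_mul]; congr 1; ring]
    ring
  have key := h6 ι (fun i => ovr (F i) v) n (fun i w => rdeg v w.1)
    (fun i w => chi (Ideal.Quotient.mk w.1.asIdeal (d i))) (fun i w => (hdeg i w).1) hchi hrel'
    ℂˣ p hpp
  have hev : ∀ i (w : ovr (F i) v), evp (A i) w.1 s =
      ((p (rdeg v w.1) (chi (Ideal.Quotient.mk w.1.asIdeal (d i))) : ℂˣ) : ℂ) := by
    intro i w
    obtain ⟨u, hu, hu4, hu6⟩ := hA i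
    have hNF : algebraMap k (F i) (N : k) ≠ 0 := by
      intro h
      exact hNk ((map_eq_zero_iff _ (algebraMap k (F i)).injective).mp h)
    have hlp := ha3 (F i) (d i) (u / algebraMap k (F i) (N : k)) (A i) (div_ne_zero hu hNF)
      (by rw [hu4, hC₄, map_mul, map_pow]; field_simp)
      (by rw [hu6, hC₆, map_mul, map_pow]; field_simp) w.1 w.2 (hdw i w)
    rw [hp _ (hdeg i w).1 _ (hchi i w)]
    unfold evp
    rw [hlp, (hdeg i w).2, EF_cpow, ← hT]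
    simp only [p0, map_add, map_sub, map_mul, map_one, map_pow, aeval_X, aeval_C]
    simp only [algebraMap_int_eq, eq_intCast, Int.cast_mul, Int.cast_pow, Int.cast_natCast]
    rw [pow_mul' T 2]
  have hval := congrArg (fun x : ℂˣ => (x : ℂ)) key
  simp only [Units.val_one] at hval
  rw [← hval, Units.coe_prod]
  refine Finset.prod_congr rfl fun i _ => ?_
  rw [Units.val_zpow_eq_zpow_val, Units.coe_prod, finprod_eq_prod_of_fintype]
  congr 1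
  exact Finset.prod_congr rfl fun w _ => hev i w

end ART
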