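import Pool.Agent.ART.StC

/-!
# Embeddings of finite fields
-/

set_option autoImplicit false

namespace ART

private lemma EmbF_exp (Q j : ℕ) (hQ : Q % 2 = 1) :
    (Q ^ (j + 1) - 1) / 2 = (Q ^ j - 1) / 2 * Q + Q / 2 := by
  have hodd : Odd Q := Nat.odd_iff.2 hQ
  obtain ⟨a, ha⟩ := hodd.pow (n := j)
  obtain ⟨b, hb⟩ := hodd
  have h1 : Q ^ (j + 1) = 2 * (2 * a * b + a + b) + 1 := by
    rw [pow_succ, ha, hb]; ring
  rw [h1, ha, hb]
  have h2 : (2 * (2 * a * b + a + b) + 1 - 1) / 2 = 2 * a * b + a + b := by omega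
  have h3 : (2 * a + 1 - 1) / 2 = a := by omega
  have h4 : (2 * b + 1) / 2 = b := by omega
  rw [h2, h3, h4]
  ring

private lemma EmbF_fix (κ₀ κ₁ : Type) [Field κ₀] [Finite κ₀] [Field κ₁] [Finite κ₁]
    (f m : ℕ) (hcard : Nat.card κ₁ = Nat.card κ₀ ^ f) :
    (∀ x : κ₁, x ^ Nat.card κ₀ ^ m = x) ↔ f ∣ m := by
  have := Fintype.ofFinite κ₁
  have hq : 2 ≤ Nat.card κ₀ := Finite.one_lt_card
  constructor
  · intro h
    obtain ⟨g, hg⟩ := IsCyclic.exists_generator (α := κ₁ˣ)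
    have horder : orderOf g = Nat.card κ₀ ^ f - 1 := by
      rw [orderOf_eq_card_of_forall_mem_zpowers hg, Nat.card_units, hcard]
    have hpow : g ^ (Nat.card κ₀ ^ m - 1) = 1 := by
      have h1 : g ^ Nat.card κ₀ ^ m = g := Units.ext (by
        rw [Units.val_pow_eq_pow_val]; exact h _)
      have hpos : 1 ≤ Nat.card κ₀ ^ m := Nat.one_le_pow _ _ (by omega)
      have h2 : g ^ (Nat.card κ₀ ^ m - 1) * g = 1 * g := by
        rw [← pow_succ, Nat.sub_add_cancel hpos, h1, one_mul]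
      exact mul_right_cancel h2
    have hdvd : Nat.card κ₀ ^ f - 1 ∣ Nat.card κ₀ ^ m - 1 := by
      rw [← horder]
      exact orderOf_dvd_of_pow_eq_one hpow
    have hgcd := Nat.gcd_eq_left hdvd
    rw [Nat.pow_sub_one_gcd_pow_sub_one] at hgcd
    have h1 : 1 ≤ Nat.card κ₀ ^ Nat.gcd f m := Nat.one_le_pow _ _ (by omega)
    have h2 : 1 ≤ Nat.card κ₀ ^ f := Nat.one_le_pow _ _ (by omega)
    have h3 : Nat.card κ₀ ^ Nat.gcd f m = Nat.card κ₀ ^ f := by omega
    have h4 : Nat.gcd f m = f := Nat.pow_right_injective hq h3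
    rw [← h4]
    exact Nat.gcd_dvd_right f m
  · rintro ⟨c, rfl⟩ x
    rw [pow_mul (Nat.card κ₀) f c, ← hcard, Nat.card_eq_fintype_card]
    exact FiniteField.pow_card_pow c x

private lemma EmbF_card (κ₀ κ₁ κ : Type) [Field κ₀] [Finite κ₀] [Field κ₁] [Finite κ₁]
    [Field κ] [Finite κ] [Algebra κ₀ κ₁] [Algebra κ₀ κ] (f : ℕ)
    (hcard : Nat.card κ₁ = Nat.card κ₀ ^ f) (hne : Nonempty (κ₁ →ₐ[κ₀] κ)) :
    Nat.card (κ₁ →ₐ[κ₀] κ) = f := by
  have hq : 2 ≤ Nat.card κ₀ := Finite.one_lt_card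
  have h1 : Module.finrank κ₀ κ₁ ∣ Module.finrank κ₀ κ :=
    FiniteField.nonempty_algHom_iff_finrank_dvd.1 hne
  rw [FiniteField.natCard_algHom_of_finrank_dvd h1]
  have h2 : Nat.card κ₁ = Nat.card κ₀ ^ Module.finrank κ₀ κ₁ := Module.natCard_eq_pow_finrank
  exact Nat.pow_right_injective hq (h2.symm.trans hcard)

/-- Embeddings of finite fields and powers in finite fields. -/
theorem thm_EmbF : St_EmbF := by
  refine ⟨?_, ?_⟩
  · intro κ₀ κ₁ κ _ _ _ _ _ _ _ _ f m _ _ hcard hne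
    have hiff : ∀ ψ : κ₁ →ₐ[κ₀] κ, (∀ x, ψ x ^ Nat.card κ₀ ^ m = ψ x) ↔ f ∣ m := by
      intro ψ
      rw [← EmbF_fix κ₀ κ₁ f m hcard]
      refine forall_congr' fun x => ?_
      rw [← map_pow]
      exact ψ.toRingHom.injective.eq_iff
    by_cases hd : f ∣ m
    · rw [if_pos hd, ← EmbF_card κ₀ κ₁ κ f hcard hne]
      exact Nat.card_congr (Equiv.subtypeUnivEquiv fun ψ => (hiff ψ).2 hd)
    · rw [if_neg hd]
      have : IsEmpty {ψ : κ₁ →ₐ[κ₀] κ // ∀ x, ψ x ^ Nat.card κ₀ ^ m = ψ x} :=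
        ⟨fun ψ => hd ((hiff ψ.1).1 ψ.2)⟩
      exact Nat.card_of_isEmpty
  · intro κ _ _ h2 x j hx _
    have := Fintype.ofFinite κ
    have hchar : ringChar κ ≠ 2 := by
      intro h
      have h3 := ringChar.Nat.cast_ringChar (R := κ)
      rw [h] at h3
      exact h2 (by exact_mod_cast h3)
    have hodd := FiniteField.odd_card_of_char_ne_two hchar
    have hchi : x ^ (Fintype.card κ / 2) = ((chi x : ℤ) : κ) := by
      unfold chi
      rw [if_neg hx]
      by_cases hs : IsSquare x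
      · rw [if_pos hs, (FiniteField.isSquare_iff hchar hx).1 hs, Int.cast_one]
      · rw [if_neg hs, Int.cast_neg, Int.cast_one]
        rcases FiniteField.pow_dichotomy hchar hx with h | h
        · exact absurd ((FiniteField.isSquare_iff hchar hx).2 h) hs
        · exact h
    rw [Nat.card_eq_fintype_card]
    induction j with
    | zero => simp
    | succ j ih =>
        have ih' : x ^ ((Fintype.card κ ^ j - 1) / 2) = ((chi x ^ j : ℤ) : κ) := by
          rcases Nat.eq_zero_or_pos j with rfl | hj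
          · simp
          · exact ih hj
        rw [EmbF_exp _ _ hodd, pow_add, pow_mul, ih', hchi, FiniteField.pow_card, pow_succ,
          Int.cast_mul]

end ART
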