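import Pool.Agent.ART.StA

/-!
# ART, module Eul: the formal Euler product converges
-/

set_option autoImplicit false

namespace ART

open Polynomial ArithmeticFunction Filter

/-- the arithmetic function as a complex sequence -/
private noncomputable def cc (F : ArithmeticFunction ℤ) : ℕ → ℂ := fun n => ((F n : ℤ) : ℂ)

private theorem ratio_lt {q : ℕ} {σ : ℝ} (hq : 2 ≤ q) (hσ : 2 < σ) :
    2 * (q : ℝ) ^ (1 - σ) ≤ (2 : ℝ) ^ (2 - σ) ∧ (2 : ℝ) ^ (2 - σ) < 1 := by
  have h2 : (2 : ℝ) ≤ q := by exact_mod_cast hq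
  constructor
  · have h1 : (q : ℝ) ^ (1 - σ) ≤ (2 : ℝ) ^ (1 - σ) :=
      Real.rpow_le_rpow_of_nonpos (by norm_num) h2 (by linarith)
    have h3 : (2 : ℝ) ^ (2 - σ) = 2 * (2 : ℝ) ^ (1 - σ) := by
      rw [show (2 : ℝ) - σ = 1 + (1 - σ) by ring, Real.rpow_add (by norm_num), Real.rpow_one]
    rw [h3]
    linarith
  · exact Real.rpow_lt_one_of_one_lt_of_neg (by norm_num) (by linarith)

private theorem coeff_bd {q : ℕ} {f : PowerSeries ℤ} {s : ℂ} (hq : 2 ≤ q)
    (hc : ∀ k, |f.coeff k| ≤ (2 * (q : ℤ)) ^ k) (k : ℕ) :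
    ‖((f.coeff k : ℤ) : ℂ) * ((q : ℂ) ^ (-s)) ^ k‖ ≤ (2 * (q : ℝ) ^ (1 - s.re)) ^ k := by
  have hq0 : 0 < q := by omega
  have hqr : (0 : ℝ) < q := by exact_mod_cast hq0
  rw [norm_mul, norm_pow, Complex.norm_natCast_cpow_of_pos hq0, Complex.neg_re]
  have h1 : ‖((f.coeff k : ℤ) : ℂ)‖ ≤ (2 * (q : ℝ)) ^ k := by
    rw [Complex.norm_intCast]
    have := hc k
    exact_mod_cast this
  have h2 : (2 * (q : ℝ) ^ (1 - s.re)) ^ k = (2 * (q : ℝ)) ^ k * ((q : ℝ) ^ (-s.re)) ^ k := by
    rw [← mul_pow, show (1 : ℝ) - s.re = 1 + (-s.re) by ring, Real.rpow_add hqr, Real.rpow_one]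
    ring
  rw [h2]
  exact mul_le_mul_of_nonneg_right h1 (pow_nonneg (Real.rpow_nonneg hqr.le _) _)

private theorem local_summable {q : ℕ} {f : PowerSeries ℤ} {s : ℂ} (hq : 2 ≤ q)
    (hc : ∀ k, |f.coeff k| ≤ (2 * (q : ℤ)) ^ k) (hs : 2 < s.re) :
    Summable (fun k => ‖((f.coeff k : ℤ) : ℂ) * ((q : ℂ) ^ (-s)) ^ k‖) := by
  obtain ⟨h1, h2⟩ := ratio_lt hq hs
  refine Summable.of_nonneg_of_le (fun k => norm_nonneg _) (coeff_bd hq hc) ?_
  have h3 : (0 : ℝ) ≤ 2 * (q : ℝ) ^ (1 - s.re) := by positivity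
  exact summable_geometric_of_lt_one h3 (by linarith)

private theorem term_pow {q : ℕ} (hq : 2 ≤ q) (f : PowerSeries ℤ) (s : ℂ) (k : ℕ) :
    LSeries.term (cc (ofPowerSeries q f)) s (q ^ k) =
      ((f.coeff k : ℤ) : ℂ) * ((q : ℂ) ^ (-s)) ^ k := by
  have hq0 : q ≠ 0 := by omega
  rw [LSeries.term_of_ne_zero (pow_ne_zero k hq0)]
  unfold cc
  rw [ofPowerSeries_apply_pow (by omega), div_eq_mul_inv, Nat.cast_pow,
    ← Complex.natCast_cpow_natCast_mul, Complex.cpow_nat_mul, Complex.cpow_neg, inv_pow]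

private theorem term_out {q : ℕ} (hq : 2 ≤ q) (f : PowerSeries ℤ) (s : ℂ) (n : ℕ)
    (hn : n ∉ Set.range (fun k : ℕ => q ^ k)) :
    LSeries.term (cc (ofPowerSeries q f)) s n = 0 := by
  rcases eq_or_ne n 0 with h | h
  · rw [h, LSeries.term_zero]
  · rw [LSeries.term_of_ne_zero h]
    unfold cc
    rw [ofPowerSeries_apply (by omega), Function.extend_apply' _ _ _ (by
      rintro ⟨k, hk⟩
      exact hn ⟨k, hk⟩)]
    simp

private theorem one_factor {q : ℕ} {f : PowerSeries ℤ} {s : ℂ} (hq : 2 ≤ q)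
    (hc : ∀ k, |f.coeff k| ≤ (2 * (q : ℤ)) ^ k) (hs : 2 < s.re) :
    LSeriesSummable (cc (ofPowerSeries q f)) s ∧
      LSeries (cc (ofPowerSeries q f)) s =
        ∑' k, ((f.coeff k : ℤ) : ℂ) * ((q : ℂ) ^ (-s)) ^ k := by
  have hinj : Function.Injective (fun k : ℕ => q ^ k) := Nat.pow_right_injective hq
  constructor
  · unfold LSeriesSummable
    rw [← hinj.summable_iff (fun n hn => term_out hq f s n hn)]
    have h := (local_summable hq hc hs).of_norm
    refine h.congr fun k => ?_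
    exact (term_pow hq f s k).symm
  · unfold LSeries
    rw [← hinj.tsum_eq (f := LSeries.term (cc (ofPowerSeries q f)) s) (by
      intro n hn
      by_contra hcon
      exact hn (term_out hq f s n hcon))]
    exact tsum_congr fun k => term_pow hq f s k

private theorem cc_mul (F G : ArithmeticFunction ℤ) :
    cc (F * G) = (((F : ArithmeticFunction ℂ) * (G : ArithmeticFunction ℂ) :
      ArithmeticFunction ℂ) : ℕ → ℂ) := by
  funext n
  unfold cc
  rw [← intCoe_mul, intCoe_apply]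

private theorem cc_coe (F : ArithmeticFunction ℤ) :
    cc F = ((F : ArithmeticFunction ℂ) : ℕ → ℂ) := by
  funext n
  unfold cc
  rw [intCoe_apply]

private theorem fin_prod {ι : Type} (q : ι → ℕ) (f : ι → PowerSeries ℤ) (s : ℂ)
    (hq : ∀ i, 2 ≤ q i) (hc : ∀ i k, |(f i).coeff k| ≤ (2 * (q i : ℤ)) ^ k) (hs : 2 < s.re)
    (S : Finset ι) :
    LSeriesSummable (cc (∏ i ∈ S, ofPowerSeries (q i) (f i))) s ∧
      LSeries (cc (∏ i ∈ S, ofPowerSeries (q i) (f i))) s =
        ∏ i ∈ S, ∑' k, (((f i).coeff k : ℤ) : ℂ) * ((q i : ℂ) ^ (-s)) ^ k := by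
  classical
  induction S using Finset.induction_on with
  | empty =>
    rw [Finset.prod_empty, Finset.prod_empty]
    have h1 : cc (1 : ArithmeticFunction ℤ) = LSeries.delta := by
      funext n
      unfold cc LSeries.delta
      rw [one_apply]
      split_ifs <;> simp
    rw [h1]
    constructor
    · unfold LSeriesSummable
      refine summable_of_ne_finset_zero (s := {1}) fun n hn => ?_
      rw [LSeries.term_delta, if_neg]
      simpa using hn
    · rw [LSeries_delta, Pi.one_apply]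
  | insert i S hi ih =>
    obtain ⟨h1, h2⟩ := one_factor (hq i) (hc i) hs
    obtain ⟨h3, h4⟩ := ih
    rw [Finset.prod_insert hi, Finset.prod_insert hi, cc_mul, ← h2, ← h4]
    rw [cc_coe] at h1 h3
    rw [cc_coe (ofPowerSeries (q i) (f i)), cc_coe (∏ i ∈ S, ofPowerSeries (q i) (f i))]
    exact ⟨LSeriesSummable_mul h1 h3, LSeries_mul' h1 h3⟩

/-- the power series with absolute coefficients -/
private noncomputable def ab (f : PowerSeries ℤ) : PowerSeries ℤ :=
  PowerSeries.mk fun k => |f.coeff k|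

private theorem ab_coeff (f : PowerSeries ℤ) (k : ℕ) : (ab f).coeff k = |f.coeff k| :=
  PowerSeries.coeff_mk _ _

private theorem ab_const {f : PowerSeries ℤ} (h : f.constantCoeff = 1) :
    (ab f).constantCoeff = 1 := by
  rw [← PowerSeries.coeff_zero_eq_constantCoeff_apply, ab_coeff,
    PowerSeries.coeff_zero_eq_constantCoeff_apply, h]
  rfl

private theorem abs_one {q : ℕ} (hq : 2 ≤ q) (f : PowerSeries ℤ) (n : ℕ) :
    |ofPowerSeries q f n| ≤ ofPowerSeries q (ab f) n := by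
  rw [ofPowerSeries_apply (by omega), ofPowerSeries_apply (by omega)]
  by_cases h : ∃ k, q ^ k = n
  · obtain ⟨k, rfl⟩ := h
    have hinj : Function.Injective (fun k : ℕ => q ^ k) := Nat.pow_right_injective hq
    rw [hinj.extend_apply, hinj.extend_apply, ab_coeff]
  · rw [Function.extend_apply' _ _ _ h, Function.extend_apply' _ _ _ h]
    simp

private theorem abs_prod {ι : Type} (q : ι → ℕ) (f : ι → PowerSeries ℤ) (hq : ∀ i, 2 ≤ q i)
    (S : Finset ι) : ∀ n, |(∏ i ∈ S, ofPowerSeries (q i) (f i)) n| ≤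
      (∏ i ∈ S, ofPowerSeries (q i) (ab (f i))) n := by
  classical
  induction S using Finset.induction_on with
  | empty =>
    intro n
    rw [Finset.prod_empty, Finset.prod_empty, one_apply]
    split_ifs <;> simp
  | insert i S hi ih =>
    intro n
    rw [Finset.prod_insert hi, Finset.prod_insert hi, mul_apply, mul_apply]
    refine le_trans (Finset.abs_sum_le_sum_abs _ _) (Finset.sum_le_sum fun x _ => ?_)
    rw [abs_mul]
    exact mul_le_mul (abs_one (hq i) (f i) x.1) (ih x.2) (abs_nonneg _)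
      (le_trans (abs_nonneg _) (abs_one (hq i) (f i) x.1))

private theorem prod_nonneg {ι : Type} (q : ι → ℕ) (f : ι → PowerSeries ℤ) (hq : ∀ i, 2 ≤ q i)
    (S : Finset ι) (n : ℕ) : 0 ≤ (∏ i ∈ S, ofPowerSeries (q i) (ab (f i))) n :=
  le_trans (abs_nonneg _) (abs_prod q f hq S n)

private theorem prod_mono {ι : Type} (q : ι → ℕ) (f : ι → PowerSeries ℤ) (hq : ∀ i, 2 ≤ q i)
    (hf : ∀ i, (f i).constantCoeff = 1) {S T : Finset ι} (h : S ⊆ T) (n : ℕ) :
    (∏ i ∈ S, ofPowerSeries (q i) (ab (f i))) n ≤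
      (∏ i ∈ T, ofPowerSeries (q i) (ab (f i))) n := by
  classical
  have key : ∀ U : Finset ι, Disjoint S U →
      (∏ i ∈ S, ofPowerSeries (q i) (ab (f i))) n ≤
        (∏ i ∈ S ∪ U, ofPowerSeries (q i) (ab (f i))) n := by
    intro U
    induction U using Finset.induction_on with
    | empty =>
      intro _
      rw [Finset.union_empty]
    | insert i U hi ih =>
      intro hd
      have hd' : Disjoint S U := hd.mono_right (Finset.subset_insert i U)
      have hiS : i ∉ S := fun hh => Finset.disjoint_left.1 hd hh (Finset.mem_insert_self i U)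
      refine le_trans (ih hd') ?_
      rw [Finset.union_insert, Finset.prod_insert (by
        rw [Finset.mem_union]
        rintro (h1 | h1)
        · exact hiS h1
        · exact hi h1)]
      rcases Nat.eq_zero_or_pos n with h0 | h0
      · rw [h0]
        simp
      · rw [mul_apply]
        have hmem : (1, n) ∈ n.divisorsAntidiagonal := by
          rw [Nat.mem_divisorsAntidiagonal]
          exact ⟨one_mul n, by omega⟩
        have h1 := Finset.single_le_sum (f := fun x : ℕ × ℕ =>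
          (ofPowerSeries (q i) (ab (f i))) x.1 *
            (∏ i ∈ S ∪ U, ofPowerSeries (q i) (ab (f i))) x.2)
          (fun x _ => mul_nonneg (le_trans (abs_nonneg _) (abs_one (hq i) (f i) x.1))
            (prod_nonneg q f hq _ x.2)) hmem
        simp only at h1
        rw [ofPowerSeries_apply_one, ab_const (hf i), one_mul] at h1
        exact h1
  have h2 := key (T \ S) Finset.disjoint_sdiff
  rwa [Finset.union_sdiff_of_subset h] at h2

/-- bound of a local factor -/
private theorem factor_bd {q : ℕ} {f : PowerSeries ℤ} {s : ℂ} (hq : 2 ≤ q)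
    (hc : ∀ k, |f.coeff k| ≤ (2 * (q : ℤ)) ^ k) (hs : 2 < s.re) :
    ‖∑' k, ((f.coeff k : ℤ) : ℂ) * ((q : ℂ) ^ (-s)) ^ k‖ ≤
      Real.exp (2 / (1 - (2 : ℝ) ^ (2 - s.re)) * (q : ℝ) ^ (1 - s.re)) := by
  obtain ⟨h1, h2⟩ := ratio_lt hq hs
  set r : ℝ := 2 * (q : ℝ) ^ (1 - s.re) with hr
  set u : ℝ := (2 : ℝ) ^ (2 - s.re) with hu
  have h3 : (0 : ℝ) ≤ r := by positivity
  have h4 : r < 1 := by linarith
  have h5 : ‖∑' k, ((f.coeff k : ℤ) : ℂ) * ((q : ℂ) ^ (-s)) ^ k‖ ≤ (1 - r)⁻¹ := by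
    refine le_trans (norm_tsum_le_tsum_norm (local_summable hq hc hs)) ?_
    rw [← tsum_geometric_of_lt_one h3 h4]
    exact (local_summable hq hc hs).tsum_le_tsum (coeff_bd hq hc)
      (summable_geometric_of_lt_one h3 h4)
  refine le_trans h5 ?_
  have h6 : 2 / (1 - u) * (q : ℝ) ^ (1 - s.re) = r / (1 - u) := by
    rw [hr]
    ring
  rw [h6]
  have h7 : r / (1 - r) ≤ r / (1 - u) :=
    div_le_div_of_nonneg_left h3 (by linarith) (by linarith)
  have h8 : (1 - r)⁻¹ = r / (1 - r) + 1 := by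
    have : (1 : ℝ) - r ≠ 0 := by linarith
    field_simp
    ring
  rw [h8]
  exact le_trans (Real.add_one_le_exp _) (Real.exp_le_exp.2 h7)

theorem thm_Eul : St_Eul := by
  intro ι q f s hN hq hf hc hs hsum
  classical
  have := hN
  set P : ArithmeticFunction ℤ := eulerProduct fun i => ofPowerSeries (q i) (f i) with hP
  set Q : ArithmeticFunction ℤ := eulerProduct fun i => ofPowerSeries (q i) (ab (f i)) with hQ
  have hcab : ∀ i k, |(ab (f i)).coeff k| ≤ (2 * (q i : ℤ)) ^ k := by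
    intro i k
    rw [ab_coeff, abs_abs]
    exact hc i k
  have hPev := tendsTo_eulerProduct_ofPowerSeries q f hf
  have hQev := tendsTo_eulerProduct_ofPowerSeries q (fun i => ab (f i)) (fun i => ab_const (hf i))
  -- the partial products are bounded by `Q`
  have hSQ : ∀ (S : Finset ι) (n : ℕ), |(∏ i ∈ S, ofPowerSeries (q i) (f i)) n| ≤ Q n := by
    intro S n
    obtain ⟨T, hT⟩ := eventually_atTop.1 (hQev n)
    have h1 := hT (S ∪ T) Finset.subset_union_right
    refine le_trans (abs_prod q f hq S n) ?_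
    rw [hQ, ← h1]
    exact prod_mono q f hq hf Finset.subset_union_left n
  have hQ0 : ∀ n, 0 ≤ Q n := fun n => le_trans (abs_nonneg _) (hSQ ∅ n)
  set C : ℝ := 2 / (1 - (2 : ℝ) ^ (2 - s.re)) with hC
  have hCpos : 0 < C := by
    have h2 : (2 : ℝ) ^ (2 - s.re) < 1 :=
      Real.rpow_lt_one_of_one_lt_of_neg (by norm_num) (by linarith)
    exact div_pos (by norm_num) (by linarith)
  set M : ℝ := Real.exp (C * ∑' i, (q i : ℝ) ^ (1 - s.re)) with hM
  -- real exponent
  have hre : ((s.re : ℝ) : ℂ).re = s.re := Complex.ofReal_re _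
  have hterm : ∀ (F : ArithmeticFunction ℤ) (n : ℕ), 0 ≤ F n →
      (LSeries.term (cc F) ((s.re : ℝ) : ℂ) n).re = ‖LSeries.term (cc F) s n‖ ∧
        ‖LSeries.term (cc F) s n‖ = if n = 0 then 0 else ((F n : ℤ) : ℝ) / (n : ℝ) ^ s.re := by
    intro F n hF
    have hF' : (0 : ℝ) ≤ ((F n : ℤ) : ℝ) := by exact_mod_cast hF
    have h1 : ‖LSeries.term (cc F) s n‖ =
        if n = 0 then 0 else ((F n : ℤ) : ℝ) / (n : ℝ) ^ s.re := by
      rw [LSeries.norm_term_eq]
      unfold cc
      rw [Complex.norm_intCast, abs_of_nonneg hF']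
    refine ⟨?_, h1⟩
    rw [h1]
    rcases Nat.eq_zero_or_pos n with h0 | h0
    · rw [h0, LSeries.term_zero]
      simp
    · rw [LSeries.term_of_ne_zero (by omega), if_neg (by omega)]
      unfold cc
      have h2 : ((F n : ℤ) : ℂ) / (n : ℂ) ^ ((s.re : ℝ) : ℂ) =
          ((((F n : ℤ) : ℝ) / (n : ℝ) ^ s.re : ℝ) : ℂ) := by
        rw [Complex.ofReal_div, Complex.ofReal_cpow (Nat.cast_nonneg n)]
        push_cast
        rfl
      rw [h2, Complex.ofReal_re]
  have hbd : ∀ (T : Finset ℕ), ∑ n ∈ T, ‖LSeries.term (cc Q) s n‖ ≤ M := by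
    intro T
    have h1 : ∀ᶠ S in atTop, ∀ n ∈ T,
        (∏ i ∈ S, ofPowerSeries (q i) (ab (f i))) n = Q n := by
      have := (eventually_all_finset T (l := atTop)
        (p := fun n S => (∏ i ∈ S, ofPowerSeries (q i) (ab (f i))) n = Q n)).2
        fun n _ => hQev n
      exact this
    obtain ⟨S, hS⟩ := h1.exists
    set QS : ArithmeticFunction ℤ := ∏ i ∈ S, ofPowerSeries (q i) (ab (f i)) with hQS
    have hQS0 : ∀ n, 0 ≤ QS n := fun n => prod_nonneg q f hq S n
    have h2 : ∑ n ∈ T, ‖LSeries.term (cc Q) s n‖ =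
        ∑ n ∈ T, (LSeries.term (cc QS) ((s.re : ℝ) : ℂ) n).re := by
      refine Finset.sum_congr rfl fun n hn => ?_
      rw [(hterm QS n (hQS0 n)).1, (hterm QS n (hQS0 n)).2, (hterm Q n (hQ0 n)).2, hS n hn]
    have h3 := fin_prod q (fun i => ab (f i)) ((s.re : ℝ) : ℂ) hq hcab (by rw [hre]; exact hs) S
    have h4 : HasSum (fun n => (LSeries.term (cc QS) ((s.re : ℝ) : ℂ) n).re)
        (LSeries (cc QS) ((s.re : ℝ) : ℂ)).re := Complex.hasSum_re h3.1.hasSum
    have h5 : ∑ n ∈ T, (LSeries.term (cc QS) ((s.re : ℝ) : ℂ) n).re ≤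
        (LSeries (cc QS) ((s.re : ℝ) : ℂ)).re := by
      refine sum_le_hasSum T (fun n _ => ?_) h4
      rw [(hterm QS n (hQS0 n)).1]
      exact norm_nonneg _
    rw [h2]
    refine le_trans h5 (le_trans (Complex.re_le_norm _) ?_)
    rw [h3.2, norm_prod]
    have h6 : ∏ i ∈ S, ‖∑' k, (((ab (f i)).coeff k : ℤ) : ℂ) *
        ((q i : ℂ) ^ (-((s.re : ℝ) : ℂ))) ^ k‖ ≤
        ∏ i ∈ S, Real.exp (C * (q i : ℝ) ^ (1 - s.re)) := by
      refine Finset.prod_le_prod (fun i _ => norm_nonneg _) fun i _ => ?_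
      have h7 := factor_bd (s := ((s.re : ℝ) : ℂ)) (hq i) (hcab i) (by rw [hre]; exact hs)
      rw [hre] at h7
      exact h7
    refine le_trans h6 ?_
    rw [← Real.exp_sum, ← Finset.mul_sum, hM]
    refine Real.exp_le_exp.2 (mul_le_mul_of_nonneg_left ?_ hCpos.le)
    exact hsum.sum_le_tsum S fun i _ => Real.rpow_nonneg (Nat.cast_nonneg _) _
  have hQsum : Summable fun n => ‖LSeries.term (cc Q) s n‖ :=
    summable_of_sum_le (fun n => norm_nonneg _) hbd
  -- dominated convergence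
  have hmain : Tendsto (fun S : Finset ι =>
      ∑' n, LSeries.term (cc (∏ i ∈ S, ofPowerSeries (q i) (f i))) s n) atTop
      (nhds (∑' n, LSeries.term (cc P) s n)) := by
    refine tendsto_tsum_of_dominated_convergence hQsum (fun n => ?_)
      (Eventually.of_forall fun S n => ?_)
    · refine tendsto_const_nhds.congr' ?_
      filter_upwards [hPev n] with S hS
      rcases Nat.eq_zero_or_pos n with h0 | h0
      · rw [h0, LSeries.term_zero, LSeries.term_zero]
      · rw [LSeries.term_of_ne_zero (by omega), LSeries.term_of_ne_zero (by omega)]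
        unfold cc
        rw [hS]
    · refine LSeries.norm_term_le s ?_
      unfold cc
      rw [Complex.norm_intCast, Complex.norm_intCast]
      have h1 : |(∏ i ∈ S, ofPowerSeries (q i) (f i)) n| ≤ |Q n| :=
        le_trans (hSQ S n) (le_abs_self _)
      exact_mod_cast h1
  unfold HasProd
  rw [SummationFilter.unconditional_filter]
  have hfin : (fun S : Finset ι => ∏ i ∈ S,
      ∑' k, (((f i).coeff k : ℤ) : ℂ) * ((q i : ℂ) ^ (-s)) ^ k) =
      fun S : Finset ι => ∑' n, LSeries.term (cc (∏ i ∈ S, ofPowerSeries (q i) (f i))) s n := by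
    funext S
    exact ((fin_prod q f s hq hc hs S).2).symm
  rw [hfin]
  exact hmain

end ART
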