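import Pool.Agent.ART.StE

/-!
# ART, module Exp: the exponents of the periods of `E` cancel
-/

set_option autoImplicit false

namespace ART

open scoped ComplexConjugate Classical
open NumberField IsDedekindDomain Polynomial

theorem thm_Exp (h : St_Inf) : St_Exp := by
  intro k _ _ ι _ F _ _ _ d n hd hrel v
  obtain ⟨h1, h2⟩ := h k
  obtain ⟨hre, hsum⟩ := h2 v
  have hfin : ∑ i, n i * (Module.finrank k (F i) : ℤ) = 0 := by
    have h3 := hrel 1
    have h4 : ∑ i, n i * sgn (d i) (1 : AlgebraicClosure k ≃ₐ[k] AlgebraicClosure k) =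
        2 * ∑ i, n i * (Module.finrank k (F i) : ℤ) := by
      rw [Finset.mul_sum]
      refine Finset.sum_congr rfl fun i _ => ?_
      rw [h1 (F i) (d i) (hd i)]
      ring
    rw [h4] at h3
    linarith
  by_cases hv : v.IsReal
  · obtain ⟨g, hg⟩ := hre hv
    have h3 : ∑ i, n i * ((∑ w : InfinitePlace (F i) with w.comap (algebraMap k (F i)) = v,
        al (d i) w : ℕ) : ℤ) - ∑ i, n i * ((∑ w : InfinitePlace (F i) with
        w.comap (algebraMap k (F i)) = v, be (d i) w : ℕ) : ℤ) = 0 := by
      have h4 := hrel g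
      have h5 : ∑ i, n i * sgn (d i) g = 2 * (∑ i, n i * ((∑ w : InfinitePlace (F i) with
          w.comap (algebraMap k (F i)) = v, al (d i) w : ℕ) : ℤ) -
          ∑ i, n i * ((∑ w : InfinitePlace (F i) with
          w.comap (algebraMap k (F i)) = v, be (d i) w : ℕ) : ℤ)) := by
        rw [← Finset.sum_sub_distrib, Finset.mul_sum]
        refine Finset.sum_congr rfl fun i _ => ?_
        rw [hg (F i) (d i) (hd i), Finset.sum_sub_distrib]
        push_cast
        ring
      rw [h5] at h4
      linarith
    have h6 : ∑ i, n i * ((∑ w : InfinitePlace (F i) with w.comap (algebraMap k (F i)) = v,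
        al (d i) w : ℕ) : ℤ) + ∑ i, n i * ((∑ w : InfinitePlace (F i) with
        w.comap (algebraMap k (F i)) = v, be (d i) w : ℕ) : ℤ) = 0 := by
      rw [← Finset.sum_add_distrib, ← hfin]
      refine Finset.sum_congr rfl fun i _ => ?_
      rw [← ((hsum (F i) (d i) (hd i)).1 hv), Finset.sum_add_distrib]
      push_cast
      ring
    constructor <;> linarith
  · have hv' : v.IsComplex := InfinitePlace.not_isReal_iff_isComplex.mp hv
    constructor
    · rw [← hfin]
      refine Finset.sum_congr rfl fun i _ => ?_
      rw [((hsum (F i) (d i) (hd i)).2 hv').1]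
    · rw [← hfin]
      refine Finset.sum_congr rfl fun i _ => ?_
      rw [((hsum (F i) (d i) (hd i)).2 hv').2]

end ART
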