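import Pool.Agent.ART.StB

/-!
# The family a(q^f) for the extensions of a finite field
-/

set_option autoImplicit false

namespace ART

open NumberField IsDedekindDomain Polynomial

private theorem Fam_iso (κ κ' : Type) [Field κ] [Field κ'] (e : κ ≃+* κ') (c₄ c₆ : κ) :
    ap κ' (e c₄) (e c₆) = ap κ c₄ c₆ := by
  unfold ap
  rw [Nat.card_congr e.toEquiv]
  congr 2
  refine (Nat.card_congr (Equiv.subtypeEquiv (Equiv.prodCongr e.toEquiv e.toEquiv) ?_)).symm
  rintro ⟨x, y⟩
  have e1 : e 27 = 27 := map_ofNat e 27
  have e2 : e 54 = 54 := map_ofNat e 54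
  simp only [Equiv.prodCongr_apply, Prod.map_apply, RingEquiv.toEquiv_eq_coe, EquivLike.coe_coe]
  constructor
  · intro h
    have := congrArg e h
    simpa [map_sub, map_mul, map_pow, e1, e2] using this
  · intro h
    apply e.injective
    simpa [map_sub, map_mul, map_pow, e1, e2] using h

private theorem Fam_bound (κ : Type) [Field κ] [Finite κ] (c₄ c₆ : κ) :
    |ap κ c₄ c₆| ≤ (Nat.card κ : ℤ) := by
  classical
  haveI := Fintype.ofFinite κ
  have hN : Nat.card {z : κ × κ // z.2 ^ 2 = z.1 ^ 3 - 27 * c₄ * z.1 - 54 * c₆} ≤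
      2 * Nat.card κ := by
    rw [Nat.card_eq_fintype_card, Nat.card_eq_fintype_card, Fintype.card_subtype]
    have h1 : (Finset.univ.filter fun z : κ × κ => z.2 ^ 2 = z.1 ^ 3 - 27 * c₄ * z.1 - 54 * c₆) =
        (Finset.univ : Finset κ).biUnion fun x => (Finset.univ.filter fun y : κ =>
          y ^ 2 = x ^ 3 - 27 * c₄ * x - 54 * c₆).image fun y => (x, y) := by
      ext ⟨x, y⟩
      simp only [Finset.mem_filter, Finset.mem_univ, true_and, Finset.mem_biUnion,
        Finset.mem_image, Prod.mk.injEq]
      constructor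
      · intro h
        exact ⟨x, y, h, rfl, rfl⟩
      · rintro ⟨a, b, h, rfl, rfl⟩
        exact h
    rw [h1]
    refine Finset.card_biUnion_le.trans ?_
    have h2 : ∀ x : κ, ((Finset.univ.filter fun y : κ =>
        y ^ 2 = x ^ 3 - 27 * c₄ * x - 54 * c₆).image fun y => (x, y)).card ≤ 2 := by
      intro x
      refine Finset.card_image_le.trans ?_
      by_cases hy : ∃ y : κ, y ^ 2 = x ^ 3 - 27 * c₄ * x - 54 * c₆
      · obtain ⟨y, hy⟩ := hy
        refine (Finset.card_le_card (?_ : _ ⊆ ({y, -y} : Finset κ))).trans Finset.card_le_two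
        intro z hz
        rw [Finset.mem_filter] at hz
        have h3 : z ^ 2 = y ^ 2 := by rw [hz.2, hy]
        rw [Finset.mem_insert, Finset.mem_singleton]
        exact sq_eq_sq_iff_eq_or_eq_neg.1 h3
      · rw [Finset.filter_eq_empty_iff.2]
        · simp
        · intro y _ h
          exact hy ⟨y, h⟩
    refine (Finset.sum_le_card_nsmul _ _ 2 fun x _ => h2 x).trans ?_
    rw [Finset.card_univ, smul_eq_mul, mul_comm]
  unfold ap
  rw [abs_le]
  constructor
  · have : ((Nat.card {z : κ × κ // z.2 ^ 2 = z.1 ^ 3 - 27 * c₄ * z.1 - 54 * c₆} : ℕ) : ℤ) ≤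
      2 * (Nat.card κ : ℤ) := by exact_mod_cast hN
    linarith
  · have : (0 : ℤ) ≤ (Nat.card {z : κ × κ // z.2 ^ 2 = z.1 ^ 3 - 27 * c₄ * z.1 - 54 * c₆} : ℤ) :=
      Int.natCast_nonneg _
    linarith

private theorem Fam_finrank (κ κ' : Type) [Field κ] [Finite κ] [Field κ'] [Algebra κ κ'] (f : ℕ)
    (h : Nat.card κ' = Nat.card κ ^ f) : Finite κ' ∧ Module.finrank κ κ' = f := by
  have h2 : 1 < Nat.card κ := Finite.one_lt_card
  have hne : Nat.card κ' ≠ 0 := by
    rw [h]
    exact pow_ne_zero _ (by omega)
  have hf : Finite κ' := Nat.finite_of_card_ne_zero hne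
  refine ⟨hf, ?_⟩
  haveI : Module.Finite κ κ' := Module.Finite.of_finite
  have h3 := Module.natCard_eq_pow_finrank (K := κ) (V := κ')
  rw [h] at h3
  exact (Nat.pow_right_injective h2 h3).symm

/-- FAM -/
theorem thm_Fam (h : St_Quad) : St_Fam := by
  classical
  intro κ _ _ h2 h3 c₄ c₆ hc
  obtain ⟨p, hp⟩ := CharP.exists κ
  haveI : Fact (Nat.Prime p) := ⟨CharP.char_is_prime κ p⟩
  let a : ℕ → ℤ := fun f => if hf : f ≠ 0 then
    haveI : NeZero f := ⟨hf⟩
    ap (FiniteField.Extension κ p f) (algebraMap κ (FiniteField.Extension κ p f) c₄)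
      (algebraMap κ (FiniteField.Extension κ p f) c₆) else 0
  have ha : ∀ (f : ℕ) [NeZero f], a f = ap (FiniteField.Extension κ p f)
      (algebraMap κ (FiniteField.Extension κ p f) c₄)
      (algebraMap κ (FiniteField.Extension κ p f) c₆) := by
    intro f hf
    exact dif_pos hf.out
  refine ⟨a, ?_, ?_, ?_⟩
  · intro f hf
    haveI : NeZero f := ⟨by omega⟩
    rw [ha f]
    refine (Fam_bound _ _ _).trans ?_
    rw [FiniteField.natCard_extension]
    push_cast
    exact le_rfl
  · intro f hf
    haveI : NeZero f := ⟨by omega⟩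
    haveI : NeZero (2 * f) := ⟨by omega⟩
    rw [ha f, ha (2 * f)]
    obtain ⟨φ⟩ : Nonempty (FiniteField.Extension κ p f →ₐ[κ] FiniteField.Extension κ p (2 * f)) := by
      apply FiniteField.nonempty_algHom_of_finrank_dvd
      rw [FiniteField.finrank_extension, FiniteField.finrank_extension]
      exact Dvd.intro_left 2 rfl
    letI : Algebra (FiniteField.Extension κ p f) (FiniteField.Extension κ p (2 * f)) :=
      φ.toRingHom.toAlgebra
    letI := Fintype.ofFinite (FiniteField.Extension κ p f)
    letI := Fintype.ofFinite (FiniteField.Extension κ p (2 * f))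
    have e : ∀ x : κ, algebraMap (FiniteField.Extension κ p f) (FiniteField.Extension κ p (2 * f))
        (algebraMap κ (FiniteField.Extension κ p f) x) =
          algebraMap κ (FiniteField.Extension κ p (2 * f)) x := fun x => φ.commutes x
    have hinj : Function.Injective (algebraMap κ (FiniteField.Extension κ p f)) :=
      (algebraMap κ (FiniteField.Extension κ p f)).injective
    have key := h (FiniteField.Extension κ p f) (FiniteField.Extension κ p (2 * f)) ?_ ?_ ?_
      (algebraMap κ (FiniteField.Extension κ p f) c₄)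
      (algebraMap κ (FiniteField.Extension κ p f) c₆) ?_
    · rw [e, e, Fintype.card_eq_nat_card, FiniteField.natCard_extension] at key
      rw [key]
      push_cast
      rfl
    · intro h0
      apply h2
      apply hinj
      rw [map_ofNat, map_zero]
      exact h0
    · intro h0
      apply h3
      apply hinj
      rw [map_ofNat, map_zero]
      exact h0
    · rw [Fintype.card_eq_nat_card, Fintype.card_eq_nat_card, FiniteField.natCard_extension,
        FiniteField.natCard_extension, ← pow_mul, mul_comm f 2]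
    · intro h0
      apply hc
      apply hinj
      rw [map_pow, map_pow]
      exact h0
  · intro κ' _ _ f hf hcard
    haveI : NeZero f := ⟨by omega⟩
    obtain ⟨_, hfr⟩ := Fam_finrank κ κ' f hcard
    rw [ha f]
    have E := FiniteField.algEquivExtension κ p f κ' hfr
    have := Fam_iso κ' (FiniteField.Extension κ p f) E.toRingEquiv (algebraMap κ κ' c₄)
      (algebraMap κ κ' c₆)
    have e : ∀ x : κ, E.toRingEquiv (algebraMap κ κ' x) =
        algebraMap κ (FiniteField.Extension κ p f) x := fun x => E.commutes x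
    rw [e, e] at this
    exact this.symm

end ART
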