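import Pool.Agent.ART.Defs

/-!
# ART part G: explicit relations (statements with complete proofs)

Every module is one file `Pool/Agent/ART/X.lean` with `import Pool.Agent.ART.StG`, namespace `ART`, and the theorem `thm_X` with exactly the
signature given in the docstring (earlier statements are hypotheses). Own lemmas `private` or with names starting with `X_`.
No sorry, no forbidden words.
-/

set_option autoImplicit false

namespace ART

open scoped ComplexConjugate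
open NumberField IsDedekindDomain Polynomial

/-- [DFour] (file `DFour.lean`, `thm_DFour : St_DFour`) The relation of the dihedral group of order eight.

PROOF. `Ω = AlgebraicClosure k`. `F₁ = k(α)`, `F₂ = k(β)` are quadratic fields; `A ∈ Ω` with `A^2 = a`, `A ∉ k`; the embeddings of `F₁` are `φ₊ : α ↦ A`, `φ₋ : α ↦ - A` (`AlgHom.card`, or `PowerBasis`), different since `A ≠ 0`. In the same way `B^2 = b` for `F₂`. Let `D₊ = x + y A`, `D₋ = x - y A`, `D₊ D₋ = x^2 - a y^2 = b z^2 ≠ 0`.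
Choose `z₁, z₂` with `z₁^2 = D₊`, `z₂^2 = D₋`; `(z₁ z₂)^2 = (z B)^2`, so after a change of the sign of `z₂` we have `z₁ z₂ = z B`. `2 (x + z B) = (z₁ + z₂)^2`, `2 (x - z B) = (z₁ - z₂)^2`. Both are nonzero (`4 (x^2 - b z^2) = 4 a y^2 ≠ 0`). Let `g : Ω ≃ₐ[k] Ω`.
Case 1: `g A = A`. Then `g φ± = φ±`, `g z₁ = ε₁ z₁`, `g z₂ = ε₂ z₂` with signs (`z_i ≠ 0`), and `sgn d₁ g = 2 ε₁ + 2 ε₂` (for a fixed `φ` with `g z = ε z` the pairs are `(φ, ± z)` and the contribution to `sgn` is `2 ε`). `g (z B) = ε₁ ε₂ z B`, `g B = ε₁ ε₂ B`. If `ε₁ = ε₂`: both embeddings of `F₂` are fixed and `g (z₁ ± z₂) = ε₁ (z₁ ± z₂)`: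
`sgn d₂ g = 4 ε₁`. If `ε₁ = - ε₂`: `g B = - B`, no embedding of `F₂` is fixed, both sides are `0`. Case 2: `g A = - A`: no embedding of `F₁` is fixed, `sgn d₁ g = 0`. `g z₁ = ε₁ z₂`, `g z₂ = ε₂ z₁`, `g B = ε₁ ε₂ B`. If `ε₁ = - ε₂`: `sgn d₂ g = 0`. If `ε₁ = ε₂`: `g (z₁ + z₂) = ε₁ (z₁ + z₂)`,
`g (z₁ - z₂) = - ε₁ (z₁ - z₂)`: `sgn d₂ g = 2 ε₁ - 2 ε₁ = 0`. -/
def St_DFour : Prop := ∀ (k F₁ F₂ : Type) [Field k] [NumberField k] [Field F₁] [NumberField F₁]
  [Algebra k F₁] [Field F₂] [NumberField F₂] [Algebra k F₂] (a b x y z : k) (α : F₁) (β : F₂),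
  Module.finrank k F₁ = 2 → Module.finrank k F₂ = 2 → α ^ 2 = algebraMap k F₁ a →
  β ^ 2 = algebraMap k F₂ b → ¬ IsSquare a → ¬ IsSquare b → x ^ 2 = a * y ^ 2 + b * z ^ 2 →
  y ≠ 0 → z ≠ 0 → ∀ g : AlgebraicClosure k ≃ₐ[k] AlgebraicClosure k,
    sgn (algebraMap k F₁ x + algebraMap k F₁ y * α) g =
      sgn (2 * (algebraMap k F₂ x + algebraMap k F₂ z * β)) g

/-- [Quart] (file `Quart.lean`, `thm_Quart : St_Quart`) A quartic field and the cubic resolvent.

PROOF. `Ω = AlgebraicClosure k`, `f = X^4 + p X^2 + q X + r` irreducible, so it has four different roots `x_0, ..., x_3` in `Ω`, `∑ x_i = 0`, and the embeddings `φ_i : F₄ → Ω` are given by `θ ↦ x_i` (`[F₄ : k] = 4`, `θ` is a root of `f`). Let `s_1 = x_0 + x_1`, `s_2 = x_0 + x_2`, `s_3 = x_0 + x_3`, and `t_j = s_j^2`. Then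
`(T - t_1)(T - t_2)(T - t_3) = T^3 + 2 p T^2 + (p^2 - 4 r) T - q^2` (elementary symmetric functions; `ring` after `x_3 = - x_0 - x_1 - x_2`, with `p`, `q`, `r` expressed by the `x_i`); the cubic is irreducible, so the `t_j` are different and nonzero and the embeddings of `F₃` are `ψ_j : t ↦ t_j`. The square roots of `ψ_j t = t_j` are `± s_j`.
Let `g : Ω ≃ₐ[k] Ω`, `g x_i = x_(σ i)`, `σ` a permutation of `Fin 4`. `g (x_i + x_l) = x_(σ i) + x_(σ l)`, and `x_i + x_l = - (x_m + x_n)` if `{i, l, m, n} = {0, 1, 2, 3}`. So `g s_j = ± s_j'`, where `j'` and the sign are determined by `σ`, and `g ψ_j = ψ_j` iff `j' = j` (`t_j` different). `sgn t g = 2 ∑_(j' = j) sign`,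
`sgn (1 : F₄) g = 2 #{i : σ i = i}` (`z = ± 1`), `sgn (1 : k) g = 2`. The identity `#{i : σ i = i} = 1 + ∑_(j : j' = j) sign_j` holds for the `24` permutations `σ` (`decide`; or: both sides are the trace of `g` on the space spanned by the `e_i`, which is the sum of the line of `e_0 + e_1 + e_2 + e_3` and the lines of `e_0 + e_1 - e_2 - e_3`, ...). -/
def St_Quart : Prop := ∀ (k F₄ F₃ : Type) [Field k] [NumberField k] [Field F₄] [NumberField F₄]
  [Algebra k F₄] [Field F₃] [NumberField F₃] [Algebra k F₃] (p q r : k) (θ : F₄) (t : F₃),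
  Module.finrank k F₄ = 4 → Module.finrank k F₃ = 3 →
  Irreducible (X ^ 4 + C p * X ^ 2 + C q * X + C r : k[X]) →
  Irreducible (X ^ 3 + C (2 * p) * X ^ 2 + C (p ^ 2 - 4 * r) * X - C (q ^ 2) : k[X]) →
  aeval θ (X ^ 4 + C p * X ^ 2 + C q * X + C r : k[X]) = 0 →
  aeval t (X ^ 3 + C (2 * p) * X ^ 2 + C (p ^ 2 - 4 * r) * X - C (q ^ 2) : k[X]) = 0 →
  ∀ g : AlgebraicClosure k ≃ₐ[k] AlgebraicClosure k,
    sgn (1 : F₄) g = sgn (1 : k) g + sgn t g

end ART
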