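import Pool.Agent.ART.StF
import Pool.Agent.ART.StG

/-!
# ART: the theorem, from the two product formulas and the explicit relations
-/

set_option autoImplicit false

namespace ART

open scoped ComplexConjugate
open NumberField IsDedekindDomain Polynomial

/-- The value `L(1, A)` is unique, and `Ω(A)` is nonzero and unique up to a nonzero rational factor. -/
def WellDefined : Prop :=
  ∀ (F : Type) [Field F] [NumberField F] (A : WeierstrassCurve F),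
    (∀ c c' : ℂ, IsLValue A c → IsLValue A c' → c = c') ∧
    ∀ x x' : ℝ, IsOmega A x → IsOmega A x' → x ≠ 0 ∧ ∃ q : ℚ, q ≠ 0 ∧ x = q * x'

/-- Artin formalism for the conjecture: the general statement. -/
def General : Prop :=
  ∀ (k : Type) [Field k] [NumberField k] (E : WeierstrassCurve k) (ι : Type) [Fintype ι]
    (F : ι → Type) [∀ i, Field (F i)] [∀ i, NumberField (F i)] [∀ i, Algebra k (F i)]
    (d : ∀ i, F i) (n : ι → ℤ), E.Δ ≠ 0 → (∀ i, d i ≠ 0) →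
  (∀ g : AlgebraicClosure k ≃ₐ[k] AlgebraicClosure k, ∑ i, n i * sgn (d i) g = 0) →
  ∀ A : ∀ i, WeierstrassCurve (F i), (∀ i, IsTwist E (d i) (A i)) →
  ∀ (c : ι → ℂ) (x : ι → ℝ), (∀ i, IsLValue (A i) (c i)) → (∀ i, IsOmega (A i) (x i)) →
    (∀ i, x i ≠ 0) ∧
    (∃ q : ℚ, q ≠ 0 ∧ ∏ i, c i ^ (n i).toNat = q * ∏ i, c i ^ (-n i).toNat) ∧
    (∃ q : ℚ, q ≠ 0 ∧ ∏ i, x i ^ n i = q) ∧
    ∀ j, n j ≠ 0 → (∀ i, i ≠ j → c i ≠ 0 ∧ ∃ q : ℚ, c i = q * x i) →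
      c j ≠ 0 ∧ (∃ q : ℚ, q ≠ 0 ∧ (c j / x j) ^ n j = q) ∧
        (n j = 1 ∨ n j = -1 → ∃ q : ℚ, q ≠ 0 ∧ c j = q * x j)

/-- The transfer between the quadratic fields `k(√a)` and `k(√b)`. -/
def Dihedral : Prop :=
  ∀ (k F₁ F₂ : Type) [Field k] [NumberField k] [Field F₁] [NumberField F₁] [Algebra k F₁]
    [Field F₂] [NumberField F₂] [Algebra k F₂] (E : WeierstrassCurve k) (a b x y z : k)
    (α : F₁) (β : F₂), E.Δ ≠ 0 → Module.finrank k F₁ = 2 → Module.finrank k F₂ = 2 →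
  α ^ 2 = algebraMap k F₁ a → β ^ 2 = algebraMap k F₂ b → ¬ IsSquare a → ¬ IsSquare b →
  x ^ 2 = a * y ^ 2 + b * z ^ 2 → y ≠ 0 → z ≠ 0 →
  ∀ (A₁ : WeierstrassCurve F₁) (A₂ : WeierstrassCurve F₂) (c₁ c₂ : ℂ) (x₁ x₂ : ℝ),
    IsTwist E (algebraMap k F₁ x + algebraMap k F₁ y * α) A₁ →
    IsTwist E (2 * (algebraMap k F₂ x + algebraMap k F₂ z * β)) A₂ →
    IsLValue A₁ c₁ → IsLValue A₂ c₂ → IsOmega A₁ x₁ → IsOmega A₂ x₂ →
    (∃ q : ℚ, q ≠ 0 ∧ c₁ = q * c₂) ∧ (∃ q : ℚ, q ≠ 0 ∧ x₁ = q * x₂) ∧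
      ((c₁ ≠ 0 → ∃ q : ℚ, q ≠ 0 ∧ c₁ = q * x₁) ↔ (c₂ ≠ 0 → ∃ q : ℚ, q ≠ 0 ∧ c₂ = q * x₂))

/-- The base change of `E` to a quartic field and the twist of `E` over the cubic resolvent field. -/
def Quartic : Prop :=
  ∀ (k F₄ F₃ : Type) [Field k] [NumberField k] [Field F₄] [NumberField F₄] [Algebra k F₄]
    [Field F₃] [NumberField F₃] [Algebra k F₃] (E : WeierstrassCurve k) (p q r : k) (θ : F₄)
    (t : F₃), E.Δ ≠ 0 → Module.finrank k F₄ = 4 → Module.finrank k F₃ = 3 →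
  Irreducible (X ^ 4 + C p * X ^ 2 + C q * X + C r : k[X]) →
  Irreducible (X ^ 3 + C (2 * p) * X ^ 2 + C (p ^ 2 - 4 * r) * X - C (q ^ 2) : k[X]) →
  aeval θ (X ^ 4 + C p * X ^ 2 + C q * X + C r : k[X]) = 0 →
  aeval t (X ^ 3 + C (2 * p) * X ^ 2 + C (p ^ 2 - 4 * r) * X - C (q ^ 2) : k[X]) = 0 →
  ∀ (A₄ : WeierstrassCurve F₄) (A₃ : WeierstrassCurve F₃) (c c₄ c₃ : ℂ) (x x₄ x₃ : ℝ),
    IsTwist E (1 : F₄) A₄ → IsTwist E t A₃ → IsLValue E c → IsLValue A₄ c₄ → IsLValue A₃ c₃ →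
    IsOmega E x → IsOmega A₄ x₄ → IsOmega A₃ x₃ →
    (∃ s : ℚ, s ≠ 0 ∧ c₄ = s * (c * c₃)) ∧ (∃ s : ℚ, s ≠ 0 ∧ x₄ = s * (x * x₃)) ∧
      (c ≠ 0 → (∃ s : ℚ, s ≠ 0 ∧ c = s * x) →
        ((c₄ ≠ 0 → ∃ s : ℚ, s ≠ 0 ∧ c₄ = s * x₄) ↔ (c₃ ≠ 0 → ∃ s : ℚ, s ≠ 0 ∧ c₃ = s * x₃)))

/-- nonzero rational numbers -/
private def IsQ (z : ℂ) : Prop := ∃ q : ℚ, q ≠ 0 ∧ z = q

private theorem IsQ.mul {z w : ℂ} (hz : IsQ z) (hw : IsQ w) : IsQ (z * w) := by
  obtain ⟨q, hq, rfl⟩ := hz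
  obtain ⟨r, hr, rfl⟩ := hw
  exact ⟨q * r, mul_ne_zero hq hr, by push_cast; rfl⟩

private theorem IsQ.inv {z : ℂ} (hz : IsQ z) : IsQ z⁻¹ := by
  obtain ⟨q, hq, rfl⟩ := hz
  exact ⟨q⁻¹, inv_ne_zero hq, by push_cast; rfl⟩

private theorem IsQ.zpow {z : ℂ} (hz : IsQ z) (n : ℤ) : IsQ (z ^ n) := by
  obtain ⟨q, hq, rfl⟩ := hz
  exact ⟨q ^ n, zpow_ne_zero n hq, by push_cast; rfl⟩

private theorem IsQ.prod {ι : Type} (s : Finset ι) (f : ι → ℂ) (h : ∀ i ∈ s, IsQ (f i)) :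
    IsQ (∏ i ∈ s, f i) := by
  classical
  induction s using Finset.induction_on with
  | empty => exact ⟨1, one_ne_zero, by simp⟩
  | insert a s ha ih =>
    rw [Finset.prod_insert ha]
    exact (h a (Finset.mem_insert_self a s)).mul
      (ih fun i hi => h i (Finset.mem_insert_of_mem hi))

private theorem zpow_split {c : ℂ} (hc : c ≠ 0) (n : ℤ) :
    c ^ n = c ^ n.toNat / c ^ (-n).toNat := by
  rw [← zpow_natCast, ← zpow_natCast, ← zpow_sub₀ hc]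
  congr 1
  omega

theorem thm_General (h1 : St_Per) (h2 : St_LPt) : General := by
  classical
  intro k _ _ E ι _ F _ _ _ d n hE hd hrel A hA c x hc hx
  have hL := h2 k E ι F d n hE hd hrel A hA c hc
  obtain ⟨hx0, hP⟩ := h1 k E ι F d n hd hrel A hA x hx
  refine ⟨hx0, hL, hP, fun j hj hi => ?_⟩
  obtain ⟨q, hq, hcq⟩ := hL
  obtain ⟨q', hq', hxq⟩ := hP
  have hcj : c j ≠ 0 := by
    intro h0
    rcases lt_or_gt_of_ne hj with hj | hj
    · have h3 : ∏ i, c i ^ (-n i).toNat = 0 :=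
        Finset.prod_eq_zero (Finset.mem_univ j) (by rw [h0]; exact zero_pow (by omega))
      rw [h3, mul_zero] at hcq
      have h4 : ∏ i, c i ^ (n i).toNat ≠ 0 := by
        refine Finset.prod_ne_zero_iff.2 fun i _ => ?_
        by_cases hij : i = j
        · have h5 : (n j).toNat = 0 := by omega
          rw [hij, h5, pow_zero]
          exact one_ne_zero
        · exact pow_ne_zero _ (hi i hij).1
      exact h4 hcq
    · have h3 : ∏ i, c i ^ (n i).toNat = 0 :=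
        Finset.prod_eq_zero (Finset.mem_univ j) (by rw [h0]; exact zero_pow (by omega))
      rw [h3] at hcq
      have h4 : ∏ i, c i ^ (-n i).toNat ≠ 0 := by
        refine Finset.prod_ne_zero_iff.2 fun i _ => ?_
        by_cases hij : i = j
        · have h5 : (-n j).toNat = 0 := by omega
          rw [hij, h5, pow_zero]
          exact one_ne_zero
        · exact pow_ne_zero _ (hi i hij).1
      exact absurd hcq.symm (mul_ne_zero (by exact_mod_cast hq) h4)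
  have hci : ∀ i, c i ≠ 0 := fun i => by
    by_cases hij : i = j
    · rw [hij]
      exact hcj
    · exact (hi i hij).1
  have hxi : ∀ i, (x i : ℂ) ≠ 0 := fun i => by exact_mod_cast hx0 i
  have hprod : ∏ i, (c i / x i) ^ n i = (q : ℂ) / q' := by
    have h3 : ∏ i, (c i / x i) ^ n i = (∏ i, c i ^ n i) / ∏ i, (x i : ℂ) ^ n i := by
      rw [← Finset.prod_div_distrib]
      exact Finset.prod_congr rfl fun i _ => div_zpow _ _ _
    have h4 : ∏ i, (x i : ℂ) ^ n i = (q' : ℂ) := by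
      have h5 : ((∏ i, x i ^ n i : ℝ) : ℂ) = ((q' : ℝ) : ℂ) := by rw [hxq]
      push_cast at h5
      exact h5
    have h6 : ∏ i, c i ^ n i = (q : ℂ) := by
      have h7 : ∏ i, c i ^ n i = (∏ i, c i ^ (n i).toNat) / ∏ i, c i ^ (-n i).toNat := by
        rw [← Finset.prod_div_distrib]
        exact Finset.prod_congr rfl fun i _ => zpow_split (hci i) (n i)
      rw [h7, hcq]
      exact mul_div_cancel_right₀ _ (Finset.prod_ne_zero_iff.2 fun i _ => pow_ne_zero _ (hci i))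
    rw [h3, h4, h6]
  have hQ : IsQ (∏ i, (c i / x i) ^ n i) := by
    rw [hprod]
    exact ⟨q / q', div_ne_zero hq hq', by push_cast; rfl⟩
  rw [← Finset.mul_prod_erase Finset.univ _ (Finset.mem_univ j)] at hQ
  have hR : IsQ (∏ i ∈ Finset.univ.erase j, (c i / x i) ^ n i) := by
    refine IsQ.prod _ _ fun i hi' => ?_
    obtain ⟨h5, r, hr⟩ := hi i (Finset.ne_of_mem_erase hi')
    have hr0 : r ≠ 0 := by
      rintro rfl
      apply h5
      rw [hr]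
      simp
    refine IsQ.zpow ⟨r, hr0, ?_⟩ _
    rw [hr]
    exact mul_div_cancel_right₀ _ (hxi i)
  have hz : IsQ ((c j / x j) ^ n j) := by
    have h5 := hQ.mul hR.inv
    rw [mul_inv_cancel_right₀] at h5
    · exact h5
    · obtain ⟨r, hr0, hr⟩ := hR
      rw [hr]
      exact_mod_cast hr0
  refine ⟨hcj, hz, fun hj1 => ?_⟩
  have hz1 : IsQ (c j / x j) := by
    rcases hj1 with hj1 | hj1
    · rw [hj1, zpow_one] at hz
      exact hz
    · rw [hj1, zpow_neg_one] at hz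
      have h5 := hz.inv
      rwa [inv_inv] at h5
  obtain ⟨r, hr0, hr⟩ := hz1
  exact ⟨r, hr0, by rw [← hr]; exact (div_mul_cancel₀ _ (hxi j)).symm⟩

private theorem lvalue_unique {F : Type} [Field F] [NumberField F] (A : WeierstrassCurve F)
    (c c' : ℂ) (h : IsLValue A c) (h' : IsLValue A c') : c = c' := by
  obtain ⟨U, f, hU, hU1, hU2, hf, hfA, rfl⟩ := h
  obtain ⟨U', f', hU', hU1', hU2', hf', hfA', rfl⟩ := h'
  have ha : AnalyticOnNhd ℂ f U := hf.analyticOnNhd hU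
  have ha' : AnalyticOnNhd ℂ f' U' := hf'.analyticOnNhd hU'
  have hS : IsPreconnected ((fun t : ℝ => (t : ℂ)) '' Set.Icc 1 3) :=
    isPreconnected_Icc.image _ Complex.continuous_ofReal.continuousOn
  have hs1 : (fun t : ℝ => (t : ℂ)) '' Set.Icc 1 3 ⊆ U := by
    rintro _ ⟨t, ht, rfl⟩
    exact hU2 t ht.1
  have hs2 : (fun t : ℝ => (t : ℂ)) '' Set.Icc 1 3 ⊆ U' := by
    rintro _ ⟨t, ht, rfl⟩
    exact hU2' t ht.1
  have h3 : ((3 : ℝ) : ℂ) ∈ (fun t : ℝ => (t : ℂ)) '' Set.Icc 1 3 :=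
    ⟨3, ⟨by norm_num, le_refl 3⟩, rfl⟩
  have h1 : (1 : ℂ) ∈ (fun t : ℝ => (t : ℂ)) '' Set.Icc 1 3 :=
    ⟨1, ⟨le_refl 1, by norm_num⟩, by simp⟩
  have hev : f =ᶠ[nhds ((3 : ℝ) : ℂ)] f' := by
    have h4 : {s : ℂ | 2 < s.re} ∈ nhds ((3 : ℝ) : ℂ) := by
      refine (isOpen_lt continuous_const Complex.continuous_re).mem_nhds ?_
      change (2 : ℝ) < ((3 : ℝ) : ℂ).re
      rw [Complex.ofReal_re]
      norm_num
    filter_upwards [h4] with s hs
    rw [hfA s hs, hfA' s hs]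
  exact (ha.mono hs1).eqOn_of_preconnected_of_eventuallyEq (ha'.mono hs2) hS h3 hev h1

theorem thm_WellDefined (h1 : St_Per) : WellDefined := by
  intro F _ _ A
  refine ⟨lvalue_unique A, fun x x' hx hx' => ?_⟩
  let n : Bool → ℤ := fun i => match i with | true => 1 | false => -1
  let y : Bool → ℝ := fun i => match i with | true => x | false => x'
  obtain ⟨h0, q, hq, h⟩ := h1 F A Bool (fun _ => F) (fun _ => 1) n (fun _ => one_ne_zero)
    (fun g => by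
      rw [Fintype.sum_bool]
      change (1 : ℤ) * _ + (-1) * _ = 0
      ring)
    (fun _ => A) (fun _ => ⟨1, one_ne_zero, by simp, by simp⟩) y
    (fun i => match i with | true => hx | false => hx')
  have hx0 : x ≠ 0 := h0 true
  have hx0' : x' ≠ 0 := h0 false
  refine ⟨hx0, q, hq, ?_⟩
  rw [Fintype.prod_bool] at h
  change x ^ (1 : ℤ) * x' ^ (-1 : ℤ) = q at h
  rw [zpow_one, zpow_neg_one] at h
  rw [← h, inv_mul_cancel_right₀ hx0']

/-- Two fields. -/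
private theorem two_terms (hG : General) (k F₁ F₂ : Type) [Field k] [NumberField k]
    [f₁ : Field F₁] [n₁ : NumberField F₁] [a₁ : Algebra k F₁] [f₂ : Field F₂]
    [n₂ : NumberField F₂] [a₂ : Algebra k F₂]
    (E : WeierstrassCurve k) (d₁ : F₁) (d₂ : F₂) (hE : E.Δ ≠ 0) (h1 : d₁ ≠ 0) (h2 : d₂ ≠ 0)
    (hrel : ∀ g : AlgebraicClosure k ≃ₐ[k] AlgebraicClosure k, sgn d₁ g = sgn d₂ g)
    (A₁ : WeierstrassCurve F₁) (A₂ : WeierstrassCurve F₂) (hA₁ : IsTwist E d₁ A₁)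
    (hA₂ : IsTwist E d₂ A₂) (c₁ c₂ : ℂ) (x₁ x₂ : ℝ) (hc₁ : IsLValue A₁ c₁) (hc₂ : IsLValue A₂ c₂)
    (hx₁ : IsOmega A₁ x₁) (hx₂ : IsOmega A₂ x₂) :
    (∃ q : ℚ, q ≠ 0 ∧ c₁ = q * c₂) ∧ (∃ q : ℚ, q ≠ 0 ∧ x₁ = q * x₂) ∧
      ((c₁ ≠ 0 → ∃ q : ℚ, q ≠ 0 ∧ c₁ = q * x₁) ↔ (c₂ ≠ 0 → ∃ q : ℚ, q ≠ 0 ∧ c₂ = q * x₂)) := by
  let F : Bool → Type := fun b => match b with | true => F₁ | false => F₂
  let i1 : ∀ i, Field (F i) := fun i => match i with | true => f₁ | false => f₂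
  let i2 : ∀ i, NumberField (F i) := fun i => match i with | true => n₁ | false => n₂
  let i3 : ∀ i, Algebra k (F i) := fun i => match i with | true => a₁ | false => a₂
  let d : ∀ i, F i := fun i => match i with | true => d₁ | false => d₂
  let A : ∀ i, WeierstrassCurve (F i) := fun i => match i with | true => A₁ | false => A₂
  let n : Bool → ℤ := fun i => match i with | true => 1 | false => -1
  let c : Bool → ℂ := fun i => match i with | true => c₁ | false => c₂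
  let x : Bool → ℝ := fun i => match i with | true => x₁ | false => x₂
  obtain ⟨h0, ⟨q, hq, h3⟩, ⟨r, hr, h4⟩, -⟩ := hG k E Bool F d n hE
    (fun i => match i with | true => h1 | false => h2)
    (fun g => by
      rw [Fintype.sum_bool]
      change (1 : ℤ) * sgn d₁ g + (-1) * sgn d₂ g = 0
      rw [hrel g]
      ring)
    A (fun i => match i with | true => hA₁ | false => hA₂) c x
    (fun i => match i with | true => hc₁ | false => hc₂)
    (fun i => match i with | true => hx₁ | false => hx₂)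
  have hx0 : x₂ ≠ 0 := h0 false
  rw [Fintype.prod_bool, Fintype.prod_bool] at h3
  rw [Fintype.prod_bool] at h4
  change c₁ ^ (1 : ℤ).toNat * c₂ ^ (-1 : ℤ).toNat =
    q * (c₁ ^ (-1 : ℤ).toNat * c₂ ^ (-(-1) : ℤ).toNat) at h3
  change x₁ ^ (1 : ℤ) * x₂ ^ (-1 : ℤ) = r at h4
  have h5 : c₁ = q * c₂ := by simpa using h3
  have h6 : x₁ = r * x₂ := by
    rw [zpow_one, zpow_neg_one] at h4
    rw [← h4, inv_mul_cancel_right₀ hx0]
  have hq' : (q : ℂ) ≠ 0 := by exact_mod_cast hq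
  have hr' : (r : ℂ) ≠ 0 := by exact_mod_cast hr
  refine ⟨⟨q, hq, h5⟩, ⟨r, hr, h6⟩, fun h7 h8 => ?_, fun h7 h8 => ?_⟩
  · obtain ⟨t, ht, h9⟩ := h7 (by rw [h5]; exact mul_ne_zero hq' h8)
    refine ⟨q⁻¹ * t * r, mul_ne_zero (mul_ne_zero (inv_ne_zero hq) ht) hr, ?_⟩
    rw [h5, h6] at h9
    push_cast at h9 ⊢
    field_simp
    linear_combination h9
  · have h8' : c₂ ≠ 0 := by
      rintro rfl
      apply h8
      rw [h5, mul_zero]
    obtain ⟨t, ht, h9⟩ := h7 h8'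
    refine ⟨q * t * r⁻¹, mul_ne_zero (mul_ne_zero hq ht) (inv_ne_zero hr), ?_⟩
    rw [h5, h6, h9]
    push_cast
    field_simp

/-- Three fields. -/
private theorem three_terms (hG : General) (k F₁ F₂ F₃ : Type) [Field k] [NumberField k]
    [f₁ : Field F₁] [n₁ : NumberField F₁] [a₁ : Algebra k F₁] [f₂ : Field F₂]
    [n₂ : NumberField F₂] [a₂ : Algebra k F₂] [f₃ : Field F₃]
    [n₃ : NumberField F₃] [a₃ : Algebra k F₃]
    (E : WeierstrassCurve k) (d₁ : F₁) (d₂ : F₂) (d₃ : F₃) (hE : E.Δ ≠ 0) (h1 : d₁ ≠ 0)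
    (h2 : d₂ ≠ 0) (h3 : d₃ ≠ 0)
    (hrel : ∀ g : AlgebraicClosure k ≃ₐ[k] AlgebraicClosure k, sgn d₁ g = sgn d₂ g + sgn d₃ g)
    (A₁ : WeierstrassCurve F₁) (A₂ : WeierstrassCurve F₂) (A₃ : WeierstrassCurve F₃)
    (hA₁ : IsTwist E d₁ A₁) (hA₂ : IsTwist E d₂ A₂) (hA₃ : IsTwist E d₃ A₃)
    (c₁ c₂ c₃ : ℂ) (x₁ x₂ x₃ : ℝ) (hc₁ : IsLValue A₁ c₁) (hc₂ : IsLValue A₂ c₂)
    (hc₃ : IsLValue A₃ c₃) (hx₁ : IsOmega A₁ x₁) (hx₂ : IsOmega A₂ x₂) (hx₃ : IsOmega A₃ x₃) :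
    (∃ q : ℚ, q ≠ 0 ∧ c₁ = q * (c₂ * c₃)) ∧ (∃ q : ℚ, q ≠ 0 ∧ x₁ = q * (x₂ * x₃)) ∧
      (c₂ ≠ 0 → (∃ q : ℚ, q ≠ 0 ∧ c₂ = q * x₂) →
        ((c₁ ≠ 0 → ∃ q : ℚ, q ≠ 0 ∧ c₁ = q * x₁) ↔
          (c₃ ≠ 0 → ∃ q : ℚ, q ≠ 0 ∧ c₃ = q * x₃))) := by
  let F : Option Bool → Type := fun b => match b with
    | none => F₁ | some true => F₂ | some false => F₃
  let i1 : ∀ i, Field (F i) := fun i => match i with
    | none => f₁ | some true => f₂ | some false => f₃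
  let i2 : ∀ i, NumberField (F i) := fun i => match i with
    | none => n₁ | some true => n₂ | some false => n₃
  let i3 : ∀ i, Algebra k (F i) := fun i => match i with
    | none => a₁ | some true => a₂ | some false => a₃
  let d : ∀ i, F i := fun i => match i with
    | none => d₁ | some true => d₂ | some false => d₃
  let A : ∀ i, WeierstrassCurve (F i) := fun i => match i with
    | none => A₁ | some true => A₂ | some false => A₃
  let n : Option Bool → ℤ := fun i => match i with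
    | none => 1 | some true => -1 | some false => -1
  let c : Option Bool → ℂ := fun i => match i with
    | none => c₁ | some true => c₂ | some false => c₃
  let x : Option Bool → ℝ := fun i => match i with
    | none => x₁ | some true => x₂ | some false => x₃
  obtain ⟨h0, ⟨q, hq, h4⟩, ⟨r, hr, h5⟩, -⟩ := hG k E (Option Bool) F d n hE
    (fun i => match i with | none => h1 | some true => h2 | some false => h3)
    (fun g => by
      rw [Fintype.sum_option, Fintype.sum_bool]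
      change (1 : ℤ) * sgn d₁ g + ((-1) * sgn d₂ g + (-1) * sgn d₃ g) = 0
      rw [hrel g]
      ring)
    A (fun i => match i with | none => hA₁ | some true => hA₂ | some false => hA₃) c x
    (fun i => match i with | none => hc₁ | some true => hc₂ | some false => hc₃)
    (fun i => match i with | none => hx₁ | some true => hx₂ | some false => hx₃)
  have hx0 : x₂ ≠ 0 := h0 (some true)
  have hx0' : x₃ ≠ 0 := h0 (some false)
  rw [Fintype.prod_option, Fintype.prod_bool, Fintype.prod_option, Fintype.prod_bool] at h4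
  rw [Fintype.prod_option, Fintype.prod_bool] at h5
  change c₁ ^ (1 : ℤ).toNat * (c₂ ^ (-1 : ℤ).toNat * c₃ ^ (-1 : ℤ).toNat) =
    q * (c₁ ^ (-1 : ℤ).toNat * (c₂ ^ (-(-1) : ℤ).toNat * c₃ ^ (-(-1) : ℤ).toNat)) at h4
  change x₁ ^ (1 : ℤ) * (x₂ ^ (-1 : ℤ) * x₃ ^ (-1 : ℤ)) = r at h5
  have h6 : c₁ = q * (c₂ * c₃) := by simpa using h4
  have h7 : x₁ = r * (x₂ * x₃) := by
    rw [zpow_one, zpow_neg_one, zpow_neg_one] at h5
    rw [← h5]
    field_simp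
  have hq' : (q : ℂ) ≠ 0 := by exact_mod_cast hq
  have hr' : (r : ℂ) ≠ 0 := by exact_mod_cast hr
  have hx0c : (x₂ : ℂ) ≠ 0 := by exact_mod_cast hx0
  refine ⟨⟨q, hq, h6⟩, ⟨r, hr, h7⟩, fun h8 h9 => ⟨fun h10 h11 => ?_, fun h10 h11 => ?_⟩⟩
  · obtain ⟨t, ht, h12⟩ := h10 (by rw [h6]; exact mul_ne_zero hq' (mul_ne_zero h8 h11))
    obtain ⟨v, hv, h13⟩ := h9
    refine ⟨q⁻¹ * t * r * v⁻¹, mul_ne_zero (mul_ne_zero (mul_ne_zero (inv_ne_zero hq) ht) hr)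
      (inv_ne_zero hv), ?_⟩
    have hv' : (v : ℂ) ≠ 0 := by exact_mod_cast hv
    rw [h6, h7, h13] at h12
    push_cast at h12 ⊢
    have h14 : (x₂ : ℂ) * (q * v * c₃ - t * r * x₃) = 0 := by linear_combination h12
    have h15 := (mul_eq_zero.1 h14).resolve_left hx0c
    field_simp
    linear_combination h15
  · have h11' : c₃ ≠ 0 := by
      rintro rfl
      apply h11
      rw [h6, mul_zero, mul_zero]
    obtain ⟨t, ht, h12⟩ := h10 h11'
    obtain ⟨v, hv, h13⟩ := h9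
    refine ⟨q * v * t * r⁻¹, mul_ne_zero (mul_ne_zero (mul_ne_zero hq hv) ht)
      (inv_ne_zero hr), ?_⟩
    rw [h6, h7, h12, h13]
    push_cast
    field_simp

private theorem nz_aux {k F : Type} [Field k] [Field F] [Algebra k F] (a b x y z : k) (α : F)
    (hα : α ^ 2 = algebraMap k F a) (hb : b ≠ 0) (h : x ^ 2 = a * y ^ 2 + b * z ^ 2) (hz : z ≠ 0) :
    algebraMap k F x + algebraMap k F y * α ≠ 0 := by
  intro h0
  have h1 : algebraMap k F (b * z ^ 2) = 0 := by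
    have h2 : b * z ^ 2 = x ^ 2 - a * y ^ 2 := by rw [h]; ring
    rw [h2, map_sub, map_mul, map_pow, map_pow, ← hα]
    linear_combination (algebraMap k F x - algebraMap k F y * α) * h0
  exact mul_ne_zero hb (pow_ne_zero 2 hz) ((map_eq_zero (algebraMap k F)).1 h1)

theorem thm_Dihedral (hG : General) (h : St_DFour) : Dihedral := by
  intro k F₁ F₂ _ _ _ _ _ _ _ _ E a b x y z α β hE hF₁ hF₂ hα hβ ha hb hxyz hy hz A₁ A₂ c₁ c₂ x₁ x₂
    hA₁ hA₂ hc₁ hc₂ hx₁ hx₂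
  have ha0 : a ≠ 0 := fun h0 => ha (h0 ▸ ⟨0, by simp⟩)
  have hb0 : b ≠ 0 := fun h0 => hb (h0 ▸ ⟨0, by simp⟩)
  refine two_terms hG k F₁ F₂ E _ _ hE (nz_aux a b x y z α hα hb0 hxyz hz) ?_
    (h k F₁ F₂ a b x y z α β hF₁ hF₂ hα hβ ha hb hxyz hy hz) A₁ A₂ hA₁ hA₂ c₁ c₂ x₁ x₂ hc₁ hc₂
    hx₁ hx₂
  exact mul_ne_zero two_ne_zero
    (nz_aux b a x z y β hβ ha0 (by rw [hxyz]; ring) hy)

theorem thm_Quartic (hG : General) (h : St_Quart) : Quartic := by
  intro k F₄ F₃ _ _ _ _ _ _ _ _ E p q r θ t hE hF₄ hF₃ hirr4 hirr3 hθ ht A₄ A₃ c c₄ c₃ x x₄ x₃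
    hA₄ hA₃ hc hc₄ hc₃ hx hx₄ hx₃
  have ht0 : t ≠ 0 := by
    intro h0
    have h1 : (X ^ 3 + C (2 * p) * X ^ 2 + C (p ^ 2 - 4 * r) * X - C (q ^ 2) : k[X]).eval 0 = 0 := by
      have h2 := ht
      rw [h0] at h2
      have h3 : aeval (0 : F₃)
          (X ^ 3 + C (2 * p) * X ^ 2 + C (p ^ 2 - 4 * r) * X - C (q ^ 2) : k[X]) =
          algebraMap k F₃ ((X ^ 3 + C (2 * p) * X ^ 2 + C (p ^ 2 - 4 * r) * X - C (q ^ 2) :
            k[X]).eval 0) := by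
        simp
      rw [h3] at h2
      exact (map_eq_zero (algebraMap k F₃)).1 h2
    have h4 : (X ^ 3 + C (2 * p) * X ^ 2 + C (p ^ 2 - 4 * r) * X - C (q ^ 2) : k[X]).natDegree = 3 := by
      compute_degree!
    have h5 := Polynomial.degree_eq_one_of_irreducible_of_root hirr3 h1
    have h6 := Polynomial.natDegree_eq_of_degree_eq_some h5
    rw [h4] at h6
    exact absurd h6 (by norm_num)
  refine three_terms hG k F₄ k F₃ E 1 1 t hE one_ne_zero one_ne_zero ht0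
    (h k F₄ F₃ p q r θ t hF₄ hF₃ hirr4 hirr3 hθ ht) A₄ E A₃ hA₄ ⟨1, one_ne_zero, by simp, by simp⟩
    hA₃ c₄ c c₃ x₄ x x₃ hc₄ hc hc₃ hx₄ hx hx₃

end ART
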