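import Pool.Agent.ART.StC

/-!
# ART Frob: existence of Frobenius elements
-/

set_option autoImplicit false

namespace ART

open NumberField IsDedekindDomain

theorem thm_Frob : St_Frob := by
  intro k M _ _ _ _ _ _ v
  have hvp : v.asIdeal.IsPrime := v.isPrime
  have : Algebra.IsIntegral (𝓞 k) (𝓞 M) := inferInstance
  have : FiniteDimensional k M := inferInstance
  obtain ⟨⟨P, hPp, hPo⟩⟩ := Ideal.nonempty_primesOver (S := 𝓞 M) v.asIdeal
  have := hPp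
  have := hPo
  have hu : P.under (𝓞 k) = v.asIdeal := hPo.over.symm
  have hP0 : P ≠ ⊥ := by
    rintro rfl
    apply v.ne_bot
    rw [← hu, Ideal.under_def, ← RingHom.ker_eq_comap_bot]
    exact (RingHom.injective_iff_ker_eq_bot _).1 (FaithfulSMul.algebraMap_injective (𝓞 k) (𝓞 M))
  have : Finite (𝓞 M ⧸ P) := Ideal.finiteQuotientOfFreeOfNeBot P hP0
  have : Algebra.IsInvariant (𝓞 k) (𝓞 M) (𝓞 M ≃ₐ[𝓞 k] 𝓞 M) :=
    Algebra.isInvariant_of_isGalois' (𝓞 k) k M (𝓞 M)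
  have : Finite (𝓞 M ≃ₐ[𝓞 k] 𝓞 M) :=
    Finite.of_injective _ (galRestrict (𝓞 k) k M (𝓞 M)).symm.injective
  obtain ⟨σ, hσ⟩ := IsArithFrobAt.exists_of_isInvariant (𝓞 k) (𝓞 M ≃ₐ[𝓞 k] 𝓞 M) P
  refine ⟨⟨P, hPp, hP0⟩, (galRestrict (𝓞 k) k M (𝓞 M)).symm σ, ?_, ?_⟩
  · exact hu
  · intro x
    refine ⟨σ x - x ^ nm v, ?_, ?_⟩
    · have h1 := hσ x
      have h2 : Nat.card (𝓞 k ⧸ P.under (𝓞 k)) = nm v := by
        rw [hu]
        rfl
      rw [h2] at h1
      exact h1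
    · have h3 : (((galRestrict (𝓞 k) k M (𝓞 M)).symm σ) (x : M)) = ((σ x : 𝓞 M) : M) := by
        have h4 := algebraMap_galRestrict_apply (𝓞 k) (K := k) (L := M) (B := 𝓞 M)
          ((galRestrict (𝓞 k) k M (𝓞 M)).symm σ) x
        rw [MulEquiv.apply_symm_apply] at h4
        exact h4.symm
      rw [h3]
      push_cast
      ring

end ART
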