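import Pool.Agent.ART.Base

/-!
# ART [FixF]: the induced representations of the subfields of a Galois extension
-/

set_option autoImplicit false

namespace ART

open NumberField

/-- For `d = 1` the number `sgn` is twice the number of the embeddings which are fixed. -/
theorem FixF_one {k F Ω : Type} [Field k] [Field F] [Field Ω] [Algebra k F] [Algebra k Ω]
    [CharZero Ω] (g : Ω ≃ₐ[k] Ω) :
    sgn (1 : F) g = 2 * Nat.card {φ : F →ₐ[k] Ω // (g : Ω →ₐ[k] Ω).comp φ = φ} := by
  classical
  have hne : (-1 : Ω) ≠ 1 := by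
    intro h
    have h2 : (2 : Ω) = 0 := by linear_combination -h
    exact two_ne_zero h2
  have hz : ∀ x : Pr k F Ω (1 : F), x.1.2 = 1 ∨ x.1.2 = -1 := fun x => by
    have h1 := x.2
    rw [map_one] at h1
    exact sq_eq_one_iff.1 h1
  have h0 : IsEmpty {x : Pr k F Ω (1 : F) // (g : Ω →ₐ[k] Ω).comp x.1.1 = x.1.1 ∧
      g x.1.2 = - x.1.2} := by
    refine ⟨fun x => ?_⟩
    have h1 := x.2.2
    rcases hz x.1 with h2 | h2
    · rw [h2, map_one] at h1
      exact hne h1.symm
    · rw [h2, map_neg, map_one, neg_neg] at h1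
      exact hne h1
  have e : {x : Pr k F Ω (1 : F) // (g : Ω →ₐ[k] Ω).comp x.1.1 = x.1.1 ∧ g x.1.2 = x.1.2} ≃
      {φ : F →ₐ[k] Ω // (g : Ω →ₐ[k] Ω).comp φ = φ} × Bool :=
    { toFun := fun x => (⟨x.1.1.1, x.2.1⟩, decide (x.1.1.2 = 1))
      invFun := fun p => ⟨⟨(p.1.1, if p.2 then 1 else -1), by
        rw [map_one]
        cases p.2
        · simp
        · simp⟩, p.1.2, by
        cases p.2
        · simp
        · simp⟩
      left_inv := by
        intro x
        apply Subtype.ext
        apply Subtype.ext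
        refine Prod.ext rfl ?_
        show (if decide (x.1.1.2 = 1) = true then (1 : Ω) else -1) = x.1.1.2
        rcases hz x.1 with h2 | h2
        · simp [h2]
        · simp [h2, hne]
      right_inv := by
        rintro ⟨φ, b⟩
        refine Prod.ext rfl ?_
        show decide ((if b = true then (1 : Ω) else -1) = 1) = b
        cases b
        · simp [hne]
        · simp }
  unfold sgn
  rw [Nat.card_congr e, Nat.card_prod, Nat.card_eq_zero.2 (Or.inl h0)]
  simp
  ring

/-- The subfields of a Galois extension `M / k`: an automorphism `g` of the algebraic closure acts on the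
embeddings of the fixed field of `H` as its restriction `γ` acts on `Gal(M/k) / H`. -/
theorem FixF (k M : Type) [Field k] [NumberField k] [Field M] [NumberField M] [Algebra k M]
    [IsGalois k M] (g : AlgebraicClosure k ≃ₐ[k] AlgebraicClosure k) :
    ∃ γ : M ≃ₐ[k] M, ∀ H : Subgroup (M ≃ₐ[k] M),
      sgn (1 : IntermediateField.fixedField H) g =
        2 * Nat.card {x : (M ≃ₐ[k] M) ⧸ H // γ • x = x} := by
  classical
  let i₀ : M →ₐ[k] AlgebraicClosure k := IsAlgClosed.lift
  let _ : Algebra M (AlgebraicClosure k) := i₀.toRingHom.toAlgebra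
  have hst : IsScalarTower k M (AlgebraicClosure k) :=
    IsScalarTower.of_algebraMap_eq fun x => (i₀.commutes x).symm
  have hi : ∀ x, algebraMap M (AlgebraicClosure k) x = i₀ x := fun x => rfl
  have hinj : Function.Injective i₀ := i₀.toRingHom.injective
  let γ : M ≃ₐ[k] M := AlgEquiv.restrictNormal g M
  have hγ : ∀ x, i₀ (γ x) = g (i₀ x) := fun x => AlgEquiv.restrictNormal_commutes g M x
  refine ⟨γ, fun H => ?_⟩
  rw [FixF_one]
  congr 2
  -- the embeddings of the fixed field
  let F := IntermediateField.fixedField H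
  let f : (M ≃ₐ[k] M) → (F →ₐ[k] AlgebraicClosure k) := fun σ =>
    i₀.comp ((σ : M →ₐ[k] M).comp F.val)
  have hf : ∀ σ τ : M ≃ₐ[k] M, f σ = f τ ↔ σ⁻¹ * τ ∈ H := by
    intro σ τ
    constructor
    · intro h
      rw [← IntermediateField.fixingSubgroup_fixedField H]
      rw [IntermediateField.mem_fixingSubgroup_iff]
      intro x hx
      have h1 := DFunLike.congr_fun h (⟨x, hx⟩ : F)
      have h2 : σ x = τ x := hinj h1
      show σ⁻¹ (τ x) = x
      rw [← h2]
      exact σ.symm_apply_apply x
    · intro h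
      apply AlgHom.ext
      intro x
      have hx := x.2
      have h1 : (σ⁻¹ * τ) (x : M) = x :=
        (IntermediateField.mem_fixedField_iff H (x : M)).1 hx _ h
      show i₀ (σ x) = i₀ (τ x)
      have h2 : σ ((σ⁻¹ * τ) (x : M)) = τ x := by
        show σ (σ⁻¹ (τ x)) = τ x
        exact σ.apply_symm_apply (τ x)
      rw [← h2, h1]
  let f' : (M ≃ₐ[k] M) ⧸ H → (F →ₐ[k] AlgebraicClosure k) :=
    Quotient.lift f fun σ τ h => (hf σ τ).2 (QuotientGroup.leftRel_apply.1 h)
  have hf'mk : ∀ σ : M ≃ₐ[k] M, f' (σ : (M ≃ₐ[k] M) ⧸ H) = f σ := fun σ => rfl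
  have hf'inj : Function.Injective f' := by
    intro a b
    induction a using QuotientGroup.induction_on with | H σ =>
    induction b using QuotientGroup.induction_on with | H τ =>
    intro h
    exact QuotientGroup.eq.2 ((hf σ τ).1 h)
  have hcard : Nat.card ((M ≃ₐ[k] M) ⧸ H) = Nat.card (F →ₐ[k] AlgebraicClosure k) := by
    have h1 : Nat.card (M ≃ₐ[k] M) = Nat.card ((M ≃ₐ[k] M) ⧸ H) * Nat.card H :=
      Subgroup.card_eq_card_quotient_mul_card_subgroup H
    have h2 : Nat.card (M ≃ₐ[k] M) = Module.finrank k M := IsGalois.card_aut_eq_finrank k M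
    have h3 : Module.finrank F M = Nat.card H := IntermediateField.finrank_fixedField_eq_card H
    have h4 : Module.finrank k F * Module.finrank F M = Module.finrank k M :=
      Module.finrank_mul_finrank k F M
    have h5 : Nat.card (F →ₐ[k] AlgebraicClosure k) = Module.finrank k F := by
      rw [Nat.card_eq_fintype_card]
      exact AlgHom.card k F (AlgebraicClosure k)
    have h6 : 0 < Nat.card H := Nat.card_pos
    rw [h5]
    have h7 : Nat.card ((M ≃ₐ[k] M) ⧸ H) * Nat.card H = Module.finrank k F * Nat.card H := by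
      rw [← h1, h2, ← h4, h3]
    exact Nat.eq_of_mul_eq_mul_right h6 h7
  have hbij : Function.Bijective f' :=
    (Nat.bijective_iff_injective_and_card f').2 ⟨hf'inj, hcard⟩
  have hact : ∀ x : (M ≃ₐ[k] M) ⧸ H,
      (g : AlgebraicClosure k →ₐ[k] AlgebraicClosure k).comp (f' x) = f' (γ • x) := by
    intro x
    induction x using QuotientGroup.induction_on with | H σ =>
    apply AlgHom.ext
    intro y
    show g (i₀ (σ y)) = i₀ ((γ * σ) y)
    rw [← hγ]
    rfl
  refine Nat.card_congr (Equiv.subtypeEquiv (Equiv.ofBijective f' hbij).symm ?_)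
  intro φ
  obtain ⟨x, rfl⟩ := hbij.2 φ
  have h1 : (Equiv.ofBijective f' hbij).symm (f' x) = x := Equiv.ofBijective_symm_apply_apply f' hbij x
  rw [h1, hact]
  exact ⟨fun h => hf'inj h, fun h => by rw [h]⟩

end ART
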