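import Pool.Agent.ART.HypDef

/-!
# ART [Solomon]: the trivial character is an integral combination of the permutation characters of the
hyperelementary subgroups
-/

set_option autoImplicit false

namespace ART

open MulAction

section

variable {G : Type} [Group G]

private theorem hyper_of {H : Subgroup G} (hH : Hyper H) (K : Subgroup G) (y : G)
    (hK : ∀ k ∈ K, y⁻¹ * k * y ∈ H) : Hyper K := by
  obtain ⟨p, hp, C, hCH, hC, hn, hpow⟩ := hH
  have hconj : ∀ k : G, (MulAut.conj y⁻¹).toMonoidHom k = y⁻¹ * k * y := fun k => by simp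
  refine ⟨p, hp, K ⊓ C.comap (MulAut.conj y⁻¹).toMonoidHom, inf_le_left, ?_, ?_, ?_⟩
  · let f : (K ⊓ C.comap (MulAut.conj y⁻¹).toMonoidHom : Subgroup G) →* C :=
      ((MulAut.conj y⁻¹).toMonoidHom.comp (Subgroup.subtype _)).codRestrict C
        (fun x => x.2.2)
    refine isCyclic_of_injective f ?_
    intro a b hab
    have h1 : (MulAut.conj y⁻¹) (a : G) = (MulAut.conj y⁻¹) (b : G) := congrArg Subtype.val hab
    exact Subtype.ext ((MulAut.conj y⁻¹).injective h1)
  · intro h hh c hc
    obtain ⟨hc1, hc2⟩ := Subgroup.mem_inf.1 hc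
    refine Subgroup.mem_inf.2 ⟨K.mul_mem (K.mul_mem hh hc1) (K.inv_mem hh), ?_⟩
    rw [Subgroup.mem_comap, hconj] at hc2 ⊢
    have h1 := hn _ (hK h hh) _ hc2
    have h2 : y⁻¹ * h * y * (y⁻¹ * c * y) * (y⁻¹ * h * y)⁻¹ = y⁻¹ * (h * c * h⁻¹) * y := by group
    rwa [h2] at h1
  · intro h hh
    obtain ⟨n, h1⟩ := hpow _ (hK h hh)
    refine ⟨n, Subgroup.mem_inf.2 ⟨K.pow_mem hh _, ?_⟩⟩
    rw [Subgroup.mem_comap, map_pow, hconj]
    exact h1

private noncomputable def fixf (H : Subgroup G) : G → ℤ := fun γ =>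
  (Nat.card {x : G ⧸ H // γ • x = x} : ℤ)

private noncomputable def RR (G : Type) [Group G] : Submodule ℤ (G → ℤ) :=
  Submodule.span ℤ (Set.range fun H : {H : Subgroup G // Hyper H} => fixf H.1)

private theorem fix_sum [Finite G] (X : Type) [MulAction G X] [Finite X]
    [Fintype (orbitRel.Quotient G X)] (γ : G) :
    Nat.card {x : X // γ • x = x} =
      ∑ ω : orbitRel.Quotient G X, Nat.card {a : G ⧸ stabilizer G ω.out // γ • a = a} := by
  classical
  let e : (Σ ω : orbitRel.Quotient G X, G ⧸ stabilizer G ω.out) → X := fun s =>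
    ofQuotientStabilizer G s.1.out s.2
  have he : Function.Bijective e := by
    constructor
    · rintro ⟨ω, a⟩ ⟨ω', b⟩ h
      have h1 : ofQuotientStabilizer G ω.out a = ofQuotientStabilizer G ω'.out b := h
      have hωω : ω = ω' := by
        have h2 : ∀ (ω : orbitRel.Quotient G X) (a : G ⧸ stabilizer G ω.out),
            (Quotient.mk'' (ofQuotientStabilizer G ω.out a) : orbitRel.Quotient G X) = ω := by
          intro ω a
          induction a using QuotientGroup.induction_on with | H g =>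
          rw [ofQuotientStabilizer_mk]
          have h3 : (Quotient.mk'' (g • ω.out) : orbitRel.Quotient G X) = Quotient.mk'' ω.out :=
            Quotient.sound (orbitRel_apply.2 (mem_orbit _ _))
          rw [h3]
          exact Quotient.out_eq ω
        rw [← h2 ω a, h1, h2 ω' b]
      subst hωω
      rw [injective_ofQuotientStabilizer G _ h1]
    · intro x
      have h1 : x ∈ orbit G ((Quotient.mk'' x : orbitRel.Quotient G X).out) :=
        orbitRel_apply.1 (Quotient.exact (Quotient.out_eq (Quotient.mk'' x : orbitRel.Quotient G X)).symm)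
      obtain ⟨g, hg⟩ := h1
      refine ⟨⟨Quotient.mk'' x, (g : G ⧸ _)⟩, ?_⟩
      show ofQuotientStabilizer G _ (g : G ⧸ _) = x
      rw [ofQuotientStabilizer_mk]
      exact hg
  have h1 : {s : (Σ ω : orbitRel.Quotient G X, G ⧸ stabilizer G ω.out) // γ • s.2 = s.2} ≃
      {x : X // γ • x = x} := by
    refine Equiv.subtypeEquiv (Equiv.ofBijective e he) ?_
    intro s
    show γ • s.2 = s.2 ↔ γ • ofQuotientStabilizer G s.1.out s.2 = ofQuotientStabilizer G s.1.out s.2
    rw [← ofQuotientStabilizer_smul]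
    exact ⟨fun h => by rw [h], fun h => injective_ofQuotientStabilizer G _ h⟩
  have h2 : {s : (Σ ω : orbitRel.Quotient G X, G ⧸ stabilizer G ω.out) // γ • s.2 = s.2} ≃
      Σ ω : orbitRel.Quotient G X, {a : G ⧸ stabilizer G ω.out // γ • a = a} :=
    ⟨fun s => ⟨s.1.1, s.1.2, s.2⟩, fun t => ⟨⟨t.1, t.2.1⟩, t.2.2⟩, fun _ => rfl, fun _ => rfl⟩
  rw [← Nat.card_congr h1, Nat.card_congr h2, Nat.card_sigma]

private theorem fix_mem [Finite G] (X : Type) [MulAction G X] [Finite X]
    (hX : ∀ x : X, Hyper (stabilizer G x)) :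
    (fun γ => (Nat.card {x : X // γ • x = x} : ℤ)) ∈ RR G := by
  classical
  have : Fintype (orbitRel.Quotient G X) := Fintype.ofFinite _
  have h1 : (fun γ : G => (Nat.card {x : X // γ • x = x} : ℤ)) =
      ∑ ω : orbitRel.Quotient G X, fixf (stabilizer G ω.out) := by
    funext γ
    rw [fix_sum X γ, Finset.sum_apply]
    push_cast
    rfl
  rw [h1]
  exact Submodule.sum_mem _ fun ω _ =>
    Submodule.subset_span ⟨⟨stabilizer G ω.out, hX _⟩, rfl⟩

private theorem mul_mem_base [Finite G] (H K : Subgroup G) (hH : Hyper H) :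
    fixf H * fixf K ∈ RR G := by
  have h1 : fixf H * fixf K =
      fun γ : G => (Nat.card {x : (G ⧸ H) × (G ⧸ K) // γ • x = x} : ℤ) := by
    funext γ
    have e : {x : (G ⧸ H) × (G ⧸ K) // γ • x = x} ≃
        {a : G ⧸ H // γ • a = a} × {b : G ⧸ K // γ • b = b} :=
      { toFun := fun x => (⟨x.1.1, congrArg Prod.fst x.2⟩, ⟨x.1.2, congrArg Prod.snd x.2⟩)
        invFun := fun p => ⟨(p.1.1, p.2.1), Prod.ext p.1.2 p.2.2⟩
        left_inv := fun _ => rfl
        right_inv := fun _ => rfl }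
    rw [Nat.card_congr e, Nat.card_prod, Pi.mul_apply]
    push_cast
    rfl
  rw [h1]
  refine fix_mem _ ?_
  rintro ⟨a, b⟩
  induction a using QuotientGroup.induction_on with | H y =>
  refine hyper_of hH _ y ?_
  intro k hk
  have h2 : k • (y : G ⧸ H) = y := congrArg Prod.fst (mem_stabilizer_iff.1 hk)
  have h3 : ((k * y : G) : G ⧸ H) = (y : G ⧸ H) := h2
  have h4 := QuotientGroup.eq.1 h3.symm
  rwa [← mul_assoc] at h4

private theorem mul_mem' [Finite G] (f g : G → ℤ) (hf : f ∈ RR G) (hg : g ∈ RR G) :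
    f * g ∈ RR G := by
  refine Submodule.span_induction (p := fun f _ => f * g ∈ RR G) ?_ ?_ ?_ ?_ hf
  · rintro _ ⟨H, rfl⟩
    refine Submodule.span_induction (p := fun g _ => fixf H.1 * g ∈ RR G) ?_ ?_ ?_ ?_ hg
    · rintro _ ⟨K, rfl⟩
      exact mul_mem_base H.1 K.1 H.2
    · rw [mul_zero]
      exact Submodule.zero_mem _
    · intro x y _ _ hx hy
      rw [mul_add]
      exact Submodule.add_mem _ hx hy
    · intro a x _ hx
      rw [mul_smul_comm]
      exact Submodule.smul_mem _ _ hx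
  · rw [zero_mul]
    exact Submodule.zero_mem _
  · intro x y _ _ hx hy
    rw [add_mul]
    exact Submodule.add_mem _ hx hy
  · intro a x _ hx
    rw [smul_mul_assoc]
    exact Submodule.smul_mem _ _ hx

/-- For every element `γ` and prime `p` there is a hyperelementary subgroup such that the number of the
fixed points of `γ` is not divisible by `p`. -/
private theorem hyper_fix [Finite G] (γ : G) (p : ℕ) (hp : p.Prime) :
    ∃ H : Subgroup G, Hyper H ∧ ¬ p ∣ Nat.card {x : G ⧸ H // γ • x = x} := by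
  classical
  have : Fact p.Prime := ⟨hp⟩
  have ho : orderOf γ ≠ 0 := (orderOf_pos γ).ne'
  obtain ⟨a, m, hm, hom⟩ := Nat.exists_eq_pow_mul_and_not_dvd ho p hp.ne_one
  let c : G := γ ^ p ^ a
  let u : G := γ ^ m
  have hcm : c ^ m = 1 := by
    show (γ ^ p ^ a) ^ m = 1
    rw [← pow_mul, ← hom, pow_orderOf_eq_one]
  have hup : u ^ p ^ a = 1 := by
    show (γ ^ m) ^ p ^ a = 1
    rw [← pow_mul, mul_comm m, ← hom, pow_orderOf_eq_one]
  have hcop : ∀ n : ℕ, Nat.Coprime (p ^ n) m := fun n =>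
    Nat.Coprime.pow_left n ((Nat.Prime.coprime_iff_not_dvd hp).2 hm)
  have hcu : c * u = u * c := by
    show γ ^ p ^ a * γ ^ m = γ ^ m * γ ^ p ^ a
    rw [← pow_add, ← pow_add, add_comm]
  let C : Subgroup G := Subgroup.zpowers c
  let N : Subgroup G := Subgroup.normalizer (C : Set G)
  have huN : u ∈ N := by
    refine Subgroup.mem_normalizer_fintype fun n hn => ?_
    obtain ⟨k, hk⟩ := Subgroup.mem_zpowers_iff.1 (show n ∈ Subgroup.zpowers c from hn)
    rw [← hk]
    have h1 : Commute u (c ^ k) := Commute.zpow_right (hcu.symm : Commute u c) k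
    rw [h1.eq, mul_inv_cancel_right]
    exact Subgroup.zpow_mem _ (Subgroup.mem_zpowers c) k
  have hCN : C ≤ N := Subgroup.le_normalizer
  let CN : Subgroup N := C.subgroupOf N
  have hCNn : CN.Normal := Subgroup.normal_in_normalizer
  have hPu : IsPGroup p (Subgroup.zpowers (⟨u, huN⟩ : N)) := by
    rw [IsPGroup.iff_orderOf]
    intro g
    obtain ⟨i, hi⟩ := Subgroup.mem_zpowers_iff.1 g.2
    have h1 : g ^ p ^ a = 1 := by
      apply Subtype.ext
      rw [Subgroup.coe_pow, ← hi, ← zpow_natCast, ← zpow_mul, mul_comm, zpow_mul, zpow_natCast]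
      have h2 : (⟨u, huN⟩ : N) ^ p ^ a = 1 := Subtype.ext hup
      rw [h2, one_zpow]
      rfl
    obtain ⟨k, -, hk⟩ := (Nat.dvd_prime_pow hp).1 (orderOf_dvd_of_pow_eq_one h1)
    exact ⟨k, hk⟩
  obtain ⟨Q, hQ⟩ := hPu.exists_le_sylow
  let HN : Subgroup N := CN ⊔ Q
  let H : Subgroup G := HN.map N.subtype
  have hHN : H.subgroupOf N = HN := by
    show (HN.map N.subtype).comap N.subtype = HN
    exact Subgroup.comap_map_eq_self_of_injective N.subtype_injective HN
  have hHleN : H ≤ N := by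
    rintro _ ⟨x, -, rfl⟩
    exact x.2
  have hCH : C ≤ H := by
    intro x hx
    exact ⟨⟨x, hCN hx⟩, (le_sup_left : CN ≤ HN) (Subgroup.mem_subgroupOf.2 hx), rfl⟩
  have huH : u ∈ H := ⟨⟨u, huN⟩, (le_sup_right : (Q : Subgroup N) ≤ HN)
    (hQ (Subgroup.mem_zpowers _)), rfl⟩
  have hpow : ∀ h ∈ H, ∃ n : ℕ, h ^ p ^ n ∈ C := by
    rintro _ ⟨x, hx, rfl⟩
    have hx' : x ∈ (CN ⊔ (Q : Subgroup N) : Subgroup N) := hx
    obtain ⟨y, hy, q, hq, rfl⟩ := Subgroup.mem_sup_of_normal_left.1 hx'
    obtain ⟨n, hn⟩ := (IsPGroup.iff_card.1 Q.2)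
    refine ⟨n, ?_⟩
    have hqn : q ^ p ^ n = 1 := by
      have h1 : (⟨q, hq⟩ : (Q : Subgroup N)) ^ p ^ n = 1 := by
        rw [← hn]
        exact pow_card_eq_one'
      exact congrArg Subtype.val h1
    have h2 : ((y * q) ^ p ^ n : N) ∈ CN := by
      rw [← QuotientGroup.eq_one_iff]
      have h3 : ((y : N) : N ⧸ CN) = 1 := (QuotientGroup.eq_one_iff y).2 hy
      have h4 : (((y * q) ^ p ^ n : N) : N ⧸ CN) = (((q ^ p ^ n : N)) : N ⧸ CN) := by
        rw [QuotientGroup.mk_pow, QuotientGroup.mk_mul, h3, one_mul, ← QuotientGroup.mk_pow]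
      rw [h4, hqn]
      rfl
    exact Subgroup.mem_subgroupOf.1 h2
  have hyp : Hyper H := by
    refine ⟨p, hp, C, hCH, inferInstance, ?_, hpow⟩
    intro h hh x hx
    exact ((Subgroup.mem_normalizer_iff.1 (hHleN hh)) x).1 hx
  refine ⟨H, hyp, ?_⟩
  -- the fixed points of `c`
  let A : Set (G ⧸ H) := {x | c • x = x}
  have hA : A = orbit N ((1 : G) : G ⧸ H) := by
    ext x
    constructor
    · induction x using QuotientGroup.induction_on with | H y =>
      intro hx
      have h1 : ((c * y : G) : G ⧸ H) = (y : G ⧸ H) := hx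
      have h2 := QuotientGroup.eq.1 h1.symm
      rw [← mul_assoc] at h2
      obtain ⟨n, hn⟩ := hpow _ h2
      have h3 : (y⁻¹ * c * y) ^ m = 1 := by
        have h4 : (y⁻¹ * c * y) ^ m = y⁻¹ * c ^ m * y := by
          have h5 := conj_pow (i := m) (a := y⁻¹) (b := c)
          rw [inv_inv] at h5
          exact h5
        rw [h4, hcm, mul_one, inv_mul_cancel]
      have h4 : y⁻¹ * c * y ∈ C := by
        have h5 : Subgroup.zpowers ((y⁻¹ * c * y) ^ p ^ n) ≤ C := Subgroup.zpowers_le.2 hn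
        apply h5
        have h6 : Nat.Coprime (orderOf (y⁻¹ * c * y)) (p ^ n) :=
          Nat.Coprime.coprime_dvd_left (orderOf_dvd_of_pow_eq_one h3) (hcop n).symm
        rw [Subgroup.mem_zpowers_iff]
        obtain ⟨k, hk⟩ := exists_pow_eq_self_of_coprime h6.symm
        exact ⟨k, by rw [zpow_natCast]; exact hk⟩
      have h5 : y⁻¹ ∈ N := by
        refine Subgroup.mem_normalizer_fintype fun z hz => ?_
        obtain ⟨k, hk⟩ := Subgroup.mem_zpowers_iff.1 (show z ∈ Subgroup.zpowers c from hz)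
        rw [← hk]
        have h6 : y⁻¹ * c ^ k * y⁻¹⁻¹ = (y⁻¹ * c * y⁻¹⁻¹) ^ k := conj_zpow.symm
        rw [h6, inv_inv]
        exact Subgroup.zpow_mem _ h4 k
      refine ⟨⟨y, (Subgroup.inv_mem_iff N).1 h5⟩, ?_⟩
      show ((y * 1 : G) : G ⧸ H) = (y : G ⧸ H)
      rw [mul_one]
    · rintro ⟨⟨y, hy⟩, rfl⟩
      show ((c * (y * 1) : G) : G ⧸ H) = ((y * 1 : G) : G ⧸ H)
      refine (QuotientGroup.eq.2 ?_).symm
      rw [mul_one, ← mul_assoc]
      apply hCH
      exact ((Subgroup.mem_normalizer_iff''.1 hy) c).1 (Subgroup.mem_zpowers c)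
  have hAcard : Nat.card A = HN.index := by
    have h1 := index_stabilizer N ((1 : G) : G ⧸ H)
    have h2 : stabilizer N ((1 : G) : G ⧸ H) = HN := by
      rw [← hHN]
      ext y
      rw [mem_stabilizer_iff, Subgroup.mem_subgroupOf]
      show (((y : G) * 1 : G) : G ⧸ H) = ((1 : G) : G ⧸ H) ↔ _
      rw [mul_one]
      constructor
      · intro h
        have h3 := QuotientGroup.eq.1 h.symm
        rwa [inv_one, one_mul] at h3
      · intro h
        refine (QuotientGroup.eq.2 ?_).symm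
        rwa [inv_one, one_mul]
    rw [h2] at h1
    rw [h1, hA]
    exact Nat.card_coe_set_eq _
  have hAp : ¬ p ∣ Nat.card A := by
    rw [hAcard]
    intro h
    exact Q.not_dvd_index (h.trans (Subgroup.index_dvd_of_le le_sup_right))
  -- `u` acts on the fixed points of `c`
  have hAu : ∀ x : A, u • (x : G ⧸ H) ∈ A := by
    intro x
    show c • u • (x : G ⧸ H) = u • (x : G ⧸ H)
    rw [← mul_smul, hcu, mul_smul]
    have h1 : c • (x : G ⧸ H) = x := x.2
    rw [h1]
  let f : Function.End A := fun x => ⟨u • (x : G ⧸ H), hAu x⟩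
  have hfpow : ∀ (n : ℕ) (x : A), (((f ^ n : Function.End A) x : A) : G ⧸ H) = u ^ n • (x : G ⧸ H) := by
    intro n
    induction n with
    | zero =>
      intro x
      rw [pow_zero, pow_zero, one_smul]
      rfl
    | succ n ih =>
      intro x
      rw [pow_succ, pow_succ, mul_smul]
      exact ih (f x)
  have hf : f ^ p ^ a = 1 := by
    funext x
    apply Subtype.ext
    rw [hfpow, hup, one_smul]
    rfl
  have : Fintype A := Fintype.ofFinite A
  have h1 := Equiv.Perm.card_fixedPoints_modEq hf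
  rw [← Nat.card_eq_fintype_card, ← Nat.card_eq_fintype_card] at h1
  have h2 : Nat.card {x : G ⧸ H // γ • x = x} = Nat.card (Function.fixedPoints f) := by
    have hγ : ∀ x : G ⧸ H, γ • x = x ↔ c • x = x ∧ u • x = x := by
      intro x
      constructor
      · intro h
        have h3 : ∀ n : ℕ, γ ^ n • x = x := by
          intro n
          induction n with
          | zero => rw [pow_zero, one_smul]
          | succ n ih => rw [pow_succ, mul_smul, h, ih]
        exact ⟨h3 _, h3 _⟩
      · rintro ⟨h3, h4⟩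
        have h5 : γ ∈ stabilizer G x := by
          have h6 : IsCoprime ((p ^ a : ℕ) : ℤ) (m : ℤ) := Nat.isCoprime_iff_coprime.2 (hcop a)
          obtain ⟨i, j, hij⟩ := h6
          have h7 : γ = c ^ i * u ^ j := by
            show γ = (γ ^ p ^ a) ^ i * (γ ^ m) ^ j
            rw [← zpow_natCast, ← zpow_natCast, ← zpow_mul, ← zpow_mul, ← zpow_add, mul_comm _ i,
              mul_comm _ j, hij, zpow_one]
          rw [h7]
          exact Subgroup.mul_mem _ (Subgroup.zpow_mem _ (mem_stabilizer_iff.2 h3) i)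
            (Subgroup.zpow_mem _ (mem_stabilizer_iff.2 h4) j)
        exact mem_stabilizer_iff.1 h5
    refine Nat.card_congr
      { toFun := fun x => ⟨⟨x.1, ((hγ x.1).1 x.2).1⟩, Subtype.ext ((hγ x.1).1 x.2).2⟩
        invFun := fun x => ⟨x.1.1, (hγ x.1.1).2 ⟨x.1.2, congrArg Subtype.val x.2⟩⟩
        left_inv := fun _ => rfl
        right_inv := fun _ => rfl }
  intro h3
  apply hAp
  rw [h2] at h3
  exact Nat.modEq_zero_iff_dvd.1 (h1.trans (Nat.modEq_zero_iff_dvd.2 h3))

private theorem value_one [Finite G] (γ : G) : ∃ f ∈ RR G, f γ = 1 := by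
  -- the values at `γ` form a subgroup of the integers
  let I : AddSubgroup ℤ := (RR G).toAddSubgroup.map (Pi.evalAddMonoidHom (fun _ : G => ℤ) γ)
  obtain ⟨a, ha⟩ := Int.subgroup_cyclic I
  have hI : ∀ f ∈ RR G, f γ ∈ I := fun f hf => ⟨f, hf, rfl⟩
  have hunit : a.natAbs = 1 := by
    by_contra hne
    obtain ⟨p, hp, hpa⟩ := Nat.exists_prime_and_dvd hne
    obtain ⟨H, hH, hHp⟩ := hyper_fix γ p hp
    have h1 : fixf H γ ∈ I := hI _ (Submodule.subset_span ⟨⟨H, hH⟩, rfl⟩)
    rw [ha, AddSubgroup.mem_closure_singleton] at h1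
    obtain ⟨n, hn⟩ := h1
    apply hHp
    have h2 : (p : ℤ) ∣ a := Int.natCast_dvd.2 hpa
    have h3 : (p : ℤ) ∣ fixf H γ := by
      rw [← hn, smul_eq_mul]
      exact Dvd.dvd.mul_left h2 n
    exact Int.natCast_dvd_natCast.1 h3
  have h1 : (1 : ℤ) ∈ I := by
    rw [ha, AddSubgroup.mem_closure_singleton]
    rcases Int.natAbs_eq_iff.1 hunit with h | h
    · exact ⟨1, by rw [h]; norm_num⟩
    · exact ⟨-1, by rw [h]; norm_num⟩
  obtain ⟨f, hf, h⟩ := h1
  exact ⟨f, hf, h⟩

private theorem one_mem' [Finite G] : (1 : G → ℤ) ∈ RR G := by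
  classical
  have : Fintype G := Fintype.ofFinite G
  have h : ∀ T : Finset G, ∃ f ∈ RR G, ∀ γ ∈ T, f γ = 1 := by
    intro T
    induction T using Finset.induction_on with
    | empty => exact ⟨0, Submodule.zero_mem _, fun γ hγ => absurd hγ (Finset.notMem_empty γ)⟩
    | insert a T ha ih =>
      obtain ⟨f, hf, hf1⟩ := ih
      obtain ⟨g, hg, hg1⟩ := value_one a
      refine ⟨f + g - f * g,
        Submodule.sub_mem _ (Submodule.add_mem _ hf hg) (mul_mem' f g hf hg), ?_⟩
      intro γ hγ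
      rw [Finset.mem_insert] at hγ
      show f γ + g γ - f γ * g γ = 1
      rcases hγ with rfl | hγ
      · rw [hg1]
        ring
      · rw [hf1 γ hγ]
        ring
  obtain ⟨f, hf, hf1⟩ := h Finset.univ
  have h1 : f = 1 := funext fun γ => hf1 γ (Finset.mem_univ γ)
  rw [← h1]
  exact hf

private theorem fixf_mem [Finite G] (K : Subgroup G) : fixf K ∈ RR G := by
  have h : ∀ f ∈ RR G, f * fixf K ∈ RR G := by
    intro f hf
    refine Submodule.span_induction (p := fun f _ => f * fixf K ∈ RR G) ?_ ?_ ?_ ?_ hf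
    · rintro _ ⟨H, rfl⟩
      exact mul_mem_base H.1 K H.2
    · rw [zero_mul]
      exact Submodule.zero_mem _
    · intro x y _ _ hx hy
      rw [add_mul]
      exact Submodule.add_mem _ hx hy
    · intro a x _ hx
      rw [smul_mul_assoc]
      exact Submodule.smul_mem _ _ hx
  have h1 := h 1 one_mem'
  rwa [one_mul] at h1

end

/-- Solomon's induction theorem: every permutation character `G / K` is an integral combination of the
permutation characters `G / H` with `H` hyperelementary. -/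
theorem Solomon (G : Type) [Group G] [Finite G] [Fintype {H : Subgroup G // Hyper H}]
    (K : Subgroup G) : ∃ n : {H : Subgroup G // Hyper H} → ℤ, ∀ γ : G,
      ∑ H, n H * (Nat.card {x : G ⧸ H.1 // γ • x = x} : ℤ) =
        (Nat.card {x : G ⧸ K // γ • x = x} : ℤ) := by
  classical
  obtain ⟨n, hn⟩ := (Submodule.mem_span_range_iff_exists_fun ℤ).1 (fixf_mem K)
  refine ⟨n, fun γ => ?_⟩
  have h1 := congrFun hn γ
  rw [Finset.sum_apply] at h1
  exact h1

end ART
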