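import Pool.Agent.ART.Fin
import Pool.Agent.ART.FixF
import Pool.Agent.ART.Solomon

/-!
# ART [Hyp]: reduction of the conjecture to the hyperelementary layers of a Galois extension
-/

set_option autoImplicit false

namespace ART

open NumberField IntermediateField

/-- The conjecture for all intermediate fields `F` of `M / k` follows from the conjecture for those with
`Gal(M/F)` hyperelementary, if the values are not zero there. -/
def Hyperelementary : Prop :=
  ∀ (k M : Type) [Field k] [NumberField k] [Field M] [NumberField M] [Algebra k M] [IsGalois k M]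
    (E : WeierstrassCurve k) (c : IntermediateField k M → ℂ) (x : IntermediateField k M → ℝ),
    E.Δ ≠ 0 →
    (∀ F : IntermediateField k M, Hyper F.fixingSubgroup → IsLValue (E.baseChange F) (c F) ∧
      IsOmega (E.baseChange F) (x F) ∧ c F ≠ 0 ∧ ∃ q : ℚ, c F = q * x F) →
    ∀ F : IntermediateField k M, IsLValue (E.baseChange F) (c F) →
      IsOmega (E.baseChange F) (x F) → c F ≠ 0 ∧ ∃ q : ℚ, q ≠ 0 ∧ c F = q * x F

theorem Hyp_twist {k F : Type} [Field k] [Field F] [NumberField F] [Algebra k F]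
    (E : WeierstrassCurve k) : IsTwist E (1 : F) (E.baseChange F) :=
  ⟨1, one_ne_zero, by rw [one_pow, one_pow, one_mul, one_mul]; exact E.map_c₄ _, by
    rw [one_pow, one_pow, one_mul, one_mul]; exact E.map_c₆ _⟩

private theorem hyp_aux (hG : General) (k M : Type) [Field k] [NumberField k] [Field M]
    [NumberField M] [Algebra k M] [IsGalois k M]
    (E : WeierstrassCurve k) (c : Subgroup (M ≃ₐ[k] M) → ℂ) (x : Subgroup (M ≃ₐ[k] M) → ℝ)
    (hE : E.Δ ≠ 0)
    (hH : ∀ H, Hyper H → IsLValue (E.baseChange (fixedField H)) (c H) ∧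
      IsOmega (E.baseChange (fixedField H)) (x H) ∧ c H ≠ 0 ∧ ∃ q : ℚ, c H = q * x H)
    (K : Subgroup (M ≃ₐ[k] M)) (hcK : IsLValue (E.baseChange (fixedField K)) (c K))
    (hxK : IsOmega (E.baseChange (fixedField K)) (x K)) :
    c K ≠ 0 ∧ ∃ q : ℚ, q ≠ 0 ∧ c K = q * x K := by
  classical
  have : Fintype {H : Subgroup (M ≃ₐ[k] M) // Hyper H} := Fintype.ofFinite _
  obtain ⟨n, hn⟩ := Solomon (M ≃ₐ[k] M) K
  let U : Option {H : Subgroup (M ≃ₐ[k] M) // Hyper H} → Subgroup (M ≃ₐ[k] M) := fun i =>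
    match i with | none => K | some H => H.1
  let N : Option {H : Subgroup (M ≃ₐ[k] M) // Hyper H} → ℤ := fun i =>
    match i with | none => -1 | some H => n H
  have hrel : ∀ g : AlgebraicClosure k ≃ₐ[k] AlgebraicClosure k,
      ∑ i, N i * sgn (1 : fixedField (U i)) g = 0 := by
    intro g
    obtain ⟨γ, hγ⟩ := FixF k M g
    have h1 : ∀ i, N i * sgn (1 : fixedField (U i)) g =
        2 * (N i * (Nat.card {x : (M ≃ₐ[k] M) ⧸ U i // γ • x = x} : ℤ)) := by
      intro i
      rw [hγ (U i)]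
      ring
    rw [Finset.sum_congr rfl fun i _ => h1 i, ← Finset.mul_sum, Fintype.sum_option]
    have h2 := hn γ
    have h3 : ∑ H : {H : Subgroup (M ≃ₐ[k] M) // Hyper H},
        N (some H) * (Nat.card {x : (M ≃ₐ[k] M) ⧸ U (some H) // γ • x = x} : ℤ) =
        (Nat.card {x : (M ≃ₐ[k] M) ⧸ K // γ • x = x} : ℤ) := h2
    rw [h3]
    show 2 * ((-1) * (Nat.card {x : (M ≃ₐ[k] M) ⧸ K // γ • x = x} : ℤ) + _) = 0
    ring
  obtain ⟨-, -, -, h4⟩ := hG k E (Option {H : Subgroup (M ≃ₐ[k] M) // Hyper H})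
    (fun i => fixedField (U i)) (fun _ => 1) N hE (fun _ => one_ne_zero) hrel
    (fun i => E.baseChange (fixedField (U i))) (fun i => Hyp_twist E) (fun i => c (U i))
    (fun i => x (U i))
    (fun i => match i with | none => hcK | some H => (hH H.1 H.2).1)
    (fun i => match i with | none => hxK | some H => (hH H.1 H.2).2.1)
  obtain ⟨h5, -, h6⟩ := h4 none (by show (-1 : ℤ) ≠ 0; norm_num) (fun i hi => by
    match i, hi with
    | some H, _ => exact (hH H.1 H.2).2.2)
  exact ⟨h5, h6 (Or.inr rfl)⟩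

theorem thm_Hyperelementary (hG : General) : Hyperelementary := by
  intro k M _ _ _ _ _ _ E c x hE hH F hcF hxF
  obtain ⟨K, rfl⟩ : ∃ K : Subgroup (M ≃ₐ[k] M), F = fixedField K :=
    ⟨F.fixingSubgroup, (IsGalois.fixedField_fixingSubgroup F).symm⟩
  refine hyp_aux hG k M E (fun H => c (fixedField H)) (fun H => x (fixedField H)) hE ?_ K hcF hxF
  intro H hH'
  refine hH (fixedField H) ?_
  rw [fixingSubgroup_fixedField]
  exact hH'

end ART
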