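import Pool.Agent.ART.StE

/-!
# ART module Inf: complex conjugation and the identity
-/

set_option autoImplicit false

namespace ART

open scoped ComplexConjugate Classical
open NumberField IsDedekindDomain Polynomial

private lemma Inf_two {M : Type} [Field M] (h2 : (2 : M) ≠ 0) (c : M) (hc : c ≠ 0)
    (P : M → Prop) (z0 : M) (h0 : z0 ^ 2 = c) (hP : P z0) (hP' : P (-z0)) :
    Nat.card {z : M // z ^ 2 = c ∧ P z} = 2 := by
  have hz0 : z0 ≠ 0 := by
    rintro rfl
    apply hc
    rw [← h0]
    ring
  have h1 : {z : M | z ^ 2 = c ∧ P z} = {z0, -z0} := by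
    ext z
    constructor
    · rintro ⟨h3, -⟩
      have h4 : (z - z0) * (z + z0) = 0 := by
        have : z ^ 2 = z0 ^ 2 := by rw [h3, h0]
        linear_combination this
      rcases mul_eq_zero.mp h4 with h5 | h5
      · left
        exact sub_eq_zero.mp h5
      · right
        exact eq_neg_of_add_eq_zero_left h5
    · rintro (rfl | rfl)
      · exact ⟨h0, hP⟩
      · exact ⟨by rw [neg_sq, h0], hP'⟩
  have h5 : z0 ≠ -z0 := by
    intro h6
    have h7 : 2 * z0 = 0 := by linear_combination h6
    rcases mul_eq_zero.mp h7 with h8 | h8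
    · exact h2 h8
    · exact hz0 h8
  have h9 : Nat.card {z : M // z ^ 2 = c ∧ P z} = ({z : M | z ^ 2 = c ∧ P z}).ncard := rfl
  rw [h9, h1, Set.ncard_pair h5]

private lemma Inf_fin {M : Type} [Field M] (c : M) (Q : M → Prop) :
    Finite {z : M // z ^ 2 = c ∧ Q z} := by
  have h1 : {z : M | z ^ 2 = c ∧ Q z} ⊆ ((X ^ 2 - C c : M[X]).roots.toFinset : Set M) := by
    intro z hz
    have h2 : z ^ 2 = c := hz.1
    rw [Finset.mem_coe, Multiset.mem_toFinset, mem_roots (X_pow_sub_C_ne_zero (by norm_num) _)]
    simp [h2]
  exact ((Finset.finite_toSet _).subset h1).to_subtype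

private lemma Inf_sig {k F M : Type} [Field k] [Field F] [Field M] [Algebra k F] [Algebra k M]
    (d : F) (g : M ≃ₐ[k] M) [Fintype {φ : F →ₐ[k] M // (g : M →ₐ[k] M).comp φ = φ}]
    (Q : M → Prop) :
    Nat.card {x : Pr k F M d // (g : M →ₐ[k] M).comp x.1.1 = x.1.1 ∧ Q x.1.2} =
      ∑ φ : {φ : F →ₐ[k] M // (g : M →ₐ[k] M).comp φ = φ},
        Nat.card {z : M // z ^ 2 = φ.1 d ∧ Q z} := by
  have : ∀ φ : {φ : F →ₐ[k] M // (g : M →ₐ[k] M).comp φ = φ},
    Finite {z : M // z ^ 2 = φ.1 d ∧ Q z} := fun φ => Inf_fin _ _
  rw [← Nat.card_sigma]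
  refine Nat.card_congr ⟨fun x => ⟨⟨x.1.1.1, x.2.1⟩, ⟨x.1.1.2, x.1.2, x.2.2⟩⟩,
    fun y => ⟨⟨(y.1.1, y.2.1), y.2.2.1⟩, y.1.2, y.2.2.2⟩, fun x => rfl, fun y => rfl⟩

private lemma Inf_albe {F : Type} [Field F] [NumberField F] (d : F) (hd : d ≠ 0)
    (w : InfinitePlace F) :
    (w.IsComplex → al d w = 1 ∧ be d w = 1) ∧
    (w.IsReal → 0 < (w.embedding d).re → al d w = 1 ∧ be d w = 0) ∧
    (w.IsReal → (w.embedding d).re < 0 → al d w = 0 ∧ be d w = 1) ∧
    (w.IsReal → (w.embedding d).re ≠ 0) := by
  refine ⟨?_, ?_, ?_, ?_⟩
  · intro h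
    have h1 : ¬ w.IsReal := InfinitePlace.not_isReal_iff_isComplex.mpr h
    constructor
    · unfold al
      rw [if_neg (fun h2 => h1 h2.1)]
    · unfold be
      rw [if_neg (fun h2 => h1 h2.1)]
  · intro h h1
    constructor
    · unfold al
      rw [if_neg (fun h2 => absurd h2.2 (not_lt.mpr h1.le))]
    · unfold be
      rw [if_pos ⟨h, h1⟩]
  · intro h h1
    constructor
    · unfold al
      rw [if_pos ⟨h, h1⟩]
    · unfold be
      rw [if_neg (fun h2 => absurd h2.2 (not_lt.mpr h1.le))]
  · intro h h1
    apply hd
    have h2 : ((w.embedding_of_isReal h d : ℝ) : ℂ) = w.embedding d :=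
      InfinitePlace.embedding_of_isReal_apply h d
    have h3 : w.embedding d = 0 := by
      rw [← h2] at h1 ⊢
      rw [Complex.ofReal_re] at h1
      rw [h1]
      simp
    exact (map_eq_zero w.embedding).mp h3

theorem thm_Inf (h : St_Any) : St_Inf := by
  intro k _ _
  refine ⟨?_, ?_⟩
  · intro F _ _ _ d hd
    have : FiniteDimensional k F := Module.Finite.of_restrictScalars_finite ℚ k F
    have : Fintype {φ : F →ₐ[k] AlgebraicClosure k //
      ((1 : AlgebraicClosure k ≃ₐ[k] AlgebraicClosure k) :
        AlgebraicClosure k →ₐ[k] AlgebraicClosure k).comp φ = φ} := Fintype.ofFinite _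
    have h1 := Inf_sig (k := k) (M := AlgebraicClosure k) d 1 (fun z =>
      (1 : AlgebraicClosure k ≃ₐ[k] AlgebraicClosure k) z = z)
    have h2 := Inf_sig (k := k) (M := AlgebraicClosure k) d 1 (fun z =>
      (1 : AlgebraicClosure k ≃ₐ[k] AlgebraicClosure k) z = -z)
    have h2' : (2 : AlgebraicClosure k) ≠ 0 := two_ne_zero
    unfold sgn
    rw [h1, h2]
    have h3 : ∀ φ : {φ : F →ₐ[k] AlgebraicClosure k //
        ((1 : AlgebraicClosure k ≃ₐ[k] AlgebraicClosure k) :
        AlgebraicClosure k →ₐ[k] AlgebraicClosure k).comp φ = φ},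
        Nat.card {z : AlgebraicClosure k // z ^ 2 = φ.1 d ∧
          (1 : AlgebraicClosure k ≃ₐ[k] AlgebraicClosure k) z = z} = 2 := by
      intro φ
      have h4 : φ.1 d ≠ 0 := by
        intro h5
        exact hd ((map_eq_zero φ.1).mp h5)
      obtain ⟨z, hz⟩ := IsAlgClosed.exists_pow_nat_eq (φ.1 d) (n := 2) (by norm_num)
      exact Inf_two h2' _ h4 _ z hz rfl rfl
    have h4 : ∀ φ : {φ : F →ₐ[k] AlgebraicClosure k //
        ((1 : AlgebraicClosure k ≃ₐ[k] AlgebraicClosure k) :
        AlgebraicClosure k →ₐ[k] AlgebraicClosure k).comp φ = φ},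
        Nat.card {z : AlgebraicClosure k // z ^ 2 = φ.1 d ∧
          (1 : AlgebraicClosure k ≃ₐ[k] AlgebraicClosure k) z = -z} = 0 := by
      intro φ
      have h4 : φ.1 d ≠ 0 := by
        intro h5
        exact hd ((map_eq_zero φ.1).mp h5)
      have : IsEmpty {z : AlgebraicClosure k // z ^ 2 = φ.1 d ∧
          (1 : AlgebraicClosure k ≃ₐ[k] AlgebraicClosure k) z = -z} := by
        constructor
        rintro ⟨z, hz, hz'⟩
        have h5 : z = -z := hz'
        have h6 : 2 * z = 0 := by linear_combination h5
        rcases mul_eq_zero.mp h6 with h8 | h8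
        · exact h2' h8
        · apply h4
          rw [← hz, h8]
          ring
      exact Nat.card_of_isEmpty
    rw [Finset.sum_congr rfl (fun φ _ => h3 φ), Finset.sum_congr rfl (fun φ _ => h4 φ)]
    simp only [Finset.sum_const, Finset.card_univ, smul_eq_mul, mul_zero, Nat.cast_zero, sub_zero,
      Nat.cast_mul, Nat.cast_ofNat]
    have h5 : Fintype.card {φ : F →ₐ[k] AlgebraicClosure k //
        ((1 : AlgebraicClosure k ≃ₐ[k] AlgebraicClosure k) :
        AlgebraicClosure k →ₐ[k] AlgebraicClosure k).comp φ = φ} = Module.finrank k F := by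
      rw [← AlgHom.card k F (AlgebraicClosure k)]
      exact Fintype.card_congr ⟨fun φ => φ.1, fun φ => ⟨φ, rfl⟩, fun φ => rfl, fun φ => rfl⟩
    rw [h5]
    ring
  · intro v
    refine ⟨?_, ?_⟩
    · intro hv
      let : Algebra k ℂ := v.embedding.toAlgebra
      have hc : ∀ r : k, conj (algebraMap k ℂ r) = algebraMap k ℂ r := by
        intro r
        exact RingHom.congr_fun (InfinitePlace.conjugate_embedding_eq_of_isReal hv) r
      let g : ℂ ≃ₐ[k] ℂ := AlgEquiv.ofRingEquiv (f := (starRingAut : ℂ ≃+* ℂ)) hc
      have hg : ∀ z : ℂ, g z = conj z := fun z => rfl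
      obtain ⟨g', hg'⟩ := h k ℂ g
      refine ⟨g', ?_⟩
      intro F _ _ _ d hd
      rw [← hg' F d]
      have : FiniteDimensional k F := Module.Finite.of_restrictScalars_finite ℚ k F
      have : Fintype {φ : F →ₐ[k] ℂ // (g : ℂ →ₐ[k] ℂ).comp φ = φ} := Fintype.ofFinite _
      have h1 := Inf_sig (k := k) (M := ℂ) d g (fun z => g z = z)
      have h2 := Inf_sig (k := k) (M := ℂ) d g (fun z => g z = -z)
      unfold sgn
      rw [h1, h2]
      have hreal : ∀ φ : {φ : F →ₐ[k] ℂ // (g : ℂ →ₐ[k] ℂ).comp φ = φ},
          ComplexEmbedding.IsReal (φ.1 : F →+* ℂ) := by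
        intro φ
        rw [ComplexEmbedding.isReal_iff]
        ext x
        exact AlgHom.congr_fun φ.2 x
      have hmk : ∀ φ : {φ : F →ₐ[k] ℂ // (g : ℂ →ₐ[k] ℂ).comp φ = φ},
          (InfinitePlace.mk (φ.1 : F →+* ℂ)).embedding = (φ.1 : F →+* ℂ) := fun φ =>
        InfinitePlace.embedding_mk_eq_of_isReal (hreal φ)
      have hov : ∀ φ : {φ : F →ₐ[k] ℂ // (g : ℂ →ₐ[k] ℂ).comp φ = φ},
          (InfinitePlace.mk (φ.1 : F →+* ℂ)).comap (algebraMap k F) = v := by
        intro φ
        rw [InfinitePlace.comap_mk]
        have h3 : (φ.1 : F →+* ℂ).comp (algebraMap k F) = v.embedding := by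
          ext x
          exact φ.1.commutes x
        rw [h3, InfinitePlace.mk_embedding]
      have hpt : ∀ φ : {φ : F →ₐ[k] ℂ // (g : ℂ →ₐ[k] ℂ).comp φ = φ},
          (Nat.card {z : ℂ // z ^ 2 = φ.1 d ∧ g z = z} : ℤ) -
            Nat.card {z : ℂ // z ^ 2 = φ.1 d ∧ g z = -z} =
          2 * ((al d (InfinitePlace.mk (φ.1 : F →+* ℂ)) : ℤ) -
            be d (InfinitePlace.mk (φ.1 : F →+* ℂ))) := by
        intro φ
        have h3 := Inf_albe d hd (InfinitePlace.mk (φ.1 : F →+* ℂ))
        have h4 : (InfinitePlace.mk (φ.1 : F →+* ℂ)).IsReal :=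
          InfinitePlace.isReal_mk_iff.mpr (hreal φ)
        obtain ⟨-, h5, h6, h7⟩ := h3
        have h5' := h5 h4
        have h6' := h6 h4
        have h7' := h7 h4
        rw [hmk φ] at h5' h6' h7'
        have h8 : φ.1 d ≠ 0 := by
          intro h9
          exact hd ((map_eq_zero φ.1).mp h9)
        have h9 : φ.1 d = (((φ.1 d).re : ℝ) : ℂ) := by
          have h10 : conj (φ.1 d) = φ.1 d := AlgHom.congr_fun φ.2 d
          exact (Complex.conj_eq_iff_real.mp h10).elim (fun r hr => by rw [hr]; simp)
        have h7'' : (φ.1 d).re ≠ 0 := h7'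
        rcases lt_or_gt_of_ne h7'' with h10 | h10
        · -- negative
          rw [(h6' h10).1, (h6' h10).2]
          have h11 : Nat.card {z : ℂ // z ^ 2 = φ.1 d ∧ g z = -z} = 2 := by
            have hs : ((Real.sqrt (-(φ.1 d).re) : ℝ) : ℂ) ^ 2 = -φ.1 d := by
              rw [← Complex.ofReal_pow, Real.sq_sqrt (by linarith)]
              rw [h9]
              simp
            refine Inf_two two_ne_zero _ h8 (fun z => g z = -z)
              (Complex.I * (Real.sqrt (-(φ.1 d).re) : ℝ)) ?_ ?_ ?_
            · rw [mul_pow, Complex.I_sq, hs]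
              ring
            · show conj (Complex.I * ((Real.sqrt (-(φ.1 d).re) : ℝ) : ℂ)) = _
              rw [map_mul, Complex.conj_I, Complex.conj_ofReal]
              ring
            · show conj (-(Complex.I * ((Real.sqrt (-(φ.1 d).re) : ℝ) : ℂ))) = _
              rw [map_neg, map_mul, Complex.conj_I, Complex.conj_ofReal]
              ring
          have h12 : Nat.card {z : ℂ // z ^ 2 = φ.1 d ∧ g z = z} = 0 := by
            have : IsEmpty {z : ℂ // z ^ 2 = φ.1 d ∧ g z = z} := by
              constructor
              rintro ⟨z, hz, hz'⟩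
              have h13 : conj z = z := hz'
              obtain ⟨r, hr⟩ := Complex.conj_eq_iff_real.mp h13
              have h14 : (φ.1 d).re = r ^ 2 := by
                rw [← hz, hr, ← Complex.ofReal_pow, Complex.ofReal_re]
              nlinarith [sq_nonneg r]
            exact Nat.card_of_isEmpty
          rw [h11, h12]
          norm_num
        · -- positive
          rw [(h5' h10).1, (h5' h10).2]
          have h11 : Nat.card {z : ℂ // z ^ 2 = φ.1 d ∧ g z = z} = 2 := by
            have hs : ((Real.sqrt ((φ.1 d).re) : ℝ) : ℂ) ^ 2 = φ.1 d := by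
              rw [← Complex.ofReal_pow, Real.sq_sqrt (by linarith)]
              exact h9.symm
            refine Inf_two two_ne_zero _ h8 (fun z => g z = z)
              ((Real.sqrt ((φ.1 d).re) : ℝ) : ℂ) hs ?_ ?_
            · show conj ((Real.sqrt ((φ.1 d).re) : ℝ) : ℂ) = _
              rw [Complex.conj_ofReal]
            · show conj (-((Real.sqrt ((φ.1 d).re) : ℝ) : ℂ)) = _
              rw [map_neg, Complex.conj_ofReal]
          have h12 : Nat.card {z : ℂ // z ^ 2 = φ.1 d ∧ g z = -z} = 0 := by
            have : IsEmpty {z : ℂ // z ^ 2 = φ.1 d ∧ g z = -z} := by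
              constructor
              rintro ⟨z, hz, hz'⟩
              have h13 : conj z = -z := hz'
              have h14 : z.re = 0 := by
                have h15 := congrArg Complex.re h13
                rw [Complex.conj_re, Complex.neg_re] at h15
                linarith
              have h16 : (φ.1 d).re = -(z.im ^ 2) := by
                rw [← hz, sq, Complex.mul_re, h14]
                ring
              nlinarith [sq_nonneg z.im]
            exact Nat.card_of_isEmpty
          rw [h11, h12]
          norm_num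
      push_cast
      rw [← Finset.sum_sub_distrib, Finset.sum_congr rfl (fun φ _ => hpt φ), ← Finset.mul_sum]
      congr 1
      rw [← Finset.sum_filter_add_sum_filter_not (Finset.univ.filter
        (fun w : InfinitePlace F => w.comap (algebraMap k F) = v)) (fun w => w.IsReal)]
      have hz : ∑ w ∈ (Finset.univ.filter (fun w : InfinitePlace F =>
          w.comap (algebraMap k F) = v)).filter (fun w => ¬ w.IsReal),
          ((al d w : ℤ) - be d w) = 0 := by
        apply Finset.sum_eq_zero
        intro w hw
        rw [Finset.mem_filter] at hw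
        have h3 := (Inf_albe d hd w).1 (InfinitePlace.not_isReal_iff_isComplex.mp hw.2)
        rw [h3.1, h3.2]
        norm_num
      rw [hz, add_zero]
      refine Finset.sum_bij (fun φ _ => InfinitePlace.mk (φ.1 : F →+* ℂ)) ?_ ?_ ?_ ?_
      · intro φ _
        rw [Finset.mem_filter, Finset.mem_filter]
        exact ⟨⟨Finset.mem_univ _, hov φ⟩, InfinitePlace.isReal_mk_iff.mpr (hreal φ)⟩
      · intro φ _ ψ _ h3
        have h3' : InfinitePlace.mk (φ.1 : F →+* ℂ) = InfinitePlace.mk (ψ.1 : F →+* ℂ) := h3
        have h4 : (φ.1 : F →+* ℂ) = (ψ.1 : F →+* ℂ) := by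
          rw [← hmk φ, ← hmk ψ, h3']
        apply Subtype.ext
        ext x
        exact RingHom.congr_fun h4 x
      · intro w hw
        rw [Finset.mem_filter, Finset.mem_filter] at hw
        have h3 : (w.comap (algebraMap k F)).IsReal := by
          rw [hw.1.2]
          exact hv
        have h4 := InfinitePlace.comap_embedding_of_isReal (algebraMap k F) h3
        rw [hw.1.2] at h4
        have h5 : ∀ r : k, w.embedding (algebraMap k F r) = algebraMap k ℂ r := by
          intro r
          exact (RingHom.congr_fun h4 r).symm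
        refine ⟨⟨⟨w.embedding, h5⟩, ?_⟩, Finset.mem_univ _, ?_⟩
        · ext x
          exact RingHom.congr_fun (InfinitePlace.conjugate_embedding_eq_of_isReal hw.2) x
        · exact InfinitePlace.mk_embedding w
      · intro φ _
        rfl
    · intro F _ _ _ d hd
      have hcard := InfinitePlace.unramifedPlacesOver_ncard_add_eq_finrank F v
      have hover : ∀ w : InfinitePlace F, w.comap (algebraMap k F) = v →
          w.LiesOver v := by
        intro w hw
        constructor
        rw [← hw]
        rfl
      have hback : ∀ w : InfinitePlace F, w.LiesOver v → w.comap (algebraMap k F) = v := by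
        intro w hw
        exact InfinitePlace.LiesOver.comap_eq w v
      constructor
      · intro hv
        have h1 : InfinitePlace.unramifiedPlacesOver F v =
            (((Finset.univ.filter (fun w : InfinitePlace F =>
              w.comap (algebraMap k F) = v)).filter (fun w => w.IsReal) :
              Finset (InfinitePlace F)) : Set (InfinitePlace F)) := by
          ext w
          rw [Finset.mem_coe, Finset.mem_filter, Finset.mem_filter]
          constructor
          · rintro ⟨h2, h3⟩
            exact ⟨⟨Finset.mem_univ _, hback w h2⟩,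
              InfinitePlace.IsUnramified.liesOver_isReal_over w v h3 hv⟩
          · rintro ⟨⟨-, h2⟩, h3⟩
            exact ⟨hover w h2, InfinitePlace.IsReal.isUnramified k h3⟩
        have h2 : InfinitePlace.ramifiedPlacesOver F v =
            (((Finset.univ.filter (fun w : InfinitePlace F =>
              w.comap (algebraMap k F) = v)).filter (fun w => ¬ w.IsReal) :
              Finset (InfinitePlace F)) : Set (InfinitePlace F)) := by
          ext w
          rw [Finset.mem_coe, Finset.mem_filter, Finset.mem_filter]
          constructor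
          · rintro ⟨h2, h3⟩
            exact ⟨⟨Finset.mem_univ _, hback w h2⟩,
              InfinitePlace.not_isReal_iff_isComplex.mpr h3.isComplex⟩
          · rintro ⟨⟨-, h2⟩, h3⟩
            refine ⟨hover w h2, InfinitePlace.isRamified_iff.mpr
              ⟨InfinitePlace.not_isReal_iff_isComplex.mp h3, ?_⟩⟩
            rw [h2]
            exact hv
        rw [h1, h2, Set.ncard_coe_finset, Set.ncard_coe_finset] at hcard
        rw [← hcard, ← Finset.sum_filter_add_sum_filter_not (Finset.univ.filter
          (fun w : InfinitePlace F => w.comap (algebraMap k F) = v)) (fun w => w.IsReal)]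
        congr 1
        · rw [Finset.card_eq_sum_ones]
          refine Finset.sum_congr rfl ?_
          intro w hw
          rw [Finset.mem_filter] at hw
          obtain ⟨-, h5, h6, h7⟩ := Inf_albe d hd w
          rcases lt_or_gt_of_ne (h7 hw.2) with h8 | h8
          · rw [(h6 hw.2 h8).1, (h6 hw.2 h8).2]
          · rw [(h5 hw.2 h8).1, (h5 hw.2 h8).2]
        · rw [Finset.card_eq_sum_ones, Finset.mul_sum]
          refine Finset.sum_congr rfl ?_
          intro w hw
          rw [Finset.mem_filter] at hw
          have h3 := (Inf_albe d hd w).1 (InfinitePlace.not_isReal_iff_isComplex.mp hw.2)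
          rw [h3.1, h3.2, mul_one]
      · intro hv
        have hcx : ∀ w : InfinitePlace F, w.comap (algebraMap k F) = v → w.IsComplex := by
          intro w hw
          have h3 := hover w hw
          exact InfinitePlace.LiesOver.isComplex_of_isComplex_under w hv
        have h1 : InfinitePlace.unramifiedPlacesOver F v =
            ((Finset.univ.filter (fun w : InfinitePlace F =>
              w.comap (algebraMap k F) = v) : Finset (InfinitePlace F)) :
              Set (InfinitePlace F)) := by
          ext w
          rw [Finset.mem_coe, Finset.mem_filter]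
          constructor
          · rintro ⟨h2, h3⟩
            exact ⟨Finset.mem_univ _, hback w h2⟩
          · rintro ⟨-, h2⟩
            refine ⟨hover w h2, InfinitePlace.isUnramified_iff.mpr (Or.inr ?_)⟩
            rw [h2]
            exact hv
        have h2 : InfinitePlace.ramifiedPlacesOver F v = ∅ := by
          ext w
          constructor
          · rintro ⟨h2, h3⟩
            exfalso
            have h4 := (InfinitePlace.isRamified_iff.mp h3).2
            rw [hback w h2] at h4
            exact InfinitePlace.not_isReal_iff_isComplex.mpr hv h4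
          · intro h3
            exact absurd h3 (Set.notMem_empty _)
        rw [h1, h2, Set.ncard_coe_finset, Set.ncard_empty, mul_zero, add_zero] at hcard
        rw [← hcard, Finset.card_eq_sum_ones]
        constructor
        · refine Finset.sum_congr rfl ?_
          intro w hw
          rw [Finset.mem_filter] at hw
          exact ((Inf_albe d hd w).1 (hcx w hw.2)).1
        · refine Finset.sum_congr rfl ?_
          intro w hw
          rw [Finset.mem_filter] at hw
          exact ((Inf_albe d hd w).1 (hcx w hw.2)).2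

end ART
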