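import Pool.Agent.ART.StB

/-!
# ART, module LPol: the local polynomial at a good prime, residue characteristic at least five
-/

set_option autoImplicit false

namespace ART

open scoped ComplexConjugate
open NumberField IsDedekindDomain Polynomial

/-- the change of variables to the short form -/
private noncomputable def LPol_C {K : Type} [Field K] (W : WeierstrassCurve K) (t : K) (ht : t ≠ 0) :
    WeierstrassCurve.VariableChange K where
  u := Units.mk0 t ht
  r := - W.b₂ / 12
  s := - W.a₁ / 2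
  t := - (W.a₃ + (- W.b₂ / 12) * W.a₁) / 2

private theorem LPol_a₁ {K : Type} [Field K] (h2 : (2 : K) ≠ 0) (W : WeierstrassCurve K) (t : K)
    (ht : t ≠ 0) : (LPol_C W t ht • W).a₁ = 0 := by
  rw [WeierstrassCurve.variableChange_a₁]
  simp only [LPol_C]
  have : W.a₁ + 2 * (- W.a₁ / 2) = 0 := by field_simp; ring
  rw [this, mul_zero]

private theorem LPol_a₃ {K : Type} [Field K] (h2 : (2 : K) ≠ 0) (W : WeierstrassCurve K) (t : K)
    (ht : t ≠ 0) : (LPol_C W t ht • W).a₃ = 0 := by
  rw [WeierstrassCurve.variableChange_a₃]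
  simp only [LPol_C]
  have : W.a₃ + (- W.b₂ / 12) * W.a₁ + 2 * (- (W.a₃ + (- W.b₂ / 12) * W.a₁) / 2) = 0 := by
    generalize W.a₃ + (- W.b₂ / 12) * W.a₁ = z
    field_simp
    ring
  rw [this, mul_zero]

private theorem LPol_b₂ {K : Type} [Field K] (h2 : (2 : K) ≠ 0) (h3 : (3 : K) ≠ 0)
    (W : WeierstrassCurve K) (t : K) (ht : t ≠ 0) : (LPol_C W t ht • W).b₂ = 0 := by
  have h12 : (12 : K) ≠ 0 := by
    have : (12 : K) = 2 * 2 * 3 := by norm_num
    rw [this]
    exact mul_ne_zero (mul_ne_zero h2 h2) h3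
  rw [WeierstrassCurve.variableChange_b₂]
  simp only [LPol_C]
  have : W.b₂ + 12 * (- W.b₂ / 12) = 0 := by field_simp; ring
  rw [this, mul_zero]

private theorem LPol_a₂ {K : Type} [Field K] (h2 : (2 : K) ≠ 0) (h3 : (3 : K) ≠ 0)
    (W : WeierstrassCurve K) (t : K) (ht : t ≠ 0) : (LPol_C W t ht • W).a₂ = 0 := by
  have h1 := LPol_b₂ h2 h3 W t ht
  have ha := LPol_a₁ h2 W t ht
  rw [WeierstrassCurve.b₂, ha] at h1
  have h4 : (4 : K) * (LPol_C W t ht • W).a₂ = 0 := by linear_combination h1
  have h4' : (4 : K) ≠ 0 := by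
    have : (4 : K) = 2 * 2 := by norm_num
    rw [this]
    exact mul_ne_zero h2 h2
  exact (mul_eq_zero.1 h4).resolve_left h4'

private theorem LPol_c₄ {K : Type} [Field K] (W : WeierstrassCurve K) (t c : K) (ht : t ≠ 0)
    (hc : W.c₄ = t ^ 4 * c) : (LPol_C W t ht • W).c₄ = c := by
  rw [WeierstrassCurve.variableChange_c₄, hc]
  simp only [LPol_C, Units.val_inv_eq_inv_val, Units.val_mk0]
  field_simp

private theorem LPol_c₆ {K : Type} [Field K] (W : WeierstrassCurve K) (t c : K) (ht : t ≠ 0)
    (hc : W.c₆ = t ^ 6 * c) : (LPol_C W t ht • W).c₆ = c := by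
  rw [WeierstrassCurve.variableChange_c₆, hc]
  simp only [LPol_C, Units.val_inv_eq_inv_val, Units.val_mk0]
  field_simp

private theorem LPol_a₄ {K : Type} [Field K] (h2 : (2 : K) ≠ 0) (h3 : (3 : K) ≠ 0)
    (W : WeierstrassCurve K) (t c : K) (ht : t ≠ 0) (hc : W.c₄ = t ^ 4 * c) :
    48 * (LPol_C W t ht • W).a₄ = - c := by
  have h := LPol_c₄ W t c ht hc
  have h1 := LPol_b₂ h2 h3 W t ht
  have ha := LPol_a₁ h2 W t ht
  rw [WeierstrassCurve.c₄, h1, WeierstrassCurve.b₄, ha] at h
  linear_combination - h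

private theorem LPol_a₆ {K : Type} [Field K] (h2 : (2 : K) ≠ 0) (h3 : (3 : K) ≠ 0)
    (W : WeierstrassCurve K) (t c : K) (ht : t ≠ 0) (hc : W.c₆ = t ^ 6 * c) :
    864 * (LPol_C W t ht • W).a₆ = - c := by
  have h := LPol_c₆ W t c ht hc
  have h1 := LPol_b₂ h2 h3 W t ht
  have ha := LPol_a₃ h2 W t ht
  rw [WeierstrassCurve.c₆, h1, WeierstrassCurve.b₆, ha] at h
  linear_combination - h

section

variable {R : Type} [CommRing R] [IsDomain R] [IsDiscreteValuationRing R]
  {K : Type} [Field K] [Algebra R K] [IsFractionRing R K]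

private theorem LPol_unit {r : R} (h : IsLocalRing.residue R r ≠ 0) : IsUnit r := by
  by_contra hr
  apply h
  rw [IsLocalRing.residue_eq_zero_iff]
  exact (IsLocalRing.mem_maximalIdeal r).2 hr

private theorem LPol_val {r : R} (h : IsUnit r) :
    (IsDiscreteValuationRing.maximalIdeal R).valuation K (algebraMap R K r) = 1 := by
  rw [HeightOneSpectrum.valuation_eq_one_iff_notMem]
  intro hr
  exact (IsLocalRing.mem_maximalIdeal r).1 hr h

private theorem LPol_lift {x : K}
    (h : (IsDiscreteValuationRing.maximalIdeal R).valuation K x = 1) :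
    ∃ r : R, IsUnit r ∧ algebraMap R K r = x := by
  obtain ⟨r, rfl⟩ := IsDiscreteValuationRing.exists_lift_of_le_one h.le
  refine ⟨r, ?_, rfl⟩
  rw [HeightOneSpectrum.valuation_eq_one_iff_notMem] at h
  by_contra hr
  exact h ((IsLocalRing.mem_maximalIdeal r).2 hr)

omit [IsDomain R] [IsDiscreteValuationRing R] [IsFractionRing R K] in
/-- division by a unit of the ring -/
private theorem LPol_div {n : R} (hn : IsUnit n) {x : K} {y : R}
    (h : algebraMap R K n * x = algebraMap R K y) : ∃ r : R, algebraMap R K r = x := by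
  obtain ⟨m, hm⟩ := hn.exists_left_inv
  refine ⟨m * y, ?_⟩
  rw [map_mul, ← h, ← mul_assoc, ← map_mul, hm, map_one, one_mul]

end

theorem thm_LPol (h1 : St_Tw) (h2 : St_Pts) : St_LPol := by
  intro R _ _ _ K _ _ _ W c₄ c₆ t hfin hr2 hr3 ht hc4 hc6 hne
  have hinj : Function.Injective (algebraMap R K) := IsFractionRing.injective R K
  have hu2 : IsUnit (2 : R) := LPol_unit (by rwa [map_ofNat])
  have hu3 : IsUnit (3 : R) := LPol_unit (by rwa [map_ofNat])
  have hu48 : IsUnit (48 : R) := by
    have : (48 : R) = 2 ^ 4 * 3 := by norm_num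
    rw [this]
    exact (hu2.pow 4).mul hu3
  have hu864 : IsUnit (864 : R) := by
    have : (864 : R) = 2 ^ 5 * 3 ^ 3 := by norm_num
    rw [this]
    exact (hu2.pow 5).mul (hu3.pow 3)
  have hu1728 : IsUnit (1728 : R) := by
    have : (1728 : R) = 2 ^ 6 * 3 ^ 3 := by norm_num
    rw [this]
    exact (hu2.pow 6).mul (hu3.pow 3)
  have hD : IsUnit (c₄ ^ 3 - c₆ ^ 2) := by
    apply LPol_unit
    rw [map_sub, map_pow, map_pow]
    exact sub_ne_zero.2 hne
  have hK2 : (2 : K) ≠ 0 := by
    have := hu2.map (algebraMap R K)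
    rw [map_ofNat] at this
    exact this.ne_zero
  have hK3 : (3 : K) ≠ 0 := by
    have := hu3.map (algebraMap R K)
    rw [map_ofNat] at this
    exact this.ne_zero
  -- the integral curve with a unit as discriminant
  set C₁ := LPol_C W t ht with hC₁
  have hint : WeierstrassCurve.IsIntegral R (C₁ • W) := by
    apply WeierstrassCurve.isIntegral_of_exists_lift
    · exact ⟨0, by rw [map_zero, hC₁, LPol_a₁ hK2]⟩
    · exact ⟨0, by rw [map_zero, hC₁, LPol_a₂ hK2 hK3]⟩
    · exact ⟨0, by rw [map_zero, hC₁, LPol_a₃ hK2]⟩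
    · refine LPol_div (y := - c₄) hu48 ?_
      rw [map_ofNat, map_neg, hC₁, LPol_a₄ hK2 hK3 W t _ ht hc4]
    · refine LPol_div (y := - c₆) hu864 ?_
      rw [map_ofNat, map_neg, hC₁, LPol_a₆ hK2 hK3 W t _ ht hc6]
  have hΔ₁ : (IsDiscreteValuationRing.maximalIdeal R).valuation K (C₁ • W).Δ = 1 := by
    have e := (C₁ • W).c_relation
    rw [hC₁, LPol_c₄ W t _ ht hc4, LPol_c₆ W t _ ht hc6, ← hC₁, ← map_pow, ← map_pow,
      ← map_sub] at e
    have e' := congrArg ((IsDiscreteValuationRing.maximalIdeal R).valuation K) e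
    rw [map_mul, LPol_val hD] at e'
    have e2 : (IsDiscreteValuationRing.maximalIdeal R).valuation K (1728 : K) = 1 := by
      have := LPol_val (K := K) hu1728
      rwa [map_ofNat] at this
    rwa [e2, one_mul] at e'
  -- the minimal curve
  obtain ⟨C, hC⟩ : ∃ C : WeierstrassCurve.VariableChange K, C • W = W.minimal R := ⟨_, rfl⟩
  have hmin : WeierstrassCurve.IsMinimal R (W.minimal R) := inferInstance
  have hgood : (IsDiscreteValuationRing.maximalIdeal R).valuation K (W.minimal R).Δ = 1 := by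
    have hm := hmin.val_Δ_maximal
    have hy : (C₁ * C⁻¹) • W.minimal R = C₁ • W := by
      rw [← hC, ← mul_smul, mul_assoc, inv_mul_cancel, mul_one]
    have hP : WeierstrassCurve.IsIntegral R ((C₁ * C⁻¹) • W.minimal R) := by
      rw [hy]
      exact hint
    have hv : (WeierstrassCurve.valuation_Δ_aux R ((C₁ * C⁻¹) • W.minimal R)).1 = 1 := by
      rw [hy, WeierstrassCurve.valuation_Δ_aux_eq_of_isIntegral]
      exact hΔ₁
    have hle : WeierstrassCurve.valuation_Δ_aux R ((1 : WeierstrassCurve.VariableChange K) •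
        W.minimal R) ≤ WeierstrassCurve.valuation_Δ_aux R ((C₁ * C⁻¹) • W.minimal R) := by
      rw [← Subtype.coe_le_coe, hv]
      exact (WeierstrassCurve.valuation_Δ_aux R _).2
    have hge := hm.2 hP hle
    rw [← Subtype.coe_le_coe] at hge
    have hge' : (1 : WithZero (Multiplicative ℤ)) ≤
        (WeierstrassCurve.valuation_Δ_aux R ((1 : WeierstrassCurve.VariableChange K) •
          W.minimal R)).1 := by
      exact le_trans hv.ge hge
    rw [one_smul, WeierstrassCurve.valuation_Δ_aux_eq_of_isIntegral] at hge'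
    refine le_antisymm ?_ hge'
    have := (WeierstrassCurve.valuation_Δ_aux R (W.minimal R)).2
    rwa [WeierstrassCurve.valuation_Δ_aux_eq_of_isIntegral] at this
  have hG : (W.minimal R).HasGoodReduction R := { hmin with goodReduction := hgood }
  -- invariants of the minimal curve
  set u : K := (C.u : K) with hu
  have hu0 : u ≠ 0 := C.u.ne_zero
  have hm4 : (W.minimal R).c₄ = (t / u) ^ 4 * algebraMap R K c₄ := by
    rw [← hC, WeierstrassCurve.variableChange_c₄, hc4, Units.val_inv_eq_inv_val, ← hu]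
    field_simp
  have hm6 : (W.minimal R).c₆ = (t / u) ^ 6 * algebraMap R K c₆ := by
    rw [← hC, WeierstrassCurve.variableChange_c₆, hc6, Units.val_inv_eq_inv_val, ← hu]
    field_simp
  have hw : (IsDiscreteValuationRing.maximalIdeal R).valuation K (t / u) = 1 := by
    have e := (W.minimal R).c_relation
    have e0 : (1728 : K) * (W.minimal R).Δ = (t / u) ^ 12 * algebraMap R K (c₄ ^ 3 - c₆ ^ 2) := by
      rw [e, hm4, hm6, map_sub, map_pow, map_pow]
      ring
    have e' := congrArg ((IsDiscreteValuationRing.maximalIdeal R).valuation K) e0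
    have e2 : (IsDiscreteValuationRing.maximalIdeal R).valuation K (1728 : K) = 1 := by
      have := LPol_val (K := K) hu1728
      rwa [map_ofNat] at this
    rw [map_mul, map_mul, LPol_val hD, e2, hgood, map_pow, one_mul, mul_one] at e'
    exact (pow_eq_one_iff_of_nonneg zero_le (by norm_num)).1 e'.symm
  obtain ⟨r, hru, hr⟩ := LPol_lift hw
  have hI4 : ((W.minimal R).integralModel R).c₄ = r ^ 4 * c₄ := by
    apply hinj
    rw [WeierstrassCurve.integralModel_c₄_eq, hm4, ← hr, map_mul, map_pow]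
  have hI6 : ((W.minimal R).integralModel R).c₆ = r ^ 6 * c₆ := by
    apply hinj
    rw [WeierstrassCurve.integralModel_c₆_eq, hm6, ← hr, map_mul, map_pow]
  have hrr : IsLocalRing.residue R r ≠ 0 := (hru.map (IsLocalRing.residue R)).ne_zero
  have hred4 : ((W.minimal R).reduction R).c₄ =
      IsLocalRing.residue R r ^ 4 * IsLocalRing.residue R c₄ := by
    rw [WeierstrassCurve.reduction, WeierstrassCurve.map_c₄, hI4, map_mul, map_pow]
  have hred6 : ((W.minimal R).reduction R).c₆ =
      IsLocalRing.residue R r ^ 6 * IsLocalRing.residue R c₆ := by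
    rw [WeierstrassCurve.reduction, WeierstrassCurve.map_c₆, hI6, map_mul, map_pow]
  have hredΔ : ((W.minimal R).reduction R).Δ ≠ 0 := by
    intro h0
    have e := ((W.minimal R).reduction R).c_relation
    rw [h0, mul_zero, hred4, hred6] at e
    have e' : IsLocalRing.residue R r ^ 12 *
        (IsLocalRing.residue R c₄ ^ 3 - IsLocalRing.residue R c₆ ^ 2) = 0 := by
      linear_combination - e
    rcases mul_eq_zero.1 e' with h | h
    · exact hrr (pow_eq_zero_iff (by norm_num) |>.1 h)
    · exact hne (sub_eq_zero.1 h)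
  have hcard := h2 (IsLocalRing.ResidueField R) hr2 hr3 _ hredΔ
  rw [hred4, hred6] at hcard
  let _ : Fintype (IsLocalRing.ResidueField R) := Fintype.ofFinite _
  rw [(h1 (IsLocalRing.ResidueField R) hr2 _ _).2.1 _ hrr] at hcard
  unfold WeierstrassCurve.localPolynomial
  simp only [if_pos hG]
  rw [hcard]
  congr 4
  ring

end ART
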