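import Pool.Agent.ART.StA

/-!
# ART [LS]: the L-series of Mathlib is the convergent Euler product
-/

set_option autoImplicit false

namespace ART

open scoped ComplexConjugate
open NumberField IsDedekindDomain Polynomial ArithmeticFunction Filter

/-- The recursion of the coefficients of the inverse of `1 - a X + b X ^ 2`. -/
theorem LS_coeff (a b : ℤ) (g : PowerSeries ℤ)
    (h : ((1 - C a * X + C b * X ^ 2 : ℤ[X]) : PowerSeries ℤ) * g = 1) :
    g.coeff 0 = 1 ∧ g.coeff 1 = a ∧ ∀ k, g.coeff (k + 2) = a * g.coeff (k + 1) - b * g.coeff k := by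
  have h' : g - PowerSeries.C a * (PowerSeries.X * g)
      + PowerSeries.C b * (PowerSeries.X * (PowerSeries.X * g)) = 1 := by
    rw [← h]
    simp only [Polynomial.coe_add, Polynomial.coe_sub, Polynomial.coe_one, Polynomial.coe_mul,
      Polynomial.coe_C, Polynomial.coe_X, Polynomial.coe_pow]
    ring
  have h0 := congrArg (PowerSeries.coeff 0) h'
  have h1 := congrArg (PowerSeries.coeff 1) h'
  have hk := fun k : ℕ => congrArg (PowerSeries.coeff (k + 2)) h'
  have e0 : g.coeff 0 = 1 := by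
    simpa [PowerSeries.coeff_C_mul, PowerSeries.coeff_zero_X_mul] using h0
  refine ⟨e0, ?_, ?_⟩
  · have h1' : g.coeff 1 - a * g.coeff 0 + b * 0 = 0 := by
      have := h1
      rw [map_add, map_sub, PowerSeries.coeff_C_mul, PowerSeries.coeff_C_mul,
        PowerSeries.coeff_succ_X_mul 0, PowerSeries.coeff_succ_X_mul 0,
        PowerSeries.coeff_zero_X_mul, PowerSeries.coeff_one] at this
      simpa using this
    rw [e0] at h1'
    linarith
  · intro k
    have := hk k
    rw [map_add, map_sub, PowerSeries.coeff_C_mul, PowerSeries.coeff_C_mul,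
      PowerSeries.coeff_succ_X_mul (k + 1), PowerSeries.coeff_succ_X_mul (k + 1),
      PowerSeries.coeff_succ_X_mul k, PowerSeries.coeff_one, if_neg (by omega)] at this
    linarith

theorem LS_bound (a b Q : ℤ) (hQ : 1 ≤ Q) (ha : |a| ≤ Q) (hb : |b| ≤ Q) (g : ℕ → ℤ)
    (h0 : g 0 = 1) (h1 : g 1 = a) (h : ∀ k, g (k + 2) = a * g (k + 1) - b * g k) :
    ∀ k, |g k| ≤ (2 * Q) ^ k := by
  intro k
  induction k using Nat.strong_induction_on with
  | _ k ih =>
    match k with
    | 0 => rw [h0]; simp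
    | 1 => rw [h1, pow_one]; linarith
    | k + 2 =>
      have i1 := ih (k + 1) (by omega)
      have i2 := ih k (by omega)
      have hp : 0 ≤ (2 * Q) ^ k := by positivity
      rw [h k]
      calc |a * g (k + 1) - b * g k| ≤ |a * g (k + 1)| + |b * g k| := abs_sub _ _
        _ = |a| * |g (k + 1)| + |b| * |g k| := by rw [abs_mul, abs_mul]
        _ ≤ Q * (2 * Q) ^ (k + 1) + Q * (2 * Q) ^ k := by
          have := abs_nonneg (g (k + 1))
          have := abs_nonneg (g k)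
          gcongr
        _ = (2 * Q) ^ k * (2 * Q ^ 2 + Q) := by ring
        _ ≤ (2 * Q) ^ k * (4 * Q ^ 2) := by
          apply mul_le_mul_of_nonneg_left _ hp
          nlinarith
        _ = (2 * Q) ^ (k + 2) := by ring

theorem LS_sum (a b : ℤ) (g : ℕ → ℤ) (T : ℂ) (Q : ℝ) (hQT : 2 * Q * ‖T‖ < 1) (hQ : 0 ≤ Q)
    (h0 : g 0 = 1) (h1 : g 1 = a) (h : ∀ k, g (k + 2) = a * g (k + 1) - b * g k)
    (hb : ∀ k, |(g k : ℝ)| ≤ (2 * Q) ^ k) :
    (∑' k, (g k : ℂ) * T ^ k) * (1 - a * T + b * T ^ 2) = 1 := by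
  have hs : Summable fun k => (g k : ℂ) * T ^ k := by
    refine Summable.of_norm_bounded (summable_geometric_of_lt_one
      (by positivity : 0 ≤ 2 * Q * ‖T‖) hQT) fun k => ?_
    rw [norm_mul, norm_pow, mul_pow]
    refine mul_le_mul_of_nonneg_right ?_ (by positivity)
    have : ‖((g k : ℤ) : ℂ)‖ = |(g k : ℝ)| := by
      rw [← Complex.ofReal_intCast, Complex.norm_real, Real.norm_eq_abs]
    rw [this]
    exact hb k
  set S := ∑' k, (g k : ℂ) * T ^ k with hS
  have s1 : Summable fun k => (g (k + 1) : ℂ) * T ^ (k + 1) := (summable_nat_add_iff 1).mpr hs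
  have e1 : S = 1 + ∑' k, (g (k + 1) : ℂ) * T ^ (k + 1) := by
    rw [hS, hs.tsum_eq_zero_add, h0]
    simp
  have e2 : ∑' k, (g (k + 1) : ℂ) * T ^ (k + 1)
      = a * T + ∑' k, (g (k + 2) : ℂ) * T ^ (k + 2) := by
    rw [s1.tsum_eq_zero_add]
    simp [h1]
  have e3 : ∑' k, (g (k + 2) : ℂ) * T ^ (k + 2)
      = a * T * (∑' k, (g (k + 1) : ℂ) * T ^ (k + 1)) - b * T ^ 2 * S := by
    rw [hS, ← tsum_mul_left, ← tsum_mul_left, ← (s1.mul_left _).tsum_sub (hs.mul_left _)]
    refine tsum_congr fun k => ?_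
    rw [h k]
    push_cast
    ring
  have e4 : ∑' k, (g (k + 1) : ℂ) * T ^ (k + 1) = S - 1 := by rw [e1]; ring
  have e5 : S = 1 + (a * T + (a * T * (S - 1) - b * T ^ 2 * S)) := by
    rw [← e4, ← e3, ← e2, ← e1]
  linear_combination e5

variable {F : Type} [Field F] [NumberField F]

theorem LS_shape (h3 : St_Res) (h4 : St_Loc) (A : WeierstrassCurve F)
    (w : HeightOneSpectrum (𝓞 F)) : 2 ≤ nm w ∧ ∃ a b : ℤ, lp A w = 1 - C a * X + C b * X ^ 2 ∧
      |a| ≤ nm w ∧ (b = 0 ∧ |a| ≤ 1 ∨ b = nm w) := by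
  obtain ⟨-, -, hfin, hcard⟩ := h3 F w
  have h2 : 2 ≤ nm w := by
    rw [← hcard]
    exact Finite.one_lt_card
  obtain ⟨a, b, e1, e2, e3⟩ := h4 (w.adicCompletionIntegers F) (w.adicCompletion F)
    (A.baseChange (w.adicCompletion F)) hfin
  rw [hcard] at e2 e3
  exact ⟨h2, a, b, e1, e2, e3⟩

theorem LS_evp (A : WeierstrassCurve F) (w : HeightOneSpectrum (𝓞 F)) (a b : ℤ)
    (h : lp A w = 1 - C a * X + C b * X ^ 2) (s : ℂ) :
    evp A w s = 1 - a * (nm w : ℂ) ^ (-s) + b * ((nm w : ℂ) ^ (-s)) ^ 2 := by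
  rw [evp, h]
  simp

theorem LS_norm (w : HeightOneSpectrum (𝓞 F)) (h2 : 2 ≤ nm w) (s : ℂ) (hs : 2 < s.re) :
    ‖(nm w : ℂ) ^ (-s)‖ < ((nm w : ℝ) ^ 2)⁻¹ := by
  have hpos : 0 < nm w := by omega
  have h1 : (1 : ℝ) < nm w := by exact_mod_cast h2
  rw [Complex.norm_natCast_cpow_of_pos hpos, ← Real.rpow_natCast, ← Real.rpow_neg (by positivity)]
  apply Real.rpow_lt_rpow_of_exponent_lt h1
  simp
  linarith

theorem LS_ne (w : HeightOneSpectrum (𝓞 F)) (h2 : 2 ≤ nm w) (a b : ℤ) (ha : |a| ≤ nm w)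
    (hb : |b| ≤ nm w) (T : ℂ) (hT : ‖T‖ < ((nm w : ℝ) ^ 2)⁻¹) :
    (1 - a * T + b * T ^ 2 : ℂ) ≠ 0 := by
  have hq2 : (2 : ℝ) ≤ (nm w : ℝ) := by exact_mod_cast h2
  have ha' : |(a : ℝ)| ≤ (nm w : ℝ) := by exact_mod_cast ha
  have hb' : |(b : ℝ)| ≤ (nm w : ℝ) := by exact_mod_cast hb
  generalize (nm w : ℝ) = q at hq2 ha' hb' hT
  have na : ‖((a : ℤ) : ℂ)‖ = |(a : ℝ)| := by
    rw [← Complex.ofReal_intCast, Complex.norm_real, Real.norm_eq_abs]
  have nb : ‖((b : ℤ) : ℂ)‖ = |(b : ℝ)| := by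
    rw [← Complex.ofReal_intCast, Complex.norm_real, Real.norm_eq_abs]
  have i1 : ‖(a : ℂ) * T‖ ≤ 1 / 2 := by
    rw [norm_mul, na]
    calc |(a : ℝ)| * ‖T‖ ≤ q * (q ^ 2)⁻¹ := by
          have := norm_nonneg T
          gcongr
      _ = q⁻¹ := by field_simp
      _ ≤ 2⁻¹ := by gcongr
      _ = 1 / 2 := by norm_num
  have i2 : ‖(b : ℂ) * T ^ 2‖ ≤ 1 / 8 := by
    rw [norm_mul, nb, norm_pow]
    calc |(b : ℝ)| * ‖T‖ ^ 2 ≤ q * ((q ^ 2)⁻¹) ^ 2 := by
          have := norm_nonneg T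
          gcongr
      _ = (q ^ 3)⁻¹ := by field_simp
      _ ≤ (2 ^ 3)⁻¹ := by gcongr
      _ = 1 / 8 := by norm_num
  intro h
  have h1 : (1 : ℂ) = a * T - b * T ^ 2 := by linear_combination h
  have h3 := congrArg norm h1
  rw [norm_one] at h3
  have h4 := norm_sub_le ((a : ℂ) * T) (b * T ^ 2)
  linarith

theorem thm_LS (h1 : St_Eul) (h2 : St_Dkz) (h3 : St_Res) (h4 : St_Loc) : St_LS := by
  intro F _ _ A
  have hsh := fun w => LS_shape h3 h4 A w
  choose hq a b hlp ha hab using hsh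
  have hb : ∀ w, |b w| ≤ nm w := by
    intro w
    rcases hab w with h | h
    · rw [h.1]
      simp
    · rw [h]
      simp
  refine ⟨fun s hs => ⟨?_, fun w => ?_⟩, fun w => ⟨?_, ?_⟩⟩
  · -- the Euler product
    have hcc : ∀ w, PowerSeries.constantCoeff ((lp A w : ℤ[X]) : PowerSeries ℤ)
        = ((1 : ℤˣ) : ℤ) := by
      intro w
      rw [hlp w]
      simp
    have hmul : ∀ w, ((1 - C (a w) * X + C (b w) * X ^ 2 : ℤ[X]) : PowerSeries ℤ) *
        PowerSeries.invOfUnit ((lp A w : ℤ[X]) : PowerSeries ℤ) 1 = 1 := by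
      intro w
      rw [← hlp w]
      exact PowerSeries.mul_invOfUnit _ _ (hcc w)
    have hrec := fun w => LS_coeff (a w) (b w) _ (hmul w)
    have hbd : ∀ w k, |(PowerSeries.invOfUnit ((lp A w : ℤ[X]) : PowerSeries ℤ) 1).coeff k|
        ≤ (2 * (nm w : ℤ)) ^ k := by
      intro w
      exact LS_bound (a w) (b w) (nm w) (by have := hq w; omega) (ha w) (hb w)
        (fun k => (PowerSeries.invOfUnit ((lp A w : ℤ[X]) : PowerSeries ℤ) 1).coeff k)
        (hrec w).1 (hrec w).2.1 (hrec w).2.2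
    have key := h1 (HeightOneSpectrum (𝓞 F)) nm
      (fun w => PowerSeries.invOfUnit ((lp A w : ℤ[X]) : PowerSeries ℤ) 1) s (h2 F).1 hq
      (fun w => by
        rw [← PowerSeries.coeff_zero_eq_constantCoeff_apply]
        exact (hrec w).1) hbd hs ((h2 F).2 s.re hs)
    have e1 : A.LSeries s = LSeries (fun n => ((eulerProduct fun w : HeightOneSpectrum (𝓞 F) =>
        ofPowerSeries (nm w) (PowerSeries.invOfUnit ((lp A w : ℤ[X]) : PowerSeries ℤ) 1)) n : ℂ))
          s := by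
      have e2 : A.LFunction = eulerProduct fun w : HeightOneSpectrum (𝓞 F) =>
          ofPowerSeries (nm w)
            (PowerSeries.invOfUnit ((lp A w : ℤ[X]) : PowerSeries ℤ) 1) := by
        unfold WeierstrassCurve.LFunction
        refine congrArg eulerProduct (funext fun w => ?_)
        unfold WeierstrassCurve.localEulerFactor WeierstrassCurve.localPowerSeries
        rw [(h3 F w).2.2.2]
        rfl
      unfold WeierstrassCurve.LSeries
      rw [e2]
      rfl
    rw [e1]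
    have e3 : (fun w : HeightOneSpectrum (𝓞 F) => (evp A w s)⁻¹) = fun w => ∑' k,
        ((PowerSeries.invOfUnit ((lp A w : ℤ[X]) : PowerSeries ℤ) 1).coeff k : ℂ) *
          ((nm w : ℂ) ^ (-s)) ^ k := by
      funext w
      have hn := LS_norm w (hq w) s hs
      have hq2 : (2 : ℝ) ≤ nm w := by exact_mod_cast hq w
      have hsum := LS_sum (a w) (b w)
        (fun k => (PowerSeries.invOfUnit ((lp A w : ℤ[X]) : PowerSeries ℤ) 1).coeff k)
        ((nm w : ℂ) ^ (-s)) (nm w) (by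
          calc 2 * (nm w : ℝ) * ‖(nm w : ℂ) ^ (-s)‖ < 2 * (nm w : ℝ) * ((nm w : ℝ) ^ 2)⁻¹ := by
                gcongr
            _ = 2 * (nm w : ℝ)⁻¹ := by field_simp
            _ ≤ 2 * 2⁻¹ := by gcongr
            _ = 1 := by norm_num) (by positivity) (hrec w).1 (hrec w).2.1 (hrec w).2.2
        (fun k => by exact_mod_cast hbd w k)
      rw [LS_evp A w (a w) (b w) (hlp w)]
      exact (eq_inv_of_mul_eq_one_left hsum).symm
    rw [e3]
    exact key
  · rw [LS_evp A w (a w) (b w) (hlp w)]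
    exact LS_ne w (hq w) (a w) (b w) (ha w) (hb w) _ (LS_norm w (hq w) s hs)
  · have hne : (nm w : ℂ) ≠ 0 := by
      have := hq w
      exact_mod_cast (by omega : nm w ≠ 0)
    have e : evp A w = fun s => 1 - (a w : ℂ) * (nm w : ℂ) ^ (-s)
        + (b w : ℂ) * ((nm w : ℂ) ^ (-s)) ^ 2 :=
      funext fun s => LS_evp A w (a w) (b w) (hlp w) s
    rw [e]
    have hd : Differentiable ℂ fun s : ℂ => (nm w : ℂ) ^ (-s) :=
      (differentiable_id.neg).const_cpow (Or.inl hne)
    exact ((differentiable_const _).sub ((differentiable_const _).mul hd)).add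
      ((differentiable_const _).mul (hd.pow 2))
  · have hq2 : (2 : ℚ) ≤ nm w := by exact_mod_cast hq w
    have hq0 : (nm w : ℚ) ≠ 0 := by positivity
    have ha' : |(a w : ℚ)| ≤ nm w := by exact_mod_cast ha w
    refine ⟨1 - (a w : ℚ) / nm w + (b w : ℚ) / (nm w : ℚ) ^ 2, ?_, ?_⟩
    · rcases hab w with ⟨hb0, ha1⟩ | hbq
      · have ha1' : |(a w : ℚ)| ≤ 1 := by exact_mod_cast ha1
        rw [hb0]
        have h5 : (a w : ℚ) / nm w ≤ 1 / 2 := by
          rw [div_le_iff₀ (by positivity)]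
          have := le_abs_self (a w : ℚ)
          linarith
        simp only [Int.cast_zero, zero_div, add_zero]
        intro h
        linarith
      · rw [hbq]
        have h5 : 1 - (a w : ℚ) / nm w + ((nm w : ℤ) : ℚ) / (nm w : ℚ) ^ 2
            = (nm w - a w + 1) / nm w := by
          push_cast
          field_simp
        rw [h5]
        have := le_abs_self (a w : ℚ)
        apply ne_of_gt
        apply div_pos <;> linarith
    · rw [LS_evp A w (a w) (b w) (hlp w), Complex.cpow_neg_one]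
      push_cast
      rw [div_eq_mul_inv, div_eq_mul_inv, inv_pow]

end ART
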