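import Pool.Agent.ART.StF

/-!
# ART, module LW: the local polynomials of the twists at the primes over a good prime
-/

set_option autoImplicit false

namespace ART

open scoped ComplexConjugate
open NumberField IsDedekindDomain Polynomial

/-- `chi` is invariant under isomorphisms. -/
private theorem LW_chi_equiv {A B : Type} [CommRing A] [CommRing B] (e : A ≃+* B) (x : A) :
    chi (e x) = chi x := by
  have h1 : e x = 0 ↔ x = 0 := by simp
  have h2 : IsSquare (e x) ↔ IsSquare x := by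
    constructor
    · rintro ⟨y, hy⟩
      refine ⟨e.symm y, ?_⟩
      rw [← map_mul, ← hy, e.symm_apply_apply]
    · rintro ⟨y, rfl⟩
      exact ⟨e y, map_mul e y y⟩
  by_cases ha : x = 0
  · have hb : e x = 0 := h1.mpr ha
    rw [chi, if_pos hb, chi, if_pos ha]
  · have hb : ¬ e x = 0 := fun h => ha (h1.mp h)
    by_cases hc : IsSquare x
    · have hd : IsSquare (e x) := h2.mpr hc
      rw [chi, if_neg hb, if_pos hd, chi, if_neg ha, if_pos hc]
    · have hd : ¬ IsSquare (e x) := fun h => hc (h2.mp h)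
      rw [chi, if_neg hb, if_neg hd, chi, if_neg ha, if_neg hc]

/-- `chi` of the residue class. -/
private theorem LW_chi {F : Type} [Field F] [NumberField F] (h4 : St_Res)
    (w : HeightOneSpectrum (𝓞 F)) (d : 𝓞 F) :
    chi (rd w d) = chi (Ideal.Quotient.mk w.asIdeal d) := by
  obtain ⟨hs, hk, -, -⟩ := h4 F w
  have hker : RingHom.ker (rd w) = w.asIdeal := by
    ext x
    rw [RingHom.mem_ker]
    exact hk x
  have h1 := LW_chi_equiv ((Ideal.quotEquivOfEq hker.symm).trans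
    (RingHom.quotientKerEquivOfSurjective hs)) (Ideal.Quotient.mk w.asIdeal d)
  rw [← h1]
  rfl

theorem thm_LW (h1 : St_Tw) (h2 : St_Fam) (h3 : St_LPol) (h4 : St_Res) (h5 : St_Deg) :
    St_LW := by
  intro k _ _ C₄ C₆ v hv2 hv3 hvΔ
  have hmax : v.asIdeal.IsMaximal := v.isMaximal
  let _ : Field (𝓞 k ⧸ v.asIdeal) := Ideal.Quotient.field v.asIdeal
  have hfin : Finite (𝓞 k ⧸ v.asIdeal) := Ideal.finiteQuotientOfFreeOfNeBot v.asIdeal v.ne_bot
  have hcard : Nat.card (𝓞 k ⧸ v.asIdeal) = nm v := by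
    unfold nm
    rw [Ideal.absNorm_apply, Submodule.cardQuot_apply]
  have hz : ∀ x : 𝓞 k, x ∉ v.asIdeal → Ideal.Quotient.mk v.asIdeal x ≠ 0 := fun x hx h =>
    hx (Ideal.Quotient.eq_zero_iff_mem.mp h)
  have e2 : (2 : 𝓞 k ⧸ v.asIdeal) ≠ 0 := by
    have := hz 2 hv2
    rwa [map_ofNat] at this
  have e3 : (3 : 𝓞 k ⧸ v.asIdeal) ≠ 0 := by
    have := hz 3 hv3
    rwa [map_ofNat] at this
  have eΔ : (Ideal.Quotient.mk v.asIdeal C₄) ^ 3 ≠ (Ideal.Quotient.mk v.asIdeal C₆) ^ 2 := by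
    have := hz _ hvΔ
    rw [map_sub, map_pow, map_pow] at this
    exact sub_ne_zero.mp this
  obtain ⟨a, ha1, ha2, ha3⟩ := h2 (𝓞 k ⧸ v.asIdeal) e2 e3 (Ideal.Quotient.mk v.asIdeal C₄)
    (Ideal.Quotient.mk v.asIdeal C₆) eΔ
  rw [hcard] at ha1 ha2 ha3
  refine ⟨a, ha1, ha2, ?_⟩
  intro F _ _ _ d t A ht hA4 hA6 w hw hd
  obtain ⟨hs, hk, hfin', hcard'⟩ := h4 F w
  have hw' : w.asIdeal.comap (algebraMap (𝓞 k) (𝓞 F)) = v.asIdeal := hw
  obtain ⟨hf1, hf2⟩ := ((h5 k F).1 v).2.2 w hw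
  -- the algebra structure
  have hlift : ∀ x ∈ v.asIdeal, ((rd w).comp (algebraMap (𝓞 k) (𝓞 F))) x = 0 := by
    intro x hx
    rw [RingHom.comp_apply, hk]
    rw [← hw'] at hx
    exact hx
  let _ : Algebra (𝓞 k ⧸ v.asIdeal) (IsLocalRing.ResidueField (w.adicCompletionIntegers F)) :=
    (Ideal.Quotient.lift v.asIdeal ((rd w).comp (algebraMap (𝓞 k) (𝓞 F))) hlift).toAlgebra
  have hmap : ∀ x : 𝓞 k, algebraMap (𝓞 k ⧸ v.asIdeal)
      (IsLocalRing.ResidueField (w.adicCompletionIntegers F)) (Ideal.Quotient.mk v.asIdeal x) =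
      rd w (algebraMap (𝓞 k) (𝓞 F) x) := fun x => rfl
  have hinj := (algebraMap (𝓞 k ⧸ v.asIdeal)
      (IsLocalRing.ResidueField (w.adicCompletionIntegers F))).injective
  have g2 : (2 : IsLocalRing.ResidueField (w.adicCompletionIntegers F)) ≠ 0 := by
    intro h
    apply e2
    apply hinj
    rw [map_ofNat, map_zero]
    exact h
  have g3 : (3 : IsLocalRing.ResidueField (w.adicCompletionIntegers F)) ≠ 0 := by
    intro h
    apply e3
    apply hinj
    rw [map_ofNat, map_zero]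
    exact h
  have gΔ : (rd w (algebraMap (𝓞 k) (𝓞 F) C₄)) ^ 3 ≠ (rd w (algebraMap (𝓞 k) (𝓞 F) C₆)) ^ 2 := by
    intro h
    apply eΔ
    apply hinj
    rw [map_pow, map_pow, hmap, hmap]
    exact h
  have gd : rd w d ≠ 0 := fun h => hd ((hk d).mp h)
  have hap := ha3 (IsLocalRing.ResidueField (w.adicCompletionIntegers F)) (rdeg v w) hf1
    (by rw [hcard', hf2])
  rw [hmap, hmap] at hap
  have htower : ∀ x : 𝓞 k, ((algebraMap (𝓞 k) (𝓞 F) x : 𝓞 F) : F) = algebraMap k F (x : k) :=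
    fun x => rfl
  have hB4 : A.c₄ = t ^ 4 * ((d ^ 2 * algebraMap (𝓞 k) (𝓞 F) C₄ : 𝓞 F) : F) := by
    have e : ((d ^ 2 * algebraMap (𝓞 k) (𝓞 F) C₄ : 𝓞 F) : F) =
        (d : F) ^ 2 * ((algebraMap (𝓞 k) (𝓞 F) C₄ : 𝓞 F) : F) := by
      change algebraMap (𝓞 F) F _ = (algebraMap (𝓞 F) F _) ^ 2 * algebraMap (𝓞 F) F _
      rw [map_mul, map_pow]
    rw [hA4, e, htower]
    ring
  have hB6 : A.c₆ = t ^ 6 * ((d ^ 3 * algebraMap (𝓞 k) (𝓞 F) C₆ : 𝓞 F) : F) := by
    have e : ((d ^ 3 * algebraMap (𝓞 k) (𝓞 F) C₆ : 𝓞 F) : F) =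
        (d : F) ^ 3 * ((algebraMap (𝓞 k) (𝓞 F) C₆ : 𝓞 F) : F) := by
      change algebraMap (𝓞 F) F _ = (algebraMap (𝓞 F) F _) ^ 3 * algebraMap (𝓞 F) F _
      rw [map_mul, map_pow]
    rw [hA6, e, htower]
    ring
  -- the residue classes
  have hres : ∀ x : 𝓞 F, IsLocalRing.residue (w.adicCompletionIntegers F)
      (algebraMap (𝓞 F) (w.adicCompletionIntegers F) x) = rd w x := fun x => rfl
  have hcoe : ∀ x : 𝓞 F, algebraMap (w.adicCompletionIntegers F) (w.adicCompletion F)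
      (algebraMap (𝓞 F) (w.adicCompletionIntegers F) x) =
      algebraMap F (w.adicCompletion F) (x : F) := fun x => rfl
  have key := h3 (w.adicCompletionIntegers F) (w.adicCompletion F)
    (A.baseChange (w.adicCompletion F))
    (algebraMap (𝓞 F) (w.adicCompletionIntegers F) (d ^ 2 * algebraMap (𝓞 k) (𝓞 F) C₄))
    (algebraMap (𝓞 F) (w.adicCompletionIntegers F) (d ^ 3 * algebraMap (𝓞 k) (𝓞 F) C₆))
    (algebraMap F (w.adicCompletion F) t) hfin' g2 g3
    (by
      rw [Ne, map_eq_zero]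
      exact ht)
    (by
      rw [hcoe, WeierstrassCurve.baseChange, WeierstrassCurve.map_c₄, hB4, map_mul, map_pow])
    (by
      rw [hcoe, WeierstrassCurve.baseChange, WeierstrassCurve.map_c₆, hB6, map_mul, map_pow])
    (by
      rw [hres, hres]
      simp only [map_mul, map_pow]
      intro h
      apply gΔ
      have h' : rd w d ^ 6 * (rd w (algebraMap (𝓞 k) (𝓞 F) C₄)) ^ 3 =
          rd w d ^ 6 * (rd w (algebraMap (𝓞 k) (𝓞 F) C₆)) ^ 2 := by
        linear_combination h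
      exact mul_left_cancel₀ (pow_ne_zero 6 gd) h')
  have hlp : lp A w = (A.baseChange (w.adicCompletion F)).localPolynomial
    (w.adicCompletionIntegers F) := rfl
  rw [hlp, key, hres, hres, hcard', hf2]
  simp only [map_mul, map_pow]
  have : Fintype (IsLocalRing.ResidueField (w.adicCompletionIntegers F)) := Fintype.ofFinite _
  rw [(h1 (IsLocalRing.ResidueField (w.adicCompletionIntegers F)) g2
    (rd w (algebraMap (𝓞 k) (𝓞 F) C₄)) (rd w (algebraMap (𝓞 k) (𝓞 F) C₆))).2.2 (rd w d) gd]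
  rw [hap, LW_chi h4]
  push_cast
  simp only [map_mul, map_pow]

end ART
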