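import Pool.Agent.ART.StA

/-!
# ART [Loc]: shape of the local polynomial
-/

set_option autoImplicit false

namespace ART

open Polynomial

private theorem Loc_card {κ : Type} [Field κ] [Finite κ] (W : WeierstrassCurve κ) :
    Nat.card W.toAffine.Point ≤ 2 * Nat.card κ + 1 ∧ 1 ≤ Nat.card W.toAffine.Point := by
  classical
  have h1 : ∀ x : κ, ∃ c : κ, ∀ y : κ, W.toAffine.Equation x y → W.toAffine.Equation x c := by
    intro x
    by_cases h : ∃ c, W.toAffine.Equation x c
    · obtain ⟨c, hc⟩ := h
      exact ⟨c, fun _ _ => hc⟩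
    · exact ⟨0, fun y hy => absurd ⟨y, hy⟩ h⟩
  choose c hc using h1
  obtain ⟨f, hf0, hf⟩ : ∃ f : W.toAffine.Point → Option (κ × Bool), f .zero = none ∧
      ∀ x y h, f (.some x y h) = some (x, decide (y = c x)) :=
    ⟨fun P => match P with
      | .zero => none
      | .some x y _ => some (x, decide (y = c x)), rfl, fun _ _ _ => rfl⟩
  have hinj : Function.Injective f := by
    intro P Q hPQ
    rcases P with _ | ⟨x, y, h⟩ <;> rcases Q with _ | ⟨x', y', h'⟩
    · rfl
    · rw [hf0, hf] at hPQ
      exact absurd hPQ (by simp)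
    · rw [hf0, hf] at hPQ
      exact absurd hPQ (by simp)
    · rw [hf, hf] at hPQ
      simp only [Option.some.injEq, Prod.mk.injEq, decide_eq_decide] at hPQ
      obtain ⟨hx, hy⟩ := hPQ
      subst hx
      have hyy : y = y' := by
        by_cases h2 : y = c x
        · rw [h2, (hy.mp h2)]
        · have h3 : y' ≠ c x := fun h => h2 (hy.mpr h)
          have h4 := W.toAffine.Y_eq_of_X_eq h.1 (hc x y h.1) rfl
          have h5 := W.toAffine.Y_eq_of_X_eq h'.1 (hc x y h.1) rfl
          rw [h4.resolve_left h2, h5.resolve_left h3]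
      subst hyy
      rfl
  have hfin : Finite W.toAffine.Point := Finite.of_injective f hinj
  constructor
  · have h2 := Nat.card_le_card_of_injective f hinj
    have h3 : Nat.card (Option (κ × Bool)) = 2 * Nat.card κ + 1 := by
      rw [Finite.card_option, Nat.card_prod, Nat.card_eq_fintype_card (α := Bool), Fintype.card_bool]
      ring
    omega
  · have : Nonempty W.toAffine.Point := ⟨.zero⟩
    exact Nat.one_le_iff_ne_zero.mpr Nat.card_pos.ne'

theorem thm_Loc : St_Loc := by
  intro R _ _ _ K _ _ _ W hfin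
  have hq : 1 ≤ Nat.card (IsLocalRing.ResidueField R) := Nat.card_pos
  obtain ⟨h1, h2⟩ := Loc_card ((W.minimal R).reduction R)
  unfold WeierstrassCurve.localPolynomial

  split_ifs with hg hs hm
  · refine ⟨_, _, rfl, ?_, Or.inr rfl⟩
    rw [abs_le]
    constructor <;> omega
  · refine ⟨1, 0, by simp, ?_, Or.inl ⟨rfl, by simp⟩⟩
    rw [abs_one]
    exact_mod_cast hq
  · refine ⟨-1, 0, by simp, ?_, Or.inl ⟨rfl, by simp⟩⟩
    rw [abs_neg, abs_one]
    exact_mod_cast hq
  · refine ⟨0, 0, by simp, ?_, Or.inl ⟨rfl, by simp⟩⟩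
    rw [abs_zero]
    exact_mod_cast Nat.zero_le _

end ART
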