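import Pool.Agent.ART.StE

/-!
# ART [LocP]: local comparison of the periods of the twists (helper46)
-/

set_option autoImplicit false

namespace ART

open scoped ComplexConjugate Classical
open NumberField IsDedekindDomain Polynomial

private theorem isPer_iff {k : Type} [Field k] (E : WeierstrassCurve k) (σ : k →+* ℂ)
    (L : PeriodPair) : IsPer (E.map σ) L ↔ 12 * L.g₂ = σ E.c₄ ∧ 216 * L.g₃ = σ E.c₆ := by
  unfold IsPer
  rw [WeierstrassCurve.map_c₄, WeierstrassCurve.map_c₆]

private theorem lat_eq (h1 : St_LatU) {k : Type} [Field k] {E : WeierstrassCurve k} {σ : k →+* ℂ}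
    {L L' : PeriodPair} (h : IsPer (E.map σ) L) (h' : IsPer (E.map σ) L') :
    L.lattice = L'.lattice := by
  refine h1 L L' ?_ ?_
  · have := h.1.trans h'.1.symm
    exact mul_left_cancel₀ (by norm_num) this
  · have := h.2.trans h'.2.symm
    exact mul_left_cancel₀ (by norm_num) this

private theorem realCase (h1 : St_LatU) (h2 : St_LatS) (h3 : St_Area) {k : Type} [Field k]
    (E : WeierstrassCurve k) (σ : k →+* ℂ) (hσ : ∀ x, conj (σ x) = σ x) :
    ∃ o₁ o₂ : ℝ, 0 < o₁ ∧ 0 < o₂ ∧ ∀ L : PeriodPair, IsPer (E.map σ) L →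
      (∀ P : ℝ, (P : ℂ) ∈ L.lattice → ∃ r : ℚ, P = r * o₁) ∧
      (∀ P : ℝ, Complex.I * P ∈ L.lattice → ∃ r : ℚ, P = r * o₂) ∧
      ∃ r : ℚ, (L.ω₁ * conj L.ω₂).im = r * (o₁ * o₂) := by
  by_cases hex : ∃ L₀ : PeriodPair, IsPer (E.map σ) L₀
  · obtain ⟨L₀, hL₀⟩ := hex
    have hst : ∀ x ∈ L₀.lattice, conj x ∈ L₀.lattice := by
      obtain ⟨L', -, -, e2, e3, e4⟩ := h2.2 L₀
      have hL' : IsPer (E.map σ) L' := by
        rw [isPer_iff] at hL₀ ⊢
        constructor
        · rw [e2, ← hσ E.c₄, ← hL₀.1, map_mul, Complex.conj_ofNat]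
        · rw [e3, ← hσ E.c₆, ← hL₀.2, map_mul, Complex.conj_ofNat]
      have he := lat_eq h1 hL' hL₀
      intro x hx
      rw [← he, e4] at hx
      exact hx
    obtain ⟨o₁, o₂, p₁, p₂, q1, q2, r, hr⟩ := h3.2.2 L₀ hst
    refine ⟨o₁, o₂, p₁, p₂, fun L hL => ?_⟩
    have he := lat_eq h1 hL hL₀
    refine ⟨fun P hP => q1 P (he ▸ hP), fun P hP => q2 P (he ▸ hP), ?_⟩
    rcases h3.2.1 L₀ L he.symm with h | h
    · exact ⟨r, by rw [h, hr]⟩
    · exact ⟨-r, by rw [h, hr]; push_cast; ring⟩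
  · exact ⟨1, 1, one_pos, one_pos, fun L hL => absurd ⟨L, hL⟩ hex⟩

private theorem complexCase (h1 : St_LatU) (h2 : St_LatS) (h3 : St_Area) {k : Type} [Field k]
    (E : WeierstrassCurve k) (σ : k →+* ℂ) :
    ∃ o₁ : ℝ, 0 < o₁ ∧ ∀ L : PeriodPair, ∀ σ' : k →+* ℂ,
      (σ' = σ ∨ ComplexEmbedding.conjugate σ' = σ) → IsPer (E.map σ') L →
      |(L.ω₁ * conj L.ω₂).im| = o₁ := by
  by_cases hex : ∃ L₀ : PeriodPair, IsPer (E.map σ) L₀
  · obtain ⟨L₀, hL₀⟩ := hex
    have key : ∀ L : PeriodPair, IsPer (E.map σ) L →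
        |(L.ω₁ * conj L.ω₂).im| = |(L₀.ω₁ * conj L₀.ω₂).im| := by
      intro L hL
      have he := lat_eq h1 hL hL₀
      rcases h3.2.1 L₀ L he.symm with h | h
      · rw [h]
      · rw [h, abs_neg]
    refine ⟨|(L₀.ω₁ * conj L₀.ω₂).im|, abs_pos.2 (h3.1 L₀), fun L σ' hσ' hL => ?_⟩
    rcases hσ' with rfl | rfl
    · exact key L hL
    · obtain ⟨L', w1, w2, e2, e3, e4⟩ := h2.2 L
      have hL' : IsPer (E.map (ComplexEmbedding.conjugate σ')) L' := by
        rw [isPer_iff] at hL ⊢
        constructor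
        · rw [e2, ComplexEmbedding.conjugate_coe_eq, ← hL.1, map_mul, Complex.conj_ofNat]
        · rw [e3, ComplexEmbedding.conjugate_coe_eq, ← hL.2, map_mul, Complex.conj_ofNat]
      rw [← key L' hL', w1, w2, ← map_mul, Complex.conj_im, abs_neg]
  · by_cases hex' : ∃ L₀ : PeriodPair, IsPer (E.map (ComplexEmbedding.conjugate σ)) L₀
    · exfalso
      obtain ⟨L, hL⟩ := hex'
      obtain ⟨L', w1, w2, e2, e3, e4⟩ := h2.2 L
      apply hex
      refine ⟨L', ?_⟩
      rw [isPer_iff] at hL ⊢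
      rw [ComplexEmbedding.conjugate_coe_eq, ComplexEmbedding.conjugate_coe_eq] at hL
      constructor
      · rw [e2, ← Complex.conj_conj (σ E.c₄), ← hL.1, map_mul, Complex.conj_ofNat]
      · rw [e3, ← Complex.conj_conj (σ E.c₆), ← hL.2, map_mul, Complex.conj_ofNat]
    · refine ⟨1, one_pos, fun L σ' hσ' hL => ?_⟩
      rcases hσ' with rfl | rfl
      · exact absurd ⟨L, hL⟩ hex
      · exfalso
        apply hex'
        refine ⟨L, ?_⟩
        have : ComplexEmbedding.conjugate (ComplexEmbedding.conjugate σ') = σ' := by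
          ext x
          simp
        rw [this]
        exact hL

/-- the twisted lattice -/
private theorem twist (h2 : St_LatS) {k : Type} [Field k] (E : WeierstrassCurve k) {F : Type}
    [Field F] [Algebra k F] {d u : F} {A : WeierstrassCurve F} (hd : d ≠ 0) (hu : u ≠ 0)
    (hc4 : A.c₄ = u ^ 4 * d ^ 2 * algebraMap k F E.c₄)
    (hc6 : A.c₆ = u ^ 6 * d ^ 3 * algebraMap k F E.c₆) (τ : F →+* ℂ) (L : PeriodPair)
    (hL : IsPer (A.map τ) L) (μ : ℂ) (hμ : μ ^ 2 = τ d * τ u ^ 2) :
    ∃ L₁ : PeriodPair, IsPer (E.map (τ.comp (algebraMap k F))) L₁ ∧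
      (∀ x, x ∈ L₁.lattice ↔ μ⁻¹ * x ∈ L.lattice) ∧
      (L₁.ω₁ * conj L₁.ω₂).im = ‖μ‖ ^ 2 * (L.ω₁ * conj L.ω₂).im := by
  have hd' : τ d ≠ 0 := (map_ne_zero τ).2 hd
  have hu' : τ u ≠ 0 := (map_ne_zero τ).2 hu
  have hμ0 : μ ≠ 0 := by
    rintro rfl
    rw [zero_pow two_ne_zero] at hμ
    exact mul_ne_zero hd' (pow_ne_zero 2 hu') hμ.symm
  obtain ⟨L₁, w1, w2, e2, e3, e4⟩ := h2.1 L μ hμ0
  refine ⟨L₁, ?_, e4, ?_⟩
  · rw [isPer_iff] at hL ⊢
    rw [hc4, hc6] at hL
    obtain ⟨a, b⟩ := hL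
    simp only [map_mul, map_pow] at a b
    constructor
    · have h4 : μ ^ 4 = τ u ^ 4 * τ d ^ 2 := by
        have : μ ^ 4 = (μ ^ 2) ^ 2 := by ring
        rw [this, hμ]
        ring
      rw [e2, mul_left_comm, a, h4, RingHom.comp_apply]
      field_simp
    · have h6 : μ ^ 6 = τ u ^ 6 * τ d ^ 3 := by
        have : μ ^ 6 = (μ ^ 2) ^ 3 := by ring
        rw [this, hμ]
        ring
      rw [e3, mul_left_comm, b, h6, RingHom.comp_apply]
      field_simp
  · rw [w1, w2, map_mul]
    have h5 : μ * L.ω₁ * (conj μ * conj L.ω₂) = ((‖μ‖ ^ 2 : ℝ) : ℂ) * (L.ω₁ * conj L.ω₂) := by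
      have := Complex.mul_conj' μ
      push_cast
      rw [← this]
      ring
    rw [h5, Complex.im_ofReal_mul]

/-- [LocP] -/
theorem thm_LocP (h1 : St_LatU) (h2 : St_LatS) (h3 : St_Area) : St_LocP := by
  intro k _ _ E
  have hloc : ∀ v : InfinitePlace k, ∃ o₁ o₂ : ℝ, 0 < o₁ ∧ 0 < o₂ ∧
      (v.IsReal → ∀ L : PeriodPair, IsPer (E.map v.embedding) L →
        (∀ P : ℝ, (P : ℂ) ∈ L.lattice → ∃ r : ℚ, P = r * o₁) ∧
        (∀ P : ℝ, Complex.I * P ∈ L.lattice → ∃ r : ℚ, P = r * o₂) ∧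
        ∃ r : ℚ, (L.ω₁ * conj L.ω₂).im = r * (o₁ * o₂)) ∧
      (v.IsComplex → o₂ = 1 ∧ ∀ L : PeriodPair, ∀ σ' : k →+* ℂ,
        (σ' = v.embedding ∨ ComplexEmbedding.conjugate σ' = v.embedding) →
        IsPer (E.map σ') L → |(L.ω₁ * conj L.ω₂).im| = o₁) := by
    intro v
    by_cases hv : v.IsReal
    · have hσ : ∀ x, conj (v.embedding x) = v.embedding x := by
        intro x
        have h := ComplexEmbedding.isReal_iff.1 (InfinitePlace.isReal_iff.1 hv)
        have h' := congrArg (fun f : k →+* ℂ => f x) h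
        exact h'
      obtain ⟨o₁, o₂, p₁, p₂, h⟩ := realCase h1 h2 h3 E v.embedding hσ
      exact ⟨o₁, o₂, p₁, p₂, fun _ => h, fun hc => absurd hv (InfinitePlace.not_isReal_iff_isComplex.2 hc)⟩
    · obtain ⟨o₁, p₁, h⟩ := complexCase h1 h2 h3 E v.embedding
      exact ⟨o₁, 1, p₁, one_pos, fun hr => absurd hr hv, fun _ => ⟨rfl, h⟩⟩
  choose o₁ o₂ p₁ p₂ hre hco using hloc
  refine ⟨o₁, o₂, fun v => ⟨p₁ v, p₂ v⟩, ?_⟩
  intro F _ _ _ d u A hd hu hc4 hc6 w P hP
  obtain ⟨L, hL, hPr, hPc⟩ := hP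
  generalize hv : w.comap (algebraMap k F) = v
  have hmk : InfinitePlace.mk (w.embedding.comp (algebraMap k F)) = InfinitePlace.mk v.embedding := by
    rw [InfinitePlace.mk_embedding, ← hv, ← InfinitePlace.comap_mk, InfinitePlace.mk_embedding]
  have hcase := InfinitePlace.mk_eq_iff.1 hmk
  have hwd : w d ≠ 0 := (map_ne_zero w).2 hd
  have hwu : w u ≠ 0 := (map_ne_zero w).2 hu
  have hwd0 : 0 < w d := lt_of_le_of_ne (apply_nonneg w d) hwd.symm
  have hwu0 : 0 < w u := lt_of_le_of_ne (apply_nonneg w u) hwu.symm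
  -- the norm of a square root
  have hnorm : ∀ μ : ℂ, μ ^ 2 = w.embedding d * w.embedding u ^ 2 → ‖μ‖ ^ 2 = w d * w u ^ 2 := by
    intro μ hμ
    rw [← norm_pow, hμ, norm_mul, norm_pow, InfinitePlace.norm_embedding_eq,
      InfinitePlace.norm_embedding_eq]
  have hcomp : v.IsReal → w.embedding.comp (algebraMap k F) = v.embedding := by
    intro hvr
    rcases hcase with h | h
    · exact h
    · have h' := ComplexEmbedding.isReal_iff.1 (InfinitePlace.isReal_iff.1 hvr)
      rw [← h] at h' ⊢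
      have h2' : ComplexEmbedding.conjugate (ComplexEmbedding.conjugate
          (w.embedding.comp (algebraMap k F))) = w.embedding.comp (algebraMap k F) := by
        ext x
        simp
      rw [h2'] at h'
      exact h'
  by_cases hw : w.IsReal
  · -- real place
    have hvr : v.IsReal := hv ▸ hw.comap _
    obtain ⟨hP0, hPL⟩ := hPr hw
    have hreal : ∀ x, conj (w.embedding x) = w.embedding x := by
      intro x
      have h := ComplexEmbedding.isReal_iff.1 (InfinitePlace.isReal_iff.1 hw)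
      exact congrArg (fun f : F →+* ℂ => f x) h
    have hre' : ∀ x, w.embedding x = ((w.embedding x).re : ℂ) := fun x =>
      (Complex.conj_eq_iff_re.1 (hreal x)).symm
    have habs : ∀ x, w x = |(w.embedding x).re| := by
      intro x
      rw [← InfinitePlace.norm_embedding_eq, hre' x, Complex.norm_real, Real.norm_eq_abs,
        Complex.ofReal_re]
    have hdre : (w.embedding d).re ≠ 0 := by
      intro h
      apply hwd
      rw [habs, h, abs_zero]
    have hmult : w.mult = 1 := by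
      unfold InfinitePlace.mult
      rw [if_pos hw]
    rcases lt_or_gt_of_ne hdre with hneg | hpos
    · -- negative
      have hal : al d w = 0 := by
        unfold al
        rw [if_pos ⟨hw, hneg⟩]
      have hbe : be d w = 1 := by
        unfold be
        rw [if_neg (fun h => absurd h.2 (not_lt.2 hneg.le))]
      obtain ⟨m, hm⟩ : ∃ m : ℝ, m = Real.sqrt (-(w.embedding d).re) * (w.embedding u).re := ⟨_, rfl⟩
      have hm2 : m ^ 2 = -(w.embedding d).re * (w.embedding u).re ^ 2 := by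
        rw [hm, mul_pow, Real.sq_sqrt (by linarith)]
      have hμ : (Complex.I * (m : ℂ)) ^ 2 = w.embedding d * w.embedding u ^ 2 := by
        rw [mul_pow, Complex.I_sq, ← Complex.ofReal_pow, hm2, hre' d, hre' u]
        push_cast
        simp only [Complex.ofReal_re]
        ring
      obtain ⟨L₁, a1, a2, a3⟩ := twist h2 E hd hu hc4 hc6 w.embedding L hL _ hμ
      rw [hcomp hvr] at a1
      have hm0 : m ≠ 0 := by
        rintro h
        have := hnorm _ hμ
        rw [h] at this
        simp only [Complex.ofReal_zero, mul_zero, norm_zero] at this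
        have h5 : 0 < w d * w u ^ 2 := by positivity
        rw [← this] at h5
        norm_num at h5
      have hIm : Complex.I * (m : ℂ) ≠ 0 :=
        mul_ne_zero Complex.I_ne_zero (Complex.ofReal_ne_zero.2 hm0)
      have hmem : Complex.I * ((m * P : ℝ) : ℂ) ∈ L₁.lattice := by
        rw [a2]
        have h6 : Complex.I * ((m * P : ℝ) : ℂ) = Complex.I * (m : ℂ) * (P : ℂ) := by
          push_cast
          ring
        rw [h6, inv_mul_cancel_left₀ hIm]
        exact hPL
      obtain ⟨r, hr⟩ := (hre v hvr L₁ a1).2.1 _ hmem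
      refine ⟨r, ?_, ?_⟩
      · rintro rfl
        rw [Rat.cast_zero, zero_mul] at hr
        exact mul_ne_zero hm0 hP0 hr
      · have hw2 : w d * w u ^ 2 = m ^ 2 := by
          rw [hm2, habs d, habs u, abs_of_neg hneg, sq_abs]
        rw [hal, hbe, hmult, pow_zero, pow_one, pow_one, one_mul, hw2]
        have hP' : P = r * o₂ v / m := by
          field_simp
          linarith
        rw [hP']
        field_simp
    · -- positive
      have hal : al d w = 1 := by
        unfold al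
        rw [if_neg (fun h => absurd h.2 (not_lt.2 (le_of_lt hpos)))]
      have hbe : be d w = 0 := by
        unfold be
        rw [if_pos ⟨hw, hpos⟩]
      obtain ⟨m, hm⟩ : ∃ m : ℝ, m = Real.sqrt ((w.embedding d).re) * (w.embedding u).re := ⟨_, rfl⟩
      have hm2 : m ^ 2 = (w.embedding d).re * (w.embedding u).re ^ 2 := by
        rw [hm, mul_pow, Real.sq_sqrt (le_of_lt hpos)]
      have hμ : ((m : ℂ)) ^ 2 = w.embedding d * w.embedding u ^ 2 := by
        rw [← Complex.ofReal_pow, hm2, hre' d, hre' u]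
        push_cast
        simp only [Complex.ofReal_re]
      obtain ⟨L₁, a1, a2, a3⟩ := twist h2 E hd hu hc4 hc6 w.embedding L hL _ hμ
      rw [hcomp hvr] at a1
      have hm0 : m ≠ 0 := by
        rintro h
        have := hnorm _ hμ
        rw [h] at this
        simp only [Complex.ofReal_zero, norm_zero] at this
        have h5 : 0 < w d * w u ^ 2 := by positivity
        rw [← this] at h5
        norm_num at h5
      have hmem : ((m * P : ℝ) : ℂ) ∈ L₁.lattice := by
        rw [a2]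
        push_cast
        rw [inv_mul_cancel_left₀ (Complex.ofReal_ne_zero.2 hm0)]
        exact hPL
      obtain ⟨r, hr⟩ := (hre v hvr L₁ a1).1 _ hmem
      refine ⟨r, ?_, ?_⟩
      · rintro rfl
        rw [Rat.cast_zero, zero_mul] at hr
        exact mul_ne_zero hm0 hP0 hr
      · have hw2 : w d * w u ^ 2 = m ^ 2 := by
          rw [hm2, habs d, habs u, abs_of_pos hpos, sq_abs]
        rw [hal, hbe, hmult, pow_zero, pow_one, pow_one, mul_one, hw2]
        have hP' : P = r * o₁ v / m := by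
          field_simp
          linarith
        rw [hP']
        field_simp
  · -- complex place
    have hwc : w.IsComplex := InfinitePlace.not_isReal_iff_isComplex.1 hw
    have hPe := hPc hwc
    have hal : al d w = 1 := by
      unfold al
      rw [if_neg fun h => hw h.1]
    have hbe : be d w = 1 := by
      unfold be
      rw [if_neg fun h => hw h.1]
    have hmult : w.mult = 2 := by
      unfold InfinitePlace.mult
      rw [if_neg hw]
    obtain ⟨μ, hμ⟩ := IsAlgClosed.exists_pow_nat_eq (w.embedding d * w.embedding u ^ 2)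
      (n := 2) two_pos
    obtain ⟨L₁, a1, a2, a3⟩ := twist h2 E hd hu hc4 hc6 w.embedding L hL μ hμ
    rw [hnorm μ hμ, ← hPe] at a3
    have hpos : 0 < w d * w u ^ 2 := by positivity
    rw [hal, hbe, hmult, pow_one, pow_one]
    by_cases hvr : v.IsReal
    · rw [hcomp hvr] at a1
      obtain ⟨r, hr⟩ := (hre v hvr L₁ a1).2.2
      refine ⟨r, ?_, ?_⟩
      · rintro rfl
        rw [Rat.cast_zero, zero_mul] at hr
        exact h3.1 L₁ hr
      · have hP' : P = r * (o₁ v * o₂ v) / (w d * w u ^ 2) := by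
          rw [eq_div_iff hpos.ne', mul_comm, ← a3, hr]
        rw [hP']
        field_simp
    · obtain ⟨e1, e2⟩ := hco v (InfinitePlace.not_isReal_iff_isComplex.1 hvr)
      have h5 := e2 L₁ _ hcase a1
      refine ⟨1, one_ne_zero, ?_⟩
      have h6 : (w d * w u ^ 2 * P) ^ 2 = o₁ v ^ 2 := by
        rw [← a3, ← h5, sq_abs]
      rw [e1]
      have h7 : P ^ 2 = o₁ v ^ 2 / (w d * w u ^ 2) ^ 2 := by
        rw [eq_div_iff (pow_ne_zero 2 hpos.ne'), ← h6]
        ring
      rw [h7]
      push_cast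
      field_simp

end ART
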