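import Pool.Agent.ART.StE

/-!
# ART: the product of the periods is rational (module Per)
-/

set_option autoImplicit false

namespace ART

open scoped ComplexConjugate Classical
open NumberField IsDedekindDomain Polynomial

private lemma Per_fib {α β : Type} [Fintype α] [Fintype β] (f : α → β) (o : β → ℝ) (a : α → ℕ) :
    ∏ w, o (f w) ^ a w = ∏ v, o v ^ (∑ w with f w = v, a w) := by
  rw [← Finset.prod_fiberwise (s := Finset.univ) (g := f)]
  refine Finset.prod_congr rfl fun v _ => ?_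
  rw [← Finset.prod_pow_eq_pow_sum]
  refine Finset.prod_congr rfl fun w hw => ?_
  rw [Finset.mem_filter] at hw
  rw [hw.2]

private lemma Per_sw (a : ℝ) (n : ℤ) : (a ^ 2) ^ n = (a ^ n) ^ 2 := by
  rw [sq, sq, mul_zpow]

private lemma Per_cancel {ι β : Type} [Fintype ι] [Fintype β] (o : β → ℝ) (ho : ∀ v, 0 < o v)
    (n : ι → ℤ) (a : ι → β → ℕ) (h : ∀ v, ∑ i, n i * ((a i v : ℕ) : ℤ) = 0) :
    ∏ i, (∏ v, o v ^ a i v) ^ n i = 1 := by
  have h1 : ∀ i, (∏ v, o v ^ a i v) ^ n i = ∏ v, o v ^ (n i * ((a i v : ℕ) : ℤ)) := by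
    intro i
    rw [← Finset.prod_zpow]
    refine Finset.prod_congr rfl fun v _ => ?_
    rw [mul_comm, zpow_mul, zpow_natCast]
  rw [Finset.prod_congr rfl fun i _ => h1 i, Finset.prod_comm]
  refine Finset.prod_eq_one fun v _ => ?_
  have h2 : ∀ s : Finset ι, ∏ i ∈ s, o v ^ (n i * ((a i v : ℕ) : ℤ)) =
      o v ^ (∑ i ∈ s, n i * ((a i v : ℕ) : ℤ)) := by
    intro s
    induction s using Finset.induction_on with
    | empty => simp
    | insert i s hi ih =>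
      rw [Finset.prod_insert hi, Finset.sum_insert hi, ih, zpow_add₀ (ho v).ne']
  rw [h2, h v, zpow_zero]

private lemma Per_one {F : Type} [Field F] [NumberField F] (d u : F) (hd : d ≠ 0) (hu : u ≠ 0)
    (P r g : InfinitePlace F → ℝ) (h : ∀ w, P w ^ 2 = r w ^ 2 * ((w d * w u ^ 2) ^ w.mult)⁻¹ *
      g w ^ 2) :
    (Real.sqrt |(discr F : ℝ)| * ∏ w, P w) ^ 2 =
      |(((discr F : ℚ) * Algebra.norm ℚ d : ℚ) : ℝ)| *
        ((∏ w, r w) / ((Algebra.norm ℚ d : ℚ) * (Algebra.norm ℚ u : ℚ) : ℝ)) ^ 2 *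
        (∏ w, g w) ^ 2 := by
  have hNd : (Algebra.norm ℚ d : ℝ) ≠ 0 := by
    rw [Ne, Rat.cast_eq_zero]
    exact (Algebra.norm_ne_zero_iff).mpr hd
  have hNu : (Algebra.norm ℚ u : ℝ) ≠ 0 := by
    rw [Ne, Rat.cast_eq_zero]
    exact (Algebra.norm_ne_zero_iff).mpr hu
  have h1 : ∏ w : InfinitePlace F, (w d * w u ^ 2) ^ w.mult =
      |(Algebra.norm ℚ d : ℝ)| * |(Algebra.norm ℚ u : ℝ)| ^ 2 := by
    have e1 := InfinitePlace.prod_eq_abs_norm d
    have e2 := InfinitePlace.prod_eq_abs_norm u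
    have e3 : ∀ w : InfinitePlace F, (w d * w u ^ 2) ^ w.mult =
        w d ^ w.mult * (w u ^ w.mult) ^ 2 := by
      intro w
      rw [mul_pow, ← pow_mul, ← pow_mul, mul_comm 2]
    rw [Finset.prod_congr rfl fun w _ => e3 w, Finset.prod_mul_distrib, Finset.prod_pow, e1, e2]
    push_cast
    rfl
  have h2 : (∏ w, P w) ^ 2 = (∏ w, r w) ^ 2 *
      (|(Algebra.norm ℚ d : ℝ)| * |(Algebra.norm ℚ u : ℝ)| ^ 2)⁻¹ * (∏ w, g w) ^ 2 := by
    rw [← Finset.prod_pow, Finset.prod_congr rfl fun w _ => h w, Finset.prod_mul_distrib,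
      Finset.prod_mul_distrib, Finset.prod_pow, Finset.prod_pow, Finset.prod_inv_distrib, h1]
  rw [mul_pow, Real.sq_sqrt (abs_nonneg _), h2]
  push_cast
  rw [abs_mul, sq_abs, div_pow, mul_pow]
  have h3 : |(Algebra.norm ℚ d : ℝ)| ≠ 0 := abs_ne_zero.mpr hNd
  have h4 : (Algebra.norm ℚ d : ℝ) ^ 2 = |(Algebra.norm ℚ d : ℝ)| ^ 2 := (sq_abs _).symm
  rw [h4]
  field_simp

theorem thm_Per (h1 : St_LocP) (h2 : St_Exp) (h3 : St_Sq) : St_Per := by
  intro k _ _ E ι _ F _ _ _ d n hd hrel A hA x hx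
  obtain ⟨o₁, o₂, ho, hloc⟩ := h1 k E
  have hexp := h2 k ι F d n hd hrel
  obtain ⟨q, hq, hqp⟩ := h3 k ι F d n hd hrel
  have key : ∀ i, ∃ R : ℚ, R ≠ 0 ∧ x i ^ 2 =
      |(((discr (F i) : ℚ) * Algebra.norm ℚ (d i) : ℚ) : ℝ)| * (R : ℝ) ^ 2 *
      ((∏ v, o₁ v ^ (∑ w : InfinitePlace (F i) with w.comap (algebraMap k (F i)) = v,
        al (d i) w)) * ∏ v, o₂ v ^ (∑ w : InfinitePlace (F i) with
        w.comap (algebraMap k (F i)) = v, be (d i) w)) ^ 2 := by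
    intro i
    obtain ⟨u, hu, hc4, hc6⟩ := hA i
    obtain ⟨P, hP, hxi⟩ := hx i
    have hw := fun w => hloc (F i) (d i) u (A i) (hd i) hu hc4 hc6 w (P w) (hP w)
    choose r hr0 hr using hw
    refine ⟨(∏ w, r w) / (Algebra.norm ℚ (d i) * Algebra.norm ℚ u), ?_, ?_⟩
    · refine div_ne_zero (Finset.prod_ne_zero_iff.mpr fun w _ => hr0 w) ?_
      exact mul_ne_zero ((Algebra.norm_ne_zero_iff).mpr (hd i)) ((Algebra.norm_ne_zero_iff).mpr hu)
    · rw [hxi, Per_one (d i) u (hd i) hu P (fun w => (r w : ℝ)) _ hr, Finset.prod_mul_distrib,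
        Per_fib (fun w : InfinitePlace (F i) => w.comap (algebraMap k (F i))) o₁,
        Per_fib (fun w : InfinitePlace (F i) => w.comap (algebraMap k (F i))) o₂]
      push_cast
      rfl
  choose R hR0 hR using key
  have hD : ∀ i, ((discr (F i) : ℚ) * Algebra.norm ℚ (d i)) ≠ 0 := fun i =>
    mul_ne_zero (Int.cast_ne_zero.mpr (discr_ne_zero (F i))) ((Algebra.norm_ne_zero_iff).mpr (hd i))
  have hx0 : ∀ i, x i ≠ 0 := by
    intro i hi
    have e := hR i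
    rw [hi] at e
    have p1 : (0 : ℝ) < |(((discr (F i) : ℚ) * Algebra.norm ℚ (d i) : ℚ) : ℝ)| :=
      abs_pos.mpr (Rat.cast_ne_zero.mpr (hD i))
    have p2 : (0 : ℝ) < (R i : ℝ) ^ 2 := by
      have := Rat.cast_ne_zero (α := ℝ) |>.mpr (hR0 i)
      positivity
    have p3 : (0 : ℝ) < (∏ v, o₁ v ^ (∑ w : InfinitePlace (F i) with
        w.comap (algebraMap k (F i)) = v, al (d i) w)) * ∏ v, o₂ v ^ (∑ w : InfinitePlace (F i)
        with w.comap (algebraMap k (F i)) = v, be (d i) w) :=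
      mul_pos (Finset.prod_pos fun v _ => pow_pos (ho v).1 _)
        (Finset.prod_pos fun v _ => pow_pos (ho v).2 _)
    have p4 := mul_pos (mul_pos p1 p2) (pow_pos p3 2)
    rw [← e] at p4
    norm_num at p4
  refine ⟨hx0, ?_⟩
  have hsq : (∏ i, x i ^ n i) ^ 2 = ((q * ∏ i, R i ^ n i : ℚ) : ℝ) ^ 2 := by
    have e1 : (∏ i, x i ^ n i) ^ 2 = ∏ i, (x i ^ 2) ^ n i := by
      rw [← Finset.prod_pow]
      exact Finset.prod_congr rfl fun i _ => (Per_sw _ _).symm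
    have e2 : ∏ i, (x i ^ 2) ^ n i =
        (∏ i, |(((discr (F i) : ℚ) * Algebra.norm ℚ (d i) : ℚ) : ℝ)| ^ n i) *
        (∏ i, (R i : ℝ) ^ n i) ^ 2 *
        ((∏ i, (∏ v, o₁ v ^ (∑ w : InfinitePlace (F i) with w.comap (algebraMap k (F i)) = v,
        al (d i) w)) ^ n i) * ∏ i, (∏ v, o₂ v ^ (∑ w : InfinitePlace (F i) with
        w.comap (algebraMap k (F i)) = v, be (d i) w)) ^ n i) ^ 2 := by
      rw [← Finset.prod_mul_distrib, ← Finset.prod_pow, ← Finset.prod_pow,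
        ← Finset.prod_mul_distrib, ← Finset.prod_mul_distrib]
      refine Finset.prod_congr rfl fun i _ => ?_
      rw [hR i, mul_zpow, mul_zpow, Per_sw, Per_sw, ← mul_zpow]
    have e3 : (∏ i, |(((discr (F i) : ℚ) * Algebra.norm ℚ (d i) : ℚ) : ℝ)| ^ n i) =
        (q : ℝ) ^ 2 := by
      have f1 : (∏ i, |(((discr (F i) : ℚ) * Algebra.norm ℚ (d i) : ℚ) : ℝ)| ^ n i) =
          |((∏ i, ((discr (F i) : ℚ) * Algebra.norm ℚ (d i)) ^ n i : ℚ) : ℝ)| := by
        rw [Rat.cast_prod, Finset.abs_prod]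
        refine Finset.prod_congr rfl fun i _ => ?_
        rw [Rat.cast_zpow, abs_zpow]
      rw [f1, hqp]
      push_cast
      exact abs_of_nonneg (sq_nonneg _)
    rw [e1, e2, e3, Per_cancel o₁ (fun v => (ho v).1) n _ (fun v => (hexp v).1),
      Per_cancel o₂ (fun v => (ho v).2) n _ (fun v => (hexp v).2)]
    push_cast
    ring
  have hQ0 : q * ∏ i, R i ^ n i ≠ 0 :=
    mul_ne_zero hq (Finset.prod_ne_zero_iff.mpr fun i _ => zpow_ne_zero _ (hR0 i))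
  rcases sq_eq_sq_iff_eq_or_eq_neg.mp hsq with h | h
  · exact ⟨_, hQ0, h⟩
  · refine ⟨-(q * ∏ i, R i ^ n i), neg_ne_zero.mpr hQ0, ?_⟩
    rw [h]
    push_cast
    ring

end ART
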