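import Pool.Agent.ART.StF

/-!
# ART: [Prd] the identity of the L-series in the half plane of convergence (helper21)
-/

set_option autoImplicit false

namespace ART

open scoped ComplexConjugate
open NumberField IsDedekindDomain Polynomial

private theorem Prd_inj {k F : Type} [Field k] [NumberField k] [Field F] [NumberField F]
    [Algebra k F] {v v' : HeightOneSpectrum (𝓞 k)} {w : HeightOneSpectrum (𝓞 F)}
    (h : w ∈ ovr F v) (h' : w ∈ ovr F v') : v = v' := by
  apply HeightOneSpectrum.ext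
  have h1 : w.asIdeal.comap (algebraMap (𝓞 k) (𝓞 F)) = v.asIdeal := h
  have h2 : w.asIdeal.comap (algebraMap (𝓞 k) (𝓞 F)) = v'.asIdeal := h'
  rw [← h1, h2]

/-- The disjoint union of the fibres. -/
private noncomputable def Prd_eqv {k F : Type} [Field k] [NumberField k] [Field F]
    [NumberField F] [Algebra k F]
    (h : ∀ w : HeightOneSpectrum (𝓞 F), ∃ v : HeightOneSpectrum (𝓞 k), w ∈ ovr F v) :
    (Σ v : HeightOneSpectrum (𝓞 k), ovr F v) ≃ HeightOneSpectrum (𝓞 F) where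
  toFun x := x.2.1
  invFun w := ⟨(h w).choose, ⟨w, (h w).choose_spec⟩⟩
  left_inv := by
    rintro ⟨v, w, hw⟩
    have : (h w).choose = v := Prd_inj (h w).choose_spec hw
    subst this
    rfl
  right_inv w := rfl

open Classical in
/-- The product over the fibres, with the finite product over `T` multiplied. -/
private theorem Prd_fib {k F : Type} [Field k] [NumberField k] [Field F] [NumberField F]
    [Algebra k F] (hD1 : ∀ v : HeightOneSpectrum (𝓞 k), (ovr F v).Finite)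
    (hD2 : ∀ w : HeightOneSpectrum (𝓞 F), ∃ v : HeightOneSpectrum (𝓞 k), w ∈ ovr F v)
    (S : Set (HeightOneSpectrum (𝓞 k))) (T : Finset (HeightOneSpectrum (𝓞 F)))
    (hT : ∀ w, w ∈ T ↔ ∃ v ∈ S, w ∈ ovr F v)
    (e : HeightOneSpectrum (𝓞 F) → ℂ) (he : ∀ w, e w ≠ 0) (c : ℂ)
    (hc : HasProd (fun w => (e w)⁻¹) c) :
    HasProd (fun v : HeightOneSpectrum (𝓞 k) =>
      if v ∈ S then (1 : ℂ) else (∏ᶠ w : ovr F v, e w.1)⁻¹) (c * ∏ w ∈ T, e w) := by
  have h1 : HasProd (fun w => if w ∈ T then e w else 1) (∏ w ∈ T, e w) := by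
    have h2 : (∏ w ∈ T, e w) = ∏ w ∈ T, if w ∈ T then e w else 1 :=
      Finset.prod_congr rfl fun w hw => by rw [if_pos hw]
    rw [h2]
    apply hasProd_prod_of_ne_finset_one
    intro w hw
    rw [if_neg hw]
  have h3 := hc.mul h1
  rw [← (Prd_eqv hD2).hasProd_iff] at h3
  refine h3.sigma fun v => ?_
  have : Finite (ovr F v) := (hD1 v).to_subtype
  have : Fintype (ovr F v) := Fintype.ofFinite _
  by_cases hv : v ∈ S
  · rw [if_pos hv]
    have h4 : (fun x : ovr F v => ((fun w => (e w)⁻¹ * if w ∈ T then e w else 1) ∘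
        (Prd_eqv hD2)) ⟨v, x⟩) = fun _ => (1 : ℂ) := by
      funext x
      show (e x.1)⁻¹ * (if x.1 ∈ T then e x.1 else 1) = 1
      rw [if_pos ((hT x.1).2 ⟨v, hv, x.2⟩), inv_mul_cancel₀ (he _)]
    rw [h4]
    exact hasProd_one
  · rw [if_neg hv]
    have h4 : (fun x : ovr F v => ((fun w => (e w)⁻¹ * if w ∈ T then e w else 1) ∘
        (Prd_eqv hD2)) ⟨v, x⟩) = fun x => (e x.1)⁻¹ := by
      funext x
      show (e x.1)⁻¹ * (if x.1 ∈ T then e x.1 else 1) = (e x.1)⁻¹
      rw [if_neg, mul_one]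
      intro hx
      obtain ⟨v', hv', hx'⟩ := (hT x.1).1 hx
      rw [← Prd_inj x.2 hx'] at hv'
      exact hv hv'
    rw [h4, finprod_eq_prod_of_fintype, ← Finset.prod_inv_distrib]
    exact hasProd_fintype _

private theorem Prd_pow {ι : Type} [Fintype ι] (x : ι → ℂ) (hx : ∀ i, x i ≠ 0) (n : ι → ℤ)
    (h : ∏ i, x i ^ n i = 1) :
    ∏ i, (x i)⁻¹ ^ (n i).toNat = ∏ i, (x i)⁻¹ ^ (-n i).toNat := by
  have h1 : ∀ i, x i ^ (n i).toNat = x i ^ n i * x i ^ (-n i).toNat := by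
    intro i
    rw [← zpow_natCast, ← zpow_natCast, ← zpow_add₀ (hx i)]
    congr 1
    have := Int.toNat_sub_toNat_neg (n i)
    omega
  have h2 : ∏ i, x i ^ (n i).toNat = ∏ i, x i ^ (-n i).toNat := by
    rw [Finset.prod_congr rfl fun i _ => h1 i, Finset.prod_mul_distrib, h, one_mul]
  have h3 : ∀ m : ι → ℕ, ∏ i, (x i)⁻¹ ^ m i = (∏ i, x i ^ m i)⁻¹ := by
    intro m
    rw [← Finset.prod_inv_distrib]
    exact Finset.prod_congr rfl fun i _ => by rw [inv_pow]
  rw [h3, h3, h2]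

theorem thm_Prd (h1 : St_EF) (h2 : St_LS) (h3 : St_Deg) : St_Prd := by
  classical
  intro k _ _ E ι _ F _ _ _ d n hE hd hrel A hA
  obtain ⟨S, hSf, hS⟩ := h1 k E ι F d n hE hd hrel A hA
  have hD1 : ∀ i (v : HeightOneSpectrum (𝓞 k)), (ovr (F i) v).Finite := fun i v =>
    ((h3 k (F i)).1 v).1
  have hD2 : ∀ i (w : HeightOneSpectrum (𝓞 (F i))), ∃ v : HeightOneSpectrum (𝓞 k),
      w ∈ ovr (F i) v := fun i w => (h3 k (F i)).2 w
  have hTf : ∀ i, (⋃ v ∈ S, ovr (F i) v).Finite := fun i => hSf.biUnion fun v _ => hD1 i v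
  refine ⟨fun i => (hTf i).toFinset, fun s hs => ?_⟩
  have hfib : ∀ i, HasProd (fun v : HeightOneSpectrum (𝓞 k) =>
      if v ∈ S then (1 : ℂ) else (∏ᶠ w : ovr (F i) v, evp (A i) w.1 s)⁻¹)
      ((A i).LSeries s * ∏ w ∈ (hTf i).toFinset, evp (A i) w s) := by
    intro i
    refine Prd_fib (hD1 i) (hD2 i) S (hTf i).toFinset ?_ (fun w => evp (A i) w s)
      (((h2 (F i) (A i)).1 s hs).2) _ (((h2 (F i) (A i)).1 s hs).1)
    intro w
    simp only [Set.Finite.mem_toFinset, Set.mem_iUnion, exists_prop]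
  have hL := hasProd_prod (s := Finset.univ) fun i _ => (hfib i).pow (n i).toNat
  have hR := hasProd_prod (s := Finset.univ) fun i _ => (hfib i).pow (-n i).toNat
  refine hL.unique ?_
  have heq : (fun v : HeightOneSpectrum (𝓞 k) => ∏ i,
      (if v ∈ S then (1 : ℂ) else (∏ᶠ w : ovr (F i) v, evp (A i) w.1 s)⁻¹) ^ (n i).toNat) =
      fun v : HeightOneSpectrum (𝓞 k) => ∏ i,
      (if v ∈ S then (1 : ℂ) else (∏ᶠ w : ovr (F i) v, evp (A i) w.1 s)⁻¹) ^
        (-n i).toNat := by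
    funext v
    by_cases hv : v ∈ S
    · simp only [if_pos hv, one_pow]
    · simp only [if_neg hv]
      refine Prd_pow (fun i => ∏ᶠ w : ovr (F i) v, evp (A i) w.1 s) ?_ n (hS v hv s hs)
      intro i
      have : Finite (ovr (F i) v) := (hD1 i v).to_subtype
      have : Fintype (ovr (F i) v) := Fintype.ofFinite _
      show (∏ᶠ w : ovr (F i) v, evp (A i) w.1 s) ≠ 0
      rw [finprod_eq_prod_of_fintype]
      exact Finset.prod_ne_zero_iff.2 fun w _ => ((h2 (F i) (A i)).1 s hs).2 w.1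
  rw [heq]
  exact hR

end ART
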