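import Pool.Agent.ART.StB

/-!
# The number of the points of an elliptic curve over a finite field
-/

set_option autoImplicit false

namespace ART

/-- The linear change of coordinates. -/
private noncomputable def Pts_lin {κ : Type} [Field κ] (a b c : κ) (h2 : (2 : κ) ≠ 0)
    (h3 : (3 : κ) ≠ 0) : κ × κ ≃ κ × κ where
  toFun z := (36 * z.1 + 3 * b, 108 * (2 * z.2 + a * z.1 + c))
  invFun z := ((z.1 - 3 * b) / 36, (z.2 / 108 - a * ((z.1 - 3 * b) / 36) - c) / 2)
  left_inv z := by
    have h36 : (36 : κ) ≠ 0 := by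
      rw [show (36 : κ) = 2 ^ 2 * 3 ^ 2 by norm_num]
      exact mul_ne_zero (pow_ne_zero _ h2) (pow_ne_zero _ h3)
    have h108 : (108 : κ) ≠ 0 := by
      rw [show (108 : κ) = 2 ^ 2 * 3 ^ 3 by norm_num]
      exact mul_ne_zero (pow_ne_zero _ h2) (pow_ne_zero _ h3)
    ext
    · simp only [add_sub_cancel_right]
      field_simp
    · simp only [add_sub_cancel_right]
      rw [mul_div_cancel_left₀ _ h36, mul_div_cancel_left₀ _ h108]
      field_simp
      ring
  right_inv z := by
    have h36 : (36 : κ) ≠ 0 := by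
      rw [show (36 : κ) = 2 ^ 2 * 3 ^ 2 by norm_num]
      exact mul_ne_zero (pow_ne_zero _ h2) (pow_ne_zero _ h3)
    have h108 : (108 : κ) ≠ 0 := by
      rw [show (108 : κ) = 2 ^ 2 * 3 ^ 3 by norm_num]
      exact mul_ne_zero (pow_ne_zero _ h2) (pow_ne_zero _ h3)
    ext
    · simp only
      rw [mul_div_cancel₀ _ h36]
      ring
    · simp only
      rw [mul_div_cancel₀ _ h2]
      field_simp
      ring

theorem thm_Pts : St_Pts := by
  intro κ _ _ h2 h3 W hΔ
  have e1 := WeierstrassCurve.Affine.nonsingularPointEquiv W.toAffine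
  have h216 : (4 * 108 ^ 2 : κ) ≠ 0 := by
    rw [show (4 * 108 ^ 2 : κ) = 2 ^ 6 * 3 ^ 6 by norm_num]
    exact mul_ne_zero (pow_ne_zero _ h2) (pow_ne_zero _ h3)
  have e2 : {xy : κ × κ // W.toAffine.Nonsingular xy.1 xy.2} ≃
      {z : κ × κ // z.2 ^ 2 = z.1 ^ 3 - 27 * W.c₄ * z.1 - 54 * W.c₆} := by
    refine (Pts_lin W.a₁ W.b₂ W.a₃ h2 h3).subtypeEquiv fun z => ?_
    rw [← WeierstrassCurve.Affine.equation_iff_nonsingular_of_Δ_ne_zero hΔ,
      WeierstrassCurve.Affine.equation_iff]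
    simp only [Pts_lin, Equiv.coe_fn_mk, WeierstrassCurve.c₄, WeierstrassCurve.c₆,
      WeierstrassCurve.b₂, WeierstrassCurve.b₄, WeierstrassCurve.b₆]
    constructor
    · intro h
      linear_combination (4 * 108 ^ 2 : κ) * h
    · intro h
      refine mul_left_cancel₀ h216 ?_
      linear_combination h
  have e3 : W.toAffine.Point ≃
      Option {z : κ × κ // z.2 ^ 2 = z.1 ^ 3 - 27 * W.c₄ * z.1 - 54 * W.c₆} :=
    e1.trans e2.optionCongr
  rw [Nat.card_congr e3, Finite.card_option]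
  unfold ap
  push_cast
  ring

end ART
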