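import Pool.Agent.ART.StB

/-!
# ART, module Quad: the quadratic identity for the number of points
-/

set_option autoImplicit false

namespace ART

open scoped ComplexConjugate
open NumberField IsDedekindDomain Polynomial

private theorem Quad_chi (κ : Type) [Field κ] [Fintype κ] [DecidableEq κ] (x : κ) :
    chi x = quadraticChar κ x := by
  rw [quadraticChar_apply, quadraticCharFun, chi]
  by_cases h0 : x = 0
  · simp [h0]
  · by_cases hs : IsSquare x
    · simp [h0, hs]
    · simp [h0, hs]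

private theorem Quad_char (κ : Type) [Field κ] (h : (2 : κ) ≠ 0) : ringChar κ ≠ 2 := by
  intro hc
  apply h
  have := ringChar.Nat.cast_ringChar (R := κ)
  rw [hc] at this
  exact_mod_cast this

private theorem Quad_mul (κ : Type) [Field κ] [Fintype κ] (x y : κ) :
    chi (x * y) = chi x * chi y := by
  classical
  rw [Quad_chi, Quad_chi, Quad_chi, map_mul]

private theorem Quad_norm (κ κ' : Type) [Field κ] [Fintype κ] [Field κ'] [Fintype κ'] [Algebra κ κ']
    (h2 : (2 : κ) ≠ 0) (hc : Fintype.card κ' = Fintype.card κ ^ 2) (y : κ) (z : κ')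
    (h : algebraMap κ κ' y = z * z ^ Fintype.card κ) : chi y = chi z := by
  classical
  have hinj : Function.Injective (algebraMap κ κ') := (algebraMap κ κ').injective
  have h2' : (2 : κ') ≠ 0 := by
    intro h0
    apply h2
    apply hinj
    rw [map_ofNat, map_zero]
    exact h0
  by_cases hz : z = 0
  · have hy : y = 0 := by
      apply hinj
      rw [h, hz, zero_mul, map_zero]
    simp [chi, hz, hy]
  · have hy : y ≠ 0 := by
      intro h0
      rw [h0, map_zero] at h
      exact (mul_ne_zero hz (pow_ne_zero _ hz)) h.symm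
    have e1 := quadraticChar_eq_pow_of_char_ne_two' (Quad_char κ h2) y
    have e2 := quadraticChar_eq_pow_of_char_ne_two' (Quad_char κ' h2') z
    have hodd : Fintype.card κ % 2 = 1 :=
      FiniteField.odd_card_of_char_ne_two (Quad_char κ h2)
    have e3 : ((quadraticChar κ y : ℤ) : κ') = ((quadraticChar κ' z : ℤ) : κ') := by
      have e4 := congrArg (algebraMap κ κ') e1
      rw [map_intCast, map_pow, h] at e4
      rw [e4, e2, hc]
      obtain ⟨m, hm⟩ : ∃ m, Fintype.card κ = 2 * m + 1 := ⟨Fintype.card κ / 2, by omega⟩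
      rw [hm]
      have a1 : (2 * m + 1) / 2 = m := by omega
      have a2 : (2 * m + 1) ^ 2 / 2 = (2 * m + 2) * m := by
        have : (2 * m + 1) ^ 2 = 2 * ((2 * m + 2) * m) + 1 := by ring
        omega
      rw [a1, a2, ← pow_succ', ← pow_mul]
    rw [Quad_chi, Quad_chi]
    have h11 : (1 : κ') ≠ -1 := by
      intro h0
      apply h2'
      have : (1 : κ') + 1 = 0 := by
        nth_rewrite 1 [h0]
        ring
      rw [← one_add_one_eq_two]
      exact this
    rcases quadraticChar_dichotomy hy with hA | hA <;> rcases quadraticChar_dichotomy hz with hB | hB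
    · rw [hA, hB]
    · rw [hA, hB] at e3
      push_cast at e3
      exact absurd e3 h11
    · rw [hA, hB] at e3
      push_cast at e3
      exact absurd e3.symm h11
    · rw [hA, hB]

theorem thm_Quad (h1 : St_Tw) (h2 : St_SumN) (h3 : St_Two) : St_Quad := by
  intro κ κ' _ _ _ _ _ h20 h30 hc c₄ c₆ hne
  have hinj : Function.Injective (algebraMap κ κ') := (algebraMap κ κ').injective
  have h2' : (2 : κ') ≠ 0 := by
    intro h0
    apply h20
    apply hinj
    rw [map_ofNat, map_zero]
    exact h0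
  obtain ⟨T, N, hT, hN, hG⟩ := h3 κ κ' h20 hc
  have hsum := h2 κ h20 (-27 * c₄) (-54 * c₆) (by
    have e : 4 * (-27 * c₄) ^ 3 + 27 * (-54 * c₆) ^ 2 = -(2 ^ 2 * 3 ^ 9 * (c₄ ^ 3 - c₆ ^ 2)) := by
      ring
    rw [e]
    exact neg_ne_zero.mpr (mul_ne_zero (mul_ne_zero (pow_ne_zero _ h20) (pow_ne_zero _ h30))
      (sub_ne_zero.mpr hne)))
  have hG' := hG fun s p => chi ((s ^ 2 - p + -27 * c₄) ^ 2 * p +
    (s ^ 2 - p + -27 * c₄) * (-54 * c₆ - s * p) * s + (-54 * c₆ - s * p) ^ 2)
  rw [hsum] at hG'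
  have e1 : ∀ α β : κ, chi (((α + β) ^ 2 - (α * β) + -27 * c₄) ^ 2 * (α * β) +
      ((α + β) ^ 2 - (α * β) + -27 * c₄) * (-54 * c₆ - (α + β) * (α * β)) * (α + β) +
      (-54 * c₆ - (α + β) * (α * β)) ^ 2) =
      chi (α ^ 3 - 27 * c₄ * α - 54 * c₆) * chi (β ^ 3 - 27 * c₄ * β - 54 * c₆) := by
    intro α β
    rw [← Quad_mul]
    congr 1
    ring
  have e2 : ∀ α : κ', chi ((T α ^ 2 - N α + -27 * c₄) ^ 2 * N α +
      (T α ^ 2 - N α + -27 * c₄) * (-54 * c₆ - T α * N α) * T α +
      (-54 * c₆ - T α * N α) ^ 2) =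
      chi (α ^ 3 - 27 * (algebraMap κ κ' c₄) * α - 54 * (algebraMap κ κ' c₆)) := by
    intro α
    apply Quad_norm κ κ' h20 hc
    have hfr : ∀ x : κ', x ^ Fintype.card κ = FiniteField.frobeniusAlgHom κ κ' x := by
      intro x
      simp
    rw [hfr]
    simp only [map_sub, map_mul, map_pow, map_ofNat, AlgHom.commutes, map_add, map_neg, hT, hN]
    rw [hfr α]
    ring
  simp only [e1, e2] at hG'
  have e3 : ∑ α : κ, ∑ β : κ, chi (α ^ 3 - 27 * c₄ * α - 54 * c₆) *
      chi (β ^ 3 - 27 * c₄ * β - 54 * c₆) = (∑ α : κ, chi (α ^ 3 - 27 * c₄ * α - 54 * c₆)) ^ 2 := by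
    rw [sq, Finset.sum_mul_sum]
  rw [e3] at hG'
  have t1 := (h1 κ h20 c₄ c₆).1
  have t2 := (h1 κ' h2' (algebraMap κ κ' c₄) (algebraMap κ κ' c₆)).1
  rw [t1, t2]
  linarith [hG']

end ART
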