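import Pool.Agent.ART.StG

/-!
# ART, module Quart: a quartic field and the cubic resolvent
-/

set_option autoImplicit false

namespace ART

open NumberField Polynomial

private lemma Quart_inj {k F M : Type} [Field k] [NumberField k] [Field F] [NumberField F]
    [Algebra k F] [Field M] [Algebra k M] (θ : F) (P : k[X]) (hm : P.Monic) (hP : Irreducible P)
    (h : aeval θ P = 0) (hd : P.natDegree = Module.finrank k F) :
    Function.Injective (fun φ : F →ₐ[k] M => φ θ) := by
  have e : P = minpoly k θ := minpoly.eq_of_irreducible_of_monic hP h hm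
  have htop : IntermediateField.adjoin k {θ} = ⊤ :=
    (Field.primitive_element_iff_minpoly_natDegree_eq k θ).2 (by rw [← e]; exact hd)
  have hint : IsIntegral k θ := ⟨P, hm, by simpa [aeval_def] using h⟩
  have h2 : Algebra.adjoin k {θ} = ⊤ := by
    rw [← IntermediateField.adjoin_simple_toSubalgebra_of_isAlgebraic hint.isAlgebraic, htop]
    rfl
  intro φ ψ he
  refine AlgHom.ext_of_adjoin_eq_top h2 ?_
  intro y hy
  rw [Set.mem_singleton_iff] at hy
  rw [hy]
  exact he

/-- the index of a pair -/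
private def Quart_id (a b : Fin 4) : Fin 3 :=
  if (a = 0 ∧ b = 1) ∨ (a = 1 ∧ b = 0) ∨ (a = 2 ∧ b = 3) ∨ (a = 3 ∧ b = 2) then 0
  else if (a = 0 ∧ b = 2) ∨ (a = 2 ∧ b = 0) ∨ (a = 1 ∧ b = 3) ∨ (a = 3 ∧ b = 1) then 1
  else 2

/-- the sign of a pair -/
private def Quart_sg (a b : Fin 4) : ℤ := if a = 0 ∨ b = 0 then 1 else -1

private lemma Quart_comb : ∀ σ : Equiv.Perm (Fin 4),
    ((Finset.univ.filter (fun i => σ i = i)).card : ℤ) = 1 +
      ((Finset.univ.filter (fun j : Fin 3 => Quart_id (σ 0) (σ j.succ) = j ∧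
        Quart_sg (σ 0) (σ j.succ) = 1)).card -
      (Finset.univ.filter (fun j : Fin 3 => Quart_id (σ 0) (σ j.succ) = j ∧
        Quart_sg (σ 0) (σ j.succ) = -1)).card) := by
  decide

private lemma Quart_card {k F M ι : Type} [Field k] [Field F] [Algebra k F] [Field M] [CharZero M]
    [Algebra k M] [Fintype ι] (d : F) (g : M ≃ₐ[k] M) (e : ι ≃ (F →ₐ[k] M)) (s : ι → M)
    (hs0 : ∀ j, s j ≠ 0) (hs : ∀ j, (s j) ^ 2 = (e j) d) (c : M) :
    Nat.card {x : Pr k F M d // (g : M →ₐ[k] M).comp x.1.1 = x.1.1 ∧ g x.1.2 = c * x.1.2} =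
      2 * Nat.card {j : ι // (g : M →ₐ[k] M).comp (e j) = e j ∧ g (s j) = c * s j} := by
  let f : Bool × {j : ι // (g : M →ₐ[k] M).comp (e j) = e j ∧ g (s j) = c * s j} →
      {x : Pr k F M d // (g : M →ₐ[k] M).comp x.1.1 = x.1.1 ∧ g x.1.2 = c * x.1.2} :=
    fun y => ⟨⟨(e y.2.1, if y.1 then s y.2.1 else - s y.2.1), by
      have := hs y.2.1
      by_cases h : y.1 = true <;> simp [h, this]⟩, y.2.2.1, by
      have := y.2.2.2
      by_cases h : y.1 = true <;> simp [h, this]⟩
  have hf : Function.Bijective f := by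
    constructor
    · rintro ⟨b, j, hj⟩ ⟨b', j', hj'⟩ h
      have h1 : e j = e j' := congrArg (fun x => x.1.1.1) h
      have h2 : (if b then s j else - s j) = (if b' then s j' else - s j') :=
        congrArg (fun x => x.1.1.2) h
      have h3 : j = j' := e.injective h1
      subst h3
      have h4 : b = b' := by
        have hn : s j ≠ - s j := by
          intro hc
          have : (2 : M) * s j = 0 := by linear_combination hc
          rcases mul_eq_zero.1 this with h5 | h5
          · exact two_ne_zero h5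
          · exact hs0 j h5
        cases b <;> cases b' <;> simp at h2 ⊢
        · exact hn h2.symm
        · exact hn h2
      subst h4
      rfl
    · rintro ⟨⟨⟨φ, z⟩, hz⟩, hx1, hx2⟩
      have hz' : z ^ 2 = φ d := hz
      have hx1' : (g : M →ₐ[k] M).comp φ = φ := hx1
      have hx2' : g z = c * z := hx2
      have e1 : e (e.symm φ) = φ := e.apply_symm_apply φ
      have h5 : z = s (e.symm φ) ∨ z = - s (e.symm φ) := by
        apply sq_eq_sq_iff_eq_or_eq_neg.1
        rw [hz', hs, e1]
      have hg1 : (g : M →ₐ[k] M).comp (e (e.symm φ)) = e (e.symm φ) := by rw [e1]; exact hx1'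
      rcases h5 with h5 | h5
      · refine ⟨(true, ⟨e.symm φ, hg1, by rw [← h5]; exact hx2'⟩), ?_⟩
        apply Subtype.ext
        apply Subtype.ext
        simp [f, h5]
      · have h6 : s (e.symm φ) = - z := by rw [h5, neg_neg]
        refine ⟨(false, ⟨e.symm φ, hg1, by rw [h6, map_neg, hx2']; ring⟩), ?_⟩
        apply Subtype.ext
        apply Subtype.ext
        simp [f, h5]
  rw [← Nat.card_congr (Equiv.ofBijective f hf), Nat.card_prod, Nat.card_eq_fintype_card]
  simp

private lemma Quart_sgn {k F M ι : Type} [Field k] [Field F] [Algebra k F] [Field M] [CharZero M]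
    [Algebra k M] [Fintype ι] (d : F) (g : M ≃ₐ[k] M) (e : ι ≃ (F →ₐ[k] M)) (s : ι → M)
    (hs0 : ∀ j, s j ≠ 0) (hs : ∀ j, (s j) ^ 2 = (e j) d) :
    sgn d g = 2 * ((Nat.card {j : ι // (g : M →ₐ[k] M).comp (e j) = e j ∧ g (s j) = s j} : ℤ) -
      Nat.card {j : ι // (g : M →ₐ[k] M).comp (e j) = e j ∧ g (s j) = - s j}) := by
  have h1 := Quart_card d g e s hs0 hs 1
  have h2 := Quart_card d g e s hs0 hs (-1)
  simp only [one_mul, neg_one_mul] at h1 h2
  unfold sgn
  rw [h1, h2]
  push_cast
  ring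

private lemma Quart_prod {M : Type} [Field M] (p q r : M) (x : Fin 4 → M)
    (hx : Function.Injective x) (h : ∀ i, (x i) ^ 4 + p * (x i) ^ 2 + q * x i + r = 0) (y : M) :
    y ^ 4 + p * y ^ 2 + q * y + r = (y - x 0) * (y - x 1) * (y - x 2) * (y - x 3) := by
  have hPm : (X ^ 4 + (C p * X ^ 2 + C q * X + C r) : M[X]).Monic := by
    apply monic_X_pow_add
    compute_degree!
  have hPd : (X ^ 4 + (C p * X ^ 2 + C q * X + C r) : M[X]).degree = 4 := by
    compute_degree!
  have hQm : (∏ i, (X - C (x i)) : M[X]).Monic := monic_prod_X_sub_C x Finset.univ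
  have hQd : (∏ i, (X - C (x i)) : M[X]).degree = 4 := by
    rw [degree_prod]
    simp
  have key : (X ^ 4 + (C p * X ^ 2 + C q * X + C r) : M[X]) = ∏ i, (X - C (x i)) := by
    apply Polynomial.eq_of_degree_sub_lt_of_eval_index_eq (v := x) (Finset.univ : Finset (Fin 4))
      hx.injOn
    · have := Polynomial.degree_sub_lt_left (hPd.trans hQd.symm) hPm.ne_zero
        (by rw [hPm.leadingCoeff, hQm.leadingCoeff])
      rw [hPd] at this
      simpa using this
    · intro i _
      rw [eval_prod, Finset.prod_eq_zero (Finset.mem_univ i) (by simp)]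
      have := h i
      simp only [eval_add, eval_mul, eval_pow, eval_X, eval_C]
      linear_combination this
  have := congrArg (fun P => eval y P) key
  simp only [eval_add, eval_mul, eval_pow, eval_X, eval_C, eval_sub,
    Fin.prod_univ_four] at this
  linear_combination this

private lemma Quart_pair {M : Type} [Field M] (x : Fin 4 → M) (E1 : x 0 + x 1 + x 2 + x 3 = 0) :
    ∀ a b : Fin 4, a ≠ b → x a + x b = ((Quart_sg a b : ℤ) : M) * (x 0 + x (Quart_id a b).succ) := by
  intro a b hab
  match a, b, hab with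
  | 0, 0, hab => exact absurd rfl hab
  | 0, 1, _ =>
    rw [show Quart_sg 0 1 = 1 by decide, show Quart_id 0 1 = 0 by decide]
    show x 0 + x 1 = ((1 : ℤ) : M) * (x 0 + x 1)
    push_cast
    ring
  | 0, 2, _ =>
    rw [show Quart_sg 0 2 = 1 by decide, show Quart_id 0 2 = 1 by decide]
    show x 0 + x 2 = ((1 : ℤ) : M) * (x 0 + x 2)
    push_cast
    ring
  | 0, 3, _ =>
    rw [show Quart_sg 0 3 = 1 by decide, show Quart_id 0 3 = 2 by decide]
    show x 0 + x 3 = ((1 : ℤ) : M) * (x 0 + x 3)
    push_cast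
    ring
  | 1, 0, _ =>
    rw [show Quart_sg 1 0 = 1 by decide, show Quart_id 1 0 = 0 by decide]
    show x 1 + x 0 = ((1 : ℤ) : M) * (x 0 + x 1)
    push_cast
    ring
  | 1, 1, hab => exact absurd rfl hab
  | 1, 2, _ =>
    rw [show Quart_sg 1 2 = -1 by decide, show Quart_id 1 2 = 2 by decide]
    show x 1 + x 2 = ((-1 : ℤ) : M) * (x 0 + x 3)
    push_cast
    linear_combination E1
  | 1, 3, _ =>
    rw [show Quart_sg 1 3 = -1 by decide, show Quart_id 1 3 = 1 by decide]
    show x 1 + x 3 = ((-1 : ℤ) : M) * (x 0 + x 2)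
    push_cast
    linear_combination E1
  | 2, 0, _ =>
    rw [show Quart_sg 2 0 = 1 by decide, show Quart_id 2 0 = 1 by decide]
    show x 2 + x 0 = ((1 : ℤ) : M) * (x 0 + x 2)
    push_cast
    ring
  | 2, 1, _ =>
    rw [show Quart_sg 2 1 = -1 by decide, show Quart_id 2 1 = 2 by decide]
    show x 2 + x 1 = ((-1 : ℤ) : M) * (x 0 + x 3)
    push_cast
    linear_combination E1
  | 2, 2, hab => exact absurd rfl hab
  | 2, 3, _ =>
    rw [show Quart_sg 2 3 = -1 by decide, show Quart_id 2 3 = 0 by decide]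
    show x 2 + x 3 = ((-1 : ℤ) : M) * (x 0 + x 1)
    push_cast
    linear_combination E1
  | 3, 0, _ =>
    rw [show Quart_sg 3 0 = 1 by decide, show Quart_id 3 0 = 2 by decide]
    show x 3 + x 0 = ((1 : ℤ) : M) * (x 0 + x 3)
    push_cast
    ring
  | 3, 1, _ =>
    rw [show Quart_sg 3 1 = -1 by decide, show Quart_id 3 1 = 1 by decide]
    show x 3 + x 1 = ((-1 : ℤ) : M) * (x 0 + x 2)
    push_cast
    linear_combination E1
  | 3, 2, _ =>
    rw [show Quart_sg 3 2 = -1 by decide, show Quart_id 3 2 = 0 by decide]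
    show x 3 + x 2 = ((-1 : ℤ) : M) * (x 0 + x 1)
    push_cast
    linear_combination E1
  | 3, 3, hab => exact absurd rfl hab

theorem thm_Quart : St_Quart := by
  classical
  intro k F₄ F₃ _ _ _ _ _ _ _ _ p q r θ t h4 h3 hf hg hθ ht g
  have hfm : (X ^ 4 + C p * X ^ 2 + C q * X + C r : k[X]).Monic := by monicity!
  have hfd : (X ^ 4 + C p * X ^ 2 + C q * X + C r : k[X]).natDegree = 4 := by compute_degree!
  have hgm : (X ^ 3 + C (2 * p) * X ^ 2 + C (p ^ 2 - 4 * r) * X - C (q ^ 2) : k[X]).Monic := by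
    monicity!
  have hgd : (X ^ 3 + C (2 * p) * X ^ 2 + C (p ^ 2 - 4 * r) * X - C (q ^ 2) : k[X]).natDegree = 3 := by
    compute_degree!
  have : FiniteDimensional k F₄ := FiniteDimensional.of_finrank_pos (by omega)
  have : FiniteDimensional k F₃ := FiniteDimensional.of_finrank_pos (by omega)
  have inj4 : Function.Injective (fun φ : F₄ →ₐ[k] AlgebraicClosure k => φ θ) :=
    Quart_inj θ _ hfm hf hθ (by rw [hfd, h4])
  have inj3 : Function.Injective (fun φ : F₃ →ₐ[k] AlgebraicClosure k => φ t) :=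
    Quart_inj t _ hgm hg ht (by rw [hgd, h3])
  have c4 : Fintype.card (F₄ →ₐ[k] AlgebraicClosure k) = 4 := by rw [AlgHom.card, h4]
  have c3 : Fintype.card (F₃ →ₐ[k] AlgebraicClosure k) = 3 := by rw [AlgHom.card, h3]
  let e : Fin 4 ≃ (F₄ →ₐ[k] AlgebraicClosure k) := (Fintype.equivFinOfCardEq c4).symm
  let x : Fin 4 → AlgebraicClosure k := fun i => e i θ
  have hx : Function.Injective x := fun i j h => e.injective (inj4 h)
  let G : (F₄ →ₐ[k] AlgebraicClosure k) ≃ (F₄ →ₐ[k] AlgebraicClosure k) :=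
    { toFun := fun φ => (g : AlgebraicClosure k →ₐ[k] AlgebraicClosure k).comp φ
      invFun := fun φ => (g.symm : AlgebraicClosure k →ₐ[k] AlgebraicClosure k).comp φ
      left_inv := fun φ => by ext y; simp
      right_inv := fun φ => by ext y; simp }
  let σ : Equiv.Perm (Fin 4) := (e.trans G).trans e.symm
  have hσ : ∀ i, e (σ i) = (g : AlgebraicClosure k →ₐ[k] AlgebraicClosure k).comp (e i) := by
    intro i
    simp [σ, G]
  have hgx : ∀ i, g (x i) = x (σ i) := by
    intro i
    show _ = e (σ i) θ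
    rw [hσ]
    rfl
  set p' : AlgebraicClosure k := algebraMap k _ p with hp'
  set q' : AlgebraicClosure k := algebraMap k _ q with hq'
  set r' : AlgebraicClosure k := algebraMap k _ r with hr'
  have hroot : ∀ i, (x i) ^ 4 + p' * (x i) ^ 2 + q' * x i + r' = 0 := by
    intro i
    have := congrArg (e i) hθ
    simpa [aeval_def, eval₂_add, x, hp', hq', hr'] using this
  have hpr := Quart_prod p' q' r' x hx hroot
  have H0 := hpr 0
  have H1 := hpr 1
  have H2 := hpr (-1)
  have H3 := hpr 2
  have E1 : x 0 + x 1 + x 2 + x 3 = 0 := by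
    linear_combination (1/2) * H0 - (1/2) * H1 - (1/6) * H2 + (1/6) * H3
  have Er : r' = x 0 * x 1 * x 2 * x 3 := by linear_combination H0
  have Ep : p' = x 0 * x 1 + x 0 * x 2 + x 0 * x 3 + x 1 * x 2 + x 1 * x 3 + x 2 * x 3 := by
    linear_combination (1/2) * H1 + (1/2) * H2 - H0
  have Eq' : q' = -(x 0 * x 1 * x 2 + x 0 * x 1 * x 3 + x 0 * x 2 * x 3 + x 1 * x 2 * x 3) := by
    linear_combination (1/2) * H1 - (1/2) * H2 - E1
  have hx3 : x 3 = - x 0 - x 1 - x 2 := by linear_combination E1
  let s : Fin 3 → AlgebraicClosure k := fun j => x 0 + x j.succ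
  have s0 : s 0 = x 0 + x 1 := rfl
  have s1 : s 1 = x 0 + x 2 := rfl
  have s2 : s 2 = x 0 + x 3 := rfl
  have hid : ∀ y : AlgebraicClosure k, y ^ 3 + 2 * p' * y ^ 2 + (p' ^ 2 - 4 * r') * y - q' ^ 2 =
      (y - (s 0) ^ 2) * (y - (s 1) ^ 2) * (y - (s 2) ^ 2) := by
    intro y
    rw [Er, Ep, Eq', s0, s1, s2, hx3]
    ring
  have hψ : ∀ ψ : F₃ →ₐ[k] AlgebraicClosure k, ∃ j, (s j) ^ 2 = ψ t := by
    intro ψ
    have h5 := congrArg ψ ht
    have h6 : (ψ t) ^ 3 + 2 * p' * (ψ t) ^ 2 + (p' ^ 2 - 4 * r') * (ψ t) - q' ^ 2 = 0 := by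
      have a2 : algebraMap k (AlgebraicClosure k) 2 = 2 := map_ofNat _ 2
      have a4 : algebraMap k (AlgebraicClosure k) 4 = 4 := map_ofNat _ 4
      simpa [aeval_def, eval₂_add, eval₂_sub, hp', hq', hr', a2, a4] using h5
    rw [hid] at h6
    rcases mul_eq_zero.1 h6 with h7 | h7
    · rcases mul_eq_zero.1 h7 with h8 | h8
      · exact ⟨0, by linear_combination - h8⟩
      · exact ⟨1, by linear_combination - h8⟩
    · exact ⟨2, by linear_combination - h7⟩
  choose τ hτ using hψ
  have hτi : Function.Injective τ := by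
    intro ψ ψ' h
    apply inj3
    show ψ t = ψ' t
    rw [← hτ, ← hτ, h]
  have hτb : Function.Bijective τ := by
    rw [Fintype.bijective_iff_injective_and_card]
    exact ⟨hτi, by rw [c3]; rfl⟩
  let e3 : Fin 3 ≃ (F₃ →ₐ[k] AlgebraicClosure k) := (Equiv.ofBijective τ hτb).symm
  have hs : ∀ j, (s j) ^ 2 = e3 j t := by
    intro j
    rw [← hτ]
    congr 2
    exact ((Equiv.ofBijective τ hτb).apply_symm_apply j).symm
  have hs0 : ∀ j, s j ≠ 0 := by
    intro j h0
    have h5 : e3 j t = 0 := by rw [← hs, h0]; ring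
    have h6 : t = 0 := (map_eq_zero (e3 j)).1 h5
    have h7 := minpoly.eq_of_irreducible_of_monic hg ht hgm
    rw [h6, minpoly.zero] at h7
    have h8 := congrArg natDegree h7
    rw [hgd, natDegree_X] at h8
    omega
  have hsi : ∀ i j, (s i) ^ 2 = (s j) ^ 2 → i = j := by
    intro i j h
    apply e3.injective
    apply inj3
    show e3 i t = e3 j t
    rw [← hs, ← hs, h]
  have hsg : ∀ a b : Fin 4, a ≠ b →
      x a + x b = ((Quart_sg a b : ℤ) : AlgebraicClosure k) * s (Quart_id a b) := by
    exact Quart_pair x E1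
  have hgs : ∀ j, g (s j) = ((Quart_sg (σ 0) (σ j.succ) : ℤ) : AlgebraicClosure k) *
      s (Quart_id (σ 0) (σ j.succ)) := by
    intro j
    have h5 : σ 0 ≠ σ j.succ := fun h => (Fin.succ_ne_zero j) (σ.injective h).symm
    rw [← hsg _ _ h5, ← hgx, ← hgx, ← map_add]
  have hsgn : ∀ a b, Quart_sg a b = 1 ∨ Quart_sg a b = -1 := by
    intro a b
    unfold Quart_sg
    split_ifs <;> simp
  have hcomp : ∀ j, (g (s j) = s j ∨ g (s j) = - s j) →
      (g : AlgebraicClosure k →ₐ[k] AlgebraicClosure k).comp (e3 j) = e3 j := by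
    intro j h
    apply inj3
    show g (e3 j t) = e3 j t
    rw [← hs, map_pow]
    rcases h with h | h <;> rw [h]
    ring
  have hP : ∀ j, (g (s j) = s j) ↔ (Quart_id (σ 0) (σ j.succ) = j ∧
      Quart_sg (σ 0) (σ j.succ) = 1) := by
    intro j
    rw [hgs j]
    constructor
    · intro h
      have h6 : Quart_id (σ 0) (σ j.succ) = j := by
        apply hsi
        rw [← h]
        rcases hsgn (σ 0) (σ j.succ) with h5 | h5 <;> rw [h5] <;> push_cast <;> ring
      refine ⟨h6, ?_⟩
      rcases hsgn (σ 0) (σ j.succ) with h5 | h5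
      · exact h5
      · exfalso
        rw [h5, h6] at h
        push_cast at h
        apply hs0 j
        linear_combination (-1/2) * h
    · rintro ⟨h1, h2⟩
      rw [h1, h2]
      push_cast
      ring
  have hN : ∀ j, (g (s j) = - s j) ↔ (Quart_id (σ 0) (σ j.succ) = j ∧
      Quart_sg (σ 0) (σ j.succ) = -1) := by
    intro j
    rw [hgs j]
    constructor
    · intro h
      have h6 : Quart_id (σ 0) (σ j.succ) = j := by
        apply hsi
        have h7 : (s j) ^ 2 = (- s j) ^ 2 := by ring
        rw [h7, ← h]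
        rcases hsgn (σ 0) (σ j.succ) with h5 | h5 <;> rw [h5] <;> push_cast <;> ring
      refine ⟨h6, ?_⟩
      rcases hsgn (σ 0) (σ j.succ) with h5 | h5
      · exfalso
        rw [h5, h6] at h
        push_cast at h
        apply hs0 j
        linear_combination (1/2) * h
      · exact h5
    · rintro ⟨h1, h2⟩
      rw [h1, h2]
      push_cast
      ring
  have hmain : sgn t g = 2 * (((Finset.univ.filter (fun j : Fin 3 =>
        Quart_id (σ 0) (σ j.succ) = j ∧ Quart_sg (σ 0) (σ j.succ) = 1)).card : ℤ) -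
      (Finset.univ.filter (fun j : Fin 3 => Quart_id (σ 0) (σ j.succ) = j ∧
        Quart_sg (σ 0) (σ j.succ) = -1)).card) := by
    have hA : ∀ (P Q : Fin 3 → Prop) [DecidablePred P] [DecidablePred Q], (∀ j, P j ↔ Q j) →
        (Finset.univ.filter P).card = (Finset.univ.filter Q).card := by
      intro P Q _ _ h
      congr 1
      ext j
      simp only [Finset.mem_filter, Finset.mem_univ, true_and]
      exact h j
    have A1 : Nat.card {j : Fin 3 // (g : AlgebraicClosure k →ₐ[k] AlgebraicClosure k).comp (e3 j) =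
        e3 j ∧ g (s j) = s j} = (Finset.univ.filter (fun j : Fin 3 =>
        Quart_id (σ 0) (σ j.succ) = j ∧ Quart_sg (σ 0) (σ j.succ) = 1)).card := by
      rw [Nat.card_eq_fintype_card, Fintype.card_subtype]
      exact hA _ _ (fun j => ⟨fun h => (hP j).1 h.2,
        fun h => ⟨hcomp j (Or.inl ((hP j).2 h)), (hP j).2 h⟩⟩)
    have A2 : Nat.card {j : Fin 3 // (g : AlgebraicClosure k →ₐ[k] AlgebraicClosure k).comp (e3 j) =
        e3 j ∧ g (s j) = - s j} = (Finset.univ.filter (fun j : Fin 3 =>
        Quart_id (σ 0) (σ j.succ) = j ∧ Quart_sg (σ 0) (σ j.succ) = -1)).card := by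
      rw [Nat.card_eq_fintype_card, Fintype.card_subtype]
      exact hA _ _ (fun j => ⟨fun h => (hN j).1 h.2,
        fun h => ⟨hcomp j (Or.inr ((hN j).2 h)), (hN j).2 h⟩⟩)
    rw [Quart_sgn t g e3 s hs0 hs, A1, A2]
  have hfour : sgn (1 : F₄) g = 2 * ((Finset.univ.filter (fun i => σ i = i)).card : ℤ) := by
    rw [Quart_sgn (1 : F₄) g e (fun _ => 1) (fun _ => one_ne_zero) (fun j => by simp),
      Nat.card_eq_fintype_card, Nat.card_eq_fintype_card, Fintype.card_subtype,
      Fintype.card_subtype]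
    have h5 : (Finset.univ.filter (fun j : Fin 4 =>
        (g : AlgebraicClosure k →ₐ[k] AlgebraicClosure k).comp (e j) = e j ∧
          g (1 : AlgebraicClosure k) = - 1)) = ∅ := by
      ext j
      simp only [Finset.mem_filter, Finset.mem_univ, true_and, Finset.notMem_empty, iff_false]
      rintro ⟨-, h⟩
      rw [map_one] at h
      have : (2 : AlgebraicClosure k) = 0 := by linear_combination h
      exact two_ne_zero this
    have h6 : (Finset.univ.filter (fun j : Fin 4 =>
        (g : AlgebraicClosure k →ₐ[k] AlgebraicClosure k).comp (e j) = e j ∧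
          g (1 : AlgebraicClosure k) = 1)) = Finset.univ.filter (fun i => σ i = i) := by
      ext j
      simp only [Finset.mem_filter, Finset.mem_univ, true_and, map_one, and_true]
      rw [← hσ j]
      exact e.injective.eq_iff
    rw [h5, h6]
    simp
  have hone : sgn (1 : k) g = 2 := by
    have hsub : ∀ φ ψ : k →ₐ[k] AlgebraicClosure k, φ = ψ := fun φ ψ => by
      ext
    let e1 : Unit ≃ (k →ₐ[k] AlgebraicClosure k) :=
      { toFun := fun _ => Algebra.ofId k _
        invFun := fun _ => ()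
        left_inv := fun _ => rfl
        right_inv := fun φ => hsub _ _ }
    rw [Quart_sgn (1 : k) g e1 (fun _ => 1) (fun _ => one_ne_zero) (fun j => by simp),
      Nat.card_eq_fintype_card, Nat.card_eq_fintype_card, Fintype.card_subtype,
      Fintype.card_subtype]
    have h5 : (Finset.univ.filter (fun j : Unit =>
        (g : AlgebraicClosure k →ₐ[k] AlgebraicClosure k).comp (e1 j) = e1 j ∧
          g (1 : AlgebraicClosure k) = - 1)) = ∅ := by
      ext j
      simp only [Finset.mem_filter, Finset.mem_univ, true_and, Finset.notMem_empty, iff_false]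
      rintro ⟨-, h⟩
      rw [map_one] at h
      have : (2 : AlgebraicClosure k) = 0 := by linear_combination h
      exact two_ne_zero this
    have h6 : (Finset.univ.filter (fun j : Unit =>
        (g : AlgebraicClosure k →ₐ[k] AlgebraicClosure k).comp (e1 j) = e1 j ∧
          g (1 : AlgebraicClosure k) = 1)) = Finset.univ := by
      ext j
      simp only [Finset.mem_filter, Finset.mem_univ, true_and, map_one, and_true, iff_true]
      exact hsub _ _
    rw [h5, h6]
    simp
  rw [hfour, hone, hmain, Quart_comb σ]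
  ring

end ART
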