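import Pool.Agent.ART.StE

/-!
# ART, module RelQ: the relation induced to the rational numbers
-/

set_option autoImplicit false

namespace ART

open scoped ComplexConjugate Classical
open NumberField IsDedekindDomain Polynomial

/-- restriction of embeddings -/
private noncomputable def RelQ_res (k : Type) [Field k] [NumberField k] {F : Type} [Field F] [NumberField F]
    [Algebra k F] (φ : F →ₐ[ℚ] AlgebraicClosure ℚ) : k →ₐ[ℚ] AlgebraicClosure ℚ :=
  RingHom.toRatAlgHom ((φ : F →+* AlgebraicClosure ℚ).comp (algebraMap k F))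

private theorem RelQ_res_apply (k : Type) [Field k] [NumberField k] {F : Type} [Field F] [NumberField F]
    [Algebra k F] (φ : F →ₐ[ℚ] AlgebraicClosure ℚ) (r : k) :
    RelQ_res k φ r = φ (algebraMap k F r) := rfl

/-- the pairs over one embedding of the base field -/
private theorem RelQ_card {k : Type} [Field k] [NumberField k] [Algebra k (AlgebraicClosure ℚ)]
    (s : AlgebraicClosure ℚ ≃ₐ[ℚ] AlgebraicClosure ℚ)
    (g : AlgebraicClosure ℚ ≃ₐ[k] AlgebraicClosure ℚ) (hg : ∀ x, g x = s x)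
    (σ : k →ₐ[ℚ] AlgebraicClosure ℚ) (hσ : ∀ r, algebraMap k (AlgebraicClosure ℚ) r = σ r)
    {F : Type} [Field F] [NumberField F] [Algebra k F] (d : F)
    (c : AlgebraicClosure ℚ → AlgebraicClosure ℚ) :
    Nat.card {x : Pr ℚ F (AlgebraicClosure ℚ) d //
      ((s : AlgebraicClosure ℚ →ₐ[ℚ] AlgebraicClosure ℚ).comp x.1.1 = x.1.1 ∧ s x.1.2 = c x.1.2) ∧
        RelQ_res k x.1.1 = σ} =
    Nat.card {x : Pr k F (AlgebraicClosure ℚ) d //
      (g : AlgebraicClosure ℚ →ₐ[k] AlgebraicClosure ℚ).comp x.1.1 = x.1.1 ∧ g x.1.2 = c x.1.2} := by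
  refine Nat.card_congr
    { toFun := fun x => ⟨⟨({ (x.1.1.1 : F →+* AlgebraicClosure ℚ) with
          commutes' := fun r => by
            have h := DFunLike.congr_fun x.2.2 r
            rw [RelQ_res_apply] at h
            exact h.trans (hσ r).symm }, x.1.1.2), x.1.2⟩, ?_, ?_⟩
      invFun := fun x => ⟨⟨(RingHom.toRatAlgHom (x.1.1.1 : F →+* AlgebraicClosure ℚ), x.1.1.2),
          x.1.2⟩, ⟨?_, ?_⟩, ?_⟩
      left_inv := ?_
      right_inv := ?_ }
  · ext y
    have h := DFunLike.congr_fun x.2.1.1 y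
    exact (hg _).trans h
  · exact (hg _).trans x.2.1.2
  · ext y
    have h := DFunLike.congr_fun x.2.1 y
    exact (hg _).symm.trans h
  · exact (hg _).symm.trans x.2.2
  · ext r
    rw [RelQ_res_apply]
    exact (x.1.1.1.commutes r).trans (hσ r)
  · intro x
    apply Subtype.ext
    apply Subtype.ext
    apply Prod.ext
    · ext y
      rfl
    · rfl
  · intro x
    apply Subtype.ext
    apply Subtype.ext
    apply Prod.ext
    · ext y
      rfl
    · rfl

private theorem RelQ_one (h : St_Any) {k : Type} [Field k] [NumberField k]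
    (s : AlgebraicClosure ℚ ≃ₐ[ℚ] AlgebraicClosure ℚ) (σ : k →ₐ[ℚ] AlgebraicClosure ℚ)
    (hσ : ∀ r, s (σ r) = σ r) :
    ∃ g' : AlgebraicClosure k ≃ₐ[k] AlgebraicClosure k,
      ∀ (F : Type) [Field F] [NumberField F] [Algebra k F] (d : F),
        (Nat.card {x : Pr ℚ F (AlgebraicClosure ℚ) d //
          ((s : AlgebraicClosure ℚ →ₐ[ℚ] AlgebraicClosure ℚ).comp x.1.1 = x.1.1 ∧
            s x.1.2 = x.1.2) ∧ RelQ_res k x.1.1 = σ} : ℤ) -
        Nat.card {x : Pr ℚ F (AlgebraicClosure ℚ) d //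
          ((s : AlgebraicClosure ℚ →ₐ[ℚ] AlgebraicClosure ℚ).comp x.1.1 = x.1.1 ∧
            s x.1.2 = - x.1.2) ∧ RelQ_res k x.1.1 = σ} = sgn d g' := by
  let _ : Algebra k (AlgebraicClosure ℚ) := (σ : k →+* AlgebraicClosure ℚ).toAlgebra
  let g : AlgebraicClosure ℚ ≃ₐ[k] AlgebraicClosure ℚ :=
    AlgEquiv.ofRingEquiv (f := (s : AlgebraicClosure ℚ ≃+* AlgebraicClosure ℚ)) (fun r => hσ r)
  have hg : ∀ x, g x = s x := fun x => rfl
  obtain ⟨g', hg'⟩ := h k (AlgebraicClosure ℚ) g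
  refine ⟨g', fun F _ _ _ d => ?_⟩
  rw [← hg' F d]
  unfold sgn
  rw [RelQ_card s g hg σ (fun r => rfl) d (fun z => z),
    RelQ_card s g hg σ (fun r => rfl) d (fun z => - z)]

private theorem RelQ_fib {k : Type} [Field k] [NumberField k]
    (s : AlgebraicClosure ℚ ≃ₐ[ℚ] AlgebraicClosure ℚ)
    {F : Type} [Field F] [NumberField F] [Algebra k F] (d : F)
    (c : AlgebraicClosure ℚ → AlgebraicClosure ℚ) :
    (Nat.card {x : Pr ℚ F (AlgebraicClosure ℚ) d //
      (s : AlgebraicClosure ℚ →ₐ[ℚ] AlgebraicClosure ℚ).comp x.1.1 = x.1.1 ∧ s x.1.2 = c x.1.2} : ℤ) =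
    ∑ σ : k →ₐ[ℚ] AlgebraicClosure ℚ with ∀ r, s (σ r) = σ r,
      (Nat.card {x : Pr ℚ F (AlgebraicClosure ℚ) d //
        ((s : AlgebraicClosure ℚ →ₐ[ℚ] AlgebraicClosure ℚ).comp x.1.1 = x.1.1 ∧
          s x.1.2 = c x.1.2) ∧ RelQ_res k x.1.1 = σ} : ℤ) := by
  rw [Nat.card_eq_fintype_card, Fintype.card_subtype,
    Finset.card_eq_sum_card_fiberwise (f := fun x : Pr ℚ F (AlgebraicClosure ℚ) d =>
      RelQ_res k x.1.1) (t := Finset.univ.filter
        (fun σ : k →ₐ[ℚ] AlgebraicClosure ℚ => ∀ r, s (σ r) = σ r))]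
  · push_cast
    refine Finset.sum_congr rfl fun σ _ => ?_
    rw [Nat.card_eq_fintype_card, Fintype.card_subtype, Finset.filter_filter]
  · intro x hx
    rw [Finset.mem_coe, Finset.mem_filter] at hx
    rw [Finset.mem_coe, Finset.mem_filter]
    refine ⟨Finset.mem_univ _, fun r => ?_⟩
    change s (RelQ_res k x.1.1 r) = RelQ_res k x.1.1 r
    rw [RelQ_res_apply]
    exact DFunLike.congr_fun hx.2.1 (algebraMap k F r)

theorem thm_RelQ (h : St_Any) : St_RelQ := by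
  intro k _ _ ι _ F _ _ _ d n _ hrel s
  have key : ∀ i, sgn (k := ℚ) (d i) s =
      ∑ σ : k →ₐ[ℚ] AlgebraicClosure ℚ with ∀ r, s (σ r) = σ r,
        ((Nat.card {x : Pr ℚ (F i) (AlgebraicClosure ℚ) (d i) //
          ((s : AlgebraicClosure ℚ →ₐ[ℚ] AlgebraicClosure ℚ).comp x.1.1 = x.1.1 ∧
            s x.1.2 = x.1.2) ∧ RelQ_res k x.1.1 = σ} : ℤ) -
        Nat.card {x : Pr ℚ (F i) (AlgebraicClosure ℚ) (d i) //
          ((s : AlgebraicClosure ℚ →ₐ[ℚ] AlgebraicClosure ℚ).comp x.1.1 = x.1.1 ∧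
            s x.1.2 = - x.1.2) ∧ RelQ_res k x.1.1 = σ}) := by
    intro i
    unfold sgn
    rw [RelQ_fib (k := k) s (d i) (fun z => z), RelQ_fib (k := k) s (d i) (fun z => - z),
      Finset.sum_sub_distrib]
  simp only [key, Finset.mul_sum]
  rw [Finset.sum_comm]
  refine Finset.sum_eq_zero fun σ hσ => ?_
  obtain ⟨g', hg'⟩ := RelQ_one h s σ (Finset.mem_filter.mp hσ).2
  rw [← hrel g']
  refine Finset.sum_congr rfl fun i _ => ?_
  rw [hg' (F i) (d i)]

end ART
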