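import Pool.Agent.ART.StA

/-!
# ART: the residue field of the completion (module Res)
-/

set_option autoImplicit false

namespace ART

open scoped ComplexConjugate
open NumberField IsDedekindDomain Polynomial

section

variable {F : Type} [Field F] [NumberField F]

private theorem Res_residue_eq_zero (w : HeightOneSpectrum (𝓞 F))
    (x : w.adicCompletionIntegers F) :
    IsLocalRing.residue (w.adicCompletionIntegers F) x = 0 ↔ Valued.v (x : w.adicCompletion F) < 1 := by
  rw [IsLocalRing.residue_eq_zero_iff, IsLocalRing.mem_maximalIdeal, mem_nonunits_iff,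
    HeightOneSpectrum.adicCompletionIntegers.isUnit_iff_valued_eq_one]
  have h : Valued.v (x : w.adicCompletion F) ≤ 1 := x.2
  exact ⟨fun h1 => lt_of_le_of_ne h h1, fun h1 => ne_of_lt h1⟩

private theorem Res_ker (w : HeightOneSpectrum (𝓞 F)) (x : 𝓞 F) :
    rd w x = 0 ↔ x ∈ w.asIdeal := by
  have h1 : rd w x = IsLocalRing.residue (w.adicCompletionIntegers F)
      (algebraMap (𝓞 F) (w.adicCompletionIntegers F) x) := rfl
  rw [h1, Res_residue_eq_zero, ← HeightOneSpectrum.valuation_lt_one_iff_mem (K := F)]
  rw [HeightOneSpectrum.algebraMap_adicCompletionIntegers_apply,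
    HeightOneSpectrum.valuedAdicCompletion_eq_valuation']

private theorem Res_open (w : HeightOneSpectrum (𝓞 F)) (x : w.adicCompletion F) :
    IsOpen {z : w.adicCompletion F | Valued.v (x - z) < 1} := by
  have h1 : IsOpen {z : w.adicCompletion F | (Valued.v.restrict (x - z)) < 1} :=
    (Valued.isOpen_ball (w.adicCompletion F) 1).preimage
      (continuous_const.sub continuous_id : Continuous fun z : w.adicCompletion F => x - z)
  have h2 : {z : w.adicCompletion F | Valued.v (x - z) < 1} =
      {z : w.adicCompletion F | (Valued.v.restrict (x - z)) < 1} := by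
    ext z
    exact (Valuation.restrict_lt_one_iff (Valued.v (R := w.adicCompletion F))).symm
  rw [h2]
  exact h1

private theorem Res_surj (w : HeightOneSpectrum (𝓞 F)) : Function.Surjective (rd w) := by
  intro X
  obtain ⟨x, rfl⟩ := IsLocalRing.residue_surjective X
  obtain ⟨y, hy⟩ := (HeightOneSpectrum.denseRange_algebraMap F w).exists_mem_open
    (Res_open w (x : w.adicCompletion F)) ⟨(x : w.adicCompletion F), by simp⟩
  have hy0 : Valued.v ((x : w.adicCompletion F) - algebraMap F (w.adicCompletion F) y) < 1 := hy
  have hy1 : Valued.v (algebraMap F (w.adicCompletion F) y) = w.valuation F y :=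
    HeightOneSpectrum.valuedAdicCompletion_eq_valuation' w y
  have hy2 : w.valuation F y ≤ 1 := by
    rw [← hy1]
    have e : algebraMap F (w.adicCompletion F) y = (x : w.adicCompletion F) -
        ((x : w.adicCompletion F) - algebraMap F (w.adicCompletion F) y) := by ring
    rw [e]
    exact (Valuation.map_sub _ _ _).trans (max_le x.2 hy0.le)
  obtain ⟨a, ha⟩ := HeightOneSpectrum.exists_valuation_sub_lt_of_integer w hy2 1
  refine ⟨a, ?_⟩
  have h1 : rd w a = IsLocalRing.residue (w.adicCompletionIntegers F)
      (algebraMap (𝓞 F) (w.adicCompletionIntegers F) a) := rfl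
  rw [h1, ← sub_eq_zero, ← map_sub, Res_residue_eq_zero]
  have h2 : ((algebraMap (𝓞 F) (w.adicCompletionIntegers F) a - x :
      w.adicCompletionIntegers F) : w.adicCompletion F) =
      algebraMap F (w.adicCompletion F) (algebraMap (𝓞 F) F a - y) -
        ((x : w.adicCompletion F) - algebraMap F (w.adicCompletion F) y) := by
    rw [map_sub]
    have h3 : ((algebraMap (𝓞 F) (w.adicCompletionIntegers F) a - x :
        w.adicCompletionIntegers F) : w.adicCompletion F) =
        algebraMap F (w.adicCompletion F) (algebraMap (𝓞 F) F a) - (x : w.adicCompletion F) := rfl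
    rw [h3]
    ring
  rw [h2]
  refine (Valuation.map_sub _ _ _).trans_lt (max_lt ?_ hy0)
  have h4 : Valued.v (algebraMap F (w.adicCompletion F) (algebraMap (𝓞 F) F a - y)) =
      w.valuation F (algebraMap (𝓞 F) F a - y) :=
    HeightOneSpectrum.valuedAdicCompletion_eq_valuation' w _
  rw [h4]
  simpa using ha

end

/-- The module Res. -/
theorem thm_Res : St_Res := by
  intro F _ _ w
  have hs := Res_surj w
  have hk := Res_ker w
  have hker : RingHom.ker (rd w) = w.asIdeal := by
    ext x
    rw [RingHom.mem_ker]
    exact hk x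
  have e : (𝓞 F ⧸ w.asIdeal) ≃+* IsLocalRing.ResidueField (w.adicCompletionIntegers F) :=
    (Ideal.quotEquivOfEq hker.symm).trans (RingHom.quotientKerEquivOfSurjective hs)
  have hfin : Finite (𝓞 F ⧸ w.asIdeal) := Ideal.finiteQuotientOfFreeOfNeBot w.asIdeal w.ne_bot
  refine ⟨hs, hk, Finite.of_equiv _ e.toEquiv, ?_⟩
  rw [← Nat.card_congr e.toEquiv]
  unfold nm
  rw [Ideal.absNorm_apply, Submodule.cardQuot_apply]

end ART
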