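import Pool.Agent.ART.StE

/-!
# ART: a square root of the discriminant times the norm of d, and the action of the Galois group
-/

set_option autoImplicit false

namespace ART

open scoped ComplexConjugate Classical
open NumberField IsDedekindDomain Polynomial

/-- Multiplication by a unit of the integers, as a permutation of the two units, has this unit as its sign. -/
private theorem Rt_mulLeft (e : ℤˣ) : Equiv.Perm.sign (Equiv.mulLeft e : Equiv.Perm ℤˣ) = e := by
  rcases Int.units_eq_one_or e with h | h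
  · subst h
    have h1 : (Equiv.mulLeft (1 : ℤˣ) : Equiv.Perm ℤˣ) = 1 := by
      ext x; simp
    rw [h1, map_one]
  · subst h
    have h1 : (Equiv.mulLeft (-1 : ℤˣ) : Equiv.Perm ℤˣ) = Equiv.swap 1 (-1) := by
      apply Equiv.ext
      intro x
      rcases Int.units_eq_one_or x with hx | hx
      · subst hx; simp
      · subst hx; simp
    rw [h1, Equiv.Perm.sign_swap (by decide)]

section

variable {F : Type} [Field F] [NumberField F]

/-- Step 1: the square root of the discriminant. -/
private theorem Rt_disc (F : Type) [Field F] [NumberField F] :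
    ∃ D : AlgebraicClosure ℚ, D ^ 2 = algebraMap ℚ (AlgebraicClosure ℚ) (discr F : ℚ) ∧
      ∀ s : AlgebraicClosure ℚ ≃ₐ[ℚ] AlgebraicClosure ℚ,
        s D = ((Equiv.Perm.sign (pe F s) : ℤ) : AlgebraicClosure ℚ) * D := by
  have hcard : Fintype.card (Module.Free.ChooseBasisIndex ℤ (𝓞 F)) =
      Fintype.card (F →ₐ[ℚ] AlgebraicClosure ℚ) := by
    rw [AlgHom.card, ← Module.finrank_eq_card_basis (integralBasis F)]
  let e : Module.Free.ChooseBasisIndex ℤ (𝓞 F) ≃ (F →ₐ[ℚ] AlgebraicClosure ℚ) :=
    Fintype.equivOfCardEq hcard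
  let M : Matrix (Module.Free.ChooseBasisIndex ℤ (𝓞 F)) (Module.Free.ChooseBasisIndex ℤ (𝓞 F))
      (AlgebraicClosure ℚ) := Algebra.embeddingsMatrixReindex ℚ (AlgebraicClosure ℚ) (integralBasis F) e
  refine ⟨M.det, ?_, ?_⟩
  · rw [coe_discr, Algebra.discr_eq_det_embeddingsMatrixReindex_pow_two ℚ (AlgebraicClosure ℚ)
      (integralBasis F) e]
  · intro s
    have h1 : s M.det = (M.map s).det := by
      have := AlgHom.map_det (s : AlgebraicClosure ℚ →ₐ[ℚ] AlgebraicClosure ℚ) M
      simpa using this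
    have h2 : M.map s = M.submatrix id ((e.trans (pe F s)).trans e.symm) := by
      ext i j
      simp only [Matrix.map_apply, Matrix.submatrix_apply, id_eq, Equiv.trans_apply, M,
        Algebra.embeddingsMatrixReindex, Matrix.reindex_apply, Equiv.symm_symm,
        Algebra.embeddingsMatrix, Matrix.of_apply, Equiv.apply_symm_apply, Equiv.refl_symm,
        Equiv.coe_refl]
      rfl
    rw [h1, h2, Matrix.det_permute', Equiv.Perm.sign_trans_trans_symm]

/-- Step 2: the product of the square roots of the conjugates. -/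
private theorem Rt_norm (d : F) (hd : d ≠ 0) :
    ∃ Z : AlgebraicClosure ℚ, Z ^ 2 = algebraMap ℚ (AlgebraicClosure ℚ) (Algebra.norm ℚ d) ∧
      ∀ s : AlgebraicClosure ℚ ≃ₐ[ℚ] AlgebraicClosure ℚ,
        s Z = ((Equiv.Perm.sign (pp d s) : ℤ) : AlgebraicClosure ℚ) * Z := by
  have hz : ∀ φ : F →ₐ[ℚ] AlgebraicClosure ℚ, ∃ z : AlgebraicClosure ℚ, z ^ 2 = φ d := by
    intro φ
    exact IsAlgClosed.exists_pow_nat_eq (φ d) (n := 2) (by norm_num)
  choose z hz using hz
  have hz0 : ∀ φ, z φ ≠ 0 := by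
    intro φ h
    have h1 := hz φ
    rw [h] at h1
    have h2 : φ d = 0 := by rw [← h1]; simp
    exact hd ((map_eq_zero φ).1 h2)
  have hne : ∀ φ, z φ ≠ - z φ := by
    intro φ h
    exact hz0 φ (self_eq_neg.1 h)
  refine ⟨∏ φ, z φ, ?_, ?_⟩
  · rw [Algebra.norm_eq_prod_embeddings ℚ (AlgebraicClosure ℚ) d, ← Finset.prod_pow]
    exact Finset.prod_congr rfl (fun φ _ => hz φ)
  · intro s
    have hs : ∀ φ, ∃ ε : ℤˣ, s (z φ) = ((ε : ℤ) : AlgebraicClosure ℚ) * z (pe F s φ) := by
      intro φ
      have h1 : (s (z φ)) ^ 2 = (z (pe F s φ)) ^ 2 := by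
        rw [← map_pow, hz, hz]; rfl
      rcases sq_eq_sq_iff_eq_or_eq_neg.1 h1 with h | h
      · exact ⟨1, by rw [h]; simp⟩
      · exact ⟨-1, by rw [h]; simp⟩
    choose ε hε using hs
    have hunit : ∀ (η : ℤˣ) (φ), ((η : ℤ) : AlgebraicClosure ℚ) * z φ = z φ ↔ η = 1 := by
      intro η φ
      rcases Int.units_eq_one_or η with h | h
      · subst h; simp
      · subst h
        constructor
        · intro h1
          exfalso
          apply hne φ
          have h2 : -z φ = z φ := by simpa using h1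
          exact h2.symm
        · intro h1
          exact absurd h1 (by decide)
    have hsq : ∀ η : ℤˣ, ((η : ℤ) : AlgebraicClosure ℚ) ^ 2 = 1 := by
      intro η
      rcases Int.units_eq_one_or η with h | h <;> subst h <;> simp
    -- the bijection
    let E : (F →ₐ[ℚ] AlgebraicClosure ℚ) × ℤˣ ≃ Pr ℚ F (AlgebraicClosure ℚ) d :=
      { toFun := fun x => ⟨(x.1, ((x.2 : ℤ) : AlgebraicClosure ℚ) * z x.1), by
          show (((x.2 : ℤ) : AlgebraicClosure ℚ) * z x.1) ^ 2 = x.1 d
          rw [mul_pow, hsq, one_mul, hz]⟩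
        invFun := fun y => (y.1.1, if y.1.2 = z y.1.1 then 1 else -1)
        left_inv := by
          rintro ⟨φ, η⟩
          simp only [hunit]
          rcases Int.units_eq_one_or η with h | h
          · subst h; simp
          · subst h
            rw [if_neg (by decide)]
        right_inv := by
          rintro ⟨⟨φ, y⟩, hy⟩
          have h1 : y ^ 2 = (z φ) ^ 2 := by rw [hz]; exact hy
          apply Subtype.ext
          rcases sq_eq_sq_iff_eq_or_eq_neg.1 h1 with h | h
          · simp [h]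
          · have h2 : -z φ ≠ z φ := (hne φ).symm
            simp [h2, h] }
    let Q : Equiv.Perm ((F →ₐ[ℚ] AlgebraicClosure ℚ) × ℤˣ) :=
      (Equiv.prodCongrRight (fun φ => (Equiv.mulLeft (ε φ) : Equiv.Perm ℤˣ))).trans
        (Equiv.prodCongrLeft (fun _ : ℤˣ => pe F s))
    have hQ : Equiv.Perm.sign (pp d s) = Equiv.Perm.sign Q := by
      symm
      apply Equiv.Perm.sign_eq_sign_of_equiv Q (pp d s) E
      rintro ⟨φ, η⟩
      apply Subtype.ext
      apply Prod.ext
      · rfl
      · show ((((ε φ * η : ℤˣ) : ℤ)) : AlgebraicClosure ℚ) * z (pe F s φ) =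
          s (((η : ℤ) : AlgebraicClosure ℚ) * z φ)
        rw [map_mul, hε φ]
        have h3 : s ((η : ℤ) : AlgebraicClosure ℚ) = ((η : ℤ) : AlgebraicClosure ℚ) := map_intCast s _
        rw [h3]
        push_cast
        ring
    have hQ2 : Equiv.Perm.sign Q = ∏ φ, ε φ := by
      show Equiv.Perm.sign ((Equiv.prodCongrRight
        (fun φ => (Equiv.mulLeft (ε φ) : Equiv.Perm ℤˣ))).trans
        (Equiv.prodCongrLeft (fun _ : ℤˣ => pe F s))) = _
      rw [Equiv.Perm.sign_trans, Equiv.Perm.sign_prodCongrLeft, Equiv.Perm.sign_prodCongrRight,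
        Finset.prod_const, Finset.card_univ, Fintype.card_units_int, Int.units_sq, one_mul]
      exact Finset.prod_congr rfl (fun φ _ => Rt_mulLeft (ε φ))
    rw [map_prod, Finset.prod_congr rfl (fun φ _ => hε φ), Finset.prod_mul_distrib, hQ, hQ2,
      Equiv.prod_comp (pe F s) z]
    push_cast
    rfl

end

/-- A square root of the discriminant times the norm of d. -/
theorem thm_Rt : St_Rt := by
  intro F _ _ d hd
  obtain ⟨D, hD1, hD2⟩ := Rt_disc F
  obtain ⟨Z, hZ1, hZ2⟩ := Rt_norm d hd
  have hsq : (D * Z) ^ 2 = algebraMap ℚ (AlgebraicClosure ℚ) ((discr F : ℚ) * Algebra.norm ℚ d) := by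
    rw [mul_pow, hD1, hZ1, map_mul]
  refine ⟨D * Z, ?_, hsq, ?_⟩
  · intro h
    rw [h] at hsq
    have h1 : algebraMap ℚ (AlgebraicClosure ℚ) ((discr F : ℚ) * Algebra.norm ℚ d) = 0 := by
      rw [← hsq]; simp
    have h2 := (map_eq_zero (algebraMap ℚ (AlgebraicClosure ℚ))).1 h1
    rcases mul_eq_zero.1 h2 with h3 | h3
    · exact discr_ne_zero F (by exact_mod_cast h3)
    · exact hd (Algebra.norm_eq_zero_iff.1 h3)
  · intro s
    rw [map_mul, hD2, hZ2]
    push_cast
    ring

end ART
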