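import Pool.Agent.ART.StC

/-!
# From fixed points of powers to signs of permutations
-/

set_option autoImplicit false

namespace ART

open Finset Equiv.Perm

/-- The period of the point `x`. -/
private noncomputable def SgnP_per {X : Type} [Fintype X] [DecidableEq X] (π : Equiv.Perm X)
    (x : X) : ℕ := if π x = x then 1 else ((π.cycleOf x).support).card

private lemma SgnP_per_dvd {X : Type} [Fintype X] [DecidableEq X] (π : Equiv.Perm X) (x : X)
    (m : ℕ) : (π ^ m) x = x ↔ SgnP_per π x ∣ m := by
  unfold SgnP_per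
  split_ifs with h
  · refine ⟨fun _ => one_dvd _, fun _ => ?_⟩
    exact Equiv.Perm.pow_apply_eq_self_of_apply_eq_self h m
  · have hc := isCycle_cycleOf π h
    rw [← cycleOf_pow_apply_self π x m, ← hc.orderOf, orderOf_dvd_iff_pow_eq_one]
    rw [hc.pow_eq_one_iff' (x := x)]
    rw [cycleOf_apply_self]
    exact h

private lemma SgnP_per_pos {X : Type} [Fintype X] [DecidableEq X] (π : Equiv.Perm X) (x : X) :
    0 < SgnP_per π x := by
  unfold SgnP_per
  split_ifs with h
  · exact one_pos
  · rw [Finset.card_pos]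
    exact ⟨x, by rw [mem_support, cycleOf_apply_self]; exact h⟩

private lemma SgnP_sum {X : Type} [Fintype X] [DecidableEq X] (π : Equiv.Perm X) (N : ℕ)
    (hN : orderOf π ∣ N) :
    (∑ m ∈ Ioc 0 N, (Nat.card {x // (π ^ m) x = x} : ℚ)) =
      N * ∑ x, (1 / (SgnP_per π x : ℚ)) := by
  have h1 : ∀ m : ℕ, (Nat.card {x // (π ^ m) x = x} : ℚ) =
      ∑ x : X, if SgnP_per π x ∣ m then (1 : ℚ) else 0 := by
    intro m
    rw [Nat.card_eq_fintype_card, Fintype.card_subtype, Finset.card_filter]
    rw [Nat.cast_sum]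
    apply Finset.sum_congr rfl
    intro x _
    by_cases h : SgnP_per π x ∣ m
    · rw [if_pos ((SgnP_per_dvd π x m).2 h), if_pos h, Nat.cast_one]
    · rw [if_neg fun h' => h ((SgnP_per_dvd π x m).1 h'), if_neg h, Nat.cast_zero]
  simp_rw [h1]
  rw [Finset.sum_comm, Finset.mul_sum]
  apply Finset.sum_congr rfl
  intro x _
  have h2 : (∑ m ∈ Ioc 0 N, if SgnP_per π x ∣ m then (1 : ℚ) else 0) =
      ((#{m ∈ Ioc 0 N | SgnP_per π x ∣ m} : ℕ) : ℚ) := by
    rw [Finset.card_filter]; push_cast; rfl
  rw [h2, Nat.Ioc_filter_dvd_card_eq_div]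
  have h3 : SgnP_per π x ∣ N := by
    rw [← SgnP_per_dvd]
    rw [orderOf_dvd_iff_pow_eq_one] at hN
    rw [hN]; rfl
  rw [Nat.cast_div h3 (by exact_mod_cast (SgnP_per_pos π x).ne')]
  ring

private lemma SgnP_orb {X : Type} [Fintype X] [DecidableEq X] (π : Equiv.Perm X) :
    ∑ x, (1 / (SgnP_per π x : ℚ)) + π.support.card =
      Fintype.card X + Multiset.card π.cycleType := by
  have h0 : ∑ x, (1 / (SgnP_per π x : ℚ)) = ∑ x ∈ π.support, (1 / (SgnP_per π x : ℚ)) +
      ∑ x ∈ π.supportᶜ, (1 / (SgnP_per π x : ℚ)) :=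
    (Finset.sum_add_sum_compl _ _).symm
  have h1 : ∑ x ∈ π.supportᶜ, (1 / (SgnP_per π x : ℚ)) = (π.supportᶜ).card := by
    rw [Finset.sum_congr rfl (g := fun _ => (1 : ℚ))]
    · simp
    · intro x hx
      rw [Finset.mem_compl, mem_support, not_not] at hx
      unfold SgnP_per
      rw [if_pos hx]; simp
  have h2 : ∑ x ∈ π.support, (1 / (SgnP_per π x : ℚ)) = Multiset.card π.cycleType := by
    have hm : ∀ x ∈ π.support, π.cycleOf x ∈ π.cycleFactorsFinset := fun x hx =>
      cycleOf_mem_cycleFactorsFinset_iff.2 hx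
    rw [← Finset.sum_fiberwise_of_maps_to hm, cycleType_def, Multiset.card_map]
    rw [Finset.sum_congr rfl (g := fun _ => (1 : ℚ))]
    · simp
    · intro c hc
      have hs : {x ∈ π.support | π.cycleOf x = c} = c.support := by
        ext x
        rw [Finset.mem_filter]
        constructor
        · rintro ⟨hx, rfl⟩
          rw [mem_support, cycleOf_apply_self]
          rwa [mem_support] at hx
        · intro hx
          exact ⟨(mem_support_iff_mem_support_of_mem_cycleFactorsFinset).2 ⟨c, hc, hx⟩,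
            (cycle_is_cycleOf hx hc).symm⟩
      rw [hs]
      have hne : c.support.card ≠ 0 := by
        have h5 := (mem_cycleFactorsFinset_iff.1 hc).1.nonempty_support
        exact (Finset.card_pos.2 h5).ne'
      rw [Finset.sum_congr rfl (g := fun _ => (1 / (c.support.card : ℚ)))]
      · rw [Finset.sum_const, nsmul_eq_mul]
        field_simp
      · intro x hx
        have h6 : π x ≠ x := by
          rw [← mem_support]
          exact (mem_support_iff_mem_support_of_mem_cycleFactorsFinset).2 ⟨c, hc, hx⟩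
        unfold SgnP_per
        rw [if_neg h6, ← cycle_is_cycleOf hx hc]
  rw [h0, h1, h2, Finset.card_compl]
  have h7 : π.support.card ≤ Fintype.card X := Finset.card_le_univ _
  rw [Nat.cast_sub h7]
  ring

theorem thm_SgnP : St_SgnP := by
  intro ι _ X _ _ n π H
  classical
  obtain ⟨N, hN0, hN⟩ : ∃ N : ℕ, 1 ≤ N ∧ ∀ i, orderOf (π i) ∣ N := by
    refine ⟨∏ i, orderOf (π i), ?_, fun i => Finset.dvd_prod_of_mem _ (Finset.mem_univ i)⟩
    exact Nat.one_le_iff_ne_zero.2 (Finset.prod_ne_zero_iff.2 fun i _ => (orderOf_pos (π i)).ne')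
  -- the numbers of the orbits
  have e : ∀ i, (∑ x, (1 / (SgnP_per (π i) x : ℚ))) = (((Fintype.card (X i) : ℤ) +
      Multiset.card (π i).cycleType - (π i).support.card : ℤ) : ℚ) := by
    intro i
    have := SgnP_orb (π i)
    push_cast
    linarith
  have s1 : ∑ i, n i * ((Fintype.card (X i) : ℤ) +
      Multiset.card (π i).cycleType - (π i).support.card) = 0 := by
    have h1 : ∑ m ∈ Ioc 0 N, ∑ i, (n i : ℚ) * (Nat.card {x // ((π i) ^ m) x = x} : ℚ) = 0 := by
      apply Finset.sum_eq_zero
      intro m hm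
      have := H m (Finset.mem_Ioc.1 hm).1
      exact_mod_cast this
    rw [Finset.sum_comm] at h1
    simp_rw [← Finset.mul_sum] at h1
    simp_rw [fun i => SgnP_sum (π i) N (hN i), e] at h1
    have h2 : (N : ℚ) * ((∑ i, n i * ((Fintype.card (X i) : ℤ) +
      Multiset.card (π i).cycleType - (π i).support.card) : ℤ) : ℚ) = 0 := by
      rw [← h1]
      push_cast
      rw [Finset.mul_sum]
      apply Finset.sum_congr rfl
      intro i _
      ring
    rcases mul_eq_zero.1 h2 with h3 | h3
    · exact absurd (by exact_mod_cast h3) (Nat.one_le_iff_ne_zero.1 hN0)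
    · exact_mod_cast h3
  have s2 : ∑ i, n i * (Fintype.card (X i) : ℤ) = 0 := by
    have := H N hN0
    rw [← this]
    apply Finset.sum_congr rfl
    intro i _
    congr 2
    have h4 : (π i) ^ N = 1 := orderOf_dvd_iff_pow_eq_one.1 (hN i)
    rw [h4, Nat.card_eq_fintype_card, Fintype.card_subtype]
    simp
  have s3 : ∀ i, (Equiv.Perm.sign (π i)) ^ n i =
      (-1 : ℤˣ) ^ (n i * ((π i).support.card + Multiset.card (π i).cycleType : ℤ)) := by
    intro i
    rw [sign_of_cycleType, sum_cycleType, mul_comm, zpow_mul]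
    congr 1
  rw [Finset.prod_congr rfl fun i _ => s3 i]
  have s4 : ∏ i, (-1 : ℤˣ) ^ (n i * ((π i).support.card + Multiset.card (π i).cycleType : ℤ)) =
      (-1 : ℤˣ) ^ (∑ i, n i * ((π i).support.card + Multiset.card (π i).cycleType : ℤ)) := by
    induction (Finset.univ : Finset ι) using Finset.induction_on with
    | empty => simp
    | insert a s ha ih => rw [Finset.prod_insert ha, Finset.sum_insert ha, zpow_add, ih]
  rw [s4]
  have s5 : Even (∑ i, n i * ((π i).support.card + Multiset.card (π i).cycleType : ℤ)) := by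
    have h5 : (∑ i, n i * ((π i).support.card + Multiset.card (π i).cycleType : ℤ)) =
        2 * ∑ i, n i * ((π i).support.card : ℤ) := by
      have h6 : (∑ i, n i * ((π i).support.card + Multiset.card (π i).cycleType : ℤ)) =
          ∑ i, n i * ((Fintype.card (X i) : ℤ) +
      Multiset.card (π i).cycleType - (π i).support.card) - ∑ i, n i * (Fintype.card (X i) : ℤ) +
        2 * ∑ i, n i * ((π i).support.card : ℤ) := by
        rw [Finset.mul_sum, ← Finset.sum_sub_distrib, ← Finset.sum_add_distrib]
        apply Finset.sum_congr rfl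
        intro i _
        ring
      rw [h6, s1, s2]; ring
    rw [h5]
    exact even_two_mul _
  exact s5.neg_one_zpow

end ART
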