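import Pool.Agent.ART.StE

/-!
# ART [Sq]: the product of the discriminants and norms is a square
-/

set_option autoImplicit false

namespace ART

open scoped Classical
open NumberField

private theorem Sq_two (h2 : St_SgnP) {ι : Type} [Fintype ι] (X Y : ι → Type)
    [iX : ∀ i, Fintype (X i)] [iY : ∀ i, Fintype (Y i)] [dX : ∀ i, DecidableEq (X i)]
    [dY : ∀ i, DecidableEq (Y i)] (n : ι → ℤ) (π : ∀ i, Equiv.Perm (X i))
    (ρ : ∀ i, Equiv.Perm (Y i))
    (h : ∀ m : ℕ, 1 ≤ m → ∑ i, n i * ((Nat.card {x // ((π i) ^ m) x = x} : ℤ) -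
      (Nat.card {x // ((ρ i) ^ m) x = x} : ℤ)) = 0) :
    ∏ i, (Equiv.Perm.sign (ρ i) * Equiv.Perm.sign (π i)) ^ n i = 1 := by
  have h3 := @h2 (ι ⊕ ι) inferInstance (fun j => Sum.elim X Y j)
    (fun j => match j with
      | .inl i => iX i
      | .inr i => iY i)
    (fun j => match j with
      | .inl i => dX i
      | .inr i => dY i)
    (fun j => match j with
      | .inl i => n i
      | .inr i => - n i)
    (fun j => match j with
      | .inl i => π i
      | .inr i => ρ i) (by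
      intro m hm
      rw [Fintype.sum_sum_type]
      have h4 := h m hm
      rw [← h4, ← Finset.sum_add_distrib]
      apply Finset.sum_congr rfl
      intro i _
      show n i * _ + (- n i) * _ = _
      ring_nf
      rfl)
  rw [Fintype.prod_sum_type] at h3
  rw [← h3, ← Finset.prod_mul_distrib]
  apply Finset.prod_congr rfl
  intro i _
  show _ = Equiv.Perm.sign (π i) ^ (n i) * Equiv.Perm.sign (ρ i) ^ (- n i)
  rw [mul_zpow, mul_comm, zpow_neg, Int.units_inv_eq_self]

private theorem Sq_ppow {F : Type} [Field F] [NumberField F] (d : F)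
    (s : AlgebraicClosure ℚ ≃ₐ[ℚ] AlgebraicClosure ℚ) (m : ℕ) :
    (pp d s) ^ m = pp d (s ^ m) := by
  induction m with
  | zero =>
    rw [pow_zero, pow_zero]
    ext x
    · rfl
    · rfl
  | succ m ih =>
    rw [pow_succ, pow_succ, ih]
    ext x
    · rfl
    · rfl

private theorem Sq_pepow {F : Type} [Field F] [NumberField F]
    (s : AlgebraicClosure ℚ ≃ₐ[ℚ] AlgebraicClosure ℚ) (m : ℕ) :
    (pe F s) ^ m = pe F (s ^ m) := by
  induction m with
  | zero =>
    rw [pow_zero, pow_zero]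
    ext x
    rfl
  | succ m ih =>
    rw [pow_succ, pow_succ, ih]
    ext x
    rfl

private theorem Sq_sgn {F : Type} [Field F] [NumberField F] (d : F) (hd : d ≠ 0)
    (g : AlgebraicClosure ℚ ≃ₐ[ℚ] AlgebraicClosure ℚ) :
    sgn (k := ℚ) d g = 2 * ((Nat.card {x // (pp d g) x = x} : ℤ) -
      (Nat.card {x // (pe F g) x = x} : ℤ)) := by
  have hfin : Finite (Pr ℚ F (AlgebraicClosure ℚ) d) := finPr d
  have h0 : ∀ φ : F →ₐ[ℚ] AlgebraicClosure ℚ, φ d ≠ 0 := fun φ => by
    rw [Ne, map_eq_zero]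
    exact hd
  have hz : ∀ φ : F →ₐ[ℚ] AlgebraicClosure ℚ, ∃ z : AlgebraicClosure ℚ, z ^ 2 = φ d :=
    fun φ => IsAlgClosed.exists_pow_nat_eq (φ d) (by norm_num)
  choose z hz using hz
  have hz0 : ∀ φ, z φ ≠ 0 := by
    intro φ h
    apply h0 φ
    rw [← hz φ, h]
    ring
  have hneg : ∀ y : AlgebraicClosure ℚ, y ≠ 0 → y ≠ -y := by
    intro y hy h
    apply hy
    have h1 : (2 : AlgebraicClosure ℚ) * y = 0 := by
      rw [two_mul]
      nth_rewrite 1 [h]
      ring
    exact (mul_eq_zero.mp h1).resolve_left two_ne_zero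
  have hx0 : ∀ x : Pr ℚ F (AlgebraicClosure ℚ) d, x.1.2 ≠ 0 := by
    intro x h
    apply h0 x.1.1
    rw [← x.2, h]
    ring
  -- the pairs over the fixed embeddings
  have hA : Nat.card {x : Pr ℚ F (AlgebraicClosure ℚ) d // (pe F g) x.1.1 = x.1.1} =
      2 * Nat.card {x // (pe F g) x = x} := by
    have hb : Function.Bijective (fun y : {x // (pe F g) x = x} × Bool =>
        (⟨⟨(y.1.1, if y.2 then z y.1.1 else - z y.1.1), by
          show (if y.2 then z y.1.1 else - z y.1.1) ^ 2 = y.1.1 d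
          split_ifs
          · exact hz _
          · rw [neg_sq]
            exact hz _⟩, y.1.2⟩ :
          {x : Pr ℚ F (AlgebraicClosure ℚ) d // (pe F g) x.1.1 = x.1.1})) := by
      constructor
      · rintro ⟨⟨φ, hφ⟩, b⟩ ⟨⟨φ', hφ'⟩, b'⟩ h
        simp only [Subtype.mk.injEq, Prod.mk.injEq] at h
        obtain ⟨h1, h2⟩ := h
        subst h1
        have h3 : b = b' := by
          cases b <;> cases b'
          · rfl
          · exact absurd h2 (fun h => hneg _ (hz0 φ) (by simpa using h.symm))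
          · exact absurd h2 (fun h => hneg _ (hz0 φ) (by simpa using h))
          · rfl
        subst h3
        rfl
      · rintro ⟨⟨⟨φ, y⟩, hy⟩, hφ⟩
        have h1 : y ^ 2 = z φ ^ 2 := by
          rw [hz φ]
          exact hy
        rcases sq_eq_sq_iff_eq_or_eq_neg.mp h1 with h2 | h2
        · refine ⟨(⟨φ, hφ⟩, true), ?_⟩
          apply Subtype.ext
          apply Subtype.ext
          simp [h2]
        · refine ⟨(⟨φ, hφ⟩, false), ?_⟩
          apply Subtype.ext
          apply Subtype.ext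
          simp [h2]
    have h1 := Nat.card_congr (Equiv.ofBijective _ hb)
    rw [← h1, Nat.card_prod, Nat.card_eq_fintype_card (α := Bool), Fintype.card_bool, mul_comm]
  -- the two kinds of pairs
  have hB : Nat.card {x : Pr ℚ F (AlgebraicClosure ℚ) d // (pe F g) x.1.1 = x.1.1} =
      Nat.card {x : Pr ℚ F (AlgebraicClosure ℚ) d //
        (g : AlgebraicClosure ℚ →ₐ[ℚ] AlgebraicClosure ℚ).comp x.1.1 = x.1.1 ∧ g x.1.2 = x.1.2} +
      Nat.card {x : Pr ℚ F (AlgebraicClosure ℚ) d //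
        (g : AlgebraicClosure ℚ →ₐ[ℚ] AlgebraicClosure ℚ).comp x.1.1 = x.1.1 ∧
          g x.1.2 = - x.1.2} := by
    have h1 : {x : Pr ℚ F (AlgebraicClosure ℚ) d | (pe F g) x.1.1 = x.1.1} =
        {x : Pr ℚ F (AlgebraicClosure ℚ) d |
          (g : AlgebraicClosure ℚ →ₐ[ℚ] AlgebraicClosure ℚ).comp x.1.1 = x.1.1 ∧
            g x.1.2 = x.1.2} ∪
        {x : Pr ℚ F (AlgebraicClosure ℚ) d |
          (g : AlgebraicClosure ℚ →ₐ[ℚ] AlgebraicClosure ℚ).comp x.1.1 = x.1.1 ∧
            g x.1.2 = - x.1.2} := by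
      ext x
      simp only [Set.mem_union, Set.mem_ofPred_eq]
      constructor
      · intro h
        have h2 : (g x.1.2) ^ 2 = x.1.2 ^ 2 := by
          rw [← map_pow, x.2]
          have h3 : ((g : AlgebraicClosure ℚ →ₐ[ℚ] AlgebraicClosure ℚ).comp x.1.1) d = x.1.1 d := by
            exact congrArg (fun φ : F →ₐ[ℚ] AlgebraicClosure ℚ => φ d) h
          exact h3
        rcases sq_eq_sq_iff_eq_or_eq_neg.mp h2 with h3 | h3
        · exact Or.inl ⟨h, h3⟩
        · exact Or.inr ⟨h, h3⟩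
      · rintro (h | h)
        · exact h.1
        · exact h.1
    show Set.ncard {x : Pr ℚ F (AlgebraicClosure ℚ) d | (pe F g) x.1.1 = x.1.1} = _
    rw [h1, Set.ncard_union_eq _ (Set.toFinite _) (Set.toFinite _)]
    · rfl
    · rw [Set.disjoint_left]
      rintro x ⟨_, h2⟩ ⟨_, h3⟩
      exact hneg _ (hx0 x) (h2.symm.trans h3)
  have hC : Nat.card {x : Pr ℚ F (AlgebraicClosure ℚ) d //
        (g : AlgebraicClosure ℚ →ₐ[ℚ] AlgebraicClosure ℚ).comp x.1.1 = x.1.1 ∧ g x.1.2 = x.1.2} =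
      Nat.card {x // (pp d g) x = x} := by
    apply Nat.card_congr
    apply Equiv.subtypeEquivRight
    intro x
    constructor
    · rintro ⟨h1, h2⟩
      apply Subtype.ext
      exact Prod.ext h1 h2
    · intro h
      exact ⟨congrArg (fun y : Pr ℚ F (AlgebraicClosure ℚ) d => y.1.1) h,
        congrArg (fun y : Pr ℚ F (AlgebraicClosure ℚ) d => y.1.2) h⟩
  unfold sgn
  have h5 := hB
  rw [hA, hC] at h5
  rw [hC]
  have h6 : (2 * (Nat.card {x // (pe F g) x = x} : ℤ)) = (Nat.card {x // (pp d g) x = x} : ℤ) +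
      (Nat.card {x : Pr ℚ F (AlgebraicClosure ℚ) d //
        (g : AlgebraicClosure ℚ →ₐ[ℚ] AlgebraicClosure ℚ).comp x.1.1 = x.1.1 ∧
          g x.1.2 = - x.1.2} : ℤ) := by exact_mod_cast h5
  linarith

private theorem Sq_alg : Algebra.IsAlgebraic ℚ (AlgebraicClosure ℚ) := by
  have h : ∀ (A B : Algebra ℚ (AlgebraicClosure ℚ)),
      @Algebra.IsAlgebraic ℚ (AlgebraicClosure ℚ) _ _ A →
      @Algebra.IsAlgebraic ℚ (AlgebraicClosure ℚ) _ _ B := by
    intro A B h
    obtain rfl := Subsingleton.elim A B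
    exact h
  exact h _ _ (AlgebraicClosure.isAlgebraic ℚ)

private theorem Sq_gal : IsGalois ℚ (AlgebraicClosure ℚ) := by
  have h := Sq_alg
  have h2 : IsAlgClosure ℚ (AlgebraicClosure ℚ) := ⟨inferInstance, h⟩
  exact IsAlgClosure.isGalois _ _

theorem thm_Sq (h1 : St_RelQ) (h2 : St_SgnP) (h3 : St_Rt) : St_Sq := by
  intro k _ _ ι _ F _ _ _ d n hd hrel
  have hq := h1 k ι F d n hd hrel
  have h4 : ∀ i, ∃ R : AlgebraicClosure ℚ, R ≠ 0 ∧ R ^ 2 = algebraMap ℚ (AlgebraicClosure ℚ)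
      ((discr (F i) : ℚ) * Algebra.norm ℚ (d i)) ∧
    ∀ s : AlgebraicClosure ℚ ≃ₐ[ℚ] AlgebraicClosure ℚ,
      s R = (((Equiv.Perm.sign (pe (F i) s) * Equiv.Perm.sign (pp (d i) s) : ℤˣ) : ℤ) :
        AlgebraicClosure ℚ) * R := fun i => h3 (F i) (d i) (hd i)
  choose R hR0 hR2 hRs using h4
  have hsign : ∀ s : AlgebraicClosure ℚ ≃ₐ[ℚ] AlgebraicClosure ℚ,
      ∏ i, (Equiv.Perm.sign (pe (F i) s) * Equiv.Perm.sign (pp (d i) s)) ^ n i = 1 := by
    intro s
    apply Sq_two h2 (fun i => Pr ℚ (F i) (AlgebraicClosure ℚ) (d i))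
      (fun i => F i →ₐ[ℚ] AlgebraicClosure ℚ) n
    intro m _
    have h5 := hq (s ^ m)
    have h6 : ∑ i, n i * sgn (k := ℚ) (d i) (s ^ m) =
        2 * ∑ i, n i * ((Nat.card {x // ((pp (d i) s) ^ m) x = x} : ℤ) -
          (Nat.card {x // ((pe (F i) s) ^ m) x = x} : ℤ)) := by
      rw [Finset.mul_sum]
      apply Finset.sum_congr rfl
      intro i _
      rw [Sq_sgn (d i) (hd i), Sq_ppow, Sq_pepow]
      ring
    rw [h6] at h5
    omega
  have hfix : ∀ s : AlgebraicClosure ℚ ≃ₐ[ℚ] AlgebraicClosure ℚ,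
      s (∏ i, R i ^ n i) = ∏ i, R i ^ n i := by
    intro s
    rw [map_prod]
    have h5 : ∀ i, s (R i ^ n i) =
        ((((Equiv.Perm.sign (pe (F i) s) * Equiv.Perm.sign (pp (d i) s)) ^ n i : ℤˣ) : ℤ) :
          AlgebraicClosure ℚ) * R i ^ n i := by
      intro i
      rw [map_zpow₀, hRs i s, mul_zpow]
      congr 1
      rcases Int.units_eq_one_or (Equiv.Perm.sign (pe (F i) s) * Equiv.Perm.sign (pp (d i) s))
        with h6 | h6
      · rw [h6]
        simp
      · rw [h6]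
        rcases Int.even_or_odd (n i) with h7 | h7
        · rw [h7.neg_one_zpow]
          simp [h7.neg_one_zpow]
        · rw [h7.neg_one_zpow]
          simp [h7.neg_one_zpow]
    rw [Finset.prod_congr rfl fun i _ => h5 i, Finset.prod_mul_distrib]
    have h6 : ∏ i, ((((Equiv.Perm.sign (pe (F i) s) * Equiv.Perm.sign (pp (d i) s)) ^ n i :
        ℤˣ) : ℤ) : AlgebraicClosure ℚ) = 1 := by
      have h7 := congrArg (fun u : ℤˣ => ((u : ℤ) : AlgebraicClosure ℚ)) (hsign s)
      simp only [Units.coe_prod, Units.val_one, Int.cast_one, Int.cast_prod] at h7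
      exact h7
    rw [h6, one_mul]
  have hgal := Sq_gal
  obtain ⟨q, hq⟩ := (InfiniteGalois.mem_range_algebraMap_iff_fixed (k := ℚ)
    (∏ i, R i ^ n i)).mpr hfix
  have hinj : Function.Injective (algebraMap ℚ (AlgebraicClosure ℚ)) :=
    (algebraMap ℚ (AlgebraicClosure ℚ)).injective
  refine ⟨q, ?_, ?_⟩
  · intro h0
    rw [h0, map_zero] at hq
    have h5 : ∏ i, R i ^ n i ≠ 0 := Finset.prod_ne_zero_iff.mpr fun i _ => zpow_ne_zero _ (hR0 i)
    exact h5 hq.symm
  · apply hinj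
    rw [map_pow, hq, map_prod, ← Finset.prod_pow]
    apply Finset.prod_congr rfl
    intro i _
    rw [map_zpow₀, ← hR2 i]
    rw [← zpow_natCast, ← zpow_natCast, ← zpow_mul, ← zpow_mul, mul_comm]

end ART
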