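import Pool.Agent.ART.StB

/-!
# ART, module SumN: a character sum over monic quadratic polynomials
-/

set_option autoImplicit false

namespace ART

open Classical in
private theorem SumN_chi (κ : Type) [Field κ] [Fintype κ] (x : κ) : chi x = quadraticChar κ x := by
  rw [quadraticChar_apply, quadraticCharFun, chi]
  split_ifs <;> rfl

private theorem SumN_mul {κ : Type} [Field κ] [Fintype κ] (x y : κ) :
    chi (x * y) = chi x * chi y := by
  classical
  rw [SumN_chi, SumN_chi, SumN_chi, map_mul]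

private theorem SumN_zero {κ : Type} [Field κ] : chi (0 : κ) = 0 := by
  simp [chi]

private theorem SumN_sq {κ : Type} [Field κ] {x : κ} (h : x ≠ 0) : chi (x ^ 2) = 1 := by
  rw [chi, if_neg (pow_ne_zero 2 h), if_pos ⟨x, by ring⟩]

private theorem SumN_char {κ : Type} [Field κ] (h2 : (2 : κ) ≠ 0) : ringChar κ ≠ 2 := by
  intro h
  have h3 : CharP κ 2 := by
    rw [← h]
    exact ringChar.charP κ
  apply h2
  have := CharP.cast_eq_zero κ 2
  exact_mod_cast this

private theorem SumN_sum {κ : Type} [Field κ] [Fintype κ] (h2 : (2 : κ) ≠ 0) :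
    ∑ x : κ, chi x = 0 := by
  classical
  have h := quadraticChar_sum_zero (F := κ) (SumN_char h2)
  rw [← h]
  exact Finset.sum_congr rfl fun x _ => SumN_chi κ x

private theorem SumN_sub {κ : Type} [Field κ] [Fintype κ] (h2 : (2 : κ) ≠ 0) (c : κ) :
    ∑ x : κ, chi (c - x) = 0 := by
  rw [← SumN_sum h2]
  exact Fintype.sum_equiv (Equiv.subLeft c) _ _ fun x => rfl

private theorem SumN_fib {κ : Type} [Field κ] [Fintype κ] (h2 : (2 : κ) ≠ 0) (G : κ → ℤ) :
    ∑ x : κ, G (x ^ 2) = ∑ u : κ, (chi u + 1) * G u := by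
  classical
  rw [← Finset.sum_fiberwise' (s := Finset.univ) (g := fun x : κ => x ^ 2) (f := G)]
  refine Finset.sum_congr rfl fun u _ => ?_
  rw [Finset.sum_const, nsmul_eq_mul, SumN_chi]
  congr 1
  rw [← quadraticChar_card_sqrts (SumN_char h2) u]
  congr 2
  ext x
  simp

private theorem SumN_c {κ : Type} [Field κ] [Fintype κ] (h2 : (2 : κ) ≠ 0) {c : κ} (hc : c ≠ 0) :
    ∑ x : κ, chi (x ^ 2 - c) = -1 := by
  classical
  rw [SumN_fib h2 (fun u => chi (u - c))]
  have e1 : ∑ u : κ, chi (u - c) = 0 := by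
    rw [← SumN_sum h2]
    exact Fintype.sum_equiv (Equiv.subRight c) _ _ fun x => rfl
  have e2 : ∑ u : κ, (chi u + 1) * chi (u - c) = ∑ u : κ, chi (u * (u - c)) := by
    simp_rw [add_mul, one_mul, Finset.sum_add_distrib, e1, add_zero, SumN_mul]
  rw [e2]
  -- u ≠ 0
  have e3 : ∑ u : κ, chi (u * (u - c)) = ∑ u ∈ Finset.univ.erase (0 : κ), chi (1 - c * u) := by
    rw [← Finset.add_sum_erase Finset.univ (fun u : κ => chi (u * (u - c))) (Finset.mem_univ 0)]
    rw [zero_mul, SumN_zero, zero_add]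
    refine Finset.sum_nbij' (fun u => u⁻¹) (fun u => u⁻¹) ?_ ?_ ?_ ?_ ?_
    · intro u hu
      simpa using hu
    · intro u hu
      simpa using hu
    · intro u _
      exact inv_inv u
    · intro u _
      exact inv_inv u
    · intro u hu
      have hu' : u ≠ 0 := by simpa using hu
      have e4 : u * (u - c) = u ^ 2 * (1 - c * u⁻¹) := by
        field_simp
      rw [e4, SumN_mul, SumN_sq hu', one_mul]
  have e5 : ∑ u : κ, chi (1 - c * u) = 0 := by
    rw [← SumN_sub h2 (1 : κ)]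
    exact Fintype.sum_equiv (Equiv.mulLeft₀ c hc) _ _ fun x => rfl
  have e6 := Finset.add_sum_erase Finset.univ (fun u : κ => chi (1 - c * u)) (Finset.mem_univ 0)
  rw [e5, mul_zero, sub_zero] at e6
  have e7 : chi (1 : κ) = 1 := by
    have := SumN_sq (one_ne_zero (α := κ))
    rwa [one_pow] at this
  rw [e3]
  rw [e7] at e6
  linarith

private theorem SumN_quad {κ : Type} [Field κ] [Fintype κ] (h2 : (2 : κ) ≠ 0) {s e : κ}
    (h : s ^ 2 - 4 * e ≠ 0) : ∑ x : κ, chi (x ^ 2 + s * x + e) = -1 := by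
  have h4 : (4 : κ) ≠ 0 := by
    have : (4 : κ) = 2 * 2 := by norm_num
    rw [this]
    exact mul_ne_zero h2 h2
  rw [← SumN_c h2 (c := (s ^ 2 - 4 * e) / 4) (div_ne_zero h h4)]
  refine Fintype.sum_equiv (Equiv.addRight (s / 2)) _ _ fun x => ?_
  congr 1
  simp only [Equiv.coe_addRight]
  field_simp
  ring

private theorem SumN_claim {κ : Type} [Field κ] [Fintype κ] (h2 : (2 : κ) ≠ 0) {a b : κ}
    (hab : 4 * a ^ 3 + 27 * b ^ 2 ≠ 0) (t : κ) :
    ∑ A : κ, chi ((t ^ 3 + a * t + b) ^ 2 - 3 * t * (t ^ 3 + a * t + b) * A +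
      (3 * t ^ 2 + a) * A ^ 2 - A ^ 3) = 1 + ∑ x : κ, chi ((x - t) * (x ^ 3 + a * x + b)) := by
  classical
  have hs : ∑ x : κ, chi ((x - t) * (x ^ 3 + a * x + b)) =
      ∑ h ∈ Finset.univ.erase (0 : κ), chi (h * ((t + h) ^ 3 + a * (t + h) + b)) := by
    have e1 : ∑ x : κ, chi ((x - t) * (x ^ 3 + a * x + b)) =
        ∑ h : κ, chi (h * ((t + h) ^ 3 + a * (t + h) + b)) := by
      refine (Fintype.sum_equiv (Equiv.addLeft t) _ _ fun h => ?_).symm
      simp only [Equiv.coe_addLeft]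
      congr 1
      ring
    rw [e1, ← Finset.add_sum_erase Finset.univ _ (Finset.mem_univ (0 : κ)), zero_mul, SumN_zero,
      zero_add]
  rw [hs]
  by_cases hF : t ^ 3 + a * t + b = 0
  · -- the double root
    have hb : b = -t ^ 3 - a * t := by linear_combination hF
    have hD : t ^ 2 - 4 * (t ^ 2 + a) ≠ 0 := by
      intro h
      apply hab
      rw [hb]
      linear_combination (-(3 * t ^ 2 + a) ^ 2) * h
    have e1 : ∀ A : κ, (t ^ 3 + a * t + b) ^ 2 - 3 * t * (t ^ 3 + a * t + b) * A +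
        (3 * t ^ 2 + a) * A ^ 2 - A ^ 3 = A ^ 2 * ((3 * t ^ 2 + a) - A) := by
      intro A
      rw [hF]
      ring
    simp_rw [e1]
    rw [← Finset.add_sum_erase Finset.univ _ (Finset.mem_univ (0 : κ))]
    have e2 : ∑ A ∈ Finset.univ.erase (0 : κ), chi (A ^ 2 * ((3 * t ^ 2 + a) - A)) =
        ∑ A ∈ Finset.univ.erase (0 : κ), chi ((3 * t ^ 2 + a) - A) := by
      refine Finset.sum_congr rfl fun A hA => ?_
      rw [SumN_mul, SumN_sq (by simpa using hA), one_mul]
    have e3 := Finset.add_sum_erase Finset.univ (fun A : κ => chi ((3 * t ^ 2 + a) - A))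
      (Finset.mem_univ (0 : κ))
    rw [SumN_sub h2] at e3
    have e4 : ∑ h ∈ Finset.univ.erase (0 : κ), chi (h * ((t + h) ^ 3 + a * (t + h) + b)) =
        ∑ h ∈ Finset.univ.erase (0 : κ), chi (h ^ 2 + (3 * t) * h + (3 * t ^ 2 + a)) := by
      refine Finset.sum_congr rfl fun h hh => ?_
      have e5 : h * ((t + h) ^ 3 + a * (t + h) + b) =
          h ^ 2 * (h ^ 2 + (3 * t) * h + (3 * t ^ 2 + a)) := by
        rw [hb]
        ring
      rw [e5, SumN_mul, SumN_sq (by simpa using hh), one_mul]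
    have e5 := Finset.add_sum_erase Finset.univ
      (fun h : κ => chi (h ^ 2 + (3 * t) * h + (3 * t ^ 2 + a))) (Finset.mem_univ (0 : κ))
    rw [SumN_quad h2 (by
      intro h
      apply hD
      linear_combination h)] at e5
    rw [e2, e4]
    simp only [ne_eq, OfNat.ofNat_ne_zero, not_false_eq_true, zero_pow, zero_mul, sub_zero,
      SumN_zero, mul_zero, zero_add] at e3 e5 ⊢
    linarith
  · rw [← Finset.add_sum_erase Finset.univ _ (Finset.mem_univ (0 : κ))]
    congr 1
    · rw [← SumN_sq hF]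
      congr 1
      ring
    · refine Finset.sum_nbij' (fun A => -(t ^ 3 + a * t + b) / A)
        (fun A => -(t ^ 3 + a * t + b) / A) ?_ ?_ ?_ ?_ ?_
      · intro A hA
        have hA' : A ≠ 0 := by simpa using hA
        exact Finset.mem_erase.2 ⟨div_ne_zero (neg_ne_zero.2 hF) hA', Finset.mem_univ _⟩
      · intro A hA
        have hA' : A ≠ 0 := by simpa using hA
        exact Finset.mem_erase.2 ⟨div_ne_zero (neg_ne_zero.2 hF) hA', Finset.mem_univ _⟩
      · intro A hA
        have hA' : A ≠ 0 := by simpa using hA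
        exact div_div_cancel₀ (neg_ne_zero.2 hF)
      · intro A hA
        have hA' : A ≠ 0 := by simpa using hA
        exact div_div_cancel₀ (neg_ne_zero.2 hF)
      · intro A hA
        have hA' : A ≠ 0 := by simpa using hA
        have hh : (-(t ^ 3 + a * t + b) / A) ≠ 0 := div_ne_zero (neg_ne_zero.2 hF) hA'
        have hAA : (A ^ 2 / (t ^ 3 + a * t + b)) ≠ 0 := div_ne_zero (pow_ne_zero 2 hA') hF
        have e6 : (t ^ 3 + a * t + b) ^ 2 - 3 * t * (t ^ 3 + a * t + b) * A +
            (3 * t ^ 2 + a) * A ^ 2 - A ^ 3 = (A ^ 2 / (t ^ 3 + a * t + b)) ^ 2 *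
            (-(t ^ 3 + a * t + b) / A * ((t + -(t ^ 3 + a * t + b) / A) ^ 3 +
              a * (t + -(t ^ 3 + a * t + b) / A) + b)) := by
          generalize hFF : t ^ 3 + a * t + b = F at *
          have hb : b = F - t ^ 3 - a * t := by linear_combination hFF
          rw [hb]
          field_simp
          ring
        rw [e6, SumN_mul, SumN_sq hAA, one_mul]

theorem thm_SumN : St_SumN := by
  intro κ _ _ h2 a b hab
  classical
  have e1 : ∑ s : κ, ∑ p : κ,
      chi ((s ^ 2 - p + a) ^ 2 * p + (s ^ 2 - p + a) * (b - s * p) * s + (b - s * p) ^ 2) =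
      ∑ t : κ, ∑ A : κ, chi ((t ^ 3 + a * t + b) ^ 2 - 3 * t * (t ^ 3 + a * t + b) * A +
      (3 * t ^ 2 + a) * A ^ 2 - A ^ 3) := by
    refine Fintype.sum_equiv (Equiv.neg κ) _ _ fun s => ?_
    refine Fintype.sum_equiv (Equiv.subLeft (s ^ 2 + a)) _ _ fun p => ?_
    simp only [Equiv.neg_apply, Equiv.subLeft_apply]
    congr 1
    ring
  rw [e1]
  simp_rw [SumN_claim h2 hab]
  rw [Finset.sum_add_distrib]
  have e2 : ∑ t : κ, ∑ x : κ, chi ((x - t) * (x ^ 3 + a * x + b)) = 0 := by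
    rw [Finset.sum_comm]
    refine Finset.sum_eq_zero fun x _ => ?_
    simp_rw [SumN_mul]
    rw [← Finset.sum_mul, SumN_sub h2, zero_mul]
  rw [e2]
  simp

end ART
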