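import Pool.Agent.ART.StB

/-!
# ART part B: `thm_Tw : St_Tw` (character sums and quadratic twists over finite fields)
-/

set_option autoImplicit false

namespace ART

open Finset

private theorem Tw_ringChar {κ : Type} [Field κ] (h2 : (2 : κ) ≠ 0) : ringChar κ ≠ 2 := by
  intro h
  have h1 : ((ringChar κ : ℕ) : κ) = 0 := CharP.cast_eq_zero κ (ringChar κ)
  rw [h] at h1
  exact h2 (by exact_mod_cast h1)

open Classical in
/-- `chi` is the quadratic character. -/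
theorem Tw_chi {κ : Type} [Field κ] [Fintype κ] (x : κ) : chi x = quadraticChar κ x := by
  rw [quadraticChar_apply, quadraticCharFun, chi]
  congr

theorem Tw_chi_mul {κ : Type} [Field κ] [Fintype κ] (x y : κ) : chi (x * y) = chi x * chi y := by
  classical
  rw [Tw_chi, Tw_chi, Tw_chi, map_mul]

theorem Tw_chi_sq {κ : Type} [Field κ] [Fintype κ] (u : κ) (hu : u ≠ 0) : chi (u ^ 2) = 1 := by
  have h1 : u ^ 2 ≠ 0 := pow_ne_zero 2 hu
  have h2 : IsSquare (u ^ 2) := IsSquare.sq u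
  simp [chi, h1, h2]

/-- The number of the square roots of `a` is `1 + chi a`. -/
theorem Tw_card_sqrts {κ : Type} [Field κ] [Fintype κ] (h2 : (2 : κ) ≠ 0) (a : κ) :
    (Nat.card {y : κ // y ^ 2 = a} : ℤ) = 1 + chi a := by
  classical
  have h := quadraticChar_card_sqrts (F := κ) (Tw_ringChar h2) a
  rw [Tw_chi, add_comm, ← h]
  congr 1
  rw [Nat.card_eq_fintype_card, Set.toFinset_card]
  exact Fintype.card_congr (Equiv.refl _)

/-- The number of the points of `y ^ 2 = f x`. -/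
theorem Tw_card_points {κ : Type} [Field κ] [Fintype κ] (h2 : (2 : κ) ≠ 0) (f : κ → κ) :
    (Nat.card {z : κ × κ // z.2 ^ 2 = f z.1} : ℤ) = Nat.card κ + ∑ x : κ, chi (f x) := by
  classical
  have e : {z : κ × κ // z.2 ^ 2 = f z.1} ≃ Σ x : κ, {y : κ // y ^ 2 = f x} :=
    { toFun := fun z => ⟨z.1.1, z.1.2, z.2⟩
      invFun := fun z => ⟨(z.1, z.2.1), z.2.2⟩
      left_inv := fun z => rfl
      right_inv := fun z => rfl }
  rw [Nat.card_congr e, Nat.card_sigma]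
  push_cast
  rw [Finset.sum_congr rfl (fun x _ => Tw_card_sqrts h2 (f x)), Finset.sum_add_distrib]
  simp [Nat.card_eq_fintype_card]

theorem Tw_ap {κ : Type} [Field κ] [Fintype κ] (h2 : (2 : κ) ≠ 0) (c₄ c₆ : κ) :
    ap κ c₄ c₆ = - ∑ x : κ, chi (x ^ 3 - 27 * c₄ * x - 54 * c₆) := by
  have h := Tw_card_points h2 (fun x : κ => x ^ 3 - 27 * c₄ * x - 54 * c₆)
  have h' : (Nat.card {z : κ × κ // z.2 ^ 2 = z.1 ^ 3 - 27 * c₄ * z.1 - 54 * c₆} : ℤ) =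
      Nat.card κ + ∑ x : κ, chi (x ^ 3 - 27 * c₄ * x - 54 * c₆) := h
  rw [ap, h']
  ring

theorem Tw_twist {κ : Type} [Field κ] [Fintype κ] (h2 : (2 : κ) ≠ 0) (c₄ c₆ d : κ) (hd : d ≠ 0) :
    ap κ (d ^ 2 * c₄) (d ^ 3 * c₆) = chi d * ap κ c₄ c₆ := by
  rw [Tw_ap h2, Tw_ap h2]
  have h1 : ∑ x : κ, chi (x ^ 3 - 27 * (d ^ 2 * c₄) * x - 54 * (d ^ 3 * c₆)) =
      ∑ x : κ, chi ((d * x) ^ 3 - 27 * (d ^ 2 * c₄) * (d * x) - 54 * (d ^ 3 * c₆)) := by
    symm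
    exact (Equiv.mulLeft₀ d hd).bijective.sum_comp
      (fun x => chi (x ^ 3 - 27 * (d ^ 2 * c₄) * x - 54 * (d ^ 3 * c₆)))
  have h3 : ∀ x : κ, chi ((d * x) ^ 3 - 27 * (d ^ 2 * c₄) * (d * x) - 54 * (d ^ 3 * c₆)) =
      chi d * chi (x ^ 3 - 27 * c₄ * x - 54 * c₆) := by
    intro x
    have h4 : (d * x) ^ 3 - 27 * (d ^ 2 * c₄) * (d * x) - 54 * (d ^ 3 * c₆) =
        d ^ 2 * (d * (x ^ 3 - 27 * c₄ * x - 54 * c₆)) := by ring
    rw [h4, Tw_chi_mul, Tw_chi_mul, Tw_chi_sq d hd, one_mul]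
  rw [h1, Finset.sum_congr rfl (fun x _ => h3 x), ← Finset.mul_sum]
  ring

theorem thm_Tw : St_Tw := by
  intro κ _ _ h2 c₄ c₆
  refine ⟨Tw_ap h2 c₄ c₆, fun u hu => ?_, fun d hd => Tw_twist h2 c₄ c₆ d hd⟩
  have h := Tw_twist h2 c₄ c₆ (u ^ 2) (pow_ne_zero 2 hu)
  rw [Tw_chi_sq u hu, one_mul] at h
  rw [← h]
  congr 1 <;> ring

end ART
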