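import Pool.Agent.ART.StC

/-!
# ART, module WL: reduction to an integral `d`
-/

set_option autoImplicit false

namespace ART

open NumberField IsDedekindDomain Polynomial

section

variable {k F M : Type} [Field k] [Field F] [Field M] [Algebra k F] [Algebra k M]

/-- The pairs for `d` and for `b ^ 2 d`. -/
private noncomputable def WL_equiv (d b d' : F) (hb : b ≠ 0) (hd : d' = b ^ 2 * d) :
    Pr k F M d ≃ Pr k F M d' where
  toFun x := ⟨(x.1.1, x.1.2 * x.1.1 b), by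
    have h := x.2
    simp only [hd, map_mul, map_pow, mul_pow]
    rw [h]; ring⟩
  invFun x := ⟨(x.1.1, x.1.2 * (x.1.1 b)⁻¹), by
    have h := x.2
    have hb' : x.1.1 b ≠ 0 := by
      intro h0
      exact hb ((map_eq_zero x.1.1).1 h0)
    have h2 : x.1.1 d' = x.1.1 b ^ 2 * x.1.1 d := by
      rw [← map_pow, ← map_mul]
      exact congrArg x.1.1 hd
    simp only [mul_pow]
    rw [h, h2]
    field_simp⟩
  left_inv x := by
    have hb' : x.1.1 b ≠ 0 := by
      intro h0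
      exact hb ((map_eq_zero x.1.1).1 h0)
    apply Subtype.ext
    apply Prod.ext
    · rfl
    · show x.1.2 * x.1.1 b * (x.1.1 b)⁻¹ = x.1.2
      field_simp
  right_inv x := by
    have hb' : x.1.1 b ≠ 0 := by
      intro h0
      exact hb ((map_eq_zero x.1.1).1 h0)
    apply Subtype.ext
    apply Prod.ext
    · rfl
    · show x.1.2 * (x.1.1 b)⁻¹ * x.1.1 b = x.1.2
      field_simp

private lemma WL_sgn (d b d' : F) (hb : b ≠ 0) (hd : d' = b ^ 2 * d) (g : M ≃ₐ[k] M) :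
    sgn d g = sgn d' g := by
  have key : ∀ x : Pr k F M d, (g : M →ₐ[k] M).comp x.1.1 = x.1.1 →
      g (x.1.1 b) = x.1.1 b := by
    intro x hx
    have := congrArg (fun f : F →ₐ[k] M => f b) hx
    simpa using this
  have hbx : ∀ x : Pr k F M d, x.1.1 b ≠ 0 := by
    intro x h0
    exact hb ((map_eq_zero x.1.1).1 h0)
  have h1 : Nat.card {x : Pr k F M d // (g : M →ₐ[k] M).comp x.1.1 = x.1.1 ∧ g x.1.2 = x.1.2} =
      Nat.card {x : Pr k F M d' // (g : M →ₐ[k] M).comp x.1.1 = x.1.1 ∧ g x.1.2 = x.1.2} := by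
    refine Nat.card_congr (Equiv.subtypeEquiv (WL_equiv d b d' hb hd) ?_)
    intro x
    show ((g : M →ₐ[k] M).comp x.1.1 = x.1.1 ∧ g x.1.2 = x.1.2) ↔
      ((g : M →ₐ[k] M).comp x.1.1 = x.1.1 ∧ g (x.1.2 * x.1.1 b) = x.1.2 * x.1.1 b)
    constructor
    · rintro ⟨hx, hz⟩
      refine ⟨hx, ?_⟩
      rw [map_mul, hz, key x hx]
    · rintro ⟨hx, hz⟩
      refine ⟨hx, ?_⟩
      rw [map_mul, key x hx] at hz
      exact mul_right_cancel₀ (hbx x) hz
  have h2 : Nat.card {x : Pr k F M d // (g : M →ₐ[k] M).comp x.1.1 = x.1.1 ∧ g x.1.2 = - x.1.2} =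
      Nat.card {x : Pr k F M d' // (g : M →ₐ[k] M).comp x.1.1 = x.1.1 ∧ g x.1.2 = - x.1.2} := by
    refine Nat.card_congr (Equiv.subtypeEquiv (WL_equiv d b d' hb hd) ?_)
    intro x
    show ((g : M →ₐ[k] M).comp x.1.1 = x.1.1 ∧ g x.1.2 = - x.1.2) ↔
      ((g : M →ₐ[k] M).comp x.1.1 = x.1.1 ∧ g (x.1.2 * x.1.1 b) = - (x.1.2 * x.1.1 b))
    constructor
    · rintro ⟨hx, hz⟩
      refine ⟨hx, ?_⟩
      rw [map_mul, hz, key x hx]; ring
    · rintro ⟨hx, hz⟩
      refine ⟨hx, ?_⟩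
      rw [map_mul, key x hx, ← neg_mul] at hz
      exact mul_right_cancel₀ (hbx x) hz
  unfold sgn
  rw [h1, h2]

end

theorem thm_WL : St_WL := by
  intro F _ _ d hd
  obtain ⟨a, b, hb, hab⟩ := IsFractionRing.div_surjective (A := 𝓞 F) d
  have hb0 : (b : 𝓞 F) ≠ 0 := nonZeroDivisors.ne_zero hb
  have hbF : (algebraMap (𝓞 F) F b) ≠ 0 := by
    intro h0
    exact hb0 ((map_eq_zero_iff _ (IsFractionRing.injective (𝓞 F) F)).1 h0)
  have hd' : ((a * b : 𝓞 F) : F) = (algebraMap (𝓞 F) F b) ^ 2 * d := by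
    rw [← hab, show ((a * b : 𝓞 F) : F) = algebraMap (𝓞 F) F (a * b) from rfl, map_mul]
    field_simp
  refine ⟨a * b, ?_, ?_⟩
  · intro h0
    have h1 : ((a * b : 𝓞 F) : F) = 0 := by rw [h0]; rfl
    rw [hd'] at h1
    exact (mul_ne_zero (pow_ne_zero 2 hbF) hd) h1
  · intro k _ _ _
    constructor
    · rintro E A ⟨u, hu, h4, h6⟩
      refine ⟨u / (algebraMap (𝓞 F) F b), div_ne_zero hu hbF, ?_, ?_⟩
      · rw [h4, hd']
        field_simp
      · rw [h6, hd']
        field_simp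
    · intro M _ _ g
      exact WL_sgn d _ _ hbF hd' g

end ART
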