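import Pool.Agent.ART.Any
import Pool.Agent.ART.Area
import Pool.Agent.ART.Bij
import Pool.Agent.ART.Cl
import Pool.Agent.ART.Cnt
import Pool.Agent.ART.Comb
import Pool.Agent.ART.DFour
import Pool.Agent.ART.Deg
import Pool.Agent.ART.Dkz
import Pool.Agent.ART.EF
import Pool.Agent.ART.EmbF
import Pool.Agent.ART.Eul
import Pool.Agent.ART.Exp
import Pool.Agent.ART.Fam
import Pool.Agent.ART.Fin
import Pool.Agent.ART.Frob
import Pool.Agent.ART.Hyp
import Pool.Agent.ART.Inf
import Pool.Agent.ART.LPol
import Pool.Agent.ART.LPt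
import Pool.Agent.ART.LS
import Pool.Agent.ART.LW
import Pool.Agent.ART.LatD
import Pool.Agent.ART.LatS
import Pool.Agent.ART.LatU
import Pool.Agent.ART.Loc
import Pool.Agent.ART.LocP
import Pool.Agent.ART.Per
import Pool.Agent.ART.Prd
import Pool.Agent.ART.Pts
import Pool.Agent.ART.Quad
import Pool.Agent.ART.Quart
import Pool.Agent.ART.RelQ
import Pool.Agent.ART.Res
import Pool.Agent.ART.Rt
import Pool.Agent.ART.SgnP
import Pool.Agent.ART.Sq
import Pool.Agent.ART.SumN
import Pool.Agent.ART.Tw
import Pool.Agent.ART.Two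
import Pool.Agent.ART.WL

/-!
# ART: all modules together
-/

set_option autoImplicit false

namespace ART

theorem all_Two : St_Two := thm_Two

theorem all_Quad : St_Quad := thm_Quad thm_Tw thm_SumN all_Two

theorem all_Fam : St_Fam := thm_Fam all_Quad

theorem all_LPol : St_LPol := thm_LPol thm_Tw thm_Pts

theorem all_LS : St_LS := thm_LS thm_Eul thm_Dkz thm_Res thm_Loc

theorem all_LW : St_LW := thm_LW thm_Tw all_Fam all_LPol thm_Res thm_Deg

theorem all_Bij : St_Bij := thm_Bij thm_Deg

theorem all_Cnt : St_Cnt := thm_Cnt thm_Deg all_Bij thm_EmbF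

theorem all_EF : St_EF := thm_EF all_LW thm_Cl all_Cnt thm_Frob thm_Comb thm_Deg

theorem all_Prd : St_Prd := thm_Prd all_EF all_LS thm_Deg

theorem all_LPt : St_LPt := thm_LPt all_Prd all_LS thm_WL

theorem all_LatU : St_LatU := thm_LatU thm_LatD

theorem all_LocP : St_LocP := thm_LocP all_LatU thm_LatS thm_Area

theorem all_Inf : St_Inf := thm_Inf thm_Any

theorem all_Exp : St_Exp := thm_Exp all_Inf

theorem all_RelQ : St_RelQ := thm_RelQ thm_Any

theorem all_Sq : St_Sq := thm_Sq all_RelQ thm_SgnP thm_Rt

theorem all_Per : St_Per := thm_Per all_LocP all_Exp all_Sq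

theorem all_WellDefined : WellDefined := thm_WellDefined all_Per

theorem all_General : General := thm_General all_Per all_LPt

theorem all_Dihedral : Dihedral := thm_Dihedral all_General thm_DFour

theorem all_Quartic : Quartic := thm_Quartic all_General thm_Quart

theorem all_Hyperelementary : Hyperelementary := thm_Hyperelementary all_General

end ART
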