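import Pool.Agent.ART.StC

/-!
# ART, module Any: transport of the relation to every algebraically closed field
-/

set_option autoImplicit false

namespace ART

open scoped ComplexConjugate
open NumberField IsDedekindDomain Polynomial

private theorem Any_sgn {k F M N : Type} [Field k] [Field F] [Field M] [Field N] [Algebra k F]
    [Algebra k M] [Algebra k N] (ι : M →ₐ[k] N) (g : M ≃ₐ[k] M) (g₂ : N ≃ₐ[k] N)
    (h : ∀ x, ι (g x) = g₂ (ι x)) (d : F) (hφ : ∀ φ : F →ₐ[k] N, ∃ φ' : F →ₐ[k] M, ι.comp φ' = φ)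
    (hz : ∀ (φ : F →ₐ[k] M) (z : N), z ^ 2 = ι (φ d) → ∃ z', ι z' = z) : sgn d g = sgn d g₂ := by
  have hinj : Function.Injective ι := ι.injective
  have hf : ∀ x : Pr k F M d, (ι x.1.2) ^ 2 = (ι.comp x.1.1) d := by
    intro x
    rw [← map_pow, x.2]
    rfl
  let f : Pr k F M d → Pr k F N d := fun x => ⟨(ι.comp x.1.1, ι x.1.2), hf x⟩
  have hcomp : ∀ φ ψ : F →ₐ[k] M, ι.comp φ = ι.comp ψ → φ = ψ := by
    intro φ ψ e
    ext x
    exact hinj (DFunLike.congr_fun e x)
  have hbij : Function.Bijective f := by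
    constructor
    · rintro ⟨⟨φ, z⟩, hx⟩ ⟨⟨ψ, w⟩, hy⟩ e
      have e1 := congrArg Subtype.val e
      have e2 : ι.comp φ = ι.comp ψ := congrArg Prod.fst e1
      have e3 : ι z = ι w := congrArg Prod.snd e1
      have e4 := hcomp _ _ e2
      have e5 := hinj e3
      subst e4
      subst e5
      rfl
    · rintro ⟨⟨φ, z⟩, hx⟩
      obtain ⟨φ', rfl⟩ := hφ φ
      obtain ⟨z', rfl⟩ := hz φ' z hx
      refine ⟨⟨(φ', z'), ?_⟩, rfl⟩
      apply hinj
      rw [map_pow]
      exact hx
  let e : Pr k F M d ≃ Pr k F N d := Equiv.ofBijective f hbij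
  have k1 : ∀ x : Pr k F M d, (g : M →ₐ[k] M).comp x.1.1 = x.1.1 ↔
      (g₂ : N →ₐ[k] N).comp (e x).1.1 = (e x).1.1 := by
    intro x
    constructor
    · intro hx
      ext y
      show g₂ (ι (x.1.1 y)) = ι (x.1.1 y)
      rw [← h]
      exact congrArg ι (DFunLike.congr_fun hx y)
    · intro hx
      ext y
      apply hinj
      show ι (g (x.1.1 y)) = ι (x.1.1 y)
      rw [h]
      exact DFunLike.congr_fun hx y
  have k2 : ∀ x : Pr k F M d, g x.1.2 = x.1.2 ↔ g₂ (e x).1.2 = (e x).1.2 := by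
    intro x
    show _ ↔ g₂ (ι x.1.2) = ι x.1.2
    rw [← h]
    exact hinj.eq_iff.symm
  have k3 : ∀ x : Pr k F M d, g x.1.2 = - x.1.2 ↔ g₂ (e x).1.2 = - (e x).1.2 := by
    intro x
    show _ ↔ g₂ (ι x.1.2) = - ι x.1.2
    rw [← h, ← map_neg]
    exact hinj.eq_iff.symm
  have c1 := Nat.card_congr (e.subtypeEquiv (p := fun x : Pr k F M d =>
      (g : M →ₐ[k] M).comp x.1.1 = x.1.1 ∧ g x.1.2 = x.1.2)
    (q := fun x : Pr k F N d => (g₂ : N →ₐ[k] N).comp x.1.1 = x.1.1 ∧ g₂ x.1.2 = x.1.2)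
    fun x => and_congr (k1 x) (k2 x))
  have c2 := Nat.card_congr (e.subtypeEquiv (p := fun x : Pr k F M d =>
      (g : M →ₐ[k] M).comp x.1.1 = x.1.1 ∧ g x.1.2 = - x.1.2)
    (q := fun x : Pr k F N d => (g₂ : N →ₐ[k] N).comp x.1.1 = x.1.1 ∧ g₂ x.1.2 = - x.1.2)
    fun x => and_congr (k1 x) (k3 x))
  unfold sgn
  rw [c1, c2]

/-- The relation holds in every algebraically closed field. -/
theorem thm_Any : St_Any := by
  intro k Ω _ _ _ _ _ g
  let ι : AlgebraicClosure k →ₐ[k] Ω := IsAlgClosed.lift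
  let : Algebra (AlgebraicClosure k) Ω := ι.toRingHom.toAlgebra
  have hst : IsScalarTower k (AlgebraicClosure k) Ω := IsScalarTower.of_algebraMap_eq fun x =>
    (ι.commutes x).symm
  have hmem : ∀ y : Ω, IsIntegral k y → ∃ x, ι x = y := by
    intro y hy
    have h1 : IsIntegral (AlgebraicClosure k) y := hy.tower_top
    have h2 := IsAlgClosed.degree_eq_one_of_irreducible (AlgebraicClosure k)
      (minpoly.irreducible h1)
    exact minpoly.mem_range_of_degree_eq_one (AlgebraicClosure k) y h2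
  refine ⟨g.restrictNormal (AlgebraicClosure k), ?_⟩
  intro F _ _ _ d
  have hfin : Algebra.IsIntegral k F := by
    have h1 : IsScalarTower ℚ k F := inferInstance
    have h2 : FiniteDimensional k F := FiniteDimensional.right ℚ k F
    exact inferInstance
  refine (Any_sgn ι (g.restrictNormal (AlgebraicClosure k)) g (fun x => ?_) d (fun φ => ?_)
    (fun φ z hz => ?_)).symm
  · exact AlgEquiv.restrictNormal_commutes g (AlgebraicClosure k) x
  · have h1 : ∀ x, φ x ∈ ι.range := by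
      intro x
      obtain ⟨y, hy⟩ := hmem (φ x) ((hfin.isIntegral x).map φ)
      exact ⟨y, hy⟩
    let ψ : F →ₐ[k] ι.range := φ.codRestrict ι.range h1
    let e : AlgebraicClosure k ≃ₐ[k] ι.range := AlgEquiv.ofInjective ι ι.injective
    refine ⟨(e.symm : ι.range →ₐ[k] AlgebraicClosure k).comp ψ, ?_⟩
    ext x
    have h2 : e (e.symm (ψ x)) = ψ x := e.apply_symm_apply _
    exact congrArg Subtype.val h2
  · apply hmem
    have h1 : IsIntegral k (z ^ 2) := by
      rw [hz]
      exact ((hfin.isIntegral d).map φ).map ι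
    exact IsIntegral.of_pow (by norm_num) h1

end ART
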