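import Mathlib

/-!
# ART: Artin formalism for the rationality of central L-values (the definitions of the statement)

Campaign MP_90f827_nt. `k` is a number field, `E` an elliptic curve over `k`, `F_i / k` number fields, `d_i` nonzero elements
of `F_i`, `n_i` integers with `∑ n_i Ind χ_(d_i) = 0` (virtual representation of the Galois group of `k`), `A_i / F_i` the twist of
`E` by `d_i`. Then `∏ (L(1, A_i) / Ω(A_i)) ^ n_i` is a nonzero rational number.
-/

set_option autoImplicit false

namespace ART

open scoped ComplexConjugate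
open NumberField IsDedekindDomain Polynomial

/-! ## The statement -/

section

variable {F : Type} [Field F] [NumberField F]

/-- `c` is the value at `s = 1` of an analytic continuation of the L-series of `A` to an open set containing the half plane
`2 < re s` and the half line `[1, ∞)`. -/
def IsLValue (A : WeierstrassCurve F) (c : ℂ) : Prop :=
  ∃ (U : Set ℂ) (f : ℂ → ℂ), IsOpen U ∧ (∀ s : ℂ, 2 < s.re → s ∈ U) ∧
    (∀ t : ℝ, 1 ≤ t → (t : ℂ) ∈ U) ∧ DifferentiableOn ℂ f U ∧
    (∀ s : ℂ, 2 < s.re → f s = A.LSeries s) ∧ f 1 = c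

/-- The lattice `L` is the period lattice of the invariant differential `dx / (2 y + a₁ x + a₃)` on the curve `W`:
`g₂(L) = c₄ / 12` and `g₃(L) = c₆ / 216`, so that `z ↦ (℘(z) - b₂ / 12, (℘'(z) - a₁ x - a₃) / 2)` is the uniformisation. -/
def IsPer (W : WeierstrassCurve ℂ) (L : PeriodPair) : Prop := 12 * L.g₂ = W.c₄ ∧ 216 * L.g₃ = W.c₆

/-- `P` is the local factor of the period at the infinite place `v`: a nonzero real period if `v` is real, and
`Im (ω₁ conj ω₂)` for a basis `ω₁, ω₂` of the lattice of periods if `v` is complex. -/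
def IsLocPer (A : WeierstrassCurve F) (v : InfinitePlace F) (P : ℝ) : Prop :=
  ∃ L : PeriodPair, IsPer (A.map v.embedding) L ∧ (v.IsReal → P ≠ 0 ∧ (P : ℂ) ∈ L.lattice) ∧
    (v.IsComplex → P = (L.ω₁ * conj L.ω₂).im)

/-- `x = Ω(A) = |d_F|^(1/2) ∏ P_v`. -/
def IsOmega (A : WeierstrassCurve F) (x : ℝ) : Prop :=
  ∃ P : InfinitePlace F → ℝ, (∀ v, IsLocPer A v (P v)) ∧
    x = Real.sqrt |(discr F : ℝ)| * ∏ v, P v

/-- `A` is the quadratic twist by `d` of the base change of `E` (the invariants `c₄, c₆` determine a curve over a field of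
characteristic zero up to the factors `u ^ 4, u ^ 6`). -/
def IsTwist {k : Type} [Field k] [Algebra k F] (E : WeierstrassCurve k) (d : F)
    (A : WeierstrassCurve F) : Prop :=
  ∃ u : F, u ≠ 0 ∧ A.c₄ = u ^ 4 * d ^ 2 * algebraMap k F E.c₄ ∧
    A.c₆ = u ^ 6 * d ^ 3 * algebraMap k F E.c₆

end

/-- The pairs of a `k`-embedding of `F` and a square root of the image of `d`. -/
abbrev Pr (k F M : Type) [Field k] [Field F] [Field M] [Algebra k F] [Algebra k M] (d : F) : Type :=
  {x : (F →ₐ[k] M) × M // x.2 ^ 2 = x.1 d}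

/-- Twice the trace of `g` on the representation of `Gal(M/k)` induced from the quadratic character of `d ∈ F`: the number
of the pairs `(φ, z)`, `z ^ 2 = φ d`, with `g φ = φ` and `g z = z`, minus the number of those with `g φ = φ` and `g z = - z`. -/
noncomputable def sgn {k F M : Type} [Field k] [Field F] [Field M] [Algebra k F] [Algebra k M]
    (d : F) (g : M ≃ₐ[k] M) : ℤ :=
  (Nat.card {x : Pr k F M d // (g : M →ₐ[k] M).comp x.1.1 = x.1.1 ∧ g x.1.2 = x.1.2} : ℤ) -
    Nat.card {x : Pr k F M d // (g : M →ₐ[k] M).comp x.1.1 = x.1.1 ∧ g x.1.2 = - x.1.2}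

end ART
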