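import Pool.Agent.ART.Base

/-!
# ART: Artin formalism for the rationality of central L-values (auxiliary definitions of the proof)
-/

set_option autoImplicit false

namespace ART

open scoped ComplexConjugate
open NumberField IsDedekindDomain Polynomial

section

variable {F : Type} [Field F] [NumberField F]

/-- The local polynomial of Mathlib at the prime `w`. -/
noncomputable def lp (A : WeierstrassCurve F) (w : HeightOneSpectrum (𝓞 F)) : ℤ[X] :=
  (A.baseChange (w.adicCompletion F)).localPolynomial (w.adicCompletionIntegers F)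

/-- The norm of the prime `w`. -/
noncomputable def nm (w : HeightOneSpectrum (𝓞 F)) : ℕ := Ideal.absNorm w.asIdeal

/-- The inverse of the Euler factor at the prime `w`. -/
noncomputable def evp (A : WeierstrassCurve F) (w : HeightOneSpectrum (𝓞 F)) (s : ℂ) : ℂ :=
  aeval ((nm w : ℂ) ^ (-s)) (lp A w)

/-- The residue map at the prime `w` to the residue field of the completion. -/
noncomputable def rd (w : HeightOneSpectrum (𝓞 F)) :
    𝓞 F →+* IsLocalRing.ResidueField (w.adicCompletionIntegers F) :=
  (IsLocalRing.residue (w.adicCompletionIntegers F)).comp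
    (algebraMap (𝓞 F) (w.adicCompletionIntegers F))

/-- The primes of `F` over the prime `v` of `k`. -/
def ovr {k : Type} [Field k] [NumberField k] (F : Type) [Field F] [NumberField F] [Algebra k F]
    (v : HeightOneSpectrum (𝓞 k)) : Set (HeightOneSpectrum (𝓞 F)) :=
  {w | w.asIdeal.comap (algebraMap (𝓞 k) (𝓞 F)) = v.asIdeal}

/-- The residue degree: `nm w = nm v ^ rdeg v w` for `w` over `v`. -/
noncomputable def rdeg {k : Type} [Field k] [NumberField k] (v : HeightOneSpectrum (𝓞 k))
    (w : HeightOneSpectrum (𝓞 F)) : ℕ := Nat.log (nm v) (nm w)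

end

open Classical in
/-- The quadratic character. -/
noncomputable def chi {κ : Type} [CommRing κ] (x : κ) : ℤ :=
  if x = 0 then 0 else if IsSquare x then 1 else -1

/-- `q` minus the number of the points of the affine curve `y ^ 2 = x ^ 3 - 27 c₄ x - 54 c₆`. -/
noncomputable def ap (κ : Type) [Field κ] (c₄ c₆ : κ) : ℤ :=
  (Nat.card κ : ℤ) - Nat.card {z : κ × κ // z.2 ^ 2 = z.1 ^ 3 - 27 * c₄ * z.1 - 54 * c₆}

end ART
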