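import Mathlib

/-!
# ART: hyperelementary groups (definition)
-/

set_option autoImplicit false

namespace ART

/-- `H` is hyperelementary: it has a normal cyclic subgroup `C` such that every element of `H / C` has
order a power of a fixed prime `p`. -/
def Hyper {G : Type} [Group G] (H : Subgroup G) : Prop :=
  ∃ p : ℕ, p.Prime ∧ ∃ C : Subgroup G, C ≤ H ∧ IsCyclic C ∧ (∀ h ∈ H, ∀ c ∈ C, h * c * h⁻¹ ∈ C) ∧
    ∀ h ∈ H, ∃ n : ℕ, h ^ p ^ n ∈ C

end ART
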