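import Pool.Agent.ART.StF

/-!
# ART [LPt]: the product of the central values is rational
-/

set_option autoImplicit false

namespace ART

open scoped ComplexConjugate Topology
open NumberField IsDedekindDomain Polynomial

theorem thm_LPt (h1 : St_Prd) (h2 : St_LS) (h3 : St_WL) : St_LPt := by
  intro k _ _ E ι _ F _ _ _ d n hE hd hrel A hA c hc
  choose d' hd'0 hd' using fun i => h3 (F i) (d i) (hd i)
  obtain ⟨T, hT⟩ := h1 k E ι F d' n hE hd'0 (fun g => by
    rw [← hrel g]
    refine Finset.sum_congr rfl fun i _ => ?_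
    rw [(hd' i k).2 (AlgebraicClosure k) g]) A (fun i => (hd' i k).1 E (A i) (hA i))
  choose U f hU hUs hUt hf hfL hf1 using hc
  set P : ι → ℂ → ℂ := fun i s => ∏ w ∈ T i, evp (A i) w s with hPdef
  have hP : ∀ i, Differentiable ℂ (P i) := fun i =>
    Differentiable.fun_finsetProd fun w _ => ((h2 (F i) (A i)).2 w).1
  have hP1 : ∀ i, ∃ r : ℚ, r ≠ 0 ∧ P i 1 = r := by
    intro i
    choose r hr0 hr using fun w => ((h2 (F i) (A i)).2 w).2
    refine ⟨∏ w ∈ T i, r w, Finset.prod_ne_zero_iff.2 fun w _ => hr0 w, ?_⟩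
    rw [Rat.cast_prod]
    exact Finset.prod_congr rfl fun w _ => hr w
  choose r hr0 hr using hP1
  set W : Set ℂ := ⋂ i, U i with hW
  have hWo : IsOpen W := isOpen_iInter_of_finite hU
  have hWs : ∀ s : ℂ, 2 < s.re → s ∈ W := fun s hs => Set.mem_iInter.2 fun i => hUs i s hs
  have hWt : ∀ t : ℝ, 1 ≤ t → (t : ℂ) ∈ W := fun t ht => Set.mem_iInter.2 fun i => hUt i t ht
  set H : ℂ → ℂ := fun s => ∏ i, (f i s * P i s) ^ (n i).toNat -
    ∏ i, (f i s * P i s) ^ (-n i).toNat with hH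
  have hHd : DifferentiableOn ℂ H W := by
    have hfP : ∀ i, DifferentiableOn ℂ (fun s => f i s * P i s) W := fun i =>
      ((hf i).mono (Set.iInter_subset _ i)).mul (hP i).differentiableOn
    exact (DifferentiableOn.fun_finsetProd fun i _ => (hfP i).pow _).sub
      (DifferentiableOn.fun_finsetProd fun i _ => (hfP i).pow _)
  have hH0 : ∀ s : ℂ, 2 < s.re → H s = 0 := by
    intro s hs
    have h := hT s hs
    simp only [hH, sub_eq_zero]
    simp only [fun i => hfL i s hs]
    exact h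
  set V := connectedComponentIn W (3 : ℂ) with hV
  have h3W : (3 : ℂ) ∈ W := hWs 3 (by norm_num)
  have hVo : IsOpen V := hWo.connectedComponentIn
  have hVW : V ⊆ W := connectedComponentIn_subset _ _
  have h1V : (1 : ℂ) ∈ V := by
    have hpre : IsPreconnected ((fun t : ℝ => (t : ℂ)) '' Set.Ici 1) :=
      isPreconnected_Ici.image _ Complex.continuous_ofReal.continuousOn
    have hsub : ((fun t : ℝ => (t : ℂ)) '' Set.Ici 1) ⊆ W := by
      rintro _ ⟨t, ht, rfl⟩
      exact hWt t ht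
    have h3m : (3 : ℂ) ∈ ((fun t : ℝ => (t : ℂ)) '' Set.Ici 1) :=
      ⟨3, by norm_num [Set.mem_Ici], by norm_num⟩
    exact hpre.subset_connectedComponentIn h3m hsub ⟨1, Set.self_mem_Ici, by norm_num⟩
  have hHa : AnalyticOnNhd ℂ H V := (hHd.mono hVW).analyticOnNhd hVo
  have hev : H =ᶠ[𝓝 (3 : ℂ)] 0 := by
    have ho : IsOpen {s : ℂ | 2 < s.re} := isOpen_lt continuous_const Complex.continuous_re
    exact Filter.mem_of_superset (ho.mem_nhds (by norm_num : (2 : ℝ) < (3 : ℂ).re))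
      fun s hs => hH0 s hs
  have hz : H 1 = 0 :=
    hHa.eqOn_zero_of_preconnected_of_eventuallyEq_zero isPreconnected_connectedComponentIn
      (mem_connectedComponentIn h3W) hev h1V
  simp only [hH, sub_eq_zero, hf1, hr, mul_pow, Finset.prod_mul_distrib] at hz
  have hne : ∀ m : ι → ℕ, (∏ i, r i ^ m i) ≠ 0 := fun m =>
    Finset.prod_ne_zero_iff.2 fun i _ => pow_ne_zero _ (hr0 i)
  refine ⟨(∏ i, r i ^ (-n i).toNat) / ∏ i, r i ^ (n i).toNat, div_ne_zero (hne _) (hne _), ?_⟩
  have hne' : ((∏ i, r i ^ (n i).toNat : ℚ) : ℂ) ≠ 0 := by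
    exact_mod_cast hne _
  push_cast at hne' ⊢
  rw [div_mul_eq_mul_div, eq_div_iff hne', hz]
  ring

end ART
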