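import Pool.Agent.ART.Defs

/-!
# ART part A: the L-series as a convergent Euler product (statements with complete proofs)

Every module is one file `Pool/Agent/ART/X.lean` with `import Pool.Agent.ART.StA` (or the St file in which the statement is), namespace `ART`,
and the theorem `thm_X` with exactly the signature given in the docstring (earlier statements are hypotheses). Own lemmas `private` or with
names starting with `X_`. No sorry, no forbidden words.
-/

set_option autoImplicit false

namespace ART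

open scoped ComplexConjugate
open NumberField IsDedekindDomain Polynomial ArithmeticFunction Filter

/-- [Eul] (file `Eul.lean`, `thm_Eul : St_Eul`) A family of power series with small coefficients: the formal Euler product of Mathlib gives a convergent
Euler product.

PROOF. `σ = re s`. For a finite set `S` of indices let `P_S = ∏_(i ∈ S) ofPowerSeries (q i) (f i)`, and `|P|_S` the same for the power series
`∑ |coeff k (f i)| X^k`; `P`, `|P|` the Euler products over all `i`. (1) `|P_S(n)| ≤ |P|_S(n)` (induction on `S`), `|P|_S(n) ≤ |P|_T(n)` for `S ⊆ T` (all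
coefficients are nonnegative and the constant coefficients are `1`), and `tendsTo_eulerProduct_ofPowerSeries`: `P_S(n) = P(n)`, `|P|_S(n) = |P|(n)` for all large
`S`; so `|P(n)| ≤ |P|(n)` and `|P_S(n)| ≤ |P|(n)` for all `S`. (2) `∑_n |P|_S(n) n^(-σ) = ∏_(i ∈ S) ∑_k |coeff k (f i)| q_i^(-k σ)` (`LSeries_mul'`, induction on `S`), and with
`t_i = 2 q_i^(1-σ) ≤ 2^(2-σ) < 1` the factor is at most `1/(1 - t_i) ≤ exp(t_i/(1 - t_i)) ≤ exp(C q_i^(1-σ))`, `C = 2/(1 - 2^(2-σ))`. So the product is at most
`M = exp(C ∑_i q_i^(1-σ))`, independent of `S`. (3) For every finite set `T` of `n`'s: `∑_(n ∈ T) |P|(n) n^(-σ) = ∑_(n ∈ T) |P|_S(n) n^(-σ) ≤ M` for a large `S`: so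
`∑ |P|(n) n^(-σ)` converges. (4) `LSeries P_S s = ∏_(i ∈ S) ∑_k coeff k (f i) q_i^(-k s)`, and for `S → ∞` the left side converges to `LSeries P s` by dominated
convergence (`tendsto_tsum_of_dominated_convergence`, dominated by `|P|(n) n^(-σ)`). -/
def St_Eul : Prop := ∀ (ι : Type) (q : ι → ℕ) (f : ι → PowerSeries ℤ) (s : ℂ), Northcott q →
  (∀ i, 2 ≤ q i) → (∀ i, (f i).constantCoeff = 1) → (∀ i k, |(f i).coeff k| ≤ (2 * (q i : ℤ)) ^ k) →
  2 < s.re → Summable (fun i => (q i : ℝ) ^ (1 - s.re)) →
  HasProd (fun i => ∑' k, ((f i).coeff k : ℂ) * ((q i : ℂ) ^ (-s)) ^ k)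
    (LSeries (fun n => ((eulerProduct fun i => ofPowerSeries (q i) (f i)) n : ℂ)) s)

/-- [Dkz] (file `Dkz.lean`, `thm_Dkz : St_Dkz`) There are few prime ideals of small norm.

PROOF. The prime ideals `w` over the rational prime `p` are at most `d = [F : ℚ]` (`∑ e f = d`), `nm w ≥ p`, so `∑_w nm w ^ (1-σ) ≤ d ∑_p p^(1-σ) < ∞` for `σ > 2`. Or:
the number of ideals of norm at most `x` is `O(x)` (`Ideal.tendsto_norm_le_div_atTop`) and partial summation; or use the convergence of the Dedekind
zeta function. `Northcott`: there are finitely many ideals of bounded norm (`Ideal.finite_setOf_absNorm_le` or similar). -/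
def St_Dkz : Prop := ∀ (F : Type) [Field F] [NumberField F],
  Northcott (fun w : HeightOneSpectrum (𝓞 F) => nm w) ∧ ∀ σ : ℝ, 2 < σ →
    Summable fun w : HeightOneSpectrum (𝓞 F) => (nm w : ℝ) ^ (1 - σ)

/-- [Res] (file `Res.lean`, `thm_Res : St_Res`) The residue field of the completion.

PROOF. Surjective: the field `F` is dense in the completion: for `x` in the ring of integers `R` of the completion there is `y : F` with `v(x - y) < 1`, so
`v(y) ≤ 1`. There are `a, b : 𝓞 F` with `y = a / b`, `b ∉ w` (`IsDedekindDomain.HeightOneSpectrum.valuation_...`, or localization at `w`); `w` is maximal: there is `c : 𝓞 F` with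
`b c - 1 ∈ w`; then `v(y - a c) = v(a (1 - b c) / b) < 1`, so `rd w (a c)` is the class of `x`. Kernel: `v(x) < 1 ↔ x ∈ w` for `x : 𝓞 F`
(`HeightOneSpectrum.valuation_lt_one_iff_mem` and `Valued.valuedCompletion_apply` or similar). So the residue field is `𝓞 F ⧸ w`, finite with `absNorm w` elements. -/
def St_Res : Prop := ∀ (F : Type) [Field F] [NumberField F] (w : HeightOneSpectrum (𝓞 F)),
  Function.Surjective (rd w) ∧ (∀ x, rd w x = 0 ↔ x ∈ w.asIdeal) ∧
    Finite (IsLocalRing.ResidueField (w.adicCompletionIntegers F)) ∧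
    Nat.card (IsLocalRing.ResidueField (w.adicCompletionIntegers F)) = nm w

/-- [Loc] (file `Loc.lean`, `thm_Loc : St_Loc`) Shape of the local polynomial.

PROOF. `W' = W.minimal R`. Good reduction: `a = q + 1 - N`, `N` = the number of points of the reduction (with the point at infinity), `b = q`. `1 ≤ N ≤ 2 q + 1`: an affine point is a
pair `(x, y)`, and for every `x` the number `y` is a root of a monic quadratic polynomial (at most two `y`; e.g. `Nat.card` of the points is at most the
cardinality of `Option (κ × Fin 2)`, or bound the fibres of the map to `x`). So `- q ≤ a ≤ q`. In the other cases `b = 0` and `a = 1, -1, 0`. -/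
def St_Loc : Prop := ∀ (R : Type) [CommRing R] [IsDomain R] [IsDiscreteValuationRing R] (K : Type)
  [Field K] [Algebra R K] [IsFractionRing R K] (W : WeierstrassCurve K),
  Finite (IsLocalRing.ResidueField R) → ∃ a b : ℤ,
    W.localPolynomial R = 1 - C a * X + C b * X ^ 2 ∧
    |a| ≤ Nat.card (IsLocalRing.ResidueField R) ∧
    (b = 0 ∧ |a| ≤ 1 ∨ b = Nat.card (IsLocalRing.ResidueField R))

/-- [LS] (file `LS.lean`, `thm_LS (h1 : St_Eul) (h2 : St_Dkz) (h3 : St_Res) (h4 : St_Loc) : St_LS`) The L-series of Mathlib is the convergent Euler product.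

PROOF. `q = nm w ≥ 2`, `lp A w = 1 - a X + b X^2` with `|a| ≤ q`, `b = 0` or `b = q` (`h3`, `h4`). Put `T = q^(-s)`, `|T| = q^(-σ)`.
(1) For `σ > 2`: `|a T| + |b T^2| ≤ q^(1-σ) + q^(1-2σ) < 1/2 + 1/8`, so `evp A w s ≠ 0`. (2) `evp A w s = 1 - a q^(-s) + b q^(-2 s)` is an entire function of `s`. (3) `s = 1`: `1 - a/q + b/q^2` is
rational, for `b = q` it is `(q - a + 1)/q ≥ 1/q`, for `b = 0`, `|a| ≤ 1` it is `≥ 1 - 1/q`. (4) The power series `g = invOfUnit (lp A w) 1`, `g = ∑ g_k X^k`: `g_0 = 1`, `g_1 = a`, `g_k = a g_(k-1) - b g_(k-2)`, so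
`|g_k| ≤ (2 q)^k` by induction (`q (2q)^(k-1) + q (2q)^(k-2) ≤ (2 q)^k`). For `|T| < 1/(2 q)`: `(1 - a T + b T^2) ∑ g_k T^k = 1` (product of two absolutely convergent power series). (5) `h1` with
`ι = HeightOneSpectrum (𝓞 F)`, `q = nm`, `f w = invOfUnit (lp A w) 1`; `A.LFunction` is `eulerProduct fun w => ofPowerSeries (nm w) (f w)` by definition and `h3`. -/
def St_LS : Prop := ∀ (F : Type) [Field F] [NumberField F] (A : WeierstrassCurve F),
  (∀ s : ℂ, 2 < s.re → HasProd (fun w : HeightOneSpectrum (𝓞 F) => (evp A w s)⁻¹) (A.LSeries s) ∧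
    ∀ w, evp A w s ≠ 0) ∧
  ∀ w, Differentiable ℂ (evp A w) ∧ ∃ r : ℚ, r ≠ 0 ∧ evp A w 1 = r

end ART
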