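import Pool.Agent.ART.Defs

/-!
# ART part B: counting points over finite fields (statements with complete proofs)

Every module is one file `Pool/Agent/ART/X.lean` with `import Pool.Agent.ART.StB`, namespace `ART`, and the theorem `thm_X` with exactly the
signature given in the docstring (earlier statements are hypotheses). Own lemmas `private` or with names starting with `X_`.
No sorry, no forbidden words.
-/

set_option autoImplicit false

namespace ART

open scoped ComplexConjugate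
open NumberField IsDedekindDomain Polynomial

/-- [Tw] (file `Tw.lean`, `thm_Tw : St_Tw`) Character sums and twists.

PROOF. `chi` is `quadraticChar κ` (for `2 ≠ 0`; `quadraticChar_apply`, `quadraticCharFun`). (1) For given `x` the number of the `y` with `y ^ 2 = z` is `1 + chi z`
(`quadraticChar_card_sqrts`), so the number of the points is `q + ∑_x chi (f x)`. (2) The substitution `x = u ^ 2 x'`: `f_(u^4 c₄, u^6 c₆)(u^2 x') = u^6 f_(c₄, c₆)(x')`, and `u^6` is a square. Or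
directly: the bijection `(x, y) ↦ (u^2 x, u^3 y)` of the sets of points. (3) `x = d x'`: `f_(d^2 c₄, d^3 c₆)(d x') = d^3 f_(c₄, c₆)(x')`, `chi (d^3 z) = chi d * chi z`. -/
def St_Tw : Prop := ∀ (κ : Type) [Field κ] [Fintype κ], (2 : κ) ≠ 0 → ∀ c₄ c₆ : κ,
  ap κ c₄ c₆ = - ∑ x : κ, chi (x ^ 3 - 27 * c₄ * x - 54 * c₆) ∧
  (∀ u : κ, u ≠ 0 → ap κ (u ^ 4 * c₄) (u ^ 6 * c₆) = ap κ c₄ c₆) ∧
  ∀ d : κ, d ≠ 0 → ap κ (d ^ 2 * c₄) (d ^ 3 * c₆) = chi d * ap κ c₄ c₆

/-- [SumN] (file `SumN.lean`, `thm_SumN : St_SumN`) The sum of the quadratic character over all monic quadratic polynomials `X^2 - s X + p` with roots `α, β`,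
evaluated at `N(s, p) = f(α) f(β)`, `f = X^3 + a X + b` separable.

PROOF. `χ = chi = quadraticChar`. Put `A = s^2 - p + a`, `t = - s`: `(s, p) ↦ (t, A)` is a bijection of `κ × κ`. With `f(t) = t^3 + a t + b`, `f'(t) = 3 t^2 + a`:
`N(s, p) = f(t)^2 - 3 t f(t) A + f'(t) A^2 - A^3` (`ring`). Claim: for every `t`, `∑_A χ(N) = 1 + ∑_x χ((x - t) f(x))`.
(1) `f(t) ≠ 0`. `A = 0`: `N = f(t)^2`, `χ = 1`. For `A ≠ 0` put `h = - f(t) / A ≠ 0`: `N = - (A^3 / f(t)) f(t + h)` (because `f(t + h) = f(t) + f'(t) h + 3 t h^2 + h^3`), and `- A^3 / f(t) = A^2 / h`,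
so `χ(N) = χ(h f(t + h))`; `A ↦ h` is a bijection of the nonzero elements; `x = t + h` (the term `x = t` is `0`).
(2) `f(t) = 0`: `f(x) = (x - t) g(x)`, `g(x) = x^2 + t x + t^2 + a`, `g(t) = f'(t)`. `N = A^2 (f'(t) - A)`, so `∑_A χ(N) = ∑_(A ≠ 0) χ(f'(t) - A) = - χ(f'(t))` (`∑_y χ(y) = 0`). The right side is
`1 + ∑_(x ≠ t) χ(g(x)) = 1 + ∑_x χ(g(x)) - χ(f'(t))`, and `∑_x χ(g(x)) = - 1` because `g` is monic quadratic with discriminant `D = t^2 - 4 (t^2 + a) = - 3 t^2 - 4 a ≠ 0`: the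
discriminant of `f` is `- 4 a^3 - 27 b^2 = D (3 t^2 + a)^2` (use `b = - t^3 - a t`). [`∑_x χ(x^2 - c) = -1` for `c ≠ 0`: the number of `(x, y)` with `x^2 - y^2 = c` is `q - 1` (`(x - y)(x + y) = c`), and it is
`∑_x (1 + χ(x^2 - c))`; complete the square.]
Finally `∑_(s, p) χ(N) = ∑_t (1 + ∑_x χ((x - t) f(x))) = q + ∑_x χ(f(x)) ∑_t χ(x - t) = q`. -/
def St_SumN : Prop := ∀ (κ : Type) [Field κ] [Fintype κ], (2 : κ) ≠ 0 → ∀ a b : κ,
  4 * a ^ 3 + 27 * b ^ 2 ≠ 0 → ∑ s : κ, ∑ p : κ,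
    chi ((s ^ 2 - p + a) ^ 2 * p + (s ^ 2 - p + a) * (b - s * p) * s + (b - s * p) ^ 2) =
      (Fintype.card κ : ℤ)

/-- [Two] (file `Two.lean`, `thm_Two : St_Two`) Pairs of roots of quadratic polynomials.

PROOF. `q = |κ|`, `G` any function. For every `(s, p)`: the number of the `(α, β) ∈ κ^2` with `α + β = s`, `α β = p` plus the number of the `α ∈ κ'` with `α + α^q = s`, `α α^q = p` is `2`. (Then both sides are the
sum over all `(s, p)` of `G s p` times this number; note that `α + α^q` and `α^(q+1)` are in `κ` for `α ∈ κ'`: an element with `x^q = x` is in the image of `κ`,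
because `X^q - X` has at most `q` roots; and `α^(q^2) = α`.) Let `g = X^2 - s X + p`. The first number is the number of the roots `α` of `g` in `κ` (`β = s - α`). The second number is the number
of the roots `α ∈ κ'` of `g` with `α^q = s - α`. If `g` has two different roots in `κ`, the numbers are `2` and `0` (roots in `κ'` are in `κ`, `α^q = α ≠ s - α`); if `g` has a double
root `α = s/2 ∈ κ`: `1` and `1`; if `g` is irreducible over `κ`: `0` and `2`, because `g` has a root in `κ'`: the discriminant `s^2 - 4 p` is a nonsquare in `κ`, and it is a square in `κ'` because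
`x^((q^2 - 1)/2) = (x^(q - 1))^((q + 1)/2) = 1` for all nonzero `x ∈ κ`; for a root `α`, `α^q` is a root, not `α` since `α ∉ κ`, so `α^q = s - α`. -/
def St_Two : Prop := ∀ (κ κ' : Type) [Field κ] [Fintype κ] [Field κ'] [Fintype κ'] [Algebra κ κ'],
  (2 : κ) ≠ 0 → Fintype.card κ' = Fintype.card κ ^ 2 → ∃ (T N : κ' → κ),
    (∀ α, algebraMap κ κ' (T α) = α + α ^ Fintype.card κ) ∧
    (∀ α, algebraMap κ κ' (N α) = α * α ^ Fintype.card κ) ∧
    ∀ G : κ → κ → ℤ, ∑ α : κ, ∑ β : κ, G (α + β) (α * β) + ∑ α : κ', G (T α) (N α) =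
      2 * ∑ s : κ, ∑ p : κ, G s p

/-- [Quad] (file `Quad.lean`, `thm_Quad (h1 : St_Tw) (h2 : St_SumN) (h3 : St_Two) : St_Quad`) The quadratic identity `a(q^2) = a(q)^2 - 2 q`.

PROOF. `a = - 27 c₄`, `b = - 54 c₆`, `4 a^3 + 27 b^2 = - 78732 (c₄^3 - c₆^2)`, `78732 = 2^2 3^9`. `f = X^3 + a X + b`, `G s p = chi (N(s, p))` as in `h2`. If `α + β = s`, `α β = p` in `κ` or `κ'` then `N(s, p) = f(α) f(β)` (`ring`).
For `α, β ∈ κ`: `G (α + β) (α β) = chi (f α) chi (f β)`. For `α ∈ κ'`: `N(T α, N α) = f(α) f(α^q) = f(α)^(q+1)` in `κ'`, and `chi_κ (y) = chi_κ' (x)` if `y ∈ κ` maps to `x^(q+1)`, `x ∈ κ'`: for `x ≠ 0`,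
`chi_κ(y) = y^((q-1)/2) = x^((q^2-1)/2) = chi_κ'(x)` (`quadraticChar_eq_pow_of_char_ne_two`, both `±1`, in `κ'`). So with `h3`: `S₁^2 + S₂ = 2 q`, where `S₁ = ∑_(x ∈ κ) chi (f x) = - ap κ c₄ c₆` and
`S₂ = ∑_(x ∈ κ') chi (f x) = - ap κ' c₄ c₆`. -/
def St_Quad : Prop := ∀ (κ κ' : Type) [Field κ] [Fintype κ] [Field κ'] [Fintype κ'] [Algebra κ κ'],
  (2 : κ) ≠ 0 → (3 : κ) ≠ 0 → Fintype.card κ' = Fintype.card κ ^ 2 → ∀ c₄ c₆ : κ,
    c₄ ^ 3 ≠ c₆ ^ 2 → ap κ' (algebraMap κ κ' c₄) (algebraMap κ κ' c₆) =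
      ap κ c₄ c₆ ^ 2 - 2 * Fintype.card κ

/-- [Fam] (file `Fam.lean`, `thm_Fam (h : St_Quad) : St_Fam`) The numbers `a f = a(q^f)`.

PROOF. `ap` does not change under isomorphisms of fields (transport of the sets of points). For every `f ≥ 1` there is an extension of `κ` of degree `f`, and two finite extensions of `κ` of the same degree are isomorphic over `κ`
(`FiniteField` in Mathlib: e.g. inside an algebraic closure of `κ` the subfield of the elements with `x^(q^f) = x`; or `FiniteField.Extension`; or `GaloisField` with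
`FiniteField.algEquivOfCardEq` and an algebra structure over `κ`). Let `a f` be the value for one of them. If `κ'` has degree `2 f` over `κ`, it contains a subextension `κ''` of degree `f` (the elements
with `x^(q^f) = x`; or an embedding over `κ` of the extension of degree `f`, `f ∣ 2 f`), and `h` for `κ'' ⊆ κ'` gives `a (2 f) = (a f)^2 - 2 q^f`. The bound:
for every `x` there are at most two `y`, so the number of the points is between `0` and `2 |κ'|` and `|ap κ' c₄ c₆| ≤ |κ'|`. -/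
def St_Fam : Prop := ∀ (κ : Type) [Field κ] [Finite κ], (2 : κ) ≠ 0 → (3 : κ) ≠ 0 → ∀ c₄ c₆ : κ,
    c₄ ^ 3 ≠ c₆ ^ 2 → ∃ a : ℕ → ℤ, (∀ f, 1 ≤ f → |a f| ≤ (Nat.card κ : ℤ) ^ f) ∧
      (∀ f, 1 ≤ f → a (2 * f) = a f ^ 2 - 2 * (Nat.card κ : ℤ) ^ f) ∧
      ∀ (κ' : Type) [Field κ'] [Algebra κ κ'] (f : ℕ), 1 ≤ f → Nat.card κ' = Nat.card κ ^ f →
        ap κ' (algebraMap κ κ' c₄) (algebraMap κ κ' c₆) = a f

/-- [Pts] (file `Pts.lean`, `thm_Pts : St_Pts`) The number of the points of an elliptic curve over a finite field.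

PROOF. All affine points of `W` are nonsingular (`WeierstrassCurve.Affine.equation_iff_nonsingular` or similar, `Δ ≠ 0`), so the points are the point at infinity and the solutions of the equation. The map
`(x, y) ↦ (36 x + 3 b₂, 108 (2 y + a₁ x + a₃))` is a bijection from the solutions to the solutions of `Y^2 = X^3 - 27 c₄ X - 54 c₆`: with `η = 2 y + a₁ x + a₃` the equation of `W` is
`η^2 = 4 x^3 + b₂ x^2 + 2 b₄ x + b₆`, and `(36 x + 3 b₂)^3 - 27 c₄ (36 x + 3 b₂) - 54 c₆ = 108^2 (4 x^3 + b₂ x^2 + 2 b₄ x + b₆)` (`ring` after unfolding `c₄ = b₂^2 - 24 b₄`, `c₆ = - b₂^3 + 36 b₂ b₄ - 216 b₆`). -/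
def St_Pts : Prop := ∀ (κ : Type) [Field κ] [Finite κ], (2 : κ) ≠ 0 → (3 : κ) ≠ 0 →
  ∀ W : WeierstrassCurve κ, W.Δ ≠ 0 →
    (Nat.card W.toAffine.Point : ℤ) = Nat.card κ + 1 - ap κ W.c₄ W.c₆

/-- [LPol] (file `LPol.lean`, `thm_LPol (h1 : St_Tw) (h2 : St_Pts) : St_LPol`) The local polynomial at a prime of good reduction, residue characteristic at least `5`.

PROOF. `κ` = the residue field, `2, 3` are units in `R`. `W' = W.minimal R = C • W` (`C` from `exists_isMinimal`): `W'.c₄ = u^(-4) W.c₄`, `W'.c₆ = u^(-6) W.c₆`, `W'.Δ = u^(-12) W.Δ` (`variableChange_c₄` etc.); `1728 Δ = c₄^3 - c₆^2` (`c_relation`).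
(1) Good reduction: there is an integral equation with unit discriminant isomorphic to `W`: the curve `W₀ : y^2 = x^3 - (c₄/48) x - c₆/864` over `R` has invariants `c₄, c₆` (check by `ring`/`field_simp`: `b₂ = 0`, `b₄ = - c₄/24`, `b₆ = - c₆/216`)
and `1728 Δ = c₄^3 - c₆^2`, a unit. `W` is isomorphic to `W₀` over `K`: a change of variables brings `W` to the short form `y^2 = x^3 - (W.c₄/48) x - W.c₆/864` (`WeierstrassCurve.toShortNF` in `NormalForms`, or explicitly: first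
`y ↦ y - (a₁ x + a₃)/2`, then `x ↦ x - b₂/12`), and then the scaling by `t`. So `W₀ = C₀ • W = (C₀ C⁻¹) • W'`, and by the minimality of `W'` (`IsMinimal.val_Δ_maximal` with
`valuation_Δ_aux`) the valuation of `W'.Δ` is `1`: `W'.HasGoodReduction R`. (2) So `W'.Δ` and `W₀.Δ` are units in `R`, `W'.Δ = w^12 W₀.Δ` with `w = t/u`, hence `w` is a unit `r` of `R` (valuation), and the reduction of `W'` has the
invariants `c₄ = r̄^4 c̄₄`, `c₆ = r̄^6 c̄₆` (`WeierstrassCurve.map_c₄`, the integral model, injectivity of `R → K`) and `Δ ≠ 0`. (3) `h2` and `h1`: the number of points of the reduction is `q + 1 - ap κ c̄₄ c̄₆`, so `a` in `localPolynomial` is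
`ap κ c̄₄ c̄₆`. -/
def St_LPol : Prop := ∀ (R : Type) [CommRing R] [IsDomain R] [IsDiscreteValuationRing R] (K : Type)
  [Field K] [Algebra R K] [IsFractionRing R K] (W : WeierstrassCurve K) (c₄ c₆ : R) (t : K),
  Finite (IsLocalRing.ResidueField R) → (2 : IsLocalRing.ResidueField R) ≠ 0 →
  (3 : IsLocalRing.ResidueField R) ≠ 0 → t ≠ 0 → W.c₄ = t ^ 4 * algebraMap R K c₄ →
  W.c₆ = t ^ 6 * algebraMap R K c₆ →
  IsLocalRing.residue R c₄ ^ 3 ≠ IsLocalRing.residue R c₆ ^ 2 →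
  W.localPolynomial R =
    1 - C (ap (IsLocalRing.ResidueField R) (IsLocalRing.residue R c₄) (IsLocalRing.residue R c₆)) * X +
      C (Nat.card (IsLocalRing.ResidueField R) : ℤ) * X ^ 2

end ART
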