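import Pool.Agent.ART.Defs

/-!
# ART part C: embeddings, Frobenius elements, and the combinatorics of the relation (statements with complete proofs)

Every module is one file `Pool/Agent/ART/X.lean` with `import Pool.Agent.ART.StC`, namespace `ART`, and the theorem `thm_X` with exactly the
signature given in the docstring (earlier statements are hypotheses). Own lemmas `private` or with names starting with `X_`.
No sorry, no forbidden words.
-/

set_option autoImplicit false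

namespace ART

open scoped ComplexConjugate
open NumberField IsDedekindDomain Polynomial

/-- `M` contains all conjugates of `F` over `k` and the square roots of the conjugates of `d`. -/
def Full (k F M : Type) [Field k] [Field F] [Field M] [Algebra k F] [Algebra k M] (d : F) : Prop :=
  Nat.card (F →ₐ[k] M) = Module.finrank k F ∧ ∀ φ : F →ₐ[k] M, IsSquare (φ d)

/-- `g` is a Frobenius element at `P`, for the prime `v`. -/
def IsFrob {k M : Type} [Field k] [NumberField k] [Field M] [NumberField M] [Algebra k M]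
    (v : HeightOneSpectrum (𝓞 k)) (P : HeightOneSpectrum (𝓞 M)) (g : M ≃ₐ[k] M) : Prop :=
  P ∈ ovr M v ∧ ∀ x : 𝓞 M, ∃ y : 𝓞 M, y ∈ P.asIdeal ∧ g (x : M) = (x : M) ^ nm v + (y : M)

open Classical in
/-- The contribution of a prime of degree `f` with sign `ε` to the trace of the `m`-th power of Frobenius. -/
noncomputable def ctr (f : ℕ) (ε : ℤ) (m : ℕ) : ℤ := if f ∣ m then (f : ℤ) * ε ^ (m / f) else 0

/-- [Deg] (file `Deg.lean`, `thm_Deg : St_Deg`) Primes over a prime, residue degrees.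

PROOF. `ovr F v` is finite (primes over a given nonzero prime; e.g. all divide the ideal generated by `v`, or `primesOver_finite`) and not empty (`𝓞 F` is integral over `𝓞 k`). For `w` over `v`, `𝓞 F ⧸ w` is a finite dimensional vector space over the
field `𝓞 k ⧸ v`, of dimension `f ≥ 1`, so `nm w = nm v ^ f` (`Ideal.absNorm_apply`, `Submodule.cardQuot`, `Module.card_eq_pow_finrank`), and `f = Nat.log (nm v) (nm w)` since `nm v ≥ 2`. Last part: for `w` there is at least one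
`v` (the contraction, not zero by integrality). -/
def St_Deg : Prop := ∀ (k F : Type) [Field k] [NumberField k] [Field F] [NumberField F]
  [Algebra k F], (∀ v : HeightOneSpectrum (𝓞 k), (ovr F v).Finite ∧ (ovr F v).Nonempty ∧
    ∀ w ∈ ovr F v, 1 ≤ rdeg v w ∧ nm w = nm v ^ rdeg v w) ∧
  ∀ w : HeightOneSpectrum (𝓞 F), ∃ v : HeightOneSpectrum (𝓞 k), w ∈ ovr F v

/-- [Frob] (file `Frob.lean`, `thm_Frob : St_Frob`) Existence of Frobenius elements.

PROOF. `Mathlib/RingTheory/Frobenius.lean`: `IsArithFrobAt.exists_of_isInvariant` for the group `M ≃ₐ[k] M` acting on `𝓞 M` (`Algebra.IsInvariant`; or use `galRestrict`/`IsIntegralClosure.MulSemiringAction`), for a prime `P` over `v` (going up).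
`Nat.card (𝓞 k ⧸ P.under) = nm v`. -/
def St_Frob : Prop := ∀ (k M : Type) [Field k] [NumberField k] [Field M] [NumberField M]
  [Algebra k M] [IsGalois k M] (v : HeightOneSpectrum (𝓞 k)),
  ∃ (P : HeightOneSpectrum (𝓞 M)) (g : M ≃ₐ[k] M), IsFrob v P g

/-- [Bij] (file `Bij.lean`, `thm_Bij (h : St_Deg) : St_Bij`) Reduction of embeddings, for almost all primes.

PROOF. `F = k(θ)` with `θ : 𝓞 F` (primitive element, multiplied by an integer), `h = minpoly k θ`, monic of degree `n = [F : k]`, with coefficients in `𝓞 k` (`𝓞 k` is integrally closed). There is a nonzero `N : 𝓞 k` such that `N x` is in the ring `𝓞 k [θ]` for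
all `x : 𝓞 F`: `𝓞 F` is a finitely generated `𝓞 k`-module, and every generator `x_j` is a polynomial in `θ` with coefficients in `k`; take a common denominator. Let `D = ∏_(φ ≠ φ') (φ θ - φ' θ) : 𝓞 M`, nonzero. A nonzero element of `𝓞 M` or `𝓞 F` is in finitely many
primes only (`HeightOneSpectrum` finiteness of the factors), and these lie over finitely many primes `v`. Let `S` be the finite set of the `v` which contain `2`, `3` or `N`, or such that some prime of `𝓞 M` over `v` contains `D`, or some prime of `𝓞 F` over `v` contains `d`.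
Let `v ∉ S`, `P` over `v`, `κ = 𝓞 M ⧸ P`, `Y` = the set of the `ψ` of the statement. `φ : F →ₐ[k] M` maps `𝓞 F` to `𝓞 M`; let `Φ φ = ` reduction. Injective: `φ θ ≠ φ' θ` modulo `P`. `Y` is finite and `|Y| ≤ n`: `ψ ↦ ψ θ` is injective on `Y` (if `ψ θ = ψ' θ` then
`ψ (N x) = ψ' (N x)` for all `x`, `ψ N = ψ' N ≠ 0` in the domain `κ`), and `ψ θ` is a root of the monic polynomial `h` modulo `P`, of degree `n`. `|F →ₐ[k] M| = n`: an injective map from a set with `n` elements to a set with at most `n` elements is bijective. -/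
def St_Bij : Prop := ∀ (k F M : Type) [Field k] [NumberField k] [Field F] [NumberField F]
  [Algebra k F] [Field M] [NumberField M] [Algebra k M] [IsGalois k M] (d : 𝓞 F), d ≠ 0 →
  Full k F M (d : F) → ∃ S : Set (HeightOneSpectrum (𝓞 k)), S.Finite ∧ ∀ v ∉ S,
    (2 : 𝓞 k) ∉ v.asIdeal ∧ (3 : 𝓞 k) ∉ v.asIdeal ∧ (∀ w ∈ ovr F v, d ∉ w.asIdeal) ∧
    ∀ P ∈ ovr M v, ∃ Φ : (F →ₐ[k] M) ≃ {ψ : 𝓞 F →+* 𝓞 M ⧸ P.asIdeal // ∀ x : 𝓞 k,
        ψ (algebraMap (𝓞 k) (𝓞 F) x) = Ideal.Quotient.mk P.asIdeal (algebraMap (𝓞 k) (𝓞 M) x)},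
      ∀ (φ : F →ₐ[k] M) (x : 𝓞 F) (y : 𝓞 M), (y : M) = φ x →
        (Φ φ).1 x = Ideal.Quotient.mk P.asIdeal y

/-- [EmbF] (file `EmbF.lean`, `thm_EmbF : St_EmbF`) Embeddings of finite fields.

PROOF. `κ₁ = κ₀(x₁)`, separable of degree `f`. `κ` contains a copy of `κ₁`; all roots in an algebraic closure of the minimal polynomial of `x₁` are in this copy (finite fields are normal over subfields: the roots are `x₁^(q^i)`), so there are exactly `f` homomorphisms:
`ψ₀, ψ₀^q, ..., ψ₀^(q^(f-1))` (composition with the Frobenius `x ↦ x^q` of `κ`; or `card_algHom_of...`: the composition with `ψ₀` is a bijection `(κ₁ ≃ₐ[κ₀] κ₁) ≃ (κ₁ →ₐ[κ₀] κ)` because the image of every `ψ` is the set of the elements with `x^(q^f) = x`, and `κ₁/κ₀` is Galois of degree `f`).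
`ψ(x)^(q^m) = ψ(x)` for all `x` iff `x^(q^m) = x` for all `x ∈ κ₁` iff `f ∣ m` (a generator `x` of the multiplicative group has order `q^f - 1`, and `q^f - 1 ∣ q^m - 1` iff `f ∣ m`; `m ≥ 1`). Second part: let `Q = |κ|`, odd, `x ≠ 0`: `(Q^j - 1)/2 = ((Q - 1)/2) (1 + Q + ... + Q^(j-1))`, the second factor has the
parity of `j`, and `x^((Q-1)/2) = chi x` (`quadraticChar_eq_pow_of_char_ne_two`) is `1` or `-1`. -/
def St_EmbF : Prop :=
  (∀ (κ₀ κ₁ κ : Type) [Field κ₀] [Finite κ₀] [Field κ₁] [Finite κ₁] [Field κ] [Finite κ]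
    [Algebra κ₀ κ₁] [Algebra κ₀ κ] (f m : ℕ), 1 ≤ f → 1 ≤ m →
    Nat.card κ₁ = Nat.card κ₀ ^ f → Nonempty (κ₁ →ₐ[κ₀] κ) →
    Nat.card {ψ : κ₁ →ₐ[κ₀] κ // ∀ x, ψ x ^ Nat.card κ₀ ^ m = ψ x} =
      (if f ∣ m then f else 0)) ∧
  ∀ (κ : Type) [Field κ] [Finite κ], (2 : κ) ≠ 0 → ∀ (x : κ) (j : ℕ), x ≠ 0 → 1 ≤ j →
    x ^ ((Nat.card κ ^ j - 1) / 2) = ((chi x ^ j : ℤ) : κ)

/-- [Cnt] (file `Cnt.lean`, `thm_Cnt (h1 : St_Deg) (h2 : St_Bij) (h3 : St_EmbF) : St_Cnt`) The traces of the powers of a Frobenius element.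

PROOF. `S` from `h2`. `κ = 𝓞 M ⧸ P`, `κ_v = 𝓞 k ⧸ v`, `κ_w = 𝓞 F ⧸ w`, finite fields, `q = nm v = |κ_v|`, `nm w = |κ_w| = q^(f_w)`, `f_w = rdeg v w`. Let `Y`, `Φ` be as in `h2`.
(1) `g^m φ = φ` iff `ψ^(q^m) = ψ` for `ψ = Φ φ` (i.e. `ψ(x)^(q^m) = ψ(x)` for all `x`): `g^m (φ x) ≡ (φ x)^(q^m)` modulo `P` (induction on `m`), so `Φ (g^m ∘ φ) (x) = ψ(x)^(q^m)`; `Φ` is injective.
(2) The kernel of `ψ ∈ Y` is a prime `w` over `v` (`ψ(1) ≠ 0`; it contracts to `v` because `P` does; not zero), and `{ψ ∈ Y, ker ψ = w}` is in bijection with `κ_w →ₐ[κ_v] κ`. By `h3` the number of the `ψ ∈ Y` with kernel `w` and `ψ^(q^m) = ψ` is `f_w` if `f_w ∣ m` and `0` otherwise, if there is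
a `ψ ∈ Y` with kernel `w`. There is one for every `w ∈ ovr F v`: choose any `φ₀ : F →ₐ[k] M` (there are `[F : k] ≥ 1`); there is a prime `P'` of `𝓞 M` with `φ₀^(-1)(P') = w` (going up for the integral extension `𝓞 F → 𝓞 M` via `φ₀`), over `v`; the Galois group acts transitively on the primes over `v`: `P = h P'`, and
`φ = h ∘ φ₀` has `φ^(-1)(P) = w`.
(3) Signs. Let `g^m φ = φ`, `ψ = Φ φ`, `w = ker ψ`, `z ∈ M`, `z^2 = φ d` (two different values of `z`, `± z`, because `φ d` is a nonzero square). `g^m z = ± z`, `z ∈ 𝓞 M`, and `z ∉ P` (`d ∉ w`). Modulo `P`: `g^m z ≡ z^(q^m)`, so `g^m z = ε z` with `ε = z^(q^m - 1) = (z^2)^((q^m-1)/2) = ψ(d)^((q^m-1)/2)` in `κ`, which is the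
image under `ψ` of `d^((q^m-1)/2)`, `d ∈ κ_w`, `q^m = |κ_w|^(m/f_w)`: by `h3` it is `chi(d mod w)^(m/f_w)`. `2 ≠ 0` in `κ`, so `ε = chi(d mod w)^(m/f_w)` as integers `±1` (`d ≠ 0` in `κ_w`). So `φ` contributes `2 chi(d mod w)^(m/f_w)` to `sgn`. -/
def St_Cnt : Prop := ∀ (k F M : Type) [Field k] [NumberField k] [Field F] [NumberField F]
  [Algebra k F] [Field M] [NumberField M] [Algebra k M] [IsGalois k M] (d : 𝓞 F), d ≠ 0 →
  Full k F M (d : F) → ∃ S : Set (HeightOneSpectrum (𝓞 k)), S.Finite ∧ ∀ v ∉ S,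
    (2 : 𝓞 k) ∉ v.asIdeal ∧ (3 : 𝓞 k) ∉ v.asIdeal ∧ (∀ w ∈ ovr F v, d ∉ w.asIdeal) ∧
    ∀ (P : HeightOneSpectrum (𝓞 M)) (g : M ≃ₐ[k] M), IsFrob v P g → ∀ m : ℕ, 1 ≤ m →
      sgn (d : F) (g ^ m) =
        2 * ∑ᶠ w : ovr F v, ctr (rdeg v w.1) (chi (Ideal.Quotient.mk w.1.asIdeal d)) m

/-- [Cl] (file `Cl.lean`, `thm_Cl : St_Cl`) A finite Galois extension containing everything.

PROOF. In `Ω = AlgebraicClosure k` let `T` be the finite set of the `φ θ_i` (`F_i = k(θ_i)`, `φ : F_i →ₐ[k] Ω`; there are `[F_i : k]` such `φ`, `AlgHom.card`) and of the square roots of the `φ (d i)`, and `M` the normal closure of `k(T)` in `Ω` (an intermediate field, finite and Galois over `k`: characteristic zero). A number field (finite over `k`). `φ : F_i →ₐ[k] Ω` has its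
values in `M`: so `F_i →ₐ[k] M` and `F_i →ₐ[k] Ω` are in bijection, and `Full`. For `g : M ≃ₐ[k] M` let `g'` be an extension of `g` to `Ω` (`AlgEquiv.restrictNormalHom_surjective`, or lifting). The pairs `(φ, z)` with values in `Ω` are the pairs with values in `M`, and the conditions for `g` and `g'` are the same. -/
def St_Cl : Prop := ∀ (k : Type) [Field k] [NumberField k] (ι : Type) [Fintype ι] (F : ι → Type)
  [∀ i, Field (F i)] [∀ i, NumberField (F i)] [∀ i, Algebra k (F i)] (d : ∀ i, F i),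
  ∃ (M : Type) (_ : Field M) (_ : NumberField M) (_ : Algebra k M), IsGalois k M ∧
    (∀ i, Full k (F i) M (d i)) ∧ ∀ g : M ≃ₐ[k] M,
      ∃ g' : AlgebraicClosure k ≃ₐ[k] AlgebraicClosure k, ∀ i, sgn (d i) g = sgn (d i) g'

/-- [Any] (file `Any.lean`, `thm_Any : St_Any`) The relation holds in every algebraically closed field.

PROOF. Let `A = algebraicClosure k Ω` (the intermediate field of the elements algebraic over `k`; it is an algebraic closure of `k`, `IsAlgClosure`), `e : A ≃ₐ[k] AlgebraicClosure k`. `g` maps `A` to `A` (`g` is a `k`-isomorphism); `g' = e g e^(-1)`. Every `φ : F →ₐ[k] Ω` has its values in `A` (`F` is algebraic over `k`: char. zero, both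
number fields) and `z ∈ A` if `z^2 = φ d`. So the pairs `(φ, z)` in `Ω` correspond to the pairs in `AlgebraicClosure k`, and the conditions to the conditions. -/
def St_Any : Prop := ∀ (k Ω : Type) [Field k] [NumberField k] [Field Ω] [Algebra k Ω]
  [IsAlgClosed Ω] (g : Ω ≃ₐ[k] Ω), ∃ g' : AlgebraicClosure k ≃ₐ[k] AlgebraicClosure k,
    ∀ (F : Type) [Field F] [NumberField F] [Algebra k F] (d : F), sgn d g = sgn d g'

/-- [WL] (file `WL.lean`, `thm_WL : St_WL`) We may assume that `d` is integral.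

PROOF. There is a nonzero `c : 𝓞 F` with `c d` integral; `d' = c^2 d`. If `A.c₄ = u^4 d^2 c₄(E)`, `A.c₆ = u^6 d^3 c₆(E)` then with `u' = u / c`: `u'^4 d'^2 = u^4 d^2`, `u'^6 d'^3 = u^6 d^3`. `(φ, z) ↦ (φ, z φ(c))` is a bijection from the pairs for `d` to the pairs for `d'`; if `g φ = φ` then
`g (φ c) = φ c`, so `g z = ± z` iff `g (z φ(c)) = ± z φ(c)`. -/
def St_WL : Prop := ∀ (F : Type) [Field F] [NumberField F] (d : F), d ≠ 0 → ∃ d' : 𝓞 F, d' ≠ 0 ∧
  ∀ (k : Type) [Field k] [NumberField k] [Algebra k F],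
    (∀ (E : WeierstrassCurve k) (A : WeierstrassCurve F), IsTwist E d A → IsTwist E (d' : F) A) ∧
    ∀ (M : Type) [Field M] [Algebra k M] (g : M ≃ₐ[k] M), sgn d g = sgn (d' : F) g

/-- [Comb] (file `Comb.lean`, `thm_Comb : St_Comb`) From traces to products.

PROOF. Let `C(f, ±)` be `∑_i n_i #{w : f_w = f, ε_w = ± 1}` and `D(f) = C(f, +) - C(f, -) + C(f/2, -)` (the last term only for even `f`), for `f ≥ 1`; these are zero for large `f`. The hypothesis says
`0 = ∑_(f ∣ m) f (C(f, +) + (-1)^(m/f) C(f, -)) = ∑_(f ∣ m) f D(f)`: indeed `∑_(f ∣ m) f D(f) = ∑_(f ∣ m) f (C(f,+) - C(f,-)) + ∑_(h, 2h ∣ m) 2 h C(h, -)`, and for `h ∣ m` the coefficient of `h C(h, -)` is `-1 + 2 = 1` if `m/h` is even and `-1` if it is odd. By strong induction on `m`, `D(m) = 0` for all `m ≥ 1`. The product is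
`∏_f p(f,1)^(C(f,+)) p(f,-1)^(C(f,-)) = ∏_f p(f,1)^(C(f,+) - C(f,-)) p(2f,1)^(C(f,-)) = ∏_f p(f,1)^(D(f)) = 1`, using `p(f,-1) = p(2f,1)/p(f,1)`. (Products over `f ≤ B` for a large `B`.) -/
def St_Comb : Prop := ∀ (ι : Type) [Fintype ι] (W : ι → Type) [∀ i, Fintype (W i)] (n : ι → ℤ)
  (f : ∀ i, W i → ℕ) (ε : ∀ i, W i → ℤ), (∀ i w, 1 ≤ f i w) → (∀ i w, ε i w = 1 ∨ ε i w = -1) →
  (∀ m : ℕ, 1 ≤ m → ∑ i, n i * ∑ w, ctr (f i w) (ε i w) m = 0) →
  ∀ (G : Type) [CommGroup G] (p : ℕ → ℤ → G), (∀ j, 1 ≤ j → p j 1 * p j (-1) = p (2 * j) 1) →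
    ∏ i, (∏ w, p (f i w) (ε i w)) ^ n i = 1

/-- [SgnP] (file `SgnP.lean`, `thm_SgnP : St_SgnP`) From fixed points to signs of permutations.

PROOF. Let `N ≥ 1` be a common multiple of the orders of the `π_j`. The number `o_j` of the orbits of `π_j` is `(1/N) ∑_(m=1)^N #Fix(π_j^m)` (Burnside, or: a cycle of length `f` contributes `f (N/f)` to the sum) and `|X_j| = #Fix(π_j^N)`. So `∑_j n_j o_j = 0` and `∑_j n_j |X_j| = 0`. The sign of `π_j` is
`(-1)^(|X_j| - o_j)` (`Equiv.Perm.sign_of_cycleType`; `|X_j| - o_j` = sum of `(length - 1)` over the nontrivial cycles). -/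
def St_SgnP : Prop := ∀ (ι : Type) [Fintype ι] (X : ι → Type) [∀ i, Fintype (X i)]
  [∀ i, DecidableEq (X i)] (n : ι → ℤ) (π : ∀ i, Equiv.Perm (X i)),
  (∀ m : ℕ, 1 ≤ m → ∑ i, n i * (Nat.card {x // ((π i) ^ m) x = x} : ℤ) = 0) →
  ∏ i, (Equiv.Perm.sign (π i)) ^ n i = 1

end ART
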