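import Pool.Agent.ART.StC

/-!
# ART part E: periods (statements with complete proofs)

Every module is one file `Pool/Agent/ART/X.lean` with `import Pool.Agent.ART.StE`, namespace `ART`, and the theorem `thm_X` with exactly the
signature given in the docstring (earlier statements are hypotheses). Own lemmas `private` or with names starting with `X_`.
No sorry, no forbidden words.
-/

set_option autoImplicit false

namespace ART

open scoped ComplexConjugate Classical
open NumberField IsDedekindDomain Polynomial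

/-- Exponent of the real period. -/
noncomputable def al {F : Type} [Field F] [NumberField F] (d : F) (w : InfinitePlace F) : ℕ :=
  if w.IsReal ∧ (w.embedding d).re < 0 then 0 else 1

/-- Exponent of the imaginary period. -/
noncomputable def be {F : Type} [Field F] [NumberField F] (d : F) (w : InfinitePlace F) : ℕ :=
  if w.IsReal ∧ 0 < (w.embedding d).re then 0 else 1

/-- [LatD] (file `LatD.lean`, `thm_LatD : St_LatD`) `℘` near zero is determined by `g₂, g₃`.

PROOF. `℘[L](z) = z^(-2) + u(z)` near `0` (`z ≠ 0`), `u = ℘[L - 0]` analytic at `0` (`weierstrassPExcept_def`, `analyticAt_weierstrassPExcept`). Let `D = u_L - u_L'`, analytic at `0`; for `z ≠ 0` near `0`: `D = ℘ - ℘~` (`℘ = ℘[L]`, `℘~ = ℘[L']`), and the difference of the two equations `derivWeierstrassP_sq` is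
`D' (℘' + ℘~') = D (4 (℘^2 + ℘ ℘~ + ℘~^2) - g₂)`. Multiply by `z^4`: `(z D') (z^3 (℘' + ℘~')) = D (z^4 (4 (℘^2 + ℘ ℘~ + ℘~^2) - g₂))`, where `a(z) = z^3 (℘' + ℘~') → - 4` and `b(z) = z^4 (4 (...) - g₂) → 12` for `z → 0` (`z^2 ℘ → 1`, `z^3 ℘' → - 2`). If `D` is not zero near `0`:
`D = z^N h`, `h` analytic, `h(0) ≠ 0` (`AnalyticAt.exists_eventuallyEq_pow_smul_nonzero_iff`), `z D' = z^N (N h + z h')`, so `(N h + z h') a = h b` for `z ≠ 0` near `0`, and in the limit `- 4 N h(0) = 12 h(0)`: impossible for `N ≥ 0`. -/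
def St_LatD : Prop := ∀ L L' : PeriodPair, L.g₂ = L'.g₂ → L.g₃ = L'.g₃ →
  ∀ᶠ z in nhds (0 : ℂ), L.weierstrassP z = L'.weierstrassP z

/-- [LatU] (file `LatU.lean`, `thm_LatU (h : St_LatD) : St_LatU`) The lattice is determined by `g₂, g₃`.

PROOF. `Ω = ℂ \ (L ∪ L')` (lattices) is open and connected (complement of a countable closed set: `Set.Countable.isPathConnected_compl_of_one_lt_rank` or similar), `℘[L]` and `℘[L']` are analytic on it and agree near `0` by `h`, hence on `Ω` (`AnalyticOnNhd.eqOn_of_preconnected_of_eventuallyEq`; a point of `Ω` near `0`).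
Let `l ∈ L.lattice`, `l ∉ L'.lattice`. A punctured neighbourhood of `l` is in `Ω`; there `℘[L] = ℘[L']`. `℘[L']` is continuous at `l`, but `℘[L](z) → ∞` for `z → l` (`order_weierstrassP`: the order is `- 2`; or `(z - l)^2 ℘[L](z) → 1` by `weierstrassPExcept_def`). Contradiction. By symmetry the lattices are equal. -/
def St_LatU : Prop := ∀ L L' : PeriodPair, L.g₂ = L'.g₂ → L.g₃ = L'.g₃ → L.lattice = L'.lattice

/-- [LatS] (file `LatS.lean`, `thm_LatS : St_LatS`) Multiples and conjugates of lattices.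

PROOF. `L'` with `ω_i' = μ ω_i`: linearly independent; `x ↦ μ x` is a bijection of the lattices, `G_n(L') = μ^(-n) G_n(L)` (`tsum` over an equivalent index set, `tsum_mul_left`). The same with complex conjugation (`Complex.conj_tsum` or `(tsum).map`, `starRingEnd` is continuous). -/
def St_LatS : Prop := (∀ (L : PeriodPair) (μ : ℂ), μ ≠ 0 → ∃ L' : PeriodPair, L'.ω₁ = μ * L.ω₁ ∧
    L'.ω₂ = μ * L.ω₂ ∧ L'.g₂ = (μ ^ 4)⁻¹ * L.g₂ ∧ L'.g₃ = (μ ^ 6)⁻¹ * L.g₃ ∧
    ∀ x, x ∈ L'.lattice ↔ μ⁻¹ * x ∈ L.lattice) ∧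
  ∀ L : PeriodPair, ∃ L' : PeriodPair, L'.ω₁ = conj L.ω₁ ∧ L'.ω₂ = conj L.ω₂ ∧
    L'.g₂ = conj L.g₂ ∧ L'.g₃ = conj L.g₃ ∧ ∀ x, x ∈ L'.lattice ↔ conj x ∈ L.lattice

/-- [Area] (file `Area.lean`, `thm_Area : St_Area`) Bases of lattices, real and imaginary periods.

PROOF. (1) `Im (ω₁ conj ω₂) ≠ 0` because `ω₁, ω₂` are linearly independent over `ℝ`. If `L`, `L'` have the same lattice then `ω_i' = ∑ m_ij ω_j` with integers `m_ij`, and `Im (ω₁' conj ω₂') = det(m) Im (ω₁ conj ω₂)` (bilinear and alternating), and conversely; so `det(m)` is an integer with integral inverse: `± 1`.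
(2) Let the lattice be stable under conjugation. `ω₁` or `ω₂` is not purely imaginary, so `ω + conj ω = 2 re ω` is a nonzero real period for one of them: `o₁ > 0` (up to sign); in the same way `ω - conj ω`: `i o₂`, `o₂ > 0`. A real period `P`: `P`, `o₁`, `i o₂` are in the lattice, which has rank two, so they are linearly dependent over `ℤ`:
`a P + b o₁ + c i o₂ = 0` with integers not all zero, so `c = 0` (imaginary part), `a ≠ 0` (`o₁ ≠ 0`): `P = r o₁`, `r` rational; the same for imaginary periods. `ω₁`, `ω₂`: `2 re ω_i`, `2 i im ω_i` are real and imaginary periods, so `ω_i = r_i o₁ + s_i i o₂` with `r_i, s_i` rational and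
`Im (ω₁ conj ω₂) = (s₁ r₂ - r₁ s₂) o₁ o₂`. -/
def St_Area : Prop := (∀ L : PeriodPair, (L.ω₁ * conj L.ω₂).im ≠ 0) ∧
  (∀ L L' : PeriodPair, L.lattice = L'.lattice → (L'.ω₁ * conj L'.ω₂).im = (L.ω₁ * conj L.ω₂).im ∨
    (L'.ω₁ * conj L'.ω₂).im = -(L.ω₁ * conj L.ω₂).im) ∧
  ∀ L : PeriodPair, (∀ x ∈ L.lattice, conj x ∈ L.lattice) → ∃ o₁ o₂ : ℝ, 0 < o₁ ∧ 0 < o₂ ∧
    (∀ P : ℝ, (P : ℂ) ∈ L.lattice → ∃ r : ℚ, P = r * o₁) ∧
    (∀ P : ℝ, Complex.I * P ∈ L.lattice → ∃ r : ℚ, P = r * o₂) ∧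
    ∃ r : ℚ, (L.ω₁ * conj L.ω₂).im = r * (o₁ * o₂)

/-- [LocP] (file `LocP.lean`, `thm_LocP (h1 : St_LatU) (h2 : St_LatS) (h3 : St_Area) : St_LocP`) Local comparison of the periods of the twists of `E`.

PROOF. Fix an infinite place `v` of `k`, `σ = v.embedding`. If there is no `L` with `IsPer (E.map σ) L`, put `o₁ v = o₂ v = 1`. Otherwise let `L₀` be one, with lattice `Λ`. If `v` is real: `E.map σ` has real invariants, so `conj Λ` has the same `g₂, g₃` (`h2`) and
`conj Λ = Λ` (`h1`); take `o₁, o₂` from `h3`. If `v` is complex: `o₁ v = |Im (ω₁ conj ω₂)|` of `L₀`, `o₂ v = 1`. Now let `w` be over `v`, `τ = w.embedding`, `IsLocPer A w P`, with `L` (`IsPer (A.map τ) L`). `τ|_k = σ` or `conj σ` (`w.comap = v`; `mk_eq_iff`). If `v` is real, `τ|_k = σ`.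
Let `μ ∈ ℂ`, `μ^2 = τ(d) τ(u)^2`. `h2` for `L` and `μ`: a pair `L₁` with basis `μ ω_i` and `12 g₂(L₁) = μ^(-4) τ(c₄ A) = τ(c₄ E)`, `216 g₃(L₁) = μ^(-6) τ(c₆ A) = τ(c₆ E)`: `IsPer` for `E` and `τ|_k`. If `τ|_k = conj σ` use the conjugate of `L₁` in addition. So there is an `L` for `E` and `σ`, and by `h1`
the lattice of `L₁` (or of its conjugate) is `Λ`. `|μ|^2 = w(d) w(u)^2`.
(a) `w` complex: `P = Im (ω₁ conj ω₂)`, and `Im (μ ω₁ conj (μ ω₂)) = |μ|^2 P`, which is `±` the area of `L₀` by `h3` (conjugation changes the sign). For `v` complex: `P = ± |μ|^(-2) o₁ v o₂ v`. For `v` real: the area of `L₀` is `r o₁ o₂`, `r ≠ 0`. `w.mult = 2`, `al = be = 1`: `P^2 = r^2 (|μ|^2)^(-2) (o₁ o₂)^2`.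
(b) `w` real (then `v` is real, `σ = τ|_k`), `P ≠ 0` real, `P ∈ L.lattice`, so `μ P ∈ Λ`. If `τ(d) > 0` then `μ` is real, `μ P = r o₁`, `P^2 = r^2 |μ|^(-2) o₁^2`; `al = 1`, `be = 0`, `w.mult = 1`. If `τ(d) < 0` then `μ = i μ'` with `μ'` real, `μ' P = r o₂`; `al = 0`, `be = 1`. `r ≠ 0` because `μ P ≠ 0`. -/
def St_LocP : Prop := ∀ (k : Type) [Field k] [NumberField k] (E : WeierstrassCurve k),
  ∃ o₁ o₂ : InfinitePlace k → ℝ, (∀ v, 0 < o₁ v ∧ 0 < o₂ v) ∧
    ∀ (F : Type) [Field F] [NumberField F] [Algebra k F] (d u : F) (A : WeierstrassCurve F),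
      d ≠ 0 → u ≠ 0 → A.c₄ = u ^ 4 * d ^ 2 * algebraMap k F E.c₄ →
      A.c₆ = u ^ 6 * d ^ 3 * algebraMap k F E.c₆ →
      ∀ (w : InfinitePlace F) (P : ℝ), IsLocPer A w P → ∃ r : ℚ, r ≠ 0 ∧
        P ^ 2 = (r : ℝ) ^ 2 * ((w d * w u ^ 2) ^ w.mult)⁻¹ *
          (o₁ (w.comap (algebraMap k F)) ^ al d w * o₂ (w.comap (algebraMap k F)) ^ be d w) ^ 2

/-- [Inf] (file `Inf.lean`, `thm_Inf (h : St_Any) : St_Inf`) Complex conjugation and the identity.

PROOF. (1) `g = 1`: all pairs count, `sgn d 1 = #(F →ₐ[k] Ω) * 2 - 0` (`z ≠ - z`), `AlgHom.card`. (2) Let `v` be real, `ℂ` as a `k`-algebra via `v.embedding`; complex conjugation is a `k`-automorphism `g` of `ℂ` (`v.embedding` has real values). `h` gives `g'`. The `φ : F →ₐ[k] ℂ` with `g φ = φ` are the real embeddings of `F` which extend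
`v.embedding`; they correspond to the real places `w` of `F` with `w.comap = v` (`w = mk φ`, `φ = w.embedding`; a real place over the real place `v` has `w.embedding|_k = v.embedding` because both are real embeddings of the same place). For such a `φ`, `φ d ≠ 0` is real. If it is positive the two `z` are real and the
contribution is `2`, if it is negative the two `z` are purely imaginary and the contribution is `- 2`; and `al - be = 1` or `-1` in these cases. For complex `w`, `al - be = 0`. (3) `v` real: `∑_(w over v) (al + be) = ∑ w.mult` (`1` for real, `2` for complex `w`) `= [F : k]`: the number of the embeddings of `F`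
extending `v.embedding` (all embeddings with `mk φ = w` extend it, `w.mult` of them: `card_filter_mk_eq`). (4) `v` complex: all `w` over `v` are complex, `al = be = 1`, and every `w` over `v` contains exactly one embedding extending `v.embedding`, so their number is `[F : k]`. -/
def St_Inf : Prop := ∀ (k : Type) [Field k] [NumberField k],
  (∀ (F : Type) [Field F] [NumberField F] [Algebra k F] (d : F), d ≠ 0 →
    sgn d (1 : AlgebraicClosure k ≃ₐ[k] AlgebraicClosure k) = 2 * (Module.finrank k F : ℤ)) ∧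
  ∀ v : InfinitePlace k,
    (v.IsReal → ∃ g : AlgebraicClosure k ≃ₐ[k] AlgebraicClosure k,
      ∀ (F : Type) [Field F] [NumberField F] [Algebra k F] (d : F), d ≠ 0 →
        sgn d g = 2 * ∑ w : InfinitePlace F with w.comap (algebraMap k F) = v,
          ((al d w : ℤ) - be d w)) ∧
    ∀ (F : Type) [Field F] [NumberField F] [Algebra k F] (d : F), d ≠ 0 →
      ((v.IsReal → ∑ w : InfinitePlace F with w.comap (algebraMap k F) = v,
        (al d w + be d w) = Module.finrank k F) ∧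
      (v.IsComplex → ∑ w : InfinitePlace F with w.comap (algebraMap k F) = v, al d w =
        Module.finrank k F ∧ ∑ w : InfinitePlace F with w.comap (algebraMap k F) = v, be d w =
        Module.finrank k F))

/-- [Exp] (file `Exp.lean`, `thm_Exp (h : St_Inf) : St_Exp`) The exponents of the periods of `E` cancel.

PROOF. `g = 1` in the relation: `∑ n_i [F_i : k] = 0`. For complex `v` both sums are `∑ n_i [F_i : k]`. For real `v`: `∑ n_i ∑_w (al - be) = 0` (relation for the `g` of `h`) and `∑ n_i ∑_w (al + be) = ∑ n_i [F_i : k] = 0`; add and subtract. -/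
def St_Exp : Prop := ∀ (k : Type) [Field k] [NumberField k] (ι : Type) [Fintype ι]
  (F : ι → Type) [∀ i, Field (F i)] [∀ i, NumberField (F i)] [∀ i, Algebra k (F i)]
  (d : ∀ i, F i) (n : ι → ℤ), (∀ i, d i ≠ 0) →
  (∀ g : AlgebraicClosure k ≃ₐ[k] AlgebraicClosure k, ∑ i, n i * sgn (d i) g = 0) →
  ∀ v : InfinitePlace k,
    ∑ i, n i * ((∑ w : InfinitePlace (F i) with w.comap (algebraMap k (F i)) = v,
      al (d i) w : ℕ) : ℤ) = 0 ∧
    ∑ i, n i * ((∑ w : InfinitePlace (F i) with w.comap (algebraMap k (F i)) = v,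
      be (d i) w : ℕ) : ℤ) = 0

/-- [RelQ] (file `RelQ.lean`, `thm_RelQ (h : St_Any) : St_RelQ`) The relation induced to `ℚ`.

PROOF. `Ω = AlgebraicClosure ℚ`. For `σ : k →ₐ[ℚ] Ω` with `s σ = σ` (composition), `Ω` is a `k`-algebra via `σ` and `s` is a `k`-automorphism, so `∑_i n_i sgn_k,σ (d i) s = 0` by `h` and the relation. A pair `(φ, z)`, `φ : F_i →ₐ[ℚ] Ω`, with `s φ = φ` has `σ = φ|_k`, `s σ = σ`, and for given `σ` these pairs are the pairs for the
`k`-algebra `Ω` via `σ` (a `ℚ`-homomorphism `φ` with `φ|_k = σ` is a `k`-homomorphism), with the same conditions. So `sgn_ℚ (d i) s` is the sum over the `σ` with `s σ = σ` of `sgn_k,σ (d i) s`. (`Nat.card` of a sigma type; all sets are finite.) -/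
def St_RelQ : Prop := ∀ (k : Type) [Field k] [NumberField k] (ι : Type) [Fintype ι]
  (F : ι → Type) [∀ i, Field (F i)] [∀ i, NumberField (F i)] [∀ i, Algebra k (F i)]
  (d : ∀ i, F i) (n : ι → ℤ), (∀ i, d i ≠ 0) →
  (∀ g : AlgebraicClosure k ≃ₐ[k] AlgebraicClosure k, ∑ i, n i * sgn (d i) g = 0) →
  ∀ s : AlgebraicClosure ℚ ≃ₐ[ℚ] AlgebraicClosure ℚ, ∑ i, n i * sgn (k := ℚ) (d i) s = 0

instance finPr {k F M : Type} [Field k] [Field F] [Field M] [Algebra k F] [Algebra k M]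
    [FiniteDimensional k F] (d : F) : Finite (Pr k F M d) := by
  have h : ∀ φ : F →ₐ[k] M, {z : M | z ^ 2 = φ d}.Finite := by
    intro φ
    have h1 : {z : M | z ^ 2 = φ d} ⊆ ((X ^ 2 - C (φ d) : M[X]).roots.toFinset : Set M) := by
      intro z hz
      have h2 : z ^ 2 = φ d := hz
      rw [Finset.mem_coe, Multiset.mem_toFinset, mem_roots (X_pow_sub_C_ne_zero (by norm_num) _)]
      simp [h2]
    exact (Finset.finite_toSet _).subset h1
  have h3 : ∀ φ : F →ₐ[k] M, Finite {z : M // z ^ 2 = φ d} := fun φ => (h φ).to_subtype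
  exact Finite.of_injective (β := Σ φ : F →ₐ[k] M, {z : M // z ^ 2 = φ d})
    (fun x => ⟨x.1.1, x.1.2, x.2⟩) (by
      rintro ⟨⟨φ, z⟩, hx⟩ ⟨⟨φ', z'⟩, hx'⟩ hxy
      simp only [Sigma.mk.injEq] at hxy
      obtain ⟨h4, h5⟩ := hxy
      subst h4
      simpa using h5)

noncomputable instance fintypePr {k F M : Type} [Field k] [Field F] [Field M] [Algebra k F]
    [Algebra k M] [FiniteDimensional k F] (d : F) : Fintype (Pr k F M d) := Fintype.ofFinite _

/-- The permutation of the embeddings. -/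
noncomputable def pe (F : Type) [Field F] [NumberField F]
    (s : AlgebraicClosure ℚ ≃ₐ[ℚ] AlgebraicClosure ℚ) : Equiv.Perm (F →ₐ[ℚ] AlgebraicClosure ℚ) where
  toFun φ := (s : AlgebraicClosure ℚ →ₐ[ℚ] AlgebraicClosure ℚ).comp φ
  invFun φ := (s.symm : AlgebraicClosure ℚ →ₐ[ℚ] AlgebraicClosure ℚ).comp φ
  left_inv φ := by ext; simp
  right_inv φ := by ext; simp

/-- The permutation of the pairs. -/
noncomputable def pp {F : Type} [Field F] [NumberField F] (d : F)
    (s : AlgebraicClosure ℚ ≃ₐ[ℚ] AlgebraicClosure ℚ) :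
    Equiv.Perm (Pr ℚ F (AlgebraicClosure ℚ) d) where
  toFun x := ⟨((s : AlgebraicClosure ℚ →ₐ[ℚ] AlgebraicClosure ℚ).comp x.1.1, s x.1.2), by
    have h := x.2
    simp only [AlgHom.comp_apply]
    rw [← h, map_pow]
    rfl⟩
  invFun x := ⟨((s.symm : AlgebraicClosure ℚ →ₐ[ℚ] AlgebraicClosure ℚ).comp x.1.1, s.symm x.1.2), by
    have h := x.2
    simp only [AlgHom.comp_apply]
    rw [← h, map_pow]
    rfl⟩
  left_inv x := by
    apply Subtype.ext
    apply Prod.ext
    · ext; simp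
    · simp
  right_inv x := by
    apply Subtype.ext
    apply Prod.ext
    · ext; simp
    · simp

/-- [Rt] (file `Rt.lean`, `thm_Rt : St_Rt`) A square root of `discr F * N(d)` and the action of the Galois group.

PROOF. `Ω = AlgebraicClosure ℚ`, `b` = the integral basis of `F` (`NumberField.integralBasis`), index set of cardinality `[F : ℚ] = |F →ₐ[ℚ] Ω|`. `δ = det (φ_j (b_a))` for a bijection `j ↦ φ_j` of the index set with the embeddings; `δ^2 = discr F ≠ 0` (`Algebra.discr_eq_det_embeddingsMatrixReindex_pow_two`, `NumberField.discr`).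
For every `φ` choose `z_φ` with `z_φ^2 = φ d` (`≠ 0`) and `Z = ∏_φ z_φ`, `Z^2 = ∏ φ d = N(d)` (`Algebra.norm_eq_prod_embeddings`). `R = δ Z`. `s(δ)` is the determinant of the matrix with permuted rows: `sign(pe F s) δ` (`Matrix.det_permute`). `s(Z) = ∏_φ s(z_φ)` and `s(z_φ) = ε_φ z_(s φ)`, `ε_φ = ± 1`: `s(Z) = (∏ ε_φ) Z`.
Claim: `∏_φ ε_φ = sign (pp d s)`. The set of pairs is in bijection with `(F →ₐ[ℚ] Ω) × {±1}` (`(φ, η) ↦ (φ, η z_φ)`), and the permutation becomes `(φ, η) ↦ (s φ, ε_φ η)`, which is the composition of `pe × id` (sign: square of the sign of `pe`, `1`; `Equiv.Perm.sign_prodExtendRight` or `sign_prodCongr...`) and of `(φ, η) ↦ (φ, ε_(s^(-1) φ) η)`,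
a product of `#{φ : ε_φ = -1}` disjoint transpositions (`Equiv.Perm.sign_prodShear`-like lemmas or `sign_sigmaCongrRight`: sign of a permutation preserving the fibres = product of the signs on the fibres). -/
def St_Rt : Prop := ∀ (F : Type) [Field F] [NumberField F] (d : F), d ≠ 0 →
  ∃ R : AlgebraicClosure ℚ, R ≠ 0 ∧ R ^ 2 = algebraMap ℚ (AlgebraicClosure ℚ)
      ((discr F : ℚ) * Algebra.norm ℚ d) ∧
    ∀ s : AlgebraicClosure ℚ ≃ₐ[ℚ] AlgebraicClosure ℚ,
      s R = (((Equiv.Perm.sign (pe F s) * Equiv.Perm.sign (pp d s) : ℤˣ) : ℤ) :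
        AlgebraicClosure ℚ) * R

/-- [Sq] (file `Sq.lean`, `thm_Sq (h1 : St_RelQ) (h2 : St_SgnP) (h3 : St_Rt) : St_Sq`) The product of the discriminants and norms is a square.

PROOF. Let `R_i` be as in `h3` for `(F_i, d_i)` and `R = ∏ R_i^(n_i)`. For `s : AlgebraicClosure ℚ ≃ₐ[ℚ] AlgebraicClosure ℚ`: `s R = (∏ (sign (pe s) sign (pp s))^(n_i)) R`. `sgn (d i) (s^m) = 2 (a - b)`, where `a` = the number of the pairs fixed by `s^m` and `b` = the number of the embeddings fixed by `s^m`: for a fixed `φ` the two pairs `(φ, ± z)` are both fixed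
or exchanged; with `a` = number of fixed pairs, the number of the exchanged ones is `2 b - a`, `sgn = a - (2 b - a)`. (`(pp d s)^m = pp d (s^m)`.) So by `h1`, `∑ n_i (a_i - b_i) = 0` for all `m`, and `h2` for the index set `ι ⊕ ι` with the permutations `pp (d i) s` (weight `n_i`) and `pe (F i) s` (weight `- n_i`) gives
`∏ (sign (pe s) sign (pp s))^(n_i) = 1` (signs are their own inverses). So `R` is fixed by all `s`, hence rational: `R = q` (`AlgebraicClosure ℚ` is Galois over `ℚ`), `q ≠ 0`, and `q^2 = R^2 = ∏ (discr F_i N(d_i))^(n_i)`. -/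
def St_Sq : Prop := ∀ (k : Type) [Field k] [NumberField k] (ι : Type) [Fintype ι]
  (F : ι → Type) [∀ i, Field (F i)] [∀ i, NumberField (F i)] [∀ i, Algebra k (F i)]
  (d : ∀ i, F i) (n : ι → ℤ), (∀ i, d i ≠ 0) →
  (∀ g : AlgebraicClosure k ≃ₐ[k] AlgebraicClosure k, ∑ i, n i * sgn (d i) g = 0) →
  ∃ q : ℚ, q ≠ 0 ∧ ∏ i, ((discr (F i) : ℚ) * Algebra.norm ℚ (d i)) ^ n i = q ^ 2

/-- [Per] (file `Per.lean`, `thm_Per (h1 : St_LocP) (h2 : St_Exp) (h3 : St_Sq) : St_Per`) The product of the periods is rational.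

PROOF. `x_i = √|discr F_i| ∏_w P_w`, `x_i^2 = |discr F_i| ∏_w P_w^2 = |discr F_i| r_i^2 ∏_w ((w d_i)(w u_i)^2)^(- mult w) ∏_w (o₁^al o₂^be)^2`, and `∏_w (w y)^(mult w) = |N(y)|` (`InfinitePlace.prod_eq_abs_norm`), so
`x_i^2 = r_i^2 |N u_i|^(-2) |discr F_i| |N d_i|^(-1) ∏_v (o₁ v)^(2 a_i(v)) (o₂ v)^(2 b_i(v))` with `a_i(v) = ∑_(w over v) al`, `b_i(v) = ∑_(w over v) be`. Take the product of the `n_i`-th powers: the exponents of the `o`'s are `0` by `h2`. `∏ (|discr F_i| |N d_i|^(-1))^(n_i) = ∏ (|discr F_i| |N d_i|)^(n_i) ∏ |N d_i|^(-2 n_i)`, and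
`∏ (|discr F_i| |N d_i|)^(n_i) = |q^2| = q^2` by `h3`. So `(∏ x_i^(n_i))^2 = Q^2` with `Q` rational, nonzero; hence `∏ x_i^(n_i) = ± Q`. -/
def St_Per : Prop := ∀ (k : Type) [Field k] [NumberField k] (E : WeierstrassCurve k) (ι : Type)
  [Fintype ι] (F : ι → Type) [∀ i, Field (F i)] [∀ i, NumberField (F i)]
  [∀ i, Algebra k (F i)] (d : ∀ i, F i) (n : ι → ℤ), (∀ i, d i ≠ 0) →
  (∀ g : AlgebraicClosure k ≃ₐ[k] AlgebraicClosure k, ∑ i, n i * sgn (d i) g = 0) →
  ∀ (A : ∀ i, WeierstrassCurve (F i)), (∀ i, IsTwist E (d i) (A i)) → ∀ x : ι → ℝ,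
    (∀ i, IsOmega (A i) (x i)) → (∀ i, x i ≠ 0) ∧ ∃ q : ℚ, q ≠ 0 ∧ ∏ i, x i ^ n i = q

end ART
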