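import Pool.Agent.ART.StA
import Pool.Agent.ART.StB
import Pool.Agent.ART.StC
import Pool.Agent.ART.StE

/-!
# ART part F: assembly (statements with complete proofs)

Every module is one file `Pool/Agent/ART/X.lean` with `import Pool.Agent.ART.StF`, namespace `ART`, and the theorem `thm_X` with exactly the
signature given in the docstring (earlier statements are hypotheses). Own lemmas `private` or with names starting with `X_`.
No sorry, no forbidden words.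
-/

set_option autoImplicit false

namespace ART

open scoped ComplexConjugate
open NumberField IsDedekindDomain Polynomial

/-- [LW] (file `LW.lean`, `thm_LW (h1 : St_Tw) (h2 : St_Fam) (h3 : St_LPol) (h4 : St_Res) (h5 : St_Deg) : St_LW`) The local polynomials of the twists at the primes over a good prime `v`.

PROOF. `κ = 𝓞 k ⧸ v` (a finite field, `|κ| = nm v`, `2, 3 ≠ 0` in `κ`), `c̄₄, c̄₆` the classes of `C₄, C₆`, `c̄₄^3 ≠ c̄₆^2`. Let `a` be as in `h2`. Let `w` be over `v`, `R = w.adicCompletionIntegers F`, `κ' = ` its residue field, `rd w : 𝓞 F → κ'` surjective with kernel `w` (`h4`), `|κ'| = nm w = nm v ^ f`, `f = rdeg v w` (`h5`).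
`κ'` is a `κ`-algebra (`Ideal.Quotient.lift` of `rd w ∘ algebraMap`, whose kernel is `v`). `h3` for `R`, `K = w.adicCompletion F`, the curve `A.baseChange K` (`c₄`, `c₆` are the images: `WeierstrassCurve.map_c₄`), the elements `d^2 C₄`, `d^3 C₆` of `R` and `t`: the residue classes are `x^2 c̄₄`, `x^3 c̄₆` with `x = rd w d ≠ 0`, and
`(x^2 c̄₄)^3 - (x^3 c̄₆)^2 = x^6 (c̄₄^3 - c̄₆^2) ≠ 0`. So `lp A w = 1 - ap κ' (x^2 c̄₄) (x^3 c̄₆) X + (nm w) X^2`, and `ap κ' (x^2 c̄₄) (x^3 c̄₆) = chi x * ap κ' c̄₄ c̄₆ = chi x * a f` (`h1`, `h2`). `chi (rd w d) = chi (d mod w)` because `𝓞 F ⧸ w` and `κ'` are isomorphic. -/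
def St_LW : Prop := ∀ (k : Type) [Field k] [NumberField k] (C₄ C₆ : 𝓞 k)
  (v : HeightOneSpectrum (𝓞 k)), (2 : 𝓞 k) ∉ v.asIdeal → (3 : 𝓞 k) ∉ v.asIdeal →
  C₄ ^ 3 - C₆ ^ 2 ∉ v.asIdeal → ∃ a : ℕ → ℤ, (∀ f, 1 ≤ f → |a f| ≤ (nm v : ℤ) ^ f) ∧
    (∀ f, 1 ≤ f → a (2 * f) = a f ^ 2 - 2 * (nm v : ℤ) ^ f) ∧
    ∀ (F : Type) [Field F] [NumberField F] [Algebra k F] (d : 𝓞 F) (t : F) (A : WeierstrassCurve F),
      t ≠ 0 → A.c₄ = t ^ 4 * (d : F) ^ 2 * algebraMap k F C₄ →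
      A.c₆ = t ^ 6 * (d : F) ^ 3 * algebraMap k F C₆ → ∀ w ∈ ovr F v, d ∉ w.asIdeal →
        lp A w = 1 - C (chi (Ideal.Quotient.mk w.asIdeal d) * a (rdeg v w)) * X +
          C ((nm v : ℤ) ^ rdeg v w) * X ^ 2

/-- [EF] (file `EF.lean`, `thm_EF (h1 : St_LW) (h3 : St_Cl) (h4 : St_Cnt) (h5 : St_Frob) (h6 : St_Comb) (h7 : St_Deg) : St_EF`) The product of the Euler factors over almost all primes `v` is one.

PROOF. Choose a nonzero `N : 𝓞 k` with `C₄ = N^4 c₄(E)`, `C₆ = N^6 c₆(E)` in `𝓞 k`; `C₄^3 - C₆^2 = 1728 N^12 Δ(E) ≠ 0`. `A_i.c₄ = t_i^4 d_i^2 C₄`, `A_i.c₆ = t_i^6 d_i^3 C₆` with `t_i = u_i / N`. `M` from `h3` (for the `F_i`, `d_i`), `S` = the union of the finite sets from `h4` and of the finite set of the primes which contain `C₄^3 - C₆^2`, `2` or `3`.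
Let `v ∉ S`, `(P, g)` from `h5`. For `m ≥ 1`: `∑ n_i sgn (d_i) (g^m) = 0` (`h3` and the relation), so by `h4` `∑_i n_i ∑_w ctr (f_w) (ε_w) m = 0`, `f_w = rdeg v w`, `ε_w = chi (d_i mod w)`, which is `1` or `-1` since `d_i ∉ w`. `a` from `h1`, `q = nm v`. For `f ≥ 1`, `ε = ± 1` put `p(f, ε) = 1 - ε a(f) T^f + q^f T^(2f)`, `T = q^(-s)`. By `h1`,
`evp (A i) w s = p(f_w, ε_w)` (`nm w = q^(f_w)`, `(q^f)^(-s) = T^f`). `p(f, 1) p(f, -1) = (1 + q^f T^(2f))^2 - a(f)^2 T^(2f) = 1 - a(2f) T^(2f) + q^(2f) T^(4f) = p(2f, 1)`. All the `p(f, ε)` (`f ≥ 1`) are nonzero for `re s > 2`: `|a(f) T^f| ≤ q^f |T|^f ≤ q^(-f) ≤ 1/2`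
(`|T| = q^(- re s) < q^(-2)`) and `|q^f T^(2f)| < q^(-3f) ≤ 1/8`. So `p` is a function to the units of `ℂ` (put `p = 1` for `f = 0` or `ε ≠ ± 1`), and `h6` with `G = ℂˣ`, `W i = ovr (F i) v` (finite, `h7`) gives the claim (`∏ᶠ` is the finite product). -/
def St_EF : Prop := ∀ (k : Type) [Field k] [NumberField k] (E : WeierstrassCurve k) (ι : Type)
  [Fintype ι] (F : ι → Type) [∀ i, Field (F i)] [∀ i, NumberField (F i)]
  [∀ i, Algebra k (F i)] (d : ∀ i, 𝓞 (F i)) (n : ι → ℤ), E.Δ ≠ 0 → (∀ i, d i ≠ 0) →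
  (∀ g : AlgebraicClosure k ≃ₐ[k] AlgebraicClosure k, ∑ i, n i * sgn (d i : F i) g = 0) →
  ∀ (A : ∀ i, WeierstrassCurve (F i)), (∀ i, IsTwist E (d i : F i) (A i)) →
    ∃ S : Set (HeightOneSpectrum (𝓞 k)), S.Finite ∧ ∀ v ∉ S, ∀ s : ℂ, 2 < s.re →
      ∏ i, (∏ᶠ w : ovr (F i) v, evp (A i) w.1 s) ^ n i = 1

/-- [Prd] (file `Prd.lean`, `thm_Prd (h1 : St_EF) (h2 : St_LS) (h3 : St_Deg) : St_Prd`) The identity of the L-series in the half plane of convergence.

PROOF. Let `S` be as in `h1` and `T i` the finite set of the primes of `F i` over the `v ∈ S` (`h3`). Fix `s`, `e_i(w) = evp (A i) w s ≠ 0` (`h2`). `HasProd` over `w` of `e_i(w)⁻¹` is `L_i = (A i).LSeries s`. Multiply with the finite product over `T i` (`HasProd.mul`, `hasProd_prod_of_ne_finset_one`): the product over all `w` of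
`e'_i(w)` (`= 1` for `w ∈ T i`, `= e_i(w)⁻¹` otherwise) is `L_i ∏_(T i) e_i(w)`. Every `w` is over exactly one `v` (`h3`; the contraction), so the index set is the disjoint union of the `ovr (F i) v`; `HasProd.sigma` (with the finite products over the fibres): the product over all `v` of `b_i(v)` is
`L_i ∏_(T i) e_i(w)`, `b_i(v) = 1` for `v ∈ S`, `b_i(v) = (∏ᶠ_(w over v) e_i(w))⁻¹` otherwise (all nonzero). Take powers with exponents `n_i⁺ = (n i).toNat` and `n_i⁻ = (- n i).toNat` and the product over `i` (`hasProd_prod`, `HasProd.pow`): the product over `v` of `∏_i b_i(v)^(n_i⁺)` and of `∏_i b_i(v)^(n_i⁻)`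
converge to the left and to the right side. The two are equal for every `v`: for `v ∈ S` both are `1`, and for `v ∉ S` their quotient is `∏_i b_i(v)^(n_i) = 1` by `h1`. `HasProd.unique`. -/
def St_Prd : Prop := ∀ (k : Type) [Field k] [NumberField k] (E : WeierstrassCurve k) (ι : Type)
  [Fintype ι] (F : ι → Type) [∀ i, Field (F i)] [∀ i, NumberField (F i)]
  [∀ i, Algebra k (F i)] (d : ∀ i, 𝓞 (F i)) (n : ι → ℤ), E.Δ ≠ 0 → (∀ i, d i ≠ 0) →
  (∀ g : AlgebraicClosure k ≃ₐ[k] AlgebraicClosure k, ∑ i, n i * sgn (d i : F i) g = 0) →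
  ∀ (A : ∀ i, WeierstrassCurve (F i)), (∀ i, IsTwist E (d i : F i) (A i)) →
    ∃ T : ∀ i, Finset (HeightOneSpectrum (𝓞 (F i))), ∀ s : ℂ, 2 < s.re →
      ∏ i, ((A i).LSeries s * ∏ w ∈ T i, evp (A i) w s) ^ (n i).toNat =
        ∏ i, ((A i).LSeries s * ∏ w ∈ T i, evp (A i) w s) ^ (-n i).toNat

/-- [LPt] (file `LPt.lean`, `thm_LPt (h1 : St_Prd) (h2 : St_LS) (h3 : St_WL) : St_LPt`) The product of the central values is rational.

PROOF. By `h3` we may assume that the `d i` are integral (replace `d i` by `d' i`; the hypotheses stay true). `T` from `h1`; `U_i`, `f_i` the continuations. `U = ⋂ U_i` is open (`ι` is finite) and contains the half plane and the half line `[1, ∞)`. `H(s) = ∏_i (f_i(s) ∏_(T i) evp)^(n_i⁺) - ∏_i (f_i(s) ∏_(T i) evp)^(n_i⁻)` is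
differentiable on `U` (`h2`), hence analytic, and zero for `re s > 2` (`h1`). Let `V` be the connected component of `U` which contains `3` (`connectedComponentIn`), open and preconnected; it contains the segment `[1, 3]`. By the identity theorem (`AnalyticOnNhd.eqOn_zero_of_preconnected_of_eventuallyEq_zero`) `H(1) = 0`. At `s = 1` the
`evp (A i) w 1` are nonzero rational numbers (`h2`). So `∏ c_i^(n_i⁺) r₁ = ∏ c_i^(n_i⁻) r₂` with nonzero rational numbers `r₁, r₂`. -/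
def St_LPt : Prop := ∀ (k : Type) [Field k] [NumberField k] (E : WeierstrassCurve k) (ι : Type)
  [Fintype ι] (F : ι → Type) [∀ i, Field (F i)] [∀ i, NumberField (F i)]
  [∀ i, Algebra k (F i)] (d : ∀ i, F i) (n : ι → ℤ), E.Δ ≠ 0 → (∀ i, d i ≠ 0) →
  (∀ g : AlgebraicClosure k ≃ₐ[k] AlgebraicClosure k, ∑ i, n i * sgn (d i) g = 0) →
  ∀ (A : ∀ i, WeierstrassCurve (F i)), (∀ i, IsTwist E (d i) (A i)) →
    ∀ c : ι → ℂ, (∀ i, IsLValue (A i) (c i)) →
      ∃ q : ℚ, q ≠ 0 ∧ ∏ i, c i ^ (n i).toNat = q * ∏ i, c i ^ (-n i).toNat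

end ART
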