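import Pool.Agent.ART.StB

/-!
# ART: pairs of roots of quadratic polynomials (module Two)
-/

set_option autoImplicit false

namespace ART

open Finset

private theorem Two_fix (κ κ' : Type) [Field κ] [Fintype κ] [Field κ'] [Fintype κ'] [Algebra κ κ']
    (x : κ') (hx : x ^ Fintype.card κ = x) : ∃ y : κ, algebraMap κ κ' y = x := by
  classical
  have h1 : (Polynomial.X ^ Fintype.card κ - Polynomial.X : Polynomial κ) =
      ∏ a : κ, (Polynomial.X - Polynomial.C a) := by
    have hs : (Polynomial.X ^ Fintype.card κ - Polynomial.X : Polynomial κ).Monic := by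
      apply Polynomial.monic_X_pow_sub
      rw [Polynomial.degree_X]
      exact_mod_cast Fintype.one_lt_card
    have hcard : Multiset.card (Polynomial.X ^ Fintype.card κ - Polynomial.X : Polynomial κ).roots =
        (Polynomial.X ^ Fintype.card κ - Polynomial.X : Polynomial κ).natDegree := by
      rw [FiniteField.roots_X_pow_card_sub_X,
        FiniteField.X_pow_card_sub_X_natDegree_eq κ Fintype.one_lt_card]
      rfl
    have := Polynomial.prod_multiset_X_sub_C_of_monic_of_roots_card_eq hs hcard
    rw [FiniteField.roots_X_pow_card_sub_X] at this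
    rw [← this]
    rfl
  have h2 := congrArg (fun P : Polynomial κ => (P.map (algebraMap κ κ')).eval x) h1
  simp only [Polynomial.map_sub, Polynomial.map_pow, Polynomial.map_X, Polynomial.eval_sub,
    Polynomial.eval_pow, Polynomial.eval_X, hx, sub_self, Polynomial.map_prod, Polynomial.map_C,
    Polynomial.eval_prod, Polynomial.eval_C] at h2
  obtain ⟨a, -, ha⟩ := Finset.prod_eq_zero_iff.mp h2.symm
  exact ⟨a, (sub_eq_zero.mp ha).symm⟩

private theorem Two_inj {κ κ' : Type} [Field κ] [Field κ'] [Algebra κ κ'] {x y : κ}
    (h : algebraMap κ κ' x = algebraMap κ κ' y) : x = y := (algebraMap κ κ').injective h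

private theorem Two_count (κ κ' : Type) [Field κ] [Fintype κ] [DecidableEq κ] [Field κ'] [Fintype κ']
    [DecidableEq κ'] [Algebra κ κ'] (h2 : (2 : κ) ≠ 0)
    (hc : Fintype.card κ' = Fintype.card κ ^ 2) (D : κ) :
    (univ.filter (fun u : κ => u ^ 2 = D)).card +
      (univ.filter (fun u : κ' => u ^ Fintype.card κ = -u ∧ u ^ 2 = algebraMap κ κ' D)).card = 2 := by
  have h2' : (2 : κ') ≠ 0 := by
    intro h
    apply h2
    apply Two_inj (κ' := κ')
    rw [map_ofNat, map_zero]
    exact h
  have hne : ∀ u : κ, u ≠ 0 → u ≠ -u := by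
    intro u hu h
    have h3 : 2 * u = 0 := by linear_combination h
    rcases mul_eq_zero.mp h3 with h4 | h4
    · exact h2 h4
    · exact hu h4
  have hne' : ∀ u : κ', u ≠ 0 → u ≠ -u := by
    intro u hu h
    have h3 : 2 * u = 0 := by linear_combination h
    rcases mul_eq_zero.mp h3 with h4 | h4
    · exact h2' h4
    · exact hu h4
  have hq0 : Fintype.card κ ≠ 0 := Fintype.card_ne_zero
  by_cases hD0 : D = 0
  · subst hD0
    have e1 : univ.filter (fun u : κ => u ^ 2 = 0) = {0} := by
      ext u; simp
    have e2 : univ.filter (fun u : κ' => u ^ Fintype.card κ = -u ∧ u ^ 2 = algebraMap κ κ' 0) =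
        {0} := by
      ext u
      simp only [mem_filter, mem_univ, true_and, map_zero, mem_singleton]
      constructor
      · rintro ⟨-, h⟩
        exact pow_eq_zero_iff two_ne_zero |>.mp h
      · rintro rfl
        simp [hq0]
    rw [e1, e2]
    rfl
  by_cases hS : IsSquare D
  · obtain ⟨d, hd⟩ := hS
    have hd0 : d ≠ 0 := by
      rintro rfl
      apply hD0
      rw [hd, zero_mul]
    have e1 : univ.filter (fun u : κ => u ^ 2 = D) = {d, -d} := by
      ext u
      simp only [mem_filter, mem_univ, true_and, mem_insert, mem_singleton]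
      rw [hd, ← pow_two]
      exact sq_eq_sq_iff_eq_or_eq_neg
    have e2 : univ.filter (fun u : κ' => u ^ Fintype.card κ = -u ∧ u ^ 2 = algebraMap κ κ' D) =
        ∅ := by
      ext u
      simp only [mem_filter, mem_univ, true_and, notMem_empty, iff_false, not_and]
      intro hu1 hu2
      have h3 : u ^ 2 = (algebraMap κ κ' d) ^ 2 := by
        rw [hu2, hd, map_mul, pow_two]
      have h4 : ∃ c : κ, c ≠ 0 ∧ u = algebraMap κ κ' c := by
        rcases sq_eq_sq_iff_eq_or_eq_neg.mp h3 with h5 | h5
        · exact ⟨d, hd0, h5⟩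
        · exact ⟨-d, neg_ne_zero.mpr hd0, by rw [h5, map_neg]⟩
      obtain ⟨c, hc0, rfl⟩ := h4
      rw [← map_pow, FiniteField.pow_card, ← map_neg] at hu1
      exact hne c hc0 (Two_inj hu1)
    rw [e1, e2, card_pair (hne d hd0)]
    rfl
  · have e1 : univ.filter (fun u : κ => u ^ 2 = D) = ∅ := by
      ext u
      simp only [mem_filter, mem_univ, true_and, notMem_empty, iff_false]
      intro hu
      exact hS ⟨u, by rw [← hu, pow_two]⟩
    have hch' : ringChar κ' ≠ 2 := by
      intro h
      apply h2'
      have := ringChar.Nat.cast_ringChar (R := κ')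
      rw [h] at this
      exact_mod_cast this
    have hch : ringChar κ ≠ 2 := by
      intro h
      apply h2
      have := ringChar.Nat.cast_ringChar (R := κ)
      rw [h] at this
      exact_mod_cast this
    have hodd := FiniteField.odd_card_of_char_ne_two hch
    have hD0' : algebraMap κ κ' D ≠ 0 := by
      intro h
      apply hD0
      apply Two_inj (κ' := κ')
      rw [h, map_zero]
    have hsq : IsSquare (algebraMap κ κ' D) := by
      rw [FiniteField.isSquare_iff hch' hD0', hc]
      have h3 : Fintype.card κ ^ 2 / 2 = (Fintype.card κ - 1) * ((Fintype.card κ + 1) / 2) := by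
        obtain ⟨m, hm⟩ : ∃ m, Fintype.card κ = 2 * m + 1 := ⟨Fintype.card κ / 2, by omega⟩
        rw [hm]
        have h4 : (2 * m + 1) ^ 2 = 2 * (2 * m * (m + 1)) + 1 := by ring
        have h5 : (2 * m + 1 + 1) / 2 = m + 1 := by omega
        rw [h4, h5]
        have h6 : 2 * m + 1 - 1 = 2 * m := by omega
        rw [h6]
        omega
      rw [h3, pow_mul, ← map_pow, FiniteField.pow_card_sub_one_eq_one D hD0, map_one, one_pow]
    obtain ⟨u, hu⟩ := hsq
    have hu0 : u ≠ 0 := by
      rintro rfl
      apply hD0'
      rw [hu, zero_mul]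
    have hu2 : u ^ 2 = algebraMap κ κ' D := by rw [hu, pow_two]
    have huq : u ^ Fintype.card κ = -u := by
      have h3 : (u ^ Fintype.card κ) ^ 2 = u ^ 2 := by
        rw [← pow_mul, mul_comm, pow_mul, hu2, ← map_pow, FiniteField.pow_card]
      rcases sq_eq_sq_iff_eq_or_eq_neg.mp h3 with h4 | h4
      · exfalso
        obtain ⟨y, rfl⟩ := Two_fix κ κ' u h4
        apply hS
        refine ⟨y, ?_⟩
        apply Two_inj (κ' := κ')
        rw [← hu2, map_mul, pow_two]
      · exact h4
    have hoddq : Odd (Fintype.card κ) := Nat.odd_iff.mpr hodd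
    have e2 : univ.filter (fun u : κ' => u ^ Fintype.card κ = -u ∧ u ^ 2 = algebraMap κ κ' D) =
        {u, -u} := by
      ext v
      simp only [mem_filter, mem_univ, true_and, mem_insert, mem_singleton]
      constructor
      · rintro ⟨-, h⟩
        rw [← hu2] at h
        exact sq_eq_sq_iff_eq_or_eq_neg.mp h
      · rintro (rfl | rfl)
        · exact ⟨huq, hu2⟩
        · refine ⟨?_, ?_⟩
          · rw [hoddq.neg_pow, huq]
          · rw [neg_sq, hu2]
    rw [e1, e2, card_pair (hne' u hu0)]
    rfl

theorem thm_Two : St_Two := by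
  classical
  intro κ κ' _ _ _ _ _ h2 hc
  have h2' : (2 : κ') ≠ 0 := by
    intro h
    apply h2
    apply Two_inj (κ' := κ')
    rw [map_ofNat, map_zero]
    exact h
  set q := Fintype.card κ with hq
  have hFr : ∀ x : κ', x ^ q = FiniteField.frobeniusAlgHom κ κ' x := fun x => rfl
  have hqq : ∀ x : κ', (x ^ q) ^ q = x := by
    intro x
    rw [← pow_mul, ← pow_two, ← hc]
    exact FiniteField.pow_card x
  have hT : ∀ α : κ', ∃ y : κ, algebraMap κ κ' y = α + α ^ q := by
    intro α
    apply Two_fix
    rw [← hq, hFr (α + α ^ q), map_add, ← hFr, ← hFr, hqq, add_comm]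
  have hN : ∀ α : κ', ∃ y : κ, algebraMap κ κ' y = α * α ^ q := by
    intro α
    apply Two_fix
    rw [← hq, hFr (α * α ^ q), map_mul, ← hFr, ← hFr, hqq, mul_comm]
  choose T hT using hT
  choose N hN using hN
  refine ⟨T, N, hT, hN, ?_⟩
  intro G
  have key : ∀ s p : κ, (univ.filter (fun x : κ × κ => x.1 + x.2 = s ∧ x.1 * x.2 = p)).card +
      (univ.filter (fun α : κ' => T α = s ∧ N α = p)).card = 2 := by
    intro s p
    rw [← Two_count κ κ' h2 hc (s ^ 2 - 4 * p)]
    congr 1
    · apply Finset.card_bij (fun x _ => x.1 - x.2)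
      · rintro ⟨x, y⟩ h
        simp only [mem_filter, mem_univ, true_and] at h ⊢
        obtain ⟨rfl, rfl⟩ := h
        ring
      · rintro ⟨x, y⟩ h ⟨x', y'⟩ h' he
        simp only [mem_filter, mem_univ, true_and] at h h' he
        have h3 : 2 * x = 2 * x' := by linear_combination h.1 - h'.1 + he
        have h4 : x = x' := mul_left_cancel₀ h2 h3
        subst h4
        have h5 : y = y' := by linear_combination h.1 - h'.1
        rw [h5]
      · intro u hu
        simp only [mem_filter, mem_univ, true_and] at hu
        refine ⟨((s + u) / 2, (s - u) / 2), ?_, ?_⟩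
        · simp only [mem_filter, mem_univ, true_and]
          have h4 : (4 : κ) ≠ 0 := by
            have : (4 : κ) = 2 * 2 := by norm_num
            rw [this]
            exact mul_ne_zero h2 h2
          refine ⟨by field_simp; ring, ?_⟩
          have : (s + u) / 2 * ((s - u) / 2) = (s ^ 2 - u ^ 2) / 4 := by
            field_simp
            ring
          rw [this, hu]
          field_simp
          ring
        · field_simp
          ring
    · apply Finset.card_bij (fun α _ => α - α ^ q)
      · intro α h
        simp only [mem_filter, mem_univ, true_and] at h ⊢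
        obtain ⟨rfl, rfl⟩ := h
        refine ⟨?_, ?_⟩
        · rw [← hq, hFr (α - α ^ q), map_sub, ← hFr, ← hFr, hqq]
          ring
        · rw [map_sub, map_pow, map_mul, hT, hN, map_ofNat]
          ring
      · intro α h α' h' he
        simp only [mem_filter, mem_univ, true_and] at h h'
        have h3 : α + α ^ q = α' + α' ^ q := by
          rw [← hT, ← hT, h.1, h'.1]
        have h4 : 2 * α = 2 * α' := by linear_combination h3 + he
        exact mul_left_cancel₀ h2' h4
      · intro u hu
        simp only [mem_filter, mem_univ, true_and] at hu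
        obtain ⟨hu1, hu2⟩ := hu
        rw [← hq] at hu1
        have hα : ((algebraMap κ κ' s + u) / 2) ^ q = (algebraMap κ κ' s - u) / 2 := by
          rw [hFr, map_div₀, map_add, AlgHom.commutes, ← hFr, hu1, map_ofNat]
          ring
        refine ⟨(algebraMap κ κ' s + u) / 2, ?_, ?_⟩
        · simp only [mem_filter, mem_univ, true_and]
          refine ⟨?_, ?_⟩
          · apply Two_inj (κ' := κ')
            rw [hT, hα]
            field_simp
            ring
          · apply Two_inj (κ' := κ')
            rw [hN, hα]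
            have h4 : (4 : κ') ≠ 0 := by
              have : (4 : κ') = 2 * 2 := by norm_num
              rw [this]
              exact mul_ne_zero h2' h2'
            have : (algebraMap κ κ' s + u) / 2 * ((algebraMap κ κ' s - u) / 2) =
                ((algebraMap κ κ' s) ^ 2 - u ^ 2) / 4 := by
              field_simp
              ring
            rw [this, hu2, map_sub, map_pow, map_mul, map_ofNat]
            field_simp
            ring
        · rw [hα]
          field_simp
          ring
  have e1 : ∑ α : κ, ∑ β : κ, G (α + β) (α * β) = ∑ s : κ, ∑ p : κ,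
      ((univ.filter (fun x : κ × κ => x.1 + x.2 = s ∧ x.1 * x.2 = p)).card : ℤ) * G s p := by
    rw [← Fintype.sum_prod_type' (f := fun α β => G (α + β) (α * β)),
      ← Fintype.sum_prod_type' (f := fun s p =>
        ((univ.filter (fun x : κ × κ => x.1 + x.2 = s ∧ x.1 * x.2 = p)).card : ℤ) * G s p)]
    rw [← Finset.sum_fiberwise univ (fun x : κ × κ => (x.1 + x.2, x.1 * x.2))
      (fun x => G (x.1 + x.2) (x.1 * x.2))]
    apply Finset.sum_congr rfl
    rintro ⟨s, p⟩ -
    simp only [Prod.mk.injEq]
    rw [Finset.sum_congr rfl (g := fun _ => G s p), Finset.sum_const, nsmul_eq_mul]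
    intro x hx
    simp only [mem_filter, mem_univ, true_and] at hx
    rw [hx.1, hx.2]
  have e2 : ∑ α : κ', G (T α) (N α) = ∑ s : κ, ∑ p : κ,
      ((univ.filter (fun α : κ' => T α = s ∧ N α = p)).card : ℤ) * G s p := by
    rw [← Fintype.sum_prod_type' (f := fun s p =>
        ((univ.filter (fun α : κ' => T α = s ∧ N α = p)).card : ℤ) * G s p)]
    rw [← Finset.sum_fiberwise univ (fun α : κ' => (T α, N α)) (fun α => G (T α) (N α))]
    apply Finset.sum_congr rfl
    rintro ⟨s, p⟩ -
    simp only [Prod.mk.injEq]
    rw [Finset.sum_congr rfl (g := fun _ => G s p), Finset.sum_const, nsmul_eq_mul]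
    intro x hx
    simp only [mem_filter, mem_univ, true_and] at hx
    rw [hx.1, hx.2]
  rw [e1, e2, ← Finset.sum_add_distrib, Finset.mul_sum]
  apply Finset.sum_congr rfl
  intro s _
  rw [← Finset.sum_add_distrib, Finset.mul_sum]
  apply Finset.sum_congr rfl
  intro p _
  rw [← add_mul]
  congr 1
  exact_mod_cast key s p

end ART
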